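import Pool.Agent.Helper97.CP2.Basic

set_option autoImplicit false

open MeasureTheory ProbabilityTheory Filter Finset

namespace Pool.Agent.Helper97.CP

/-- average over the 16 steps of the difference walk -/
noncomputable def av (g : Z2 → ℝ) : ℝ := (1 / 16) * ∑ e : E4, ∑ e' : E4, g (stp e - stp e')

theorem Q_eq_av (f : Z2 → ℝ) (z : Z2) : Q f z = av (fun w => f (z + w)) := rfl

theorem av_mono {g g' : Z2 → ℝ} (h : ∀ e e' : E4, g (stp e - stp e') ≤ g' (stp e - stp e')) :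
    av g ≤ av g' := by
  unfold av
  apply mul_le_mul_of_nonneg_left _ (by norm_num)
  exact Finset.sum_le_sum fun e _ => Finset.sum_le_sum fun e' _ => h e e'

theorem av_const (c : ℝ) : av (fun _ => c) = c := Q_const c 0

theorem av_add (f g : Z2 → ℝ) : av (fun w => f w + g w) = av f + av g := by
  unfold av; simp only [Finset.sum_add_distrib, mul_add]

theorem av_sub (f g : Z2 → ℝ) : av (fun w => f w - g w) = av f - av g := by
  unfold av; simp only [Finset.sum_sub_distrib, mul_sub]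

theorem av_mul_left (c : ℝ) (f : Z2 → ℝ) : av (fun w => c * f w) = c * av f := by
  unfold av
  simp only [← Finset.mul_sum]
  ring

theorem abs_av_le (g : Z2 → ℝ) : |av g| ≤ av (fun w => |g w|) := by
  rw [abs_le]
  constructor
  · have := av_mono (g := fun w => -|g w|) (g' := g) (fun e e' => neg_abs_le _)
    have h2 := av_mul_left (-1) (fun w => |g w|)
    simp only [neg_one_mul] at h2
    linarith
  · exact av_mono fun e e' => le_abs_self _

/-- increment of `nsq` -/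
noncomputable def mm (z w : Z2) : ℝ :=
  2 * ((z 0 : ℝ) * (w 0 : ℝ) + (z 1 : ℝ) * (w 1 : ℝ)) + ((w 0 : ℝ) ^ 2 + (w 1 : ℝ) ^ 2)

theorem nsq_eq (z : Z2) : nsq z = (z 0 : ℝ) ^ 2 + (z 1 : ℝ) ^ 2 := by
  unfold nsq; rw [Fin.sum_univ_two]

theorem nsq_add (z w : Z2) : nsq (z + w) = nsq z + mm z w := by
  rw [nsq_eq, nsq_eq]
  unfold mm
  simp only [Pi.add_apply, Int.cast_add]
  ring

theorem nsq_nonneg (z : Z2) : 0 ≤ nsq z := by
  rw [nsq_eq]; positivity

theorem stp_all (P : Z2 → Prop) (e e' : E4)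
    (h : ∀ i j : Fin 2, ∀ b c : Bool, P (stp (i, b) - stp (j, c))) : P (stp e - stp e') := h _ _ _ _

theorem step_sq (e e' : E4) :
    (((stp e - stp e') 0 : ℤ) : ℝ) ^ 2 + (((stp e - stp e') 1 : ℤ) : ℝ) ^ 2 ≤ 4 := by
  obtain ⟨i, b⟩ := e
  obtain ⟨j, c⟩ := e'
  fin_cases i <;> fin_cases j <;> cases b <;> cases c <;> norm_num [stp, Pi.single_apply]

theorem av_mm1 (z : Z2) : av (fun w => mm z w) = 2 := by
  unfold av mm
  simp [Fintype.sum_prod_type, Fin.sum_univ_two, stp, Pi.single_apply]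
  ring

theorem av_mm2 (z : Z2) : av (fun w => mm z w ^ 2) = 4 * nsq z + 6 := by
  unfold av mm
  rw [nsq_eq]
  simp [Fintype.sum_prod_type, Fin.sum_univ_two, stp, Pi.single_apply]
  ring

theorem av_mm3 (z : Z2) : av (fun w => mm z w ^ 3) = 36 * nsq z + 20 := by
  unfold av mm
  rw [nsq_eq]
  simp [Fintype.sum_prod_type, Fin.sum_univ_two, stp, Pi.single_apply]
  ring

theorem av_mm4 (z : Z2) : av (fun w => mm z w ^ 4) ≤ 40 * nsq z ^ 2 + 240 * nsq z + 72 := by
  have h : av (fun w => mm z w ^ 4) = 40 * ((z 0 : ℝ) ^ 4 + (z 1 : ℝ) ^ 4) +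
      48 * ((z 0 : ℝ) ^ 2 * (z 1 : ℝ) ^ 2) + 240 * nsq z + 72 := by
    unfold av mm
    rw [nsq_eq]
    simp [Fintype.sum_prod_type, Fin.sum_univ_two, stp, Pi.single_apply]
    ring
  rw [h, nsq_eq]
  nlinarith [mul_nonneg (sq_nonneg (z 0 : ℝ)) (sq_nonneg (z 1 : ℝ))]

end Pool.Agent.Helper97.CP
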