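import Pool.Agent.Helper97.CP2.Tay

set_option autoImplicit false

open MeasureTheory ProbabilityTheory Filter Finset

namespace Pool.Agent.Helper97.CP

/-! ### one-dimensional walk -/

noncomputable def B1 : ℕ → ℤ → ℝ
  | 0, a => if a = 0 then 1 else 0
  | k + 1, a => (B1 k (a - 1) + B1 k (a + 1)) / 2

/-- binomial coefficient with integer lower index -/
noncomputable def ch (k : ℕ) (j : ℤ) : ℝ := if 0 ≤ j then (Nat.choose k j.toNat : ℝ) else 0

theorem ch_succ (k : ℕ) (j : ℤ) : ch (k + 1) j = ch k (j - 1) + ch k j := by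
  unfold ch
  rcases lt_trichotomy j 0 with h | h | h
  · rw [if_neg (by omega), if_neg (by omega), if_neg (by omega)]; ring
  · subst h
    rw [if_pos le_rfl, if_neg (by omega), if_pos le_rfl]
    simp
  · obtain ⟨n, rfl⟩ : ∃ n : ℕ, j = n + 1 := ⟨(j - 1).toNat, by omega⟩
    rw [if_pos (by omega), if_pos (by omega), if_pos (by omega)]
    have h1 : ((n : ℤ) + 1).toNat = n + 1 := by omega
    have h2 : ((n : ℤ) + 1 - 1).toNat = n := by omega
    rw [h1, h2, Nat.choose_succ_succ]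
    push_cast
    ring

theorem B1_even (k : ℕ) : (∀ j : ℤ, B1 k (2 * j - k) = ch k j / 2 ^ k) ∧
    ∀ j : ℤ, B1 k (2 * j - k + 1) = 0 := by
  induction k with
  | zero =>
    constructor
    · intro j
      unfold B1 ch
      rcases lt_trichotomy j 0 with h | h | h
      · rw [if_neg (by push_cast; omega), if_neg (by omega)]; simp
      · subst h; simp
      · rw [if_neg (by push_cast; omega), if_pos (by omega)]
        have : Nat.choose 0 j.toNat = 0 := Nat.choose_eq_zero_of_lt (by omega)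
        rw [this]; simp
    · intro j
      unfold B1
      rw [if_neg (by push_cast; omega)]
  | succ k ih =>
    obtain ⟨ih1, ih2⟩ := ih
    constructor
    · intro j
      have e1 : 2 * j - ((k + 1 : ℕ) : ℤ) - 1 = 2 * (j - 1) - k := by push_cast; ring
      have e2 : 2 * j - ((k + 1 : ℕ) : ℤ) + 1 = 2 * j - k := by push_cast; ring
      show (B1 k _ + B1 k _) / 2 = _
      rw [e1, e2, ih1, ih1, ch_succ, pow_succ]
      field_simp
    · intro j
      have e1 : 2 * j - ((k + 1 : ℕ) : ℤ) + 1 - 1 = 2 * (j - 1) - k + 1 := by push_cast; ring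
      have e2 : 2 * j - ((k + 1 : ℕ) : ℤ) + 1 + 1 = 2 * j - k + 1 := by push_cast; ring
      show (B1 k _ + B1 k _) / 2 = _
      rw [e1, e2, ih2, ih2]
      norm_num

theorem B1_nonneg (k : ℕ) (a : ℤ) : 0 ≤ B1 k a := by
  induction k generalizing a with
  | zero => unfold B1; split_ifs <;> norm_num
  | succ k ih => exact div_nonneg (add_nonneg (ih _) (ih _)) (by norm_num)

theorem central_sq (m : ℕ) : ((Nat.centralBinom m : ℝ)) ^ 2 * (2 * m + 1) ≤ 16 ^ m := by
  induction m with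
  | zero => simp
  | succ m ih =>
    have h := Nat.succ_mul_centralBinom_succ m
    have h' : ((m : ℝ) + 1) * (Nat.centralBinom (m + 1) : ℝ) =
        2 * (2 * m + 1) * (Nat.centralBinom m : ℝ) := by exact_mod_cast h
    have hm : (0 : ℝ) < (m : ℝ) + 1 := by positivity
    have h2 : (Nat.centralBinom (m + 1) : ℝ) = 2 * (2 * m + 1) * (Nat.centralBinom m : ℝ) / (m + 1) := by
      rw [eq_div_iff hm.ne']; linarith
    rw [h2, div_pow, div_mul_eq_mul_div, div_le_iff₀ (by positivity)]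
    push_cast
    set c := (Nat.centralBinom m : ℝ)
    set x := (m : ℝ)
    have hx : 0 ≤ x := Nat.cast_nonneg m
    have e1 : (2 * (2 * x + 1) * c) ^ 2 * (2 * (x + 1) + 1) =
        (c ^ 2 * (2 * x + 1)) * (4 * (2 * x + 1) * (2 * x + 3)) := by ring
    rw [e1, pow_succ]
    calc (c ^ 2 * (2 * x + 1)) * (4 * (2 * x + 1) * (2 * x + 3)) ≤
          16 ^ m * (4 * (2 * x + 1) * (2 * x + 3)) := mul_le_mul_of_nonneg_right ih (by positivity)
      _ ≤ 16 ^ m * (16 * (x + 1) ^ 2) := by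
          apply mul_le_mul_of_nonneg_left _ (by positivity)
          nlinarith
      _ = _ := by ring

theorem B1_even_le (m : ℕ) (a : ℤ) : B1 (2 * m) a ≤ 1 / √(2 * m + 1) := by
  obtain ⟨h1, h2⟩ := B1_even (2 * m)
  rcases Int.even_or_odd' a with ⟨c, hc | hc⟩
  · have e1 : a = 2 * (c + m) - ((2 * m : ℕ) : ℤ) := by push_cast; omega
    rw [e1, h1]
    have h3 : ch (2 * m) (c + m) ≤ Nat.centralBinom m := by
      unfold ch
      split_ifs
      · rw [Nat.centralBinom_eq_two_mul_choose]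
        have := Nat.choose_le_centralBinom (c + m).toNat m
        rw [Nat.centralBinom_eq_two_mul_choose] at this
        exact_mod_cast this
      · positivity
    have h4 : (Nat.centralBinom m : ℝ) / 2 ^ (2 * m) ≤ 1 / √(2 * m + 1) := by
      have hs : 0 < √(2 * (m : ℝ) + 1) := Real.sqrt_pos.2 (by positivity)
      rw [div_le_div_iff₀ (by positivity) hs, one_mul]
      apply le_of_sq_le_sq _ (by positivity)
      rw [mul_pow, Real.sq_sqrt (by positivity)]
      refine (central_sq m).trans (le_of_eq ?_)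
      rw [← pow_mul, show 2 * m * 2 = 4 * m by ring, pow_mul]
      norm_num
    refine le_trans ?_ h4
    exact div_le_div_of_nonneg_right h3 (by positivity)
  · have e1 : a = 2 * (c + m) - ((2 * m : ℕ) : ℤ) + 1 := by push_cast; omega
    rw [e1, h2]
    positivity

theorem B1_le {k : ℕ} (hk : 1 ≤ k) (a : ℤ) : B1 k a ≤ 1 / √k := by
  have key : ∀ m : ℕ, k ≤ 2 * m + 1 → ∀ a, B1 (2 * m) a ≤ 1 / √k := by
    intro m hm a
    refine (B1_even_le m a).trans ?_
    apply one_div_le_one_div_of_le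
    · exact Real.sqrt_pos.2 (by exact_mod_cast hk)
    · apply Real.sqrt_le_sqrt
      exact_mod_cast hm
  rcases Nat.even_or_odd' k with ⟨m, hm | hm⟩
  · have := key m (by omega) a
    rw [hm] at this ⊢
    exact this
  · have h1 := key m (by omega) (a - 1)
    have h2 := key m (by omega) (a + 1)
    have h3 : B1 (2 * m + 1) a = (B1 (2 * m) (a - 1) + B1 (2 * m) (a + 1)) / 2 := rfl
    rw [hm] at h1 h2 ⊢
    rw [h3]
    linarith

/-- heat kernel in dimension two -/
theorem A_ind (k : ℕ) (y x : Z2) : A k (fun z => if z = y then 1 else 0) x =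
    B1 k (y 0 + y 1 - (x 0 + x 1)) * B1 k (y 0 - y 1 - (x 0 - x 1)) := by
  induction k generalizing x with
  | zero =>
    rw [A_zero]
    unfold B1
    by_cases h : x = y
    · subst h; simp
    · rw [if_neg h]
      by_cases h1 : y 0 + y 1 - (x 0 + x 1) = 0
      · by_cases h2 : y 0 - y 1 - (x 0 - x 1) = 0
        · exfalso
          apply h
          funext i
          fin_cases i
          · show x 0 = y 0; omega
          · show x 1 = y 1; omega
        · rw [if_neg h2, mul_zero]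
      · rw [if_neg h1, zero_mul]
  | succ k ih =>
    rw [A_succ]
    simp only [ih]
    rw [Fintype.sum_prod_type, Fin.sum_univ_two]
    simp only [Fintype.sum_bool, stp]
    simp only [Pi.add_apply, Pi.single_apply]
    norm_num
    have e1 : ∀ a b : ℤ, B1 (k + 1) a * B1 (k + 1) b =
        ((B1 k (a - 1) + B1 k (a + 1)) / 2) * ((B1 k (b - 1) + B1 k (b + 1)) / 2) := fun a b => rfl
    rw [e1]
    have a1 : y 0 + y 1 - (x 0 + 1 + x 1) = y 0 + y 1 - (x 0 + x 1) - 1 := by ring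
    have a2 : y 0 - y 1 - (x 0 + 1 - x 1) = y 0 - y 1 - (x 0 - x 1) - 1 := by ring
    have a3 : y 0 + y 1 - (x 0 + -1 + x 1) = y 0 + y 1 - (x 0 + x 1) + 1 := by ring
    have a4 : y 0 - y 1 - (x 0 + -1 - x 1) = y 0 - y 1 - (x 0 - x 1) + 1 := by ring
    have a5 : y 0 + y 1 - (x 0 + (x 1 + 1)) = y 0 + y 1 - (x 0 + x 1) - 1 := by ring
    have a6 : y 0 - y 1 - (x 0 - (x 1 + 1)) = y 0 - y 1 - (x 0 - x 1) + 1 := by ring
    have a7 : y 0 + y 1 - (x 0 + (x 1 + -1)) = y 0 + y 1 - (x 0 + x 1) + 1 := by ring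
    have a8 : y 0 - y 1 - (x 0 - (x 1 + -1)) = y 0 - y 1 - (x 0 - x 1) - 1 := by ring
    rw [a1, a2, a3, a4, a5, a6, a7, a8]
    ring

theorem A_ind_le {k : ℕ} (hk : 1 ≤ k) (y x : Z2) :
    A k (fun z => if z = y then 1 else 0) x ≤ 1 / k := by
  rw [A_ind]
  have h1 := B1_le hk (y 0 + y 1 - (x 0 + x 1))
  have h2 := B1_le hk (y 0 - y 1 - (x 0 - x 1))
  calc _ ≤ 1 / √k * (1 / √k) := mul_le_mul h1 h2 (B1_nonneg _ _) (by positivity)
    _ = 1 / (√k * √k) := by rw [div_mul_div_comm]; norm_num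
    _ = 1 / k := by rw [Real.mul_self_sqrt (Nat.cast_nonneg k)]

/-! ### boxes -/

def emb : ℤ × ℤ ↪ Z2 := ⟨fun p => ![p.1, p.2], fun p q h => by
  have h0 := congrFun h 0
  have h1 := congrFun h 1
  simp at h0 h1
  exact Prod.ext h0 h1⟩

/-- the box `[-m, m]²` -/
noncomputable def bx (m : ℕ) : Finset Z2 := ((Icc (-(m : ℤ)) m) ×ˢ (Icc (-(m : ℤ)) m)).map emb

theorem mem_bx {m : ℕ} {z : Z2} : z ∈ bx m ↔ |z 0| ≤ m ∧ |z 1| ≤ m := by
  unfold bx
  rw [Finset.mem_map]
  constructor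
  · rintro ⟨⟨a, b⟩, h, rfl⟩
    rw [Finset.mem_product, Finset.mem_Icc, Finset.mem_Icc] at h
    exact ⟨abs_le.2 h.1, abs_le.2 h.2⟩
  · rintro ⟨h0, h1⟩
    refine ⟨(z 0, z 1), ?_, ?_⟩
    · rw [Finset.mem_product, Finset.mem_Icc, Finset.mem_Icc]
      exact ⟨abs_le.1 h0, abs_le.1 h1⟩
    · funext i
      fin_cases i <;> rfl

theorem card_bx (m : ℕ) : (bx m).card = (2 * m + 1) ^ 2 := by
  unfold bx
  rw [Finset.card_map, Finset.card_product, Int.card_Icc]
  have : ((m : ℤ) + 1 - -(m : ℤ)).toNat = 2 * m + 1 := by omega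
  rw [this]; ring

theorem sum_bx (m : ℕ) (f : Z2 → ℝ) :
    ∑ z ∈ bx m, f z = ∑ a ∈ Icc (-(m : ℤ)) m, ∑ b ∈ Icc (-(m : ℤ)) m, f ![a, b] := by
  unfold bx
  rw [Finset.sum_map, Finset.sum_product]
  rfl

theorem sum_Icc_step (m : ℕ) (g : ℤ → ℝ) :
    ∑ b ∈ Icc (-((m + 1 : ℕ) : ℤ)) ((m + 1 : ℕ) : ℤ), g b =
      ∑ b ∈ Icc (-(m : ℤ)) m, g b + g (m + 1) + g (-(m + 1)) := by
  have h1 : Icc (-((m + 1 : ℕ) : ℤ)) ((m + 1 : ℕ) : ℤ) =
      insert (-(m + 1) : ℤ) (insert ((m : ℤ) + 1) (Icc (-(m : ℤ)) m)) := by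
    ext b
    simp only [Finset.mem_Icc, Finset.mem_insert]
    push_cast
    omega
  rw [h1, Finset.sum_insert, Finset.sum_insert]
  · ring
  · simp only [Finset.mem_Icc]; omega
  · simp only [Finset.mem_Icc, Finset.mem_insert]; omega

theorem row_sum {c : ℝ} (hc : 1 ≤ c) (m : ℕ) :
    ∑ b ∈ Icc (-(m : ℤ)) m, 1 / (c ^ 2 + (b : ℝ) ^ 2) ≤ 5 / c - 4 / (c + m) := by
  have h0 : 0 < c := by linarith
  induction m with
  | zero =>
    simp only [Nat.cast_zero, neg_zero, Finset.Icc_self, Finset.sum_singleton, Int.cast_zero,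
      add_zero]
    rw [← sub_div]
    norm_num
    rw [sq]
    rw [mul_inv]
    have : c⁻¹ ≤ 1 := inv_le_one_of_one_le₀ hc
    have h1 : 0 < c⁻¹ := by positivity
    nlinarith
  | succ m ih =>
    rw [sum_Icc_step]
    push_cast
    have hm : (0 : ℝ) ≤ m := Nat.cast_nonneg m
    have e1 : (-((m : ℝ) + 1)) ^ 2 = (m + 1) ^ 2 := by ring
    have e2 : (-1 + -(m : ℝ)) ^ 2 = (m + 1) ^ 2 := by ring
    simp only [neg_add_rev, e1, e2]
    have h2 : 1 / (c ^ 2 + ((m : ℝ) + 1) ^ 2) + 1 / (c ^ 2 + ((m : ℝ) + 1) ^ 2) ≤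
        4 / (c + m) - 4 / (c + (m + 1)) := by
      rw [div_sub_div _ _ (by positivity) (by positivity), ← add_div,
        div_le_div_iff₀ (by positivity) (by positivity)]
      nlinarith [sq_nonneg (c - (m + 1))]
    linarith

theorem row_sum' {c : ℝ} (hc : 1 ≤ c) (m : ℕ) :
    ∑ b ∈ Icc (-(m : ℤ)) m, 1 / (c ^ 2 + (b : ℝ) ^ 2) ≤ 5 / c := by
  have := row_sum hc m
  have : 0 ≤ 4 / (c + m) := by positivity
  linarith

theorem col_sum (m : ℕ) : ∑ a ∈ Icc (-(m : ℤ)) m, 5 / √(1 + (a : ℝ) ^ 2) ≤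
    5 + 10 * (harmonic m : ℝ) := by
  induction m with
  | zero => simp
  | succ m ih =>
    rw [sum_Icc_step, harmonic_succ]
    push_cast
    have key : ∀ x : ℝ, x ^ 2 = ((m : ℝ) + 1) ^ 2 → 5 / √(1 + x ^ 2) ≤ 5 * ((m : ℝ) + 1)⁻¹ := by
      intro x hx
      rw [hx, ← div_eq_mul_inv]
      apply div_le_div_of_nonneg_left (by norm_num) (by positivity)
      apply Real.le_sqrt_of_sq_le
      linarith
    have h1 := key ((m : ℝ) + 1) rfl
    have h2 := key (-((m : ℝ) + 1)) (by ring)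
    have h3 : (-1 + -(m : ℝ)) = (-((m : ℝ) + 1)) := by ring
    simp only [neg_add_rev] at h2 ⊢
    linarith

/-- the sum of `1/(1+|z|²)` over a box -/
theorem box_sum {m : ℕ} (hm : 1 ≤ m) : ∑ z ∈ bx m, 1 / (1 + nsq z) ≤ 15 + 10 * Real.log m := by
  rw [sum_bx]
  have h1 : ∀ a ∈ Icc (-(m : ℤ)) m, ∑ b ∈ Icc (-(m : ℤ)) m, 1 / (1 + nsq ![a, b]) ≤
      5 / √(1 + (a : ℝ) ^ 2) := by
    intro a _
    have hc : 1 ≤ √(1 + (a : ℝ) ^ 2) := by
      rw [Real.one_le_sqrt]
      nlinarith [sq_nonneg (a : ℝ)]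
    refine le_trans (le_of_eq ?_) (row_sum' hc m)
    apply Finset.sum_congr rfl
    intro b _
    rw [Real.sq_sqrt (by positivity), nsq_eq]
    simp
    ring
  refine (Finset.sum_le_sum h1).trans ((col_sum m).trans ?_)
  have := harmonic_le_one_add_log m
  linarith

theorem not_mem_bx {m : ℕ} {z : Z2} (h : z ∉ bx m) : (m : ℝ) ^ 2 ≤ nsq z := by
  rw [mem_bx, not_and_or] at h
  rw [nsq_eq]
  have key : ∀ a : ℤ, ¬ |a| ≤ (m : ℤ) → (m : ℝ) ^ 2 ≤ (a : ℝ) ^ 2 := by
    intro a ha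
    push Not at ha
    have : (m : ℝ) < |(a : ℝ)| := by exact_mod_cast ha
    rw [← sq_abs (a : ℝ)]
    exact pow_le_pow_left₀ (Nat.cast_nonneg m) this.le 2
  rcases h with h | h
  · have := key _ h; nlinarith [sq_nonneg (z 1 : ℝ)]
  · have := key _ h; nlinarith [sq_nonneg (z 0 : ℝ)]

/-- uniform bound for the expectation of `H` along one walk -/
theorem A_H_le {H : Z2 → ℝ} {C : ℝ} (hH : ∀ z, H z ≤ C / (1 + nsq z)) (hC : 0 ≤ C)
    {k : ℕ} (hk : 1 ≤ k) (x w : Z2) :
    A k (fun y => H (y - w)) x ≤ C * (16 + 10 * Real.log k) / k := by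
  have hk0 : (0 : ℝ) < k := by exact_mod_cast hk
  have hk1 : (1 : ℝ) ≤ k := by exact_mod_cast hk
  have h1 : ∀ y, H (y - w) ≤ C / k + ∑ z ∈ bx k, C / (1 + nsq z) * (if y = w + z then 1 else 0) := by
    intro y
    have hn : ∀ z ∈ bx k, 0 ≤ C / (1 + nsq z) * (if y = w + z then (1 : ℝ) else 0) := by
      intro z _
      have := nsq_nonneg z
      positivity
    by_cases h : y - w ∈ bx k
    · have h2 := Finset.single_le_sum hn h
      have h3 : y = w + (y - w) := by abel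
      rw [if_pos h3, mul_one] at h2
      have := hH (y - w)
      have : 0 ≤ C / k := by positivity
      linarith
    · have h2 := not_mem_bx h
      have h3 := Finset.sum_nonneg hn
      have h4 : C / (1 + nsq (y - w)) ≤ C / k := by
        apply div_le_div_of_nonneg_left hC hk0
        nlinarith
      have := hH (y - w)
      linarith
  refine (A_mono h1).trans ?_
  rw [A_add, A_const, A_sum]
  simp only [A_mul_left]
  have h2 : ∑ z ∈ bx k, C / (1 + nsq z) * A k (fun y => if y = w + z then (1 : ℝ) else 0) x ≤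
      ∑ z ∈ bx k, (C / k) * (1 / (1 + nsq z)) := by
    apply Finset.sum_le_sum
    intro z _
    have h3 := nsq_nonneg z
    calc C / (1 + nsq z) * A k (fun y => if y = w + z then (1 : ℝ) else 0) x ≤
          C / (1 + nsq z) * (1 / k) :=
          mul_le_mul_of_nonneg_left (A_ind_le hk (w + z) x) (by positivity)
      _ = _ := by field_simp
  rw [← Finset.mul_sum] at h2
  have h3 := mul_le_mul_of_nonneg_left (box_sum hk) (by positivity : 0 ≤ C / k)
  have h4 : C * (16 + 10 * Real.log k) / k = C / k + C / k * (15 + 10 * Real.log k) := by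
    field_simp; ring
  rw [h4]
  linarith

/-- uniform bound for the sum of `H` over a shifted box -/
theorem sum_H_le {H : Z2 → ℝ} {C : ℝ} (hH : ∀ z, 0 ≤ H z ∧ H z ≤ C / (1 + nsq z)) (hC : 0 ≤ C)
    {m : ℕ} (hm : 1 ≤ m) (v : Z2) :
    ∑ x ∈ bx m, H (x - v) ≤ C * (24 + 10 * Real.log (2 * m)) := by
  have hm0 : (1 : ℝ) ≤ m := by exact_mod_cast hm
  have h1 : ∀ x ∈ bx m, H (x - v) ≤ C / (4 * (m : ℝ) ^ 2) +
      ∑ z ∈ bx (2 * m), H z * (if x = v + z then 1 else 0) := by
    intro x _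
    have hn : ∀ z ∈ bx (2 * m), 0 ≤ H z * (if x = v + z then (1 : ℝ) else 0) := by
      intro z _
      have := (hH z).1
      positivity
    by_cases h : x - v ∈ bx (2 * m)
    · have h2 := Finset.single_le_sum hn h
      have h3 : x = v + (x - v) := by abel
      rw [if_pos h3, mul_one] at h2
      have : 0 ≤ C / (4 * (m : ℝ) ^ 2) := by positivity
      linarith
    · have h2 := not_mem_bx h
      have h3 := Finset.sum_nonneg hn
      have h4 : C / (1 + nsq (x - v)) ≤ C / (4 * (m : ℝ) ^ 2) := by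
        apply div_le_div_of_nonneg_left hC (by positivity)
        push_cast at h2
        nlinarith
      have := (hH (x - v)).2
      linarith
  refine (Finset.sum_le_sum h1).trans ?_
  rw [Finset.sum_add_distrib, Finset.sum_const, card_bx, nsmul_eq_mul, Finset.sum_comm]
  have h2 : ∑ z ∈ bx (2 * m), ∑ x ∈ bx m, H z * (if x = v + z then (1 : ℝ) else 0) ≤
      ∑ z ∈ bx (2 * m), C * (1 / (1 + nsq z)) := by
    apply Finset.sum_le_sum
    intro z _
    rw [← Finset.mul_sum, Finset.sum_ite_eq']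
    have h3 := hH z
    have h4 : C * (1 / (1 + nsq z)) = C / (1 + nsq z) := by ring
    rw [h4]
    split_ifs
    · linarith
    · have := nsq_nonneg z
      rw [mul_zero]; positivity
  rw [← Finset.mul_sum] at h2
  have h3 := mul_le_mul_of_nonneg_left (box_sum (by omega : 1 ≤ 2 * m)) hC
  have h4 : (((2 * m + 1) ^ 2 : ℕ) : ℝ) * (C / (4 * (m : ℝ) ^ 2)) ≤ C * 9 := by
    push_cast
    rw [mul_div_assoc', div_le_iff₀ (by positivity)]
    have : (2 * (m : ℝ) + 1) ^ 2 ≤ 9 * (4 * (m : ℝ) ^ 2) := by nlinarith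
    nlinarith
  push_cast at h3
  linarith

end Pool.Agent.Helper97.CP
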