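import Pool.Agent.Helper97.CP2.P1c
import Pool.Agent.Helper97.CP2.Ker

set_option autoImplicit false

open MeasureTheory ProbabilityTheory Filter Finset

namespace Pool.Agent.Helper97.CP

theorem stp_abs (e : E4) (i : Fin 2) : |stp e i| ≤ 1 := by
  unfold stp
  by_cases h : i = e.1
  · subst h
    rw [Pi.single_eq_same]
    split_ifs <;> simp
  · rw [Pi.single_eq_of_ne h]; simp

theorem pos_abs {N : ℕ} (σ : Fin N → E4) (n : ℕ) (i : Fin 2) : |pos σ n i| ≤ n := by
  unfold pos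
  rw [Finset.sum_apply]
  refine (Finset.abs_sum_le_sum_abs _ _).trans ?_
  refine (Finset.sum_le_sum fun k _ => stp_abs (σ k) i).trans ?_
  rw [Finset.sum_const, nsmul_eq_mul, mul_one]
  have h1 : (univ.filter (fun k : Fin N => k.val < n)).card ≤ (range n).card := by
    apply Finset.card_le_card_of_injOn (fun k : Fin N => k.val)
    · intro k hk
      have := (Finset.mem_filter.1 hk).2
      exact Finset.mem_coe.2 (Finset.mem_range.2 this)
    · intro a _ b _ hab
      exact Fin.ext hab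
  rw [Finset.card_range] at h1
  exact_mod_cast h1

theorem path_mem_bx {N : ℕ} (σ : Fin N → E4) (n : ℕ) : path 0 σ n ∈ bx n := by
  rw [mem_bx]
  unfold path
  rw [zero_add]
  exact ⟨pos_abs σ n 0, pos_abs σ n 1⟩

theorem Wf_x (β : ℝ) (N : ℕ) (x : Z2) (v : Env) :
    Wf β N x v = Wf β N 0 (fun n y => v n (x + y)) := by
  unfold Wf ES wtf path
  simp only [zero_add]

theorem sqrt_sum_le {ι : Type*} (s : Finset ι) (f : ι → ℝ) (hf : ∀ i, 0 ≤ f i) :
    √(∑ i ∈ s, f i) ≤ ∑ i ∈ s, √(f i) := by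
  classical
  induction s using Finset.induction_on with
  | empty => simp
  | insert a t ha ih =>
    rw [Finset.sum_insert ha, Finset.sum_insert ha]
    refine le_trans ?_ (add_le_add le_rfl ih)
    rw [Real.sqrt_le_left (by positivity)]
    have h1 : 0 ≤ ∑ i ∈ t, f i := Finset.sum_nonneg fun i _ => hf i
    have h2 := Real.sq_sqrt (hf a)
    have h3 := Real.sq_sqrt h1
    nlinarith [Real.sqrt_nonneg (f a), Real.sqrt_nonneg (∑ i ∈ t, f i),
      mul_nonneg (Real.sqrt_nonneg (f a)) (Real.sqrt_nonneg (∑ i ∈ t, f i))]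

theorem Wf_split (β : ℝ) (T N : ℕ) (v : Env) :
    Wf β (T + N) 0 v ≤ Wf β T 0 v * ∑ y ∈ bx T, Wf β N y (tsh T v) := by
  rw [Wf_add]
  show ES T _ 0 ≤ ES T _ 0 * _
  unfold ES
  rw [mul_assoc]
  apply mul_le_mul_of_nonneg_left _ (by positivity)
  rw [Finset.sum_mul]
  apply Finset.sum_le_sum
  intro σ _
  apply mul_le_mul_of_nonneg_left _ (Real.exp_pos _).le
  exact Finset.single_le_sum (f := fun y => Wf β N y (tsh T v)) (fun y _ => (Wf_pos β N y _).le)
    (path_mem_bx σ T)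

variable {Ω : Type*} [MeasurableSpace Ω] {P : Measure Ω} {ω : ℕ → Z2 → Ω → ℝ} {h : Z2 → ℝ}

theorem GEnv.sqrtW (g : GEnv P ω h) (h0 : h 0 = 1) (β : ℝ) (N : ℕ) (x : Z2) :
    Integrable (fun w => √(Wf β N x (En ω w))) P := by
  have hP := g.prob
  obtain ⟨iW, -⟩ := g.W_one h0 β N x
  refine Integrable.mono' ((integrable_const (1 : ℝ)).add iW)
    (((measurable_Wf β N x).comp g.measurable_En).sqrt).aestronglyMeasurable ?_
  refine Filter.Eventually.of_forall fun w => ?_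
  have hw := (Wf_pos β N x (En ω w)).le
  rw [Real.norm_eq_abs, abs_of_nonneg (Real.sqrt_nonneg _)]
  simp only [Pi.add_apply]
  rw [Real.sqrt_le_left (by positivity)]
  nlinarith

theorem frac_step (H : HH h) {β : ℝ} {T N : ℕ} {c c' : ℝ} (hc' : 0 ≤ c')
    (h1 : ∀ ω : ℕ → Z2 → Ω → ℝ, GEnv P ω h → ∫ w, √(Wf β T 0 (En ω w)) ∂P ≤ c)
    (h2 : ∀ ω : ℕ → Z2 → Ω → ℝ, GEnv P ω h → ∫ w, √(Wf β N 0 (En ω w)) ∂P ≤ c')
    (ω : ℕ → Z2 → Ω → ℝ) (g : GEnv P ω h) :
    ∫ w, √(Wf β (T + N) 0 (En ω w)) ∂P ≤ (2 * (T : ℝ) + 1) ^ 2 * (c * c') := by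
  have hP := g.prob
  have hmE := g.measurable_En
  have hpt : ∀ w, √(Wf β (T + N) 0 (En ω w)) ≤
      ∑ y ∈ bx T, √(Wf β T 0 (En ω w)) * √(Wf β N y (tsh T (En ω w))) := by
    intro w
    calc √(Wf β (T + N) 0 (En ω w)) ≤
        √(Wf β T 0 (En ω w) * ∑ y ∈ bx T, Wf β N y (tsh T (En ω w))) :=
          Real.sqrt_le_sqrt (Wf_split β T N _)
      _ = √(Wf β T 0 (En ω w)) * √(∑ y ∈ bx T, Wf β N y (tsh T (En ω w))) :=
          Real.sqrt_mul (Wf_pos _ _ _ _).le _
      _ ≤ √(Wf β T 0 (En ω w)) * ∑ y ∈ bx T, √(Wf β N y (tsh T (En ω w))) := by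
          apply mul_le_mul_of_nonneg_left _ (Real.sqrt_nonneg _)
          exact sqrt_sum_le _ _ fun y => (Wf_pos _ _ _ _).le
      _ = _ := by rw [Finset.mul_sum]
  have hd : Disjoint {n : ℕ | n ∈ Icc 1 T} {n : ℕ | ∃ k ∈ {n | n ∈ Icc 1 N}, n = T + k} := by
    rw [Set.disjoint_left]
    rintro n hn ⟨k, hk, rfl⟩
    have h3 := Finset.mem_Icc.1 hn
    have h4 := Finset.mem_Icc.1 hk
    omega
  have hind : ∀ y : Z2, IndepFun (fun w => √(Wf β T 0 (En ω w)))
      (fun w => √(Wf β N y (tsh T (En ω w)))) P := by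
    intro y
    exact g.indepf hd (Φ1 := fun v => √(Wf β T 0 v)) (Φ2 := fun v => √(Wf β N y (tsh T v)))
      (measurable_Wf β T 0).sqrt (((measurable_Wf β N y).comp (measurable_tsh T)).sqrt)
      (by
        intro v v' hv
        show √_ = √_
        rw [dep_Wf β T 0 v v' hv])
      (dep_tsh (Φ := fun v => √(Wf β N y v)) (by
        intro v v' hv
        show √_ = √_
        rw [dep_Wf β N y v v' hv]))
  have i1 : Integrable (fun w => √(Wf β T 0 (En ω w))) P := g.sqrtW H.h0 β T 0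
  have i2 : ∀ y, Integrable (fun w => √(Wf β N y (tsh T (En ω w)))) P := fun y =>
    (g.tshift T).sqrtW H.h0 β N y
  have e2 : ∀ y, ∫ w, √(Wf β N y (tsh T (En ω w))) ∂P ≤ c' := by
    intro y
    have g' := (g.tshift T).xshift y
    have := h2 _ g'
    refine le_trans (le_of_eq ?_) this
    congr 1
    funext w
    rw [Wf_x]
    rfl
  have i3 : ∀ y, Integrable (fun w => √(Wf β T 0 (En ω w)) * √(Wf β N y (tsh T (En ω w)))) P :=
    fun y => (hind y).integrable_mul i1 (i2 y)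
  have h3 := integral_mono (g.sqrtW H.h0 β (T + N) 0) (integrable_finsetSum _ fun y _ => i3 y) hpt
  refine h3.trans ?_
  rw [integral_finsetSum _ fun y _ => i3 y]
  have h4 : ∀ y ∈ bx T, ∫ w, √(Wf β T 0 (En ω w)) * √(Wf β N y (tsh T (En ω w))) ∂P ≤ c * c' := by
    intro y _
    rw [(hind y).integral_fun_mul_eq_mul_integral i1.aestronglyMeasurable (i2 y).aestronglyMeasurable]
    have k1 : 0 ≤ ∫ w, √(Wf β T 0 (En ω w)) ∂P := integral_nonneg fun w => Real.sqrt_nonneg _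
    calc _ ≤ (∫ w, √(Wf β T 0 (En ω w)) ∂P) * c' := mul_le_mul_of_nonneg_left (e2 y) k1
      _ ≤ _ := mul_le_mul_of_nonneg_right (h1 ω g) hc'
  refine (Finset.sum_le_sum h4).trans ?_
  rw [Finset.sum_const, nsmul_eq_mul, card_bx]
  push_cast
  exact le_rfl

theorem frac_iter (H : HH h) {β : ℝ} {T : ℕ} [IsProbabilityMeasure P]
    (h1 : ∀ ω : ℕ → Z2 → Ω → ℝ, GEnv P ω h →
      ∫ w, √(Wf β T 0 (En ω w)) ∂P ≤ 1 / (2 * (2 * (T : ℝ) + 1) ^ 2)) (k : ℕ) :
    ∀ ω : ℕ → Z2 → Ω → ℝ, GEnv P ω h → ∫ w, √(Wf β (k * T) 0 (En ω w)) ∂P ≤ (1 / 2) ^ k := by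
  induction k with
  | zero =>
    intro ω g
    have h0 : ∀ w, Wf β (0 * T) 0 (En ω w) = 1 := by
      intro w
      unfold Wf
      rw [zero_mul, ES_zero]
      simp [wtf]
    simp only [h0, Real.sqrt_one, pow_zero, integral_const, probReal_univ, one_smul]
    exact le_rfl
  | succ k ih =>
    intro ω g
    have := frac_step H (by positivity : (0 : ℝ) ≤ (1 / 2) ^ k) h1 ih ω g
    rw [show (k + 1) * T = T + k * T by ring]
    refine this.trans (le_of_eq ?_)
    rw [pow_succ (1 / 2 : ℝ) k]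
    field_simp

theorem free_energy_le {h : Z2 → ℝ} (H : HH h) {β : ℝ} {T : ℕ} (hT : 1 ≤ T)
    (h1 : ∀ (Ω : Type) [MeasurableSpace Ω] (P : Measure Ω) (ω : ℕ → Z2 → Ω → ℝ), GEnv P ω h →
      ∫ w, √(Wf β T 0 (En ω w)) ∂P ≤ 1 / (2 * (2 * (T : ℝ) + 1) ^ 2)) :
    ∀ (Ω : Type) [MeasurableSpace Ω] (P : Measure Ω) (ω : ℕ → Z2 → Ω → ℝ), GEnv P ω h → ∀ p : ℝ,
      (∀ᵐ w ∂P, Tendsto (fun n : ℕ => Real.log (Wf β n 0 (En ω w)) / (n : ℝ)) atTop (nhds p)) →
      p ≤ -(2 * Real.log 2 / T) := by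
  intro Ω _ P ω g p hp
  have hP := g.prob
  have hmE := g.measurable_En
  have hT0 : (0 : ℝ) < T := by exact_mod_cast hT
  have hit := frac_iter H (P := P) (h1 Ω P)
  by_contra hcon
  push Not at hcon
  obtain ⟨q, hq1, hq2⟩ := exists_between hcon
  set δ := Real.log 2 + T * q / 2 with hδ
  have hδ0 : 0 < δ := by
    rw [neg_lt, ← sub_pos] at hq1
    have : -q < 2 * Real.log 2 / T := by linarith
    rw [lt_div_iff₀ hT0] at this
    rw [hδ]
    linarith
  set f : ℕ → Ω → ENNReal := fun k w => ENNReal.ofReal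
    (√(Wf β (k * T) 0 (En ω w)) * Real.exp (-(k * (T * q / 2)))) with hf
  have hfm : ∀ k, Measurable (f k) := by
    intro k
    apply ENNReal.measurable_ofReal.comp
    exact (((measurable_Wf β _ 0).comp hmE).sqrt).mul_const _
  have hfat := lintegral_liminf_le (μ := P) (u := atTop) hfm
  have hup : ∀ k, ∫⁻ w, f k w ∂P ≤ ENNReal.ofReal (Real.exp (-(k * δ))) := by
    intro k
    show ∫⁻ w, ENNReal.ofReal (√(Wf β (k * T) 0 (En ω w)) * Real.exp (-(k * (T * q / 2)))) ∂P ≤ _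
    rw [← ofReal_integral_eq_lintegral_ofReal ((g.sqrtW H.h0 β (k * T) 0).mul_const _)
      (Filter.Eventually.of_forall fun w => by positivity)]
    apply ENNReal.ofReal_le_ofReal
    rw [integral_mul_const]
    have e : Real.exp (-(k * δ)) = (1 / 2) ^ k * Real.exp (-(k * (T * q / 2))) := by
      have : (1 / 2 : ℝ) ^ k = Real.exp (-(k * Real.log 2)) := by
        rw [one_div, inv_pow, Real.exp_neg, Real.exp_nat_mul, Real.exp_log (by norm_num)]
      rw [this, ← Real.exp_add, hδ]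
      congr 1
      ring
    rw [e]
    exact mul_le_mul_of_nonneg_right (hit k ω g) (Real.exp_pos _).le
  have hlim0 : Tendsto (fun k : ℕ => ENNReal.ofReal (Real.exp (-(k * δ)))) atTop (nhds 0) := by
    rw [← ENNReal.ofReal_zero]
    apply ENNReal.tendsto_ofReal
    apply Real.tendsto_exp_atBot.comp
    apply tendsto_neg_atTop_atBot.comp
    exact tendsto_natCast_atTop_atTop.atTop_mul_const hδ0
  have h5 : liminf (fun k => ∫⁻ w, f k w ∂P) atTop ≤ 0 := by
    rw [← hlim0.liminf_eq]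
    exact liminf_le_liminf (Filter.Eventually.of_forall hup)
  have hlow : ∀ᵐ w ∂P, 1 ≤ liminf (fun k => f k w) atTop := by
    filter_upwards [hp] with w hw
    have hsub : Tendsto (fun k : ℕ => k * T) atTop atTop := by
      apply tendsto_atTop_mono (fun k => ?_) tendsto_id
      show k ≤ k * T
      nlinarith
    have h6 := (hw.comp hsub).eventually (lt_mem_nhds hq2)
    apply le_liminf_of_le (by isBoundedDefault)
    filter_upwards [h6, eventually_ge_atTop 1] with k hk hk1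
    show 1 ≤ ENNReal.ofReal _
    rw [← ENNReal.ofReal_one]
    apply ENNReal.ofReal_le_ofReal
    simp only [Function.comp] at hk
    have hkT : (0 : ℝ) < ((k * T : ℕ) : ℝ) := by
      have : 0 < k * T := by positivity
      exact_mod_cast this
    rw [lt_div_iff₀ hkT] at hk
    have hW := Wf_pos β (k * T) 0 (En ω w)
    have h7 : Real.exp (k * (T * q / 2)) ≤ √(Wf β (k * T) 0 (En ω w)) := by
      apply Real.le_sqrt_of_sq_le
      rw [← Real.exp_nat_mul]
      rw [← Real.log_le_log_iff (Real.exp_pos _) hW, Real.log_exp]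
      push_cast at hk ⊢
      linarith
    calc (1 : ℝ) = Real.exp (k * (T * q / 2)) * Real.exp (-(k * (T * q / 2))) := by
          rw [← Real.exp_add, add_neg_cancel, Real.exp_zero]
      _ ≤ _ := mul_le_mul_of_nonneg_right h7 (Real.exp_pos _).le
  have h8 : (1 : ENNReal) ≤ ∫⁻ w, liminf (fun k => f k w) atTop ∂P := by
    have h9 : ∫⁻ _, (1 : ENNReal) ∂P = 1 := by
      rw [lintegral_const, measure_univ, mul_one]
    rw [← h9]
    exact lintegral_mono_ae hlow
  have h10 := (h8.trans hfat).trans h5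
  simp at h10

end Pool.Agent.Helper97.CP
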