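import Pool.Agent.Helper97.CP2.Slab0

set_option autoImplicit false

open MeasureTheory ProbabilityTheory Filter Finset

namespace Pool.Agent.Helper97.CP

theorem slab_main {h : Z2 → ℝ} (H : HH h) {β : ℝ} (ℓ m : ℕ) (hℓ : 1 ≤ ℓ) (hm : 1 ≤ m)
    (X : Env → ℝ) (hXm : Measurable X) (hXd : Dep {n | n ∈ Icc 1 ℓ} X)
    (X0 : (ℕ → Z2) → ℝ) {a d e c V R : ℝ} (ha : 0 < a) (hd : 0 < d) (hd1 : d ≤ 1) (he : 0 ≤ e)
    (hc : 0 < c) (hV : 0 ≤ V) (hR : 0 < R)
    (hdec : 2 * (d + e) ≤ c) (hVa : 8 * V ≤ a ^ 2 * d * c)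
    (h1 : ∀ (Ω : Type) [MeasurableSpace Ω] (P : Measure Ω) (ω : ℕ → Z2 → Ω → ℝ), GEnv P ω h →
      Integrable (fun w => X (En ω w) ^ 2) P ∧ ∫ w, X (En ω w) ^ 2 ∂P ≤ V)
    (h2 : ∀ (Ω : Type) [MeasurableSpace Ω] (P : Measure Ω) (ω : ℕ → Z2 → Ω → ℝ), GEnv P ω h →
      ∀ s : ℕ → Z2, Integrable (fun w => (X (En ω w) - X0 s) ^ 2) (tl P β ℓ s ω) ∧
        ∫ w, (X (En ω w) - X0 s) ^ 2 ∂(tl P β ℓ s ω) ≤ e * a ^ 2)
    (h3 : ∀ z : Z2, (∀ i, |(z i : ℝ)| ≤ R) →
      c ≤ ES ℓ (fun s => if 2 * a ≤ X0 s then (1 : ℝ) else 0) z) :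
    ∀ (Ω : Type) [MeasurableSpace Ω] (P : Measure Ω) (ω : ℕ → Z2 → Ω → ℝ), GEnv P ω h →
      ∫ w, √(Wf β (m * ℓ) 0 (En ω w)) ∂P ≤
        √((Real.exp (-(c * m / 2)) + 4 * Real.exp (-(R ^ 2 / (2 * (m * ℓ : ℝ))))) *
          Real.exp (c * m / 8)) := by
  intro Ω _ P ω gE
  have hP := gE.prob
  have hm0 : (0 : ℝ) < m := by exact_mod_cast hm
  have hℓ0 : (0 : ℝ) < ℓ := by exact_mod_cast hℓ
  have hc1 : c ≤ 1 := by
    refine (h3 0 (fun i => by simpa using hR.le)).trans ?_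
    calc ES ℓ (fun s => if 2 * a ≤ X0 s then (1 : ℝ) else 0) 0 ≤ ES ℓ (fun _ => (1 : ℝ)) 0 :=
          ES_mono fun s _ => by split_ifs <;> norm_num
      _ = 1 := ES_const _ _ _
  classical
  set g : Env → ℝ := fun v => if a ≤ X v then d else 1 with hg
  have hgm : Measurable g := Measurable.ite (measurableSet_le measurable_const hXm) measurable_const
    measurable_const
  have hgd : Dep {n | n ∈ Icc 1 ℓ} g := by
    intro v v' hv
    show (if a ≤ X v then d else 1) = if a ≤ X v' then d else 1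
    rw [hXd v v' hv]
  have hgd' : ∀ v, d ≤ g v := by
    intro v
    show d ≤ if a ≤ X v then d else 1
    split_ifs
    · exact le_rfl
    · exact hd1
  have hgb : ∀ v, 0 < g v ∧ g v ≤ 1 := by
    intro v
    refine ⟨lt_of_lt_of_le hd (hgd' v), ?_⟩
    show (if a ≤ X v then d else 1) ≤ 1
    split_ifs
    · exact hd1
    · exact le_rfl
  -- inverse weights
  set q := 1 + V / (a ^ 2 * d) with hq
  have hq0 : 0 ≤ q := by positivity
  have hinv : ∀ ω : ℕ → Z2 → Ω → ℝ, GEnv P ω h → ∫ w, (g (En ω w))⁻¹ ∂P ≤ q := by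
    intro ω gE
    obtain ⟨iX, eX⟩ := h1 Ω P ω gE
    have hpt : ∀ w, (g (En ω w))⁻¹ ≤ 1 + 1 / (a ^ 2 * d) * X (En ω w) ^ 2 := by
      intro w
      show (if a ≤ X (En ω w) then d else 1)⁻¹ ≤ _
      have hd2 : 0 < a ^ 2 * d := by positivity
      split_ifs with hX
      · have h4 : a ^ 2 ≤ X (En ω w) ^ 2 := pow_le_pow_left₀ ha.le hX 2
        have h5 : 1 / (a ^ 2 * d) * a ^ 2 ≤ 1 / (a ^ 2 * d) * X (En ω w) ^ 2 :=
          mul_le_mul_of_nonneg_left h4 (by positivity)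
        have h6 : 1 / (a ^ 2 * d) * a ^ 2 = d⁻¹ := by field_simp
        linarith
      · have : 0 ≤ 1 / (a ^ 2 * d) * X (En ω w) ^ 2 := by positivity
        simp only [inv_one]
        linarith
    have i1 : Integrable (fun w => (g (En ω w))⁻¹) P := by
      refine Integrable.mono' (integrable_const d⁻¹) (hgm.comp gE.measurable_En).inv.aestronglyMeasurable ?_
      refine Filter.Eventually.of_forall fun w => ?_
      rw [Real.norm_eq_abs, abs_of_pos (inv_pos.2 (hgb _).1)]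
      exact inv_anti₀ hd (hgd' _)
    have h4 := integral_mono i1 ((integrable_const (1 : ℝ)).add (iX.const_mul (1 / (a ^ 2 * d)))) hpt
    simp only [Pi.add_apply] at h4
    refine h4.trans ?_
    rw [integral_add (integrable_const _) (iX.const_mul _), integral_const_mul]
    simp only [integral_const, probReal_univ, one_smul]
    rw [hq]
    have h5 : 1 / (a ^ 2 * d) * ∫ w, X (En ω w) ^ 2 ∂P ≤ 1 / (a ^ 2 * d) * V :=
      mul_le_mul_of_nonneg_left eX (by positivity)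
    have h6 : 1 / (a ^ 2 * d) * V = V / (a ^ 2 * d) := by ring
    linarith
  obtain ⟨iI, lI⟩ := inv_GGs hq0 hgm hgd hgb hd hgd' hinv m ω gE
  have ha2 : ∫ w, (GGs ℓ g m (En ω w))⁻¹ ∂P ≤ Real.exp (c * m / 8) := by
    refine lI.trans ?_
    have h4 : q ≤ Real.exp (c / 8) := by
      have h5 : V / (a ^ 2 * d) ≤ c / 8 := by
        rw [div_le_iff₀ (by positivity)]
        linarith
      linarith [Real.add_one_le_exp (c / 8)]
    calc q ^ m ≤ Real.exp (c / 8) ^ m := pow_le_pow_left₀ hq0 h4 m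
      _ = Real.exp (c * m / 8) := by
          rw [← Real.exp_nat_mul]; congr 1; ring
  -- tilted weights
  have hγ : ∀ ω : ℕ → Z2 → Ω → ℝ, GEnv P ω h → ∀ s : ℕ → Z2,
      ∫ w, g (En ω w) ∂(tl P β ℓ s ω) ≤ 1 - (if 2 * a ≤ X0 s then (1 : ℝ) else 0) + (d + e) := by
    intro ω gE s
    have gT := gE.tilt H.h0 H.bd H.sym β ℓ s
    have hPT := gT.prob
    have ig : Integrable (fun w => g (En ω w)) (tl P β ℓ s ω) := by
      refine Integrable.mono' (integrable_const (1 : ℝ)) (hgm.comp gE.measurable_En).aestronglyMeasurable ?_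
      refine Filter.Eventually.of_forall fun w => ?_
      rw [Real.norm_eq_abs, abs_of_pos (hgb _).1]
      exact (hgb _).2
    split_ifs with hX0
    · obtain ⟨iX, eX⟩ := h2 Ω P ω gE s
      have hpt : ∀ w, g (En ω w) ≤ d + 1 / a ^ 2 * (X (En ω w) - X0 s) ^ 2 := by
        intro w
        show (if a ≤ X (En ω w) then d else 1) ≤ _
        split_ifs with hX
        · have : 0 ≤ 1 / a ^ 2 * (X (En ω w) - X0 s) ^ 2 := by positivity
          linarith
        · have h4 : a ≤ X0 s - X (En ω w) := by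
            push Not at hX
            linarith
          have h5 : a ^ 2 ≤ (X (En ω w) - X0 s) ^ 2 := by
            have := pow_le_pow_left₀ ha.le h4 2
            rw [sub_sq'] at this ⊢
            linarith
          have h6 : 1 / a ^ 2 * a ^ 2 ≤ 1 / a ^ 2 * (X (En ω w) - X0 s) ^ 2 :=
            mul_le_mul_of_nonneg_left h5 (by positivity)
          have h7 : 1 / a ^ 2 * a ^ 2 = 1 := by field_simp
          linarith
      have h4 := integral_mono ig ((integrable_const d).add (iX.const_mul (1 / a ^ 2))) hpt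
      simp only [Pi.add_apply] at h4
      refine h4.trans ?_
      rw [integral_add (integrable_const _) (iX.const_mul _), integral_const_mul]
      simp only [integral_const, probReal_univ, one_smul]
      have h5 : 1 / a ^ 2 * ∫ w, (X (En ω w) - X0 s) ^ 2 ∂(tl P β ℓ s ω) ≤ 1 / a ^ 2 * (e * a ^ 2) :=
        mul_le_mul_of_nonneg_left eX (by positivity)
      have h6 : 1 / a ^ 2 * (e * a ^ 2) = e := by field_simp
      linarith
    · have h4 := integral_mono ig (integrable_const (1 : ℝ)) (fun w => (hgb (En ω w)).2)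
      simp only [integral_const, probReal_univ, one_smul] at h4
      linarith
  have hES : ∀ ω : ℕ → Z2 → Ω → ℝ, GEnv P ω h → ∀ z : Z2, (∀ i, |(z i : ℝ)| ≤ R) →
      ES ℓ (fun s => ∫ w, g (En ω w) ∂(tl P β ℓ s ω)) z ≤ 1 - c / 2 := by
    intro ω gE z hz
    have h4 : ES ℓ (fun s => ∫ w, g (En ω w) ∂(tl P β ℓ s ω)) z ≤
        ES ℓ (fun s => 1 - (if 2 * a ≤ X0 s then (1 : ℝ) else 0) + (d + e)) z :=
      ES_mono fun s _ => hγ ω gE s
    rw [ES_add, ES_sub, ES_const, ES_const] at h4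
    linarith [h3 z hz]
  set lam := R / (m * ℓ) with hlam
  have hlam0 : 0 ≤ lam := by positivity
  obtain ⟨iW, lW⟩ := up_GGs H hgm hgd hgb (by linarith : 0 ≤ 1 - c / 2) hlam0 hES m ω gE 0
  set a1 := Real.exp (-(c * m / 2)) + 4 * Real.exp (-(R ^ 2 / (2 * (m * ℓ : ℝ)))) with ha1
  have ha1' : ∫ w, Wf β (m * ℓ) 0 (En ω w) * GGs ℓ g m (En ω w) ∂P ≤ a1 := by
    refine lW.trans ?_
    apply add_le_add
    · calc (1 - c / 2) ^ m ≤ Real.exp (-(c / 2)) ^ m := by
            apply pow_le_pow_left₀ (by linarith)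
            linarith [Real.add_one_le_exp (-(c / 2))]
        _ = _ := by rw [← Real.exp_nat_mul]; congr 1; ring
    · have e1 : ef lam 0 = 4 := by
        unfold ef
        simp
        norm_num
      rw [e1, mul_comm]
      apply mul_le_mul_of_nonneg_left _ (by norm_num)
      apply Real.exp_le_exp.2
      apply le_of_eq
      rw [hlam]
      field_simp
      ring
  set a2 := Real.exp (c * m / 8) with ha2'
  have ha10 : 0 < a1 := by positivity
  have ha20 : 0 < a2 := Real.exp_pos _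
  -- optimisation
  set t := √a2 / √a1 with ht
  have hs1 : 0 < √a1 := Real.sqrt_pos.2 ha10
  have hs2 : 0 < √a2 := Real.sqrt_pos.2 ha20
  have ht0 : 0 < t := by positivity
  have hpt : ∀ w, √(Wf β (m * ℓ) 0 (En ω w)) ≤
      t / 2 * (Wf β (m * ℓ) 0 (En ω w) * GGs ℓ g m (En ω w)) + 1 / (2 * t) * (GGs ℓ g m (En ω w))⁻¹ := by
    intro w
    have k1 := Wf_pos β (m * ℓ) 0 (En ω w)
    have k2 := (GGs_bounds ℓ hgb m (En ω w)).1
    set W := Wf β (m * ℓ) 0 (En ω w)
    set G := GGs ℓ g m (En ω w)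
    have k3 := Real.sqrt_nonneg W
    have k4 := Real.sq_sqrt k1.le
    have k5 : t / 2 * (W * G) + 1 / (2 * t) * G⁻¹ - √W = (t * G * √W - 1) ^ 2 / (2 * t * G) := by
      field_simp
      rw [k4.symm]
      have : √(√W ^ 2) = √W := Real.sqrt_sq k3
      rw [this]
      ring
    have k6 : 0 ≤ (t * G * √W - 1) ^ 2 / (2 * t * G) := by positivity
    linarith
  have h4 := integral_mono (gE.sqrtW H.h0 β (m * ℓ) 0) ((iW.const_mul (t / 2)).add (iI.const_mul (1 / (2 * t)))) hpt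
  simp only [Pi.add_apply] at h4
  refine h4.trans ?_
  rw [integral_add (iW.const_mul _) (iI.const_mul _), integral_const_mul, integral_const_mul]
  have h5 : t / 2 * ∫ w, Wf β (m * ℓ) 0 (En ω w) * GGs ℓ g m (En ω w) ∂P ≤ t / 2 * a1 :=
    mul_le_mul_of_nonneg_left ha1' (by positivity)
  have h6 : 1 / (2 * t) * ∫ w, (GGs ℓ g m (En ω w))⁻¹ ∂P ≤ 1 / (2 * t) * a2 :=
    mul_le_mul_of_nonneg_left ha2 (by positivity)
  have h7 : t / 2 * a1 + 1 / (2 * t) * a2 = √(a1 * a2) := by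
    rw [Real.sqrt_mul ha10.le, ht]
    have k1 := Real.sq_sqrt ha10.le
    have k2 := Real.sq_sqrt ha20.le
    have k3 : √a2 / √a1 / 2 * a1 = √a1 * √a2 / 2 := by
      nth_rw 2 [← k1]
      field_simp
    have k4 : 1 / (2 * (√a2 / √a1)) * a2 = √a1 * √a2 / 2 := by
      nth_rw 2 [← k2]
      field_simp
    rw [k3, k4]
    ring
  linarith

end Pool.Agent.Helper97.CP
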