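import Pool.Agent.Helper97.CP2.P2c2
import Pool.Agent.Helper97.CP2.Slab
import Pool.Agent.Helper97.CP2.Frac

set_option autoImplicit false

open MeasureTheory ProbabilityTheory Filter Finset Topology

namespace Pool.Agent.Helper97.CP

theorem measurable_Xt (L : ℕ) (B : Finset Z2) (M j : ℕ) : Measurable (Xt L B M j) := by
  show Measurable fun v : Env => ∑ n ∈ Icc 1 L, ∑ x ∈ B, v n x * Yt M v j n x
  apply Finset.measurable_fun_sum
  intro n _
  apply Finset.measurable_fun_sum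
  intro x _
  have h1 : Measurable fun v : Env => v n x := (measurable_pi_apply x).comp (measurable_pi_apply n)
  have h2 : Measurable fun v : Env => Yt M v j n x := by
    have := measurable_Yc M 0 (List.replicate j true) n x
    simpa only [Yc_true] using this
  exact h1.mul h2

theorem dep_Xt (L : ℕ) (B : Finset Z2) (M j ℓ : ℕ) (hℓ : L + j * M ≤ ℓ) :
    Dep {n | n ∈ Icc 1 ℓ} (Xt L B M j) := by
  intro v v' hv
  unfold Xt
  apply Finset.sum_congr rfl
  intro n hn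
  have hn' := Finset.mem_Icc.1 hn
  apply Finset.sum_congr rfl
  intro x _
  have h1 : ∀ m, 1 ≤ m → m ≤ ℓ → ∀ x, v m x = v' m x := fun m h1 h2 x =>
    hv m (Finset.mem_Icc.2 ⟨h1, h2⟩) x
  rw [h1 n hn'.1 (by omega) x, Yt_dep M v v' j n x]
  intro m h2 h3 x
  exact h1 m (by omega) (by omega) x

theorem assemble {h : Z2 → ℝ} (H : HH h) {β : ℝ} (hβ : 0 < β) (M L R j mS : ℕ)
    (hL : 1 ≤ L) (hR : 1 ≤ R) (hmS : 1 ≤ mS) {ρ : ℕ → ℝ} {HB G S PP Pm GG c d e1 : ℝ}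
    (hHB : ∀ v, ∑ x ∈ bx (3 * R), |h (x - v)| ≤ HB)
    (hr : ∀ k ∈ Icc 1 M, ∀ w x, A k (fun y => |h (y - w)|) x ≤ ρ k) (hρ0 : ∀ k, 0 ≤ ρ k)
    (hG : ∑ k ∈ Icc 1 M, ρ k ≤ G) (hS1 : 1 ≤ S) (hSG : G ≤ S) (hSG' : β * G ≤ S)
    (hSG2 : (β * G) ^ 2 ≤ S) (hPP0 : 0 ≤ PP) (hPP : ∀ z, β ^ j * Gam M h j z ≤ PP)
    (hGG0 : 0 ≤ GG) (hGG : ∀ z, Gam M h j z ≤ GG) (hPm : 0 < Pm)
    (hlow : ∀ K : Finset Z2, bx R ⊆ K → ∑ u ∈ K, |h u| ≤ HB → Pm ≤ ∑ u ∈ K, h u * Psi M β h j u)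
    (hA1 : (L : ℝ) / (R : ℝ) ^ 2 * (HB * PP + Pm) ≤ Pm / 2)
    (hA2 : (L : ℝ) * ((2 * (j * M : ℕ) + 1) * (β * HB * (β * G) ^ j) ^ 2) ≤ L * (L * (β * HB * PP) ^ 2))
    (hc : 0 < c) (hA3 : c * (8 * (L * (L * (β * HB * PP) ^ 2))) ≤ (L * (β * (Pm / 2))) ^ 2)
    (hd : 0 < d) (hd1 : d ≤ 1)
    (hA4 : 8 * (L * ((bx (3 * R)).card * (HB * GG))) ≤ (L * (β * (Pm / 2)) / 4) ^ 2 * d * c)
    (he1 : (L : ℝ) * (HB * (M * (β * HB) * S ^ j)) ≤ e1)
    (he2 : (L : ℝ) * ((2 * (j * M : ℕ) + 1) * ((β * HB) ^ 2 * S ^ j)) ≤ e1)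
    (hA5 : 2 * (d + (2 * (L * ((bx (3 * R)).card * (HB * GG))) + 2 * (4 ^ (j + 1) * e1)) /
      (L * (β * (Pm / 2)) / 4) ^ 2) ≤ c) :
    ∀ (Ω : Type) [MeasurableSpace Ω] (P : Measure Ω) (ω : ℕ → Z2 → Ω → ℝ), GEnv P ω h →
      ∫ w, √(Wf β (mS * (L + j * M)) 0 (En ω w)) ∂P ≤
        √((Real.exp (-(c * mS / 2)) + 4 * Real.exp (-((R : ℝ) ^ 2 / (2 * (mS * (L + j * M : ℕ) : ℝ))))) *
          Real.exp (c * mS / 8)) := by
  have hL0 : (0 : ℝ) < L := by exact_mod_cast hL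
  have hR0 : (0 : ℝ) < R := by exact_mod_cast hR
  have hHB0 : 0 ≤ HB := (Finset.sum_nonneg fun _ _ => abs_nonneg _).trans (hHB 0)
  have hG0 : 0 ≤ G := (Finset.sum_nonneg fun k _ => hρ0 k).trans hG
  set ℓ := L + j * M with hℓ
  set a := L * (β * (Pm / 2)) / 4 with ha
  have ha0 : 0 < a := by positivity
  set V := L * ((bx (3 * R)).card * (HB * GG)) with hV
  have hV0 : 0 ≤ V := by positivity
  have he10 : 0 ≤ e1 := by
    refine le_trans ?_ he1
    positivity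
  set e := (2 * V + 2 * (4 ^ (j + 1) * e1)) / a ^ 2 with he
  have he0 : 0 ≤ e := by positivity
  refine slab_main H ℓ mS (by omega) hmS (Xt L (bx (3 * R)) M j) (measurable_Xt _ _ _ _)
    (dep_Xt _ _ _ _ _ le_rfl) (fun s => Xt L (bx (3 * R)) M j (dr h β s)) (a := a) (d := d) (e := e)
    (c := c) (V := V) (R := R) ha0 hd hd1 he0 hc hV0 hR0 hA5 hA4 ?_ ?_ ?_
  · intro Ω _ P ω g
    constructor
    · have h1 := g.memLp_Xc L (bx (3 * R)) M 0 true (List.replicate j true)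
      simp only [Xc_true] at h1
      exact h1.integrable_sq
    · exact Xt_sq_le g L (bx (3 * R)) j hGG0 hGG H.sym hHB
  · intro Ω _ P ω g s
    have g' := g.tilt H.h0 H.bd H.sym β ℓ s
    have hsh : ∀ m y, |sh h β ℓ s m y| ≤ β * |h (y - s m)| := by
      intro m y
      unfold sh
      split_ifs
      · rw [abs_mul, abs_of_pos hβ]
      · rw [abs_zero]; positivity
    have cb : CB h M (sh h β ℓ s) ρ (fun k => β * ρ k) S := by
      refine ⟨H.sym, hρ0, fun k => mul_nonneg hβ.le (hρ0 k), hr, ?_, hS1, hG.trans hSG, ?_, ?_⟩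
      · intro m k hk x
        calc A k (fun y => |sh h β ℓ s m y|) x ≤ A k (fun y => β * |h (y - s m)|) x :=
              A_mono fun y => hsh m y
          _ = β * A k (fun y => |h (y - s m)|) x := A_mul_left _ _ _ _
          _ ≤ _ := mul_le_mul_of_nonneg_left (hr k hk _ _) hβ.le
      · rw [← Finset.mul_sum]
        exact (mul_le_mul_of_nonneg_left hG hβ.le).trans hSG'
      · rw [← Finset.mul_sum]
        refine le_trans ?_ hSG2
        apply pow_le_pow_left₀ (mul_nonneg hβ.le (Finset.sum_nonneg fun k _ => hρ0 k))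
        exact mul_le_mul_of_nonneg_left hG hβ.le
    have hHB1 : ∀ m v, ∑ x ∈ bx (3 * R), |sh h β ℓ s m (x + v)| ≤ β * HB := by
      intro m v
      calc ∑ x ∈ bx (3 * R), |sh h β ℓ s m (x + v)| ≤ ∑ x ∈ bx (3 * R), β * |h (x - (s m - v))| := by
            apply Finset.sum_le_sum
            intro x _
            have := hsh m (x + v)
            rwa [show x + v - s m = x - (s m - v) by abel] at this
        _ = β * ∑ x ∈ bx (3 * R), |h (x - (s m - v))| := by rw [Finset.mul_sum]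
        _ ≤ _ := mul_le_mul_of_nonneg_left (hHB _) hβ.le
    obtain ⟨k1, k2⟩ := Xt_diff_le g' cb L (bx (3 * R)) j (by positivity : 0 ≤ β * HB) hHB1 hHB hHB0
      hGG0 hGG he1 he2
    have e3 : ∀ w, Xt L (bx (3 * R)) M j (fun n x => ω n x w - sh h β ℓ s n x + sh h β ℓ s n x) =
        Xt L (bx (3 * R)) M j (En ω w) := by
      intro w
      congr 1
      funext n x
      unfold En
      ring
    have e4 : Xt L (bx (3 * R)) M j (sh h β ℓ s) = Xt L (bx (3 * R)) M j (dr h β s) :=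
      Xt_sh _ _ _ _ _ _ _ le_rfl s
    simp only [e3, e4] at k1 k2
    refine ⟨k1, ?_⟩
    have e5 : e * a ^ 2 = 2 * V + 2 * (4 ^ (j + 1) * e1) := by
      rw [he]; field_simp
    rw [e5]
    exact k2
  · intro z hz
    have hzb : z ∈ bx R := by
      rw [mem_bx]
      have h0 := hz 0
      have h1 := hz 1
      constructor
      · exact_mod_cast h0
      · exact_mod_cast h1
    have k1 := ES_X0_low hR M hβ.le hHB L j ℓ le_rfl hPP0 hPP hPm.le hlow z hzb
    have k2 : L * (β * (Pm / 2)) ≤ ES ℓ (fun s => Xt L (bx (3 * R)) M j (dr h β s)) z := by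
      refine le_trans ?_ k1
      apply mul_le_mul_of_nonneg_left _ hL0.le
      apply mul_le_mul_of_nonneg_left _ hβ.le
      linarith
    have k3 := ES_X0_sq (bx (3 * R)) M hβ.le hr hG hG0 hHB hHB0 L j ℓ le_rfl hPP0 hPP z
    set V' := 2 * (L * (L * (β * HB * PP) ^ 2)) with hV'
    have k4 : ES ℓ (fun s => Xt L (bx (3 * R)) M j (dr h β s) ^ 2) z ≤ V' := by linarith
    have hm0 : 0 < L * (β * (Pm / 2)) := by positivity
    have hV'0 : 0 < V' := by
      by_contra hcon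
      have h1 : ES ℓ (fun s => Xt L (bx (3 * R)) M j (dr h β s) ^ 2) z ≤ 0 := k4.trans (not_lt.1 hcon)
      have h2 : L * (β * (Pm / 2)) / 2 * (2 * ES ℓ (fun s => Xt L (bx (3 * R)) M j (dr h β s)) z -
          L * (β * (Pm / 2)) / 2) ≤ ES ℓ (fun s => Xt L (bx (3 * R)) M j (dr h β s) ^ 2) z := by
        have h3 : ES ℓ (fun s => L * (β * (Pm / 2)) / 2 * (2 * Xt L (bx (3 * R)) M j (dr h β s) -
            L * (β * (Pm / 2)) / 2)) z ≤ ES ℓ (fun s => Xt L (bx (3 * R)) M j (dr h β s) ^ 2) z := by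
          apply ES_mono
          intro s _
          nlinarith [sq_nonneg (Xt L (bx (3 * R)) M j (dr h β s) - L * (β * (Pm / 2)) / 2)]
        rw [ES_mul_left, ES_sub, ES_mul_left, ES_const] at h3
        exact h3
      nlinarith [mul_pos hm0 hm0]
    have k5 := PZ hm0.le hV'0 k2 k4
    have e6 : 2 * a = L * (β * (Pm / 2)) / 2 := by rw [ha]; ring
    rw [e6]
    refine le_trans ?_ k5
    rw [le_div_iff₀ (by positivity)]
    have e7 : c * (4 * V') = c * (8 * (L * (L * (β * HB * PP) ^ 2))) := by rw [hV']; ring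
    rw [e7]
    exact hA3

end Pool.Agent.Helper97.CP
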