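import Mathlib

/-! Elementary asymptotics as `β → 0+`. -/

set_option autoImplicit false

open Filter Topology

namespace Pool.Agent.Helper97.CP

theorem ev_lt {a : ℝ} (ha : 0 < a) : ∀ᶠ β in 𝓝[>] (0 : ℝ), 0 < β ∧ β < a :=
  Ioo_mem_nhdsGT ha

theorem ev_exp {c C : ℝ} (hc : 0 < c) (hC : 0 < C) (n : ℕ) :
    ∀ᶠ β in 𝓝[>] (0 : ℝ), Real.exp (-(c / β)) ≤ C * β ^ n := by
  have h1 := Real.tendsto_pow_mul_exp_neg_atTop_nhds_zero n
  have h2 : Tendsto (fun β : ℝ => c / β) (𝓝[>] 0) atTop := by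
    have := tendsto_inv_nhdsGT_zero (𝕜 := ℝ)
    exact Tendsto.const_mul_atTop hc this
  have h3 := h1.comp h2
  have h4 : 0 < C * c ^ n := by positivity
  filter_upwards [h3.eventually (gt_mem_nhds h4), ev_lt one_pos] with β hβ hβ1
  have hβ0 := hβ1.1
  simp only [Function.comp] at hβ
  rw [div_pow, div_mul_eq_mul_div, div_lt_iff₀ (by positivity)] at hβ
  have h5 : c ^ n * Real.exp (-(c / β)) < c ^ n * (C * β ^ n) := by linarith
  exact (lt_of_mul_lt_mul_left h5 (by positivity)).le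

/-- the eighth root of `1/β` -/
noncomputable def tt (β : ℝ) : ℝ := Real.exp (-(Real.log β) / 8)

theorem tt_pos (β : ℝ) : 0 < tt β := Real.exp_pos _

theorem tt_pow {β : ℝ} (hβ : 0 < β) : tt β ^ 8 = 1 / β := by
  unfold tt
  rw [← Real.exp_nat_mul]
  have : ((8 : ℕ) : ℝ) * (-(Real.log β) / 8) = -Real.log β := by push_cast; ring
  rw [this, Real.exp_neg, Real.exp_log hβ, one_div]

theorem tt_log (β : ℝ) : Real.log (1 / β) ≤ 8 * tt β := by
  have h1 : Real.log (tt β) = -(Real.log β) / 8 := by unfold tt; rw [Real.log_exp]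
  have h2 := Real.log_le_sub_one_of_pos (tt_pos β)
  rw [one_div, Real.log_inv]
  linarith

theorem tt_ge (T : ℝ) : ∀ᶠ β in 𝓝[>] (0 : ℝ), T ≤ tt β := by
  have h1 : Tendsto (fun β : ℝ => -(Real.log β) / 8) (𝓝[>] 0) atTop := by
    apply Tendsto.atTop_div_const (by norm_num)
    exact tendsto_neg_atBot_atTop.comp Real.tendsto_log_nhdsGT_zero
  exact (Real.tendsto_exp_atTop.comp h1).eventually (eventually_ge_atTop T)

theorem ev_log2 {C δ : ℝ} (hC : 0 ≤ C) (hδ : 0 < δ) :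
    ∀ᶠ β in 𝓝[>] (0 : ℝ), C * (1 + Real.log (1 / β)) ^ 2 ≤ δ / β := by
  filter_upwards [tt_ge (1 + 81 * C / δ), ev_lt one_pos] with β hβ hβ1
  have h0 := tt_pos β
  have hl : 0 ≤ Real.log (1 / β) := Real.log_nonneg (by rw [le_div_iff₀ hβ1.1]; linarith)
  have h81 : 0 ≤ 81 * C / δ := by positivity
  have h1 : 1 ≤ tt β := by linarith
  have h2 : (1 + Real.log (1 / β)) ^ 2 ≤ 81 * tt β ^ 2 := by
    have h3 : 1 + Real.log (1 / β) ≤ 9 * tt β := by linarith [tt_log β]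
    calc (1 + Real.log (1 / β)) ^ 2 ≤ (9 * tt β) ^ 2 := pow_le_pow_left₀ (by linarith) h3 2
      _ = _ := by ring
  have h4 : 81 * C ≤ δ * tt β ^ 6 := by
    have h5 : 81 * C / δ ≤ tt β := by linarith
    rw [div_le_iff₀ hδ] at h5
    have h6 : tt β ≤ tt β ^ 6 := by
      calc tt β = tt β ^ 1 := (pow_one _).symm
        _ ≤ tt β ^ 6 := pow_le_pow_right₀ h1 (by norm_num)
    nlinarith
  calc C * (1 + Real.log (1 / β)) ^ 2 ≤ C * (81 * tt β ^ 2) := mul_le_mul_of_nonneg_left h2 hC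
    _ = (81 * C) * tt β ^ 2 := by ring
    _ ≤ (δ * tt β ^ 6) * tt β ^ 2 := mul_le_mul_of_nonneg_right h4 (by positivity)
    _ = δ * tt β ^ 8 := by ring
    _ = δ / β := by rw [tt_pow hβ1.1]; ring

end Pool.Agent.Helper97.CP
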