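import Mathlib

/-! Directed polymer in dimension two in a Gaussian environment with critical spatial correlation
(MP_1e2dfa_pr, Q2).  Path expectations for simple random walk on `ℤ²`. -/

set_option autoImplicit false

open MeasureTheory ProbabilityTheory Filter Finset

namespace Pool.Agent.Helper97.CP

abbrev Z2 := Fin 2 → ℤ
abbrev E4 := Fin 2 × Bool

/-- the steps of the walk -/
def stp (e : E4) : Z2 := Pi.single e.1 (if e.2 then (1 : ℤ) else -1)

/-- position after `n` steps -/
def pos {N : ℕ} (σ : Fin N → E4) (n : ℕ) : Z2 :=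
  ∑ k ∈ univ.filter (fun k : Fin N => k.val < n), stp (σ k)

/-- path started from `x` -/
def path {N : ℕ} (x : Z2) (σ : Fin N → E4) (n : ℕ) : Z2 := x + pos σ n

/-- expectation over `N` steps of the walk started from `x` -/
noncomputable def ES (N : ℕ) (F : (ℕ → Z2) → ℝ) (x : Z2) : ℝ :=
  ((4 : ℝ) ^ N)⁻¹ * ∑ σ : Fin N → E4, F (path x σ)

/-- prepend a point to a path -/
def cns (x : Z2) (s : ℕ → Z2) : ℕ → Z2
  | 0 => x
  | k + 1 => s k

/-- follow `s` up to time `a`, then `s'` -/
def glue (a : ℕ) (s s' : ℕ → Z2) (k : ℕ) : Z2 := if k < a then s k else s' (k - a)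

/-- expectation of a function of the position after `k` steps -/
noncomputable def A (k : ℕ) (f : Z2 → ℝ) (x : Z2) : ℝ := ES k (fun s => f (s k)) x

theorem pos_cons {N : ℕ} (e : E4) (σ : Fin N → E4) (n : ℕ) :
    pos (Fin.cons e σ : Fin (N + 1) → E4) (n + 1) = stp e + pos σ n := by
  unfold pos
  rw [Finset.sum_filter, Finset.sum_filter, Fin.sum_univ_succ]
  simp

theorem pos_zero {N : ℕ} (σ : Fin N → E4) : pos σ 0 = 0 := by
  unfold pos; simp

theorem path_zero {N : ℕ} (x : Z2) (σ : Fin N → E4) : path x σ 0 = x := by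
  unfold path; rw [pos_zero, add_zero]

theorem path_cons {N : ℕ} (x : Z2) (e : E4) (σ : Fin N → E4) :
    path x (Fin.cons e σ : Fin (N + 1) → E4) = cns x (path (x + stp e) σ) := by
  funext n
  cases n with
  | zero => rw [path_zero]; rfl
  | succ n =>
    unfold path
    rw [pos_cons]
    simp only [cns]
    abel

theorem ES_zero (F : (ℕ → Z2) → ℝ) (x : Z2) : ES 0 F x = F (fun _ => x) := by
  unfold ES
  simp only [pow_zero, inv_one, one_mul]
  rw [Fintype.sum_unique]
  congr 1
  funext n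
  unfold path pos
  simp

theorem ES_succ (N : ℕ) (F : (ℕ → Z2) → ℝ) (x : Z2) :
    ES (N + 1) F x = (1 / 4) * ∑ e : E4, ES N (fun s => F (cns x s)) (x + stp e) := by
  unfold ES
  rw [← (Fin.consEquiv (fun _ : Fin (N + 1) => E4)).sum_comp, Fintype.sum_prod_type,
      Finset.mul_sum, Finset.mul_sum]
  apply Finset.sum_congr rfl
  intro e _
  have h1 : ∀ σ : Fin N → E4, F (path x ((Fin.consEquiv (fun _ : Fin (N + 1) => E4)) (e, σ))) =
      F (cns x (path (x + stp e) σ)) := by
    intro σ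
    rw [← path_cons]
    rfl
  simp only [h1]
  rw [pow_succ, mul_inv]
  ring

theorem ES_mono {N : ℕ} {F G : (ℕ → Z2) → ℝ} {x : Z2} (h : ∀ s, s 0 = x → F s ≤ G s) :
    ES N F x ≤ ES N G x := by
  unfold ES
  apply mul_le_mul_of_nonneg_left _ (by positivity)
  apply Finset.sum_le_sum
  intro σ _
  exact h _ (path_zero x σ)

theorem ES_congr {N : ℕ} {F G : (ℕ → Z2) → ℝ} {x : Z2} (h : ∀ s, s 0 = x → F s = G s) :
    ES N F x = ES N G x := by
  unfold ES
  congr 1
  apply Finset.sum_congr rfl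
  intro σ _
  exact h _ (path_zero x σ)

theorem ES_const (N : ℕ) (c : ℝ) (x : Z2) : ES N (fun _ => c) x = c := by
  unfold ES
  simp only [Finset.sum_const, Finset.card_univ, Fintype.card_fun, Fintype.card_fin,
    Fintype.card_prod, Fintype.card_bool, nsmul_eq_mul]
  push_cast
  have : (4 : ℝ) ^ N ≠ 0 := by positivity
  norm_num

theorem ES_add (N : ℕ) (F G : (ℕ → Z2) → ℝ) (x : Z2) :
    ES N (fun s => F s + G s) x = ES N F x + ES N G x := by
  unfold ES
  rw [Finset.sum_add_distrib, mul_add]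

theorem ES_sub (N : ℕ) (F G : (ℕ → Z2) → ℝ) (x : Z2) :
    ES N (fun s => F s - G s) x = ES N F x - ES N G x := by
  unfold ES
  rw [Finset.sum_sub_distrib, mul_sub]

theorem ES_mul_left (N : ℕ) (c : ℝ) (F : (ℕ → Z2) → ℝ) (x : Z2) :
    ES N (fun s => c * F s) x = c * ES N F x := by
  unfold ES
  rw [← Finset.mul_sum]
  ring

theorem ES_mul_right (N : ℕ) (c : ℝ) (F : (ℕ → Z2) → ℝ) (x : Z2) :
    ES N (fun s => F s * c) x = ES N F x * c := by
  unfold ES
  rw [← Finset.sum_mul]
  ring

theorem ES_sum {ι : Type*} (N : ℕ) (t : Finset ι) (F : ι → (ℕ → Z2) → ℝ) (x : Z2) :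
    ES N (fun s => ∑ i ∈ t, F i s) x = ∑ i ∈ t, ES N (F i) x := by
  unfold ES
  rw [Finset.sum_comm, Finset.mul_sum]

theorem ES_nonneg {N : ℕ} {F : (ℕ → Z2) → ℝ} {x : Z2} (h : ∀ s, s 0 = x → 0 ≤ F s) :
    0 ≤ ES N F x := by
  have := ES_mono (N := N) (F := fun _ => 0) (G := F) (x := x) (fun s hs => h s hs)
  rwa [ES_const] at this

theorem abs_ES_le (N : ℕ) (F : (ℕ → Z2) → ℝ) (x : Z2) :
    |ES N F x| ≤ ES N (fun s => |F s|) x := by
  unfold ES
  rw [abs_mul, abs_of_nonneg (by positivity : (0 : ℝ) ≤ ((4 : ℝ) ^ N)⁻¹)]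
  apply mul_le_mul_of_nonneg_left _ (by positivity)
  exact Finset.abs_sum_le_sum_abs _ _

theorem glue_zero (s s' : ℕ → Z2) : glue 0 s s' = s' := by
  funext k
  simp [glue]

theorem glue_succ (a : ℕ) (x : Z2) (s s' : ℕ → Z2) :
    glue (a + 1) (cns x s) s' = cns x (glue a s s') := by
  funext k
  cases k with
  | zero => simp [glue, cns]
  | succ k => simp [glue, cns]

/-- Markov property -/
theorem ES_glue (a b : ℕ) (F : (ℕ → Z2) → ℝ) (x : Z2) :
    ES (a + b) F x = ES a (fun s => ES b (fun s' => F (glue a s s')) (s a)) x := by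
  induction a generalizing F x with
  | zero =>
    rw [ES_zero]
    simp only [zero_add, glue_zero]
  | succ a ih =>
    rw [show a + 1 + b = (a + b) + 1 by ring, ES_succ, ES_succ]
    congr 1
    apply Finset.sum_congr rfl
    intro e _
    rw [ih]
    congr 1
    funext s
    simp only [cns]
    congr 1
    funext s'
    rw [glue_succ]

/-- Markov property, product form -/
theorem ES_markov (a b : ℕ) (G H : (ℕ → Z2) → ℝ) (x : Z2)
    (hG : ∀ s s' : ℕ → Z2, (∀ k ≤ a, s k = s' k) → G s = G s') :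
    ES (a + b) (fun s => G s * H (fun k => s (a + k))) x = ES a (fun s => G s * ES b H (s a)) x := by
  rw [ES_glue]
  apply ES_congr
  intro s _
  rw [← ES_mul_left]
  apply ES_congr
  intro s' hs'
  congr 1
  · apply hG
    intro k hk
    unfold glue
    rcases Nat.lt_or_eq_of_le hk with h | h
    · simp [h]
    · subst h
      simp [hs']
  · congr 1
    funext k
    simp [glue]

theorem A_eq_ES (a b : ℕ) (f : Z2 → ℝ) (x : Z2) : ES (a + b) (fun s => f (s a)) x = A a f x := by
  have := ES_markov a b (fun s => f (s a)) (fun _ => 1) x (fun s s' h => by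
    show f (s a) = f (s' a)
    rw [h a le_rfl])
  simp only [mul_one, ES_const] at this
  exact this

theorem A_zero (f : Z2 → ℝ) (x : Z2) : A 0 f x = f x := by
  unfold A
  rw [ES_zero]

theorem A_succ (k : ℕ) (f : Z2 → ℝ) (x : Z2) :
    A (k + 1) f x = (1 / 4) * ∑ e : E4, A k f (x + stp e) := by
  unfold A
  rw [ES_succ]
  rfl

theorem A_mono {k : ℕ} {f g : Z2 → ℝ} {x : Z2} (h : ∀ y, f y ≤ g y) : A k f x ≤ A k g x :=
  ES_mono fun s _ => h (s k)

theorem A_const (k : ℕ) (c : ℝ) (x : Z2) : A k (fun _ => c) x = c := ES_const k c x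

theorem A_add (k : ℕ) (f g : Z2 → ℝ) (x : Z2) : A k (fun y => f y + g y) x = A k f x + A k g x :=
  ES_add k (fun s => f (s k)) (fun s => g (s k)) x

theorem A_sub (k : ℕ) (f g : Z2 → ℝ) (x : Z2) : A k (fun y => f y - g y) x = A k f x - A k g x :=
  ES_sub k (fun s => f (s k)) (fun s => g (s k)) x

theorem A_mul_left (k : ℕ) (c : ℝ) (f : Z2 → ℝ) (x : Z2) : A k (fun y => c * f y) x = c * A k f x :=
  ES_mul_left k c (fun s => f (s k)) x

theorem A_mul_right (k : ℕ) (c : ℝ) (f : Z2 → ℝ) (x : Z2) : A k (fun y => f y * c) x = A k f x * c :=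
  ES_mul_right k c (fun s => f (s k)) x

theorem A_sum {ι : Type*} (k : ℕ) (t : Finset ι) (f : ι → Z2 → ℝ) (x : Z2) :
    A k (fun y => ∑ i ∈ t, f i y) x = ∑ i ∈ t, A k (f i) x :=
  ES_sum k t (fun i s => f i (s k)) x

theorem A_nonneg {k : ℕ} {f : Z2 → ℝ} {x : Z2} (h : ∀ y, 0 ≤ f y) : 0 ≤ A k f x :=
  ES_nonneg fun s _ => h (s k)

theorem abs_A_le (k : ℕ) (f : Z2 → ℝ) (x : Z2) : |A k f x| ≤ A k (fun y => |f y|) x :=
  abs_ES_le k (fun s => f (s k)) x

theorem A_shift (k : ℕ) (f : Z2 → ℝ) (x v : Z2) : A k (fun y => f (y + v)) x = A k f (x + v) := by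
  unfold A ES path
  congr 1
  apply Finset.sum_congr rfl
  intro σ _
  show f (x + pos σ k + v) = f (x + v + pos σ k)
  rw [add_right_comm]

theorem A_comp (j k : ℕ) (f : Z2 → ℝ) (x : Z2) : A (j + k) f x = A j (A k f) x := by
  have h := ES_markov j k (fun _ => 1) (fun s => f (s k)) x (fun _ _ _ => rfl)
  simp only [one_mul] at h
  exact h

/-- the difference of two independent walks -/
noncomputable def Q (f : Z2 → ℝ) (z : Z2) : ℝ :=
  (1 / 16) * ∑ e : E4, ∑ e' : E4, f (z + (stp e - stp e'))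

noncomputable def Qn : ℕ → (Z2 → ℝ) → Z2 → ℝ
  | 0, f => f
  | k + 1, f => Q (Qn k f)

theorem Q_mono {f g : Z2 → ℝ} (h : ∀ y, f y ≤ g y) (z : Z2) : Q f z ≤ Q g z := by
  unfold Q
  apply mul_le_mul_of_nonneg_left _ (by norm_num)
  exact Finset.sum_le_sum fun e _ => Finset.sum_le_sum fun e' _ => h _

theorem Q_const (c : ℝ) (z : Z2) : Q (fun _ => c) z = c := by
  unfold Q
  simp only [Finset.sum_const, Finset.card_univ, Fintype.card_fin,
    Fintype.card_prod, Fintype.card_bool, nsmul_eq_mul]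
  push_cast
  ring

theorem Q_add (f g : Z2 → ℝ) (z : Z2) : Q (fun y => f y + g y) z = Q f z + Q g z := by
  unfold Q
  simp only [Finset.sum_add_distrib, mul_add]

theorem Q_sub (f g : Z2 → ℝ) (z : Z2) : Q (fun y => f y - g y) z = Q f z - Q g z := by
  unfold Q
  simp only [Finset.sum_sub_distrib, mul_sub]

theorem Q_mul_left (c : ℝ) (f : Z2 → ℝ) (z : Z2) : Q (fun y => c * f y) z = c * Q f z := by
  unfold Q
  simp only [← Finset.mul_sum]
  ring

theorem Q_sum {ι : Type*} (t : Finset ι) (f : ι → Z2 → ℝ) (z : Z2) :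
    Q (fun y => ∑ i ∈ t, f i y) z = ∑ i ∈ t, Q (f i) z := by
  classical
  induction t using Finset.induction_on with
  | empty => simp [Q_const]
  | insert a t ha ih =>
    simp only [Finset.sum_insert ha]
    rw [Q_add, ih]

theorem Qn_mono {k : ℕ} {f g : Z2 → ℝ} (h : ∀ y, f y ≤ g y) (z : Z2) : Qn k f z ≤ Qn k g z := by
  induction k generalizing z with
  | zero => exact h z
  | succ k ih => exact Q_mono ih z

theorem Qn_const (k : ℕ) (c : ℝ) (z : Z2) : Qn k (fun _ => c) z = c := by
  induction k generalizing z with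
  | zero => rfl
  | succ k ih =>
    show Q (Qn k fun _ => c) z = c
    rw [show Qn k (fun _ => c) = fun _ => c from funext ih, Q_const]

theorem Qn_mul_left (k : ℕ) (c : ℝ) (f : Z2 → ℝ) (z : Z2) :
    Qn k (fun y => c * f y) z = c * Qn k f z := by
  induction k generalizing z with
  | zero => rfl
  | succ k ih =>
    show Q (Qn k fun y => c * f y) z = c * Q (Qn k f) z
    rw [show Qn k (fun y => c * f y) = fun y => c * Qn k f y from funext ih, Q_mul_left]

theorem Qn_add (k : ℕ) (f g : Z2 → ℝ) (z : Z2) :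
    Qn k (fun y => f y + g y) z = Qn k f z + Qn k g z := by
  induction k generalizing z with
  | zero => rfl
  | succ k ih =>
    show Q (Qn k fun y => f y + g y) z = Q (Qn k f) z + Q (Qn k g) z
    rw [show Qn k (fun y => f y + g y) = fun y => Qn k f y + Qn k g y from funext ih, Q_add]

theorem Qn_sub (k : ℕ) (f g : Z2 → ℝ) (z : Z2) :
    Qn k (fun y => f y - g y) z = Qn k f z - Qn k g z := by
  induction k generalizing z with
  | zero => rfl
  | succ k ih =>
    show Q (Qn k fun y => f y - g y) z = Q (Qn k f) z - Q (Qn k g) z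
    rw [show Qn k (fun y => f y - g y) = fun y => Qn k f y - Qn k g y from funext ih, Q_sub]

theorem Qn_nonneg {k : ℕ} {f : Z2 → ℝ} (h : ∀ y, 0 ≤ f y) (z : Z2) : 0 ≤ Qn k f z := by
  have := Qn_mono (k := k) (f := fun _ => 0) (g := f) h z
  rwa [Qn_const] at this

theorem Q_Qn (k : ℕ) (f : Z2 → ℝ) : Q (Qn k f) = Qn k (Q f) := by
  induction k with
  | zero => rfl
  | succ k ih =>
    show Q (Q (Qn k f)) = Q (Qn k (Q f))
    rw [ih]

/-- two independent walks: functions of the difference -/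
theorem A_A_diff (k : ℕ) (f : Z2 → ℝ) (x x' : Z2) :
    A k (fun y => A k (fun y' => f (y - y')) x') x = Qn k f (x - x') := by
  induction k generalizing x x' with
  | zero => simp [A_zero, Qn]
  | succ k ih =>
    rw [A_succ]
    simp only [A_succ]
    have h1 : ∀ e : E4, A k (fun y => 1 / 4 * ∑ e' : E4, A k (fun y' => f (y - y')) (x' + stp e'))
        (x + stp e) = 1 / 4 * ∑ e' : E4, Qn k f (x + stp e - (x' + stp e')) := by
      intro e
      rw [A_mul_left, A_sum]
      congr 1
      apply Finset.sum_congr rfl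
      intro e' _
      rw [ih]
    simp only [h1]
    show _ = Q (Qn k f) (x - x')
    unfold Q
    rw [← Finset.mul_sum, ← mul_assoc]
    congr 1
    · norm_num
    · apply Finset.sum_congr rfl
      intro e _
      apply Finset.sum_congr rfl
      intro e' _
      congr 1
      abel

/-- squared Euclidean norm -/
noncomputable def nsq (x : Z2) : ℝ := ∑ i : Fin 2, ((x i : ℝ)) ^ 2

end Pool.Agent.Helper97.CP
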