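import Pool.Agent.Helper97.CP2.P1c

set_option autoImplicit false

open MeasureTheory ProbabilityTheory Filter Finset

namespace Pool.Agent.Helper97.CP

variable {Ω : Type*} [MeasurableSpace Ω] {P : Measure Ω} {η : ℕ → Z2 → Ω → ℝ} {h : Z2 → ℝ}

/-- mixed chaos -/
noncomputable def Yc (M : ℕ) (v g1 : Env) : List Bool → ℕ → Z2 → ℝ
  | [], _, _ => 1
  | b :: J, n, x => ∑ k ∈ Icc 1 M,
      A k (fun y => (if b then v (n + k) y else g1 (n + k) y) * Yc M v g1 J (n + k) y) x

/-- chaos -/
noncomputable def Yt (M : ℕ) (v : Env) : ℕ → ℕ → Z2 → ℝ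
  | 0, _, _ => 1
  | j + 1, n, x => ∑ k ∈ Icc 1 M, A k (fun y => v (n + k) y * Yt M v j (n + k) y) x

theorem Dep.mono {S S' : Set ℕ} {Φ : Env → ℝ} (d : Dep S Φ) (hS : S ⊆ S') : Dep S' Φ :=
  fun v v' hv => d v v' fun n hn x => hv n (hS hn) x

theorem Dep.mul {S : Set ℕ} {Φ Ψ : Env → ℝ} (d : Dep S Φ) (d' : Dep S Ψ) :
    Dep S (fun v => Φ v * Ψ v) := fun v v' hv => by
  show Φ v * Ψ v = Φ v' * Ψ v'
  rw [d v v' hv, d' v v' hv]

theorem dep_coord {S : Set ℕ} {n : ℕ} (hn : n ∈ S) (x : Z2) : Dep S (fun v => v n x) :=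
  fun _ _ hv => hv n hn x

theorem A_congr {k : ℕ} {f g : Z2 → ℝ} {x : Z2} (h : ∀ y, f y = g y) : A k f x = A k g x := by
  rw [show f = g from funext h]

theorem dep_Yc (M : ℕ) (g1 : Env) (J : List Bool) (n : ℕ) (x : Z2) :
    Dep {m | n < m ∧ m ≤ n + J.length * M} (fun v => Yc M v g1 J n x) := by
  induction J generalizing n x with
  | nil => intro v v' _; rfl
  | cons b J ih =>
    intro v v' hv
    show ∑ k ∈ Icc 1 M, _ = ∑ k ∈ Icc 1 M, _
    apply Finset.sum_congr rfl
    intro k hk
    have hk' := Finset.mem_Icc.1 hk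
    apply A_congr
    intro y
    have h1 : Yc M v g1 J (n + k) y = Yc M v' g1 J (n + k) y := by
      apply ih
      intro m hm x
      apply hv
      obtain ⟨h3, h4⟩ := hm
      refine ⟨by omega, ?_⟩
      rw [List.length_cons]
      nlinarith
    have h2 : v (n + k) y = v' (n + k) y := by
      apply hv
      refine ⟨by omega, ?_⟩
      rw [List.length_cons]
      nlinarith
    rw [h1, h2]

theorem measurable_A {α : Type*} [MeasurableSpace α] {k : ℕ} {F : Z2 → α → ℝ} (x : Z2)
    (hF : ∀ y, Measurable (F y)) : Measurable (fun a => A k (fun y => F y a) x) :=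
  measurable_ES x fun s => hF (s k)

theorem integrable_A {k : ℕ} {F : Z2 → Ω → ℝ} (x : Z2)
    (hF : ∀ y, Integrable (F y) P) : Integrable (fun a => A k (fun y => F y a) x) P :=
  integrable_ES x fun s => hF (s k)

theorem integral_A {k : ℕ} {F : Z2 → Ω → ℝ} (x : Z2)
    (hF : ∀ y, Integrable (F y) P) :
    ∫ a, A k (fun y => F y a) x ∂P = A k (fun y => ∫ a, F y a ∂P) x :=
  integral_ES x fun s => hF (s k)

theorem memLp_A {k : ℕ} {F : Z2 → Ω → ℝ} (x : Z2) {p : ENNReal}
    (hF : ∀ y, MemLp (F y) p P) : MemLp (fun a => A k (fun y => F y a) x) p P := by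
  unfold A ES
  apply MemLp.const_mul
  apply memLp_finsetSum
  intro σ _
  exact hF _

theorem A_mul_A (k k' : ℕ) (f f' : Z2 → ℝ) (x x' : Z2) :
    A k f x * A k' f' x' = A k (fun y => A k' (fun y' => f y * f' y') x') x :=
  ES_mul_ES k k' (fun s => f (s k)) (fun s => f' (s k')) x x'

theorem measurable_Yc (M : ℕ) (g1 : Env) (J : List Bool) (n : ℕ) (x : Z2) :
    Measurable (fun v => Yc M v g1 J n x) := by
  induction J generalizing n x with
  | nil => exact measurable_const
  | cons b J ih =>
    show Measurable fun v => ∑ k ∈ Icc 1 M, _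
    apply Finset.measurable_fun_sum
    intro k _
    apply measurable_A
    intro y
    cases b with
    | true =>
      simp only [if_true]
      have h1 : Measurable fun v : Env => v (n + k) y :=
        (measurable_pi_apply y).comp (measurable_pi_apply (n + k))
      exact h1.mul (ih (n + k) y)
    | false =>
      simp only [Bool.false_eq_true, if_false]
      exact measurable_const.mul (ih (n + k) y)

theorem GEnv.memLp_mul (g : GEnv P η h) (m : ℕ) (y : Z2) {F : Env → ℝ} (hF : Measurable F)
    (dF : Dep {n | m < n} F) (iF : MemLp (fun w => F (En η w)) 2 P) :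
    MemLp (fun w => η m y w * F (En η w)) 2 P := by
  have hind : IndepFun (fun w => η m y w) (fun w => F (En η w)) P := by
    have hd : Disjoint ({m} : Set ℕ) {n | m < n} := by
      rw [Set.disjoint_left]
      intro n h1 h2
      rw [Set.mem_singleton_iff] at h1
      change m < n at h2
      omega
    exact g.indepf hd (Φ1 := fun v => v m y) (Φ2 := F)
      ((measurable_pi_apply y).comp (measurable_pi_apply m)) hF (dep_coord (Set.mem_singleton m) y) dF
  have h1 : Integrable (fun w => (η m y w) ^ 2) P := (g.memLp m y (p := 2) (by simp)).integrable_sq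
  have h2 : Integrable (fun w => (F (En η w)) ^ 2) P := iF.integrable_sq
  have h3 : IndepFun (fun w => (η m y w) ^ 2) (fun w => (F (En η w)) ^ 2) P :=
    hind.comp (φ := fun t : ℝ => t ^ 2) (ψ := fun t : ℝ => t ^ 2) (by fun_prop) (by fun_prop)
  have h4 := h3.integrable_mul h1 h2
  have hms : AEStronglyMeasurable (fun w => η m y w * F (En η w)) P :=
    ((g.meas m y).mul (hF.comp g.measurable_En)).aestronglyMeasurable
  rw [memLp_two_iff_integrable_sq hms]
  refine h4.congr (Filter.Eventually.of_forall fun w => ?_)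
  simp only [Pi.mul_apply]
  ring

theorem GEnv.cov_mul (g : GEnv P η h) (m m' : ℕ) (y y' : Z2) {F F' : Env → ℝ} (hF : Measurable F)
    (hF' : Measurable F') (dF : Dep {n | m < n} F) (dF' : Dep {n | m' < n} F')
    :
    ∫ w, (η m y w * F (En η w)) * (η m' y' w * F' (En η w)) ∂P =
      if m = m' then h (y - y') * ∫ w, F (En η w) * F' (En η w) ∂P else 0 := by
  have mE := g.measurable_En
  have cm : ∀ (m : ℕ) (y : Z2), Measurable (fun v : Env => v m y) := fun m y =>
    (measurable_pi_apply y).comp (measurable_pi_apply m)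
  have hd : ∀ m : ℕ, Disjoint ({m} : Set ℕ) {n | m < n} := by
    intro m
    rw [Set.disjoint_left]
    intro n h1 h2
    rw [Set.mem_singleton_iff] at h1
    change m < n at h2
    omega
  have off : ∀ (m m' : ℕ) (y y' : Z2) (F F' : Env → ℝ), Measurable F → Measurable F' →
      Dep {n | m < n} F → Dep {n | m' < n} F' → m < m' →
      ∫ w, (η m y w * F (En η w)) * (η m' y' w * F' (En η w)) ∂P = 0 := by
    intro m m' y y' F F' hF hF' dF dF' hmm
    have dG : Dep {n | m < n} (fun v => F v * (v m' y' * F' v)) := by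
      apply dF.mul
      apply Dep.mul
      · exact dep_coord hmm y'
      · exact dF'.mono fun n hn => lt_trans hmm hn
    have mG : Measurable (fun v : Env => F v * (v m' y' * F' v)) := hF.mul ((cm m' y').mul hF')
    have hind := g.indepf (hd m) (Φ1 := fun v => v m y) (Φ2 := fun v => F v * (v m' y' * F' v))
      (cm m y) mG (dep_coord (Set.mem_singleton m) y) dG
    have e := hind.integral_fun_mul_eq_mul_integral ((cm m y).comp mE).aestronglyMeasurable
      (mG.comp mE).aestronglyMeasurable
    have e2 : ∀ w, (η m y w * F (En η w)) * (η m' y' w * F' (En η w)) =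
        (En η w m y) * (F (En η w) * (En η w m' y' * F' (En η w))) := by
      intro w
      show _ = η m y w * (F (En η w) * (η m' y' w * F' (En η w)))
      ring
    simp only [e2]
    rw [e]
    have e3 : ∫ w, En η w m y ∂P = 0 := g.mean m y
    rw [e3, zero_mul]
  split_ifs with hmm
  · subst hmm
    have mG : Measurable (fun v : Env => F v * F' v) := hF.mul hF'
    have dG : Dep {n | m < n} (fun v => F v * F' v) := dF.mul dF'
    have mH : Measurable (fun v : Env => v m y * v m y') := (cm m y).mul (cm m y')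
    have dH : Dep ({m} : Set ℕ) (fun v : Env => v m y * v m y') :=
      (dep_coord (Set.mem_singleton m) y).mul (dep_coord (Set.mem_singleton m) y')
    have hind := g.indepf (hd m) mH mG dH dG
    have e := hind.integral_fun_mul_eq_mul_integral (mH.comp mE).aestronglyMeasurable
      (mG.comp mE).aestronglyMeasurable
    have e2 : ∀ w, (η m y w * F (En η w)) * (η m y' w * F' (En η w)) =
        (En η w m y * En η w m y') * (F (En η w) * F' (En η w)) := by
      intro w
      show _ = (η m y w * η m y' w) * (F (En η w) * F' (En η w))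
      ring
    simp only [e2]
    rw [e]
    have e3 : ∫ w, En η w m y * En η w m y' ∂P = h (y - y') := by
      have := g.cov m y m y'
      rwa [if_pos rfl] at this
    rw [e3]
  · rcases Nat.lt_or_gt_of_ne hmm with h1 | h1
    · exact off m m' y y' F F' hF hF' dF dF' h1
    · have := off m' m y' y F' F hF' hF dF' dF h1
      rw [← this]
      congr 1
      funext w
      ring

theorem Yc_depS (M : ℕ) (g1 : Env) (J : List Bool) (n : ℕ) (x : Z2) :
    Dep {m | n < m} (fun v => Yc M v g1 J n x) :=
  (dep_Yc M g1 J n x).mono fun _ hm => hm.1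

theorem GEnv.memLp_Yc (g : GEnv P η h) (M : ℕ) (g1 : Env) (J : List Bool) (n : ℕ) (x : Z2) :
    MemLp (fun w => Yc M (En η w) g1 J n x) 2 P := by
  have hP := g.prob
  induction J generalizing n x with
  | nil => exact memLp_const (1 : ℝ)
  | cons b J ih =>
    show MemLp (fun w => ∑ k ∈ Icc 1 M, _) 2 P
    apply memLp_finsetSum
    intro k _
    apply memLp_A
    intro y
    cases b with
    | true =>
      simp only [if_true]
      exact g.memLp_mul (n + k) y (measurable_Yc M g1 J (n + k) y) (Yc_depS M g1 J (n + k) y) (ih _ _)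
    | false =>
      simp only [Bool.false_eq_true, if_false]
      exact (ih _ _).const_mul _

/-- second moments of the mixed chaos -/
noncomputable def Gm (P : Measure Ω) (η : ℕ → Z2 → Ω → ℝ) (M : ℕ) (g1 : Env) (J : List Bool)
    (n : ℕ) (x : Z2) (n' : ℕ) (x' : Z2) : ℝ :=
  ∫ w, Yc M (En η w) g1 J n x * Yc M (En η w) g1 J n' x' ∂P

theorem A2_int {k k' : ℕ} {F : Z2 → Z2 → Ω → ℝ} (x x' : Z2)
    (hF : ∀ y y', Integrable (F y y') P) :
    ∫ w, A k (fun y => A k' (fun y' => F y y' w) x') x ∂P =
      A k (fun y => A k' (fun y' => ∫ w, F y y' w ∂P) x') x := by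
  rw [integral_A (F := fun y w => A k' (fun y' => F y y' w) x') x
    (fun y => integrable_A x' fun y' => hF y y')]
  apply A_congr
  intro y
  exact integral_A x' fun y' => hF y y'

theorem GEnv.Gm_true (g : GEnv P η h) (M : ℕ) (g1 : Env) (J : List Bool)
    (n : ℕ) (x : Z2) (n' : ℕ) (x' : Z2) :
    Gm P η M g1 (true :: J) n x n' x' = ∑ k ∈ Icc 1 M, ∑ k' ∈ Icc 1 M,
      A k (fun y => A k' (fun y' => if n + k = n' + k' then
        h (y - y') * Gm P η M g1 J (n + k) y (n' + k') y' else 0) x') x := by
  unfold Gm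
  have hi : ∀ k k' (y y' : Z2), Integrable (fun w => (η (n + k) y w * Yc M (En η w) g1 J (n + k) y) *
      (η (n' + k') y' w * Yc M (En η w) g1 J (n' + k') y')) P := by
    intro k k' y y'
    exact (g.memLp_mul (n + k) y (measurable_Yc M g1 J (n + k) y) (Yc_depS M g1 J (n + k) y)
      (g.memLp_Yc M g1 J _ _)).integrable_mul (g.memLp_mul (n' + k') y'
      (measurable_Yc M g1 J (n' + k') y') (Yc_depS M g1 J (n' + k') y') (g.memLp_Yc M g1 J _ _))
  have e1 : ∀ w, Yc M (En η w) g1 (true :: J) n x * Yc M (En η w) g1 (true :: J) n' x' =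
      ∑ k ∈ Icc 1 M, ∑ k' ∈ Icc 1 M, A k (fun y => A k' (fun y' =>
        (η (n + k) y w * Yc M (En η w) g1 J (n + k) y) *
        (η (n' + k') y' w * Yc M (En η w) g1 J (n' + k') y')) x') x := by
    intro w
    show (∑ k ∈ Icc 1 M, A k (fun y => η (n + k) y w * Yc M (En η w) g1 J (n + k) y) x) *
      (∑ k ∈ Icc 1 M, A k (fun y => η (n' + k) y w * Yc M (En η w) g1 J (n' + k) y) x') = _
    rw [Finset.sum_mul_sum]
    apply Finset.sum_congr rfl
    intro k _
    apply Finset.sum_congr rfl
    intro k' _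
    rw [A_mul_A]
  simp only [e1]
  have hA : ∀ k k', Integrable (fun w => A k (fun y => A k' (fun y' =>
        (η (n + k) y w * Yc M (En η w) g1 J (n + k) y) *
        (η (n' + k') y' w * Yc M (En η w) g1 J (n' + k') y')) x') x) P := by
    intro k k'
    exact integrable_A (F := fun y w => A k' (fun y' =>
        (η (n + k) y w * Yc M (En η w) g1 J (n + k) y) *
        (η (n' + k') y' w * Yc M (En η w) g1 J (n' + k') y')) x') x fun y =>
      integrable_A x' fun y' => hi k k' y y'
  rw [integral_finsetSum _ (fun k _ => integrable_finsetSum _ fun k' _ => hA k k')]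
  apply Finset.sum_congr rfl
  intro k _
  rw [integral_finsetSum _ (fun k' _ => hA k k')]
  apply Finset.sum_congr rfl
  intro k' _
  rw [A2_int (F := fun y y' w => (η (n + k) y w * Yc M (En η w) g1 J (n + k) y) *
        (η (n' + k') y' w * Yc M (En η w) g1 J (n' + k') y')) x x' (hi k k')]
  apply A_congr
  intro y
  apply A_congr
  intro y'
  exact g.cov_mul (n + k) (n' + k') y y' (measurable_Yc M g1 J (n + k) y)
    (measurable_Yc M g1 J (n' + k') y') (Yc_depS M g1 J (n + k) y) (Yc_depS M g1 J (n' + k') y')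

theorem GEnv.Gm_false (g : GEnv P η h) (M : ℕ) (g1 : Env) (J : List Bool)
    (n : ℕ) (x : Z2) (n' : ℕ) (x' : Z2) :
    Gm P η M g1 (false :: J) n x n' x' = ∑ k ∈ Icc 1 M, ∑ k' ∈ Icc 1 M,
      A k (fun y => A k' (fun y' => g1 (n + k) y * g1 (n' + k') y' *
        Gm P η M g1 J (n + k) y (n' + k') y') x') x := by
  unfold Gm
  have hi : ∀ k k' (y y' : Z2), Integrable (fun w => (g1 (n + k) y * Yc M (En η w) g1 J (n + k) y) *
      (g1 (n' + k') y' * Yc M (En η w) g1 J (n' + k') y')) P := by
    intro k k' y y'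
    exact ((g.memLp_Yc M g1 J _ _).const_mul _).integrable_mul ((g.memLp_Yc M g1 J _ _).const_mul _)
  have e1 : ∀ w, Yc M (En η w) g1 (false :: J) n x * Yc M (En η w) g1 (false :: J) n' x' =
      ∑ k ∈ Icc 1 M, ∑ k' ∈ Icc 1 M, A k (fun y => A k' (fun y' =>
        (g1 (n + k) y * Yc M (En η w) g1 J (n + k) y) *
        (g1 (n' + k') y' * Yc M (En η w) g1 J (n' + k') y')) x') x := by
    intro w
    show (∑ k ∈ Icc 1 M, A k (fun y => g1 (n + k) y * Yc M (En η w) g1 J (n + k) y) x) *
      (∑ k ∈ Icc 1 M, A k (fun y => g1 (n' + k) y * Yc M (En η w) g1 J (n' + k) y) x') = _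
    rw [Finset.sum_mul_sum]
    apply Finset.sum_congr rfl
    intro k _
    apply Finset.sum_congr rfl
    intro k' _
    rw [A_mul_A]
  simp only [e1]
  have hA : ∀ k k', Integrable (fun w => A k (fun y => A k' (fun y' =>
        (g1 (n + k) y * Yc M (En η w) g1 J (n + k) y) *
        (g1 (n' + k') y' * Yc M (En η w) g1 J (n' + k') y')) x') x) P := by
    intro k k'
    exact integrable_A (F := fun y w => A k' (fun y' =>
        (g1 (n + k) y * Yc M (En η w) g1 J (n + k) y) *
        (g1 (n' + k') y' * Yc M (En η w) g1 J (n' + k') y')) x') x fun y =>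
      integrable_A x' fun y' => hi k k' y y'
  rw [integral_finsetSum _ (fun k _ => integrable_finsetSum _ fun k' _ => hA k k')]
  apply Finset.sum_congr rfl
  intro k _
  rw [integral_finsetSum _ (fun k' _ => hA k k')]
  apply Finset.sum_congr rfl
  intro k' _
  rw [A2_int (F := fun y y' w => (g1 (n + k) y * Yc M (En η w) g1 J (n + k) y) *
        (g1 (n' + k') y' * Yc M (En η w) g1 J (n' + k') y')) x x' (hi k k')]
  apply A_congr
  intro y
  apply A_congr
  intro y'
  rw [← integral_const_mul]
  congr 1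
  funext w
  ring

end Pool.Agent.Helper97.CP
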