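import Pool.Agent.Helper97.CP2.Ch

set_option autoImplicit false

open MeasureTheory ProbabilityTheory Filter Finset

namespace Pool.Agent.Helper97.CP

variable {Ω : Type*} [MeasurableSpace Ω] {P : Measure Ω} {η : ℕ → Z2 → Ω → ℝ} {h : Z2 → ℝ}

/-- quantities controlling the chaos -/
structure CB (h : Z2 → ℝ) (M : ℕ) (g1 : Env) (ρ ρ' : ℕ → ℝ) (S : ℝ) : Prop where
  sym : ∀ z, h (-z) = h z
  r0 : ∀ k, 0 ≤ ρ k
  r0' : ∀ k, 0 ≤ ρ' k
  hr : ∀ k ∈ Icc 1 M, ∀ w x, A k (fun y => |h (y - w)|) x ≤ ρ k
  hg : ∀ m, ∀ k ∈ Icc 1 M, ∀ x, A k (fun y => |g1 m y|) x ≤ ρ' k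
  S1 : 1 ≤ S
  SG : ∑ k ∈ Icc 1 M, ρ k ≤ S
  SG' : ∑ k ∈ Icc 1 M, ρ' k ≤ S
  SG2 : (∑ k ∈ Icc 1 M, ρ' k) ^ 2 ≤ S

theorem sum_single_le (s : Finset ℕ) (a b : ℕ) {c : ℝ} (hc : 0 ≤ c) :
    ∑ k ∈ s, (if a + k = b then c else 0) ≤ c := by
  by_cases hab : a ≤ b
  · have h1 : ∀ k ∈ s, (if a + k = b then c else 0) = if b - a = k then c else 0 := by
      intro k _
      congr 1
      apply propext
      omega
    rw [Finset.sum_congr rfl h1, Finset.sum_ite_eq]
    split_ifs
    · exact le_rfl
    · exact hc
  · have h1 : ∀ k ∈ s, (if a + k = b then c else 0) = 0 := by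
      intro k _
      rw [if_neg]
      omega
    rw [Finset.sum_congr rfl h1, Finset.sum_const_zero]
    exact hc

theorem abs_A2_le (k k' : ℕ) (F : Z2 → Z2 → ℝ) (x x' : Z2) :
    |A k (fun y => A k' (fun y' => F y y') x') x| ≤ A k (fun y => A k' (fun y' => |F y y'|) x') x := by
  refine (abs_A_le k _ x).trans (A_mono fun y => ?_)
  exact abs_A_le k' _ x'

theorem Gm_nil [IsProbabilityMeasure P] (M : ℕ) (g1 : Env) (n : ℕ) (x : Z2) (n' : ℕ) (x' : Z2) :
    Gm P η M g1 [] n x n' x' = 1 := by
  unfold Gm
  show ∫ w, (1 : ℝ) * 1 ∂P = 1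
  simp

variable {M : ℕ} {g1 : Env} {ρ ρ' : ℕ → ℝ} {S : ℝ}

theorem crude (g : GEnv P η h) (cb : CB h M g1 ρ ρ' S) (J : List Bool) (n : ℕ) (x : Z2) (n' : ℕ)
    (x' : Z2) : |Gm P η M g1 J n x n' x'| ≤ S ^ J.length := by
  have hP := g.prob
  have hS0 : 0 ≤ S := le_trans zero_le_one cb.S1
  induction J generalizing n x n' x' with
  | nil => rw [Gm_nil]; simp
  | cons b J ih =>
    have hSJ : 0 ≤ S ^ J.length := pow_nonneg hS0 _
    rw [List.length_cons, pow_succ]
    cases b with
    | true =>
      rw [g.Gm_true]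
      refine (Finset.abs_sum_le_sum_abs _ _).trans ?_
      have h1 : ∀ k ∈ Icc 1 M, |∑ k' ∈ Icc 1 M, A k (fun y => A k' (fun y' => if n + k = n' + k' then
          h (y - y') * Gm P η M g1 J (n + k) y (n' + k') y' else 0) x') x| ≤
          ∑ k' ∈ Icc 1 M, (if n + k = n' + k' then S ^ J.length * ρ k' else 0) := by
        intro k _
        refine (Finset.abs_sum_le_sum_abs _ _).trans (Finset.sum_le_sum fun k' hk' => ?_)
        refine (abs_A2_le k k' _ x x').trans ?_
        split_ifs with hkk
        · have h2 : ∀ y, A k' (fun y' => |h (y - y') * Gm P η M g1 J (n + k) y (n' + k') y'|) x' ≤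
              S ^ J.length * ρ k' := by
            intro y
            calc A k' (fun y' => |h (y - y') * Gm P η M g1 J (n + k) y (n' + k') y'|) x' ≤
                A k' (fun y' => S ^ J.length * |h (y' - y)|) x' := by
                  apply A_mono
                  intro y'
                  rw [abs_mul, mul_comm, ← cb.sym, neg_sub]
                  exact mul_le_mul_of_nonneg_right (ih _ _ _ _) (abs_nonneg _)
              _ = S ^ J.length * A k' (fun y' => |h (y' - y)|) x' := A_mul_left _ _ _ _
              _ ≤ _ := mul_le_mul_of_nonneg_left (cb.hr k' hk' y x') hSJ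
          calc _ ≤ A k (fun _ => S ^ J.length * ρ k') x := A_mono h2
            _ = _ := A_const _ _ _
        · simp only [abs_zero, A_const]
          exact le_rfl
      refine (Finset.sum_le_sum h1).trans ?_
      rw [Finset.sum_comm]
      have h3 : ∀ k' ∈ Icc 1 M, ∑ k ∈ Icc 1 M, (if n + k = n' + k' then S ^ J.length * ρ k' else 0) ≤
          S ^ J.length * ρ k' := fun k' _ =>
        sum_single_le _ _ _ (mul_nonneg hSJ (cb.r0 k'))
      refine (Finset.sum_le_sum h3).trans ?_
      rw [← Finset.mul_sum]
      exact mul_le_mul_of_nonneg_left cb.SG hSJ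
    | false =>
      rw [g.Gm_false]
      refine (Finset.abs_sum_le_sum_abs _ _).trans ?_
      have h1 : ∀ k ∈ Icc 1 M, |∑ k' ∈ Icc 1 M, A k (fun y => A k' (fun y' => g1 (n + k) y * g1 (n' + k') y' *
        Gm P η M g1 J (n + k) y (n' + k') y') x') x| ≤
          ∑ k' ∈ Icc 1 M, S ^ J.length * (ρ' k * ρ' k') := by
        intro k hk
        refine (Finset.abs_sum_le_sum_abs _ _).trans (Finset.sum_le_sum fun k' hk' => ?_)
        refine (abs_A2_le k k' _ x x').trans ?_
        calc A k (fun y => A k' (fun y' => |g1 (n + k) y * g1 (n' + k') y' *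
              Gm P η M g1 J (n + k) y (n' + k') y'|) x') x ≤
            A k (fun y => A k' (fun y' => S ^ J.length * (|g1 (n + k) y| * |g1 (n' + k') y'|)) x') x := by
              apply A_mono; intro y
              apply A_mono; intro y'
              rw [abs_mul, abs_mul, mul_comm]
              exact mul_le_mul_of_nonneg_right (ih _ _ _ _) (by positivity)
          _ = S ^ J.length * (A k (fun y => |g1 (n + k) y|) x * A k' (fun y' => |g1 (n' + k') y'|) x') := by
              rw [A_mul_A]
              simp only [A_mul_left]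
          _ ≤ S ^ J.length * (ρ' k * ρ' k') := by
              apply mul_le_mul_of_nonneg_left _ hSJ
              exact mul_le_mul (cb.hg _ k hk x) (cb.hg _ k' hk' x') (A_nonneg fun y => abs_nonneg _)
                (cb.r0' k)
      refine (Finset.sum_le_sum h1).trans ?_
      have h4 : ∑ k ∈ Icc 1 M, ∑ k' ∈ Icc 1 M, S ^ J.length * (ρ' k * ρ' k') =
          S ^ J.length * (∑ k ∈ Icc 1 M, ρ' k) ^ 2 := by
        rw [sq, Finset.sum_mul_sum, Finset.mul_sum]
        apply Finset.sum_congr rfl
        intro k _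
        rw [Finset.mul_sum]
      rw [h4]
      exact mul_le_mul_of_nonneg_left cb.SG2 hSJ

theorem Gm_zero (g : GEnv P η h) (J : List Bool) (hJ : true ∈ J) (n : ℕ) (x : Z2) (n' : ℕ) (x' : Z2)
    (hn : n + J.length * M < n' ∨ n' + J.length * M < n) :
    Gm P η M g1 J n x n' x' = 0 := by
  induction J generalizing n x n' x' with
  | nil => simp at hJ
  | cons b J ih =>
    rw [List.length_cons] at hn
    have e : (J.length + 1) * M = J.length * M + M := by ring
    rw [e] at hn
    cases b with
    | true =>
      rw [g.Gm_true]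
      apply Finset.sum_eq_zero
      intro k hk
      apply Finset.sum_eq_zero
      intro k' hk'
      have h1 := Finset.mem_Icc.1 hk
      have h2 := Finset.mem_Icc.1 hk'
      have h3 : ¬ (n + k = n' + k') := by
        have : 0 ≤ J.length * M := Nat.zero_le _
        omega
      simp only [if_neg h3, A_const]
    | false =>
      rw [g.Gm_false]
      apply Finset.sum_eq_zero
      intro k hk
      apply Finset.sum_eq_zero
      intro k' hk'
      have h1 := Finset.mem_Icc.1 hk
      have h2 := Finset.mem_Icc.1 hk'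
      have hJ' : true ∈ J := by simpa using hJ
      have h3 : ∀ y y', Gm P η M g1 J (n + k) y (n' + k') y' = 0 := by
        intro y y'
        apply ih hJ'
        omega
      simp only [h3, mul_zero, A_const]

theorem sum_A_shift (B : Finset Z2) {C : ℝ} (k : ℕ) (f : Z2 → ℝ) (hf : ∀ v, ∑ x ∈ B, f (x + v) ≤ C)
    (v : Z2) : ∑ x ∈ B, A k f (x + v) ≤ C := by
  have h1 : ∀ x ∈ B, A k f (x + v) = A k (fun y => f (x + y)) v := by
    intro x _
    rw [← A_shift, show (fun y => f (x + y)) = fun y => f (y + x) from funext fun y => by rw [add_comm],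
      A_shift, A_shift, add_comm]
  rw [Finset.sum_congr rfl h1, ← A_sum]
  calc A k (fun y => ∑ x ∈ B, f (x + y)) v ≤ A k (fun _ => C) v := A_mono fun y => hf y
    _ = C := A_const _ _ _

theorem Gm_loc (g : GEnv P η h) (cb : CB h M g1 ρ ρ' S) (B : Finset Z2) {HB : ℝ} (hHB0 : 0 ≤ HB)
    (hHB : ∀ m v, ∑ x ∈ B, |g1 m (x + v)| ≤ HB) (J : List Bool) (hJ : false ∈ J) :
    ∃ Λ : ℕ → Z2 → ℝ, (∀ n x, 0 ≤ Λ n x) ∧ (∀ n x x', |Gm P η M g1 J n x n x'| ≤ Λ n x) ∧
      ∀ n v, ∑ x ∈ B, Λ n (x + v) ≤ M * HB * S ^ J.length := by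
  have hS0 : 0 ≤ S := le_trans zero_le_one cb.S1
  induction J with
  | nil => simp at hJ
  | cons b J ih =>
    have hSJ : 0 ≤ S ^ J.length := pow_nonneg hS0 _
    by_cases hb : b = false
    · subst hb
      refine ⟨fun n x => S ^ (J.length + 1) * ∑ k ∈ Icc 1 M, A k (fun y => |g1 (n + k) y|) x, ?_, ?_, ?_⟩
      · intro n x
        exact mul_nonneg (pow_nonneg hS0 _) (Finset.sum_nonneg fun k _ => A_nonneg fun y => abs_nonneg _)
      · intro n x x'
        rw [g.Gm_false]
        refine (Finset.abs_sum_le_sum_abs _ _).trans ?_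
        beta_reduce
        rw [Finset.mul_sum]
        apply Finset.sum_le_sum
        intro k hk
        have h1 : |∑ k' ∈ Icc 1 M, A k (fun y => A k' (fun y' => g1 (n + k) y * g1 (n + k') y' *
          Gm P η M g1 J (n + k) y (n + k') y') x') x| ≤
            ∑ k' ∈ Icc 1 M, S ^ J.length * (A k (fun y => |g1 (n + k) y|) x * ρ' k') := by
          refine (Finset.abs_sum_le_sum_abs _ _).trans (Finset.sum_le_sum fun k' hk' => ?_)
          refine (abs_A2_le k k' _ x x').trans ?_
          calc A k (fun y => A k' (fun y' => |g1 (n + k) y * g1 (n + k') y' *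
                Gm P η M g1 J (n + k) y (n + k') y'|) x') x ≤
              A k (fun y => A k' (fun y' => S ^ J.length * (|g1 (n + k) y| * |g1 (n + k') y'|)) x') x := by
                apply A_mono; intro y
                apply A_mono; intro y'
                rw [abs_mul, abs_mul, mul_comm]
                exact mul_le_mul_of_nonneg_right (crude g cb J _ _ _ _) (by positivity)
            _ = S ^ J.length * (A k (fun y => |g1 (n + k) y|) x * A k' (fun y' => |g1 (n + k') y'|) x') := by
                rw [A_mul_A]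
                simp only [A_mul_left]
            _ ≤ S ^ J.length * (A k (fun y => |g1 (n + k) y|) x * ρ' k') := by
                apply mul_le_mul_of_nonneg_left _ hSJ
                exact mul_le_mul_of_nonneg_left (cb.hg _ k' hk' x') (A_nonneg fun y => abs_nonneg _)
        refine h1.trans ?_
        rw [← Finset.mul_sum, ← Finset.mul_sum, pow_succ, mul_assoc]
        apply mul_le_mul_of_nonneg_left _ hSJ
        rw [mul_comm]
        exact mul_le_mul_of_nonneg_right cb.SG' (A_nonneg fun y => abs_nonneg _)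
      · intro n v
        beta_reduce
        rw [← Finset.mul_sum, Finset.sum_comm, List.length_cons]
        have h2 : ∀ k ∈ Icc 1 M, ∑ x ∈ B, A k (fun y => |g1 (n + k) y|) (x + v) ≤ HB := by
          intro k _
          exact sum_A_shift B k (fun y => |g1 (n + k) y|) (fun v => hHB (n + k) v) v
        have h3 := Finset.sum_le_sum h2
        rw [Finset.sum_const, Nat.card_Icc, nsmul_eq_mul] at h3
        have h4 : (((M + 1 - 1 : ℕ)) : ℝ) = M := by simp
        rw [h4] at h3
        calc _ ≤ S ^ (J.length + 1) * (M * HB) := mul_le_mul_of_nonneg_left h3 (pow_nonneg hS0 _)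
          _ = _ := by ring
    · have hb' : b = true := by cases b <;> simp_all
      subst hb'
      have hJ' : false ∈ J := by simpa using hJ
      obtain ⟨Λ, hΛ0, hΛ1, hΛ2⟩ := ih hJ'
      refine ⟨fun n x => ∑ k ∈ Icc 1 M, ρ k * A k (fun y => Λ (n + k) y) x, ?_, ?_, ?_⟩
      · intro n x
        exact Finset.sum_nonneg fun k _ => mul_nonneg (cb.r0 k) (A_nonneg fun y => hΛ0 _ _)
      · intro n x x'
        rw [g.Gm_true]
        refine (Finset.abs_sum_le_sum_abs _ _).trans (Finset.sum_le_sum fun k hk => ?_)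
        have h1 : ∑ k' ∈ Icc 1 M, A k (fun y => A k' (fun y' => if n + k = n + k' then
          h (y - y') * Gm P η M g1 J (n + k) y (n + k') y' else 0) x') x =
            A k (fun y => A k (fun y' => h (y - y') * Gm P η M g1 J (n + k) y (n + k) y') x') x := by
          rw [Finset.sum_eq_single_of_mem k hk]
          · simp
          · intro k' _ hk'
            have : ¬ (n + k = n + k') := by omega
            simp only [if_neg this, A_const]
        rw [h1]
        refine (abs_A2_le k k _ x x').trans ?_
        rw [← A_mul_left]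
        apply A_mono
        intro y
        calc A k (fun y' => |h (y - y') * Gm P η M g1 J (n + k) y (n + k) y'|) x' ≤
            A k (fun y' => Λ (n + k) y * |h (y' - y)|) x' := by
              apply A_mono
              intro y'
              rw [abs_mul, mul_comm, ← cb.sym, neg_sub]
              exact mul_le_mul_of_nonneg_right (hΛ1 _ _ _) (abs_nonneg _)
          _ = Λ (n + k) y * A k (fun y' => |h (y' - y)|) x' := A_mul_left _ _ _ _
          _ ≤ Λ (n + k) y * ρ k := mul_le_mul_of_nonneg_left (cb.hr k hk y x') (hΛ0 _ _)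
          _ = ρ k * Λ (n + k) y := mul_comm _ _
      · intro n v
        beta_reduce
        rw [Finset.sum_comm, List.length_cons]
        have h2 : ∀ k ∈ Icc 1 M, ∑ x ∈ B, ρ k * A k (fun y => Λ (n + k) y) (x + v) ≤
            ρ k * (M * HB * S ^ J.length) := by
          intro k _
          rw [← Finset.mul_sum]
          exact mul_le_mul_of_nonneg_left (sum_A_shift B k (fun y => Λ (n + k) y)
            (fun v => hΛ2 (n + k) v) v) (cb.r0 k)
        refine (Finset.sum_le_sum h2).trans ?_
        rw [← Finset.sum_mul]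
        calc (∑ k ∈ Icc 1 M, ρ k) * (M * HB * S ^ J.length) ≤ S * (M * HB * S ^ J.length) :=
              mul_le_mul_of_nonneg_right cb.SG (by positivity)
          _ = _ := by rw [pow_succ]; ring

/-- covariance of the pure chaos -/
noncomputable def Gam (M : ℕ) (h : Z2 → ℝ) : ℕ → Z2 → ℝ
  | 0, _ => 1
  | j + 1, z => ∑ k ∈ Icc 1 M, Qn k (fun y => |h y| * Gam M h j y) z

theorem Gm_rep (g : GEnv P η h) (j : ℕ) (n : ℕ) (x x' : Z2) :
    |Gm P η M g1 (List.replicate j true) n x n x'| ≤ Gam M h j (x - x') := by
  have hP := g.prob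
  induction j generalizing n x x' with
  | zero => rw [List.replicate_zero, Gm_nil]; simp [Gam]
  | succ j ih =>
    rw [List.replicate_succ, g.Gm_true]
    refine (Finset.abs_sum_le_sum_abs _ _).trans (Finset.sum_le_sum fun k hk => ?_)
    have h1 : ∑ k' ∈ Icc 1 M, A k (fun y => A k' (fun y' => if n + k = n + k' then
      h (y - y') * Gm P η M g1 (List.replicate j true) (n + k) y (n + k') y' else 0) x') x =
        A k (fun y => A k (fun y' => h (y - y') * Gm P η M g1 (List.replicate j true) (n + k) y (n + k) y') x') x := by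
      rw [Finset.sum_eq_single_of_mem k hk]
      · simp
      · intro k' _ hk'
        have : ¬ (n + k = n + k') := by omega
        simp only [if_neg this, A_const]
    rw [h1]
    refine (abs_A2_le k k _ x x').trans ?_
    rw [← A_A_diff k (fun y => |h y| * Gam M h j y)]
    apply A_mono
    intro y
    apply A_mono
    intro y'
    rw [abs_mul]
    exact mul_le_mul_of_nonneg_left (ih _ _ _) (abs_nonneg _)

end Pool.Agent.Helper97.CP
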