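import Pool.Agent.Helper97.CP2.Ch2

set_option autoImplicit false

open MeasureTheory ProbabilityTheory Filter Finset

namespace Pool.Agent.Helper97.CP

variable {Ω : Type*} [MeasurableSpace Ω] {P : Measure Ω} {η : ℕ → Z2 → Ω → ℝ} {h : Z2 → ℝ}
variable {M : ℕ} {g1 : Env} {ρ ρ' : ℕ → ℝ} {S : ℝ}

/-- the mixed functional -/
noncomputable def Xc (L : ℕ) (B : Finset Z2) (M : ℕ) (v g1 : Env) (b : Bool) (J : List Bool) : ℝ :=
  ∑ n ∈ Icc 1 L, ∑ x ∈ B, (if b then v n x else g1 n x) * Yc M v g1 J n x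

/-- the functional -/
noncomputable def Xt (L : ℕ) (B : Finset Z2) (M : ℕ) (j : ℕ) (v : Env) : ℝ :=
  ∑ n ∈ Icc 1 L, ∑ x ∈ B, v n x * Yt M v j n x

theorem Yt_expand (M : ℕ) (v g1 : Env) (j : ℕ) (n : ℕ) (x : Z2) :
    Yt M (fun n x => v n x + g1 n x) j n x = ∑ σ : Fin j → Bool, Yc M v g1 (List.ofFn σ) n x := by
  induction j generalizing n x with
  | zero => simp [Yt, Yc]
  | succ j ih =>
    rw [← (Fin.consEquiv (fun _ : Fin (j + 1) => Bool)).sum_comp, Fintype.sum_prod_type]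
    have h1 : ∀ (b : Bool) (σ : Fin j → Bool), Yc M v g1
        (List.ofFn ((Fin.consEquiv (fun _ : Fin (j + 1) => Bool)) (b, σ))) n x =
        ∑ k ∈ Icc 1 M, A k (fun y => (if b then v (n + k) y else g1 (n + k) y) *
          Yc M v g1 (List.ofFn σ) (n + k) y) x := by
      intro b σ
      have : List.ofFn ((Fin.consEquiv (fun _ : Fin (j + 1) => Bool)) (b, σ)) = b :: List.ofFn σ := by
        show List.ofFn (Fin.cons b σ : Fin (j + 1) → Bool) = _
        rw [List.ofFn_succ]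
        simp
      rw [this]
      rfl
    simp only [h1]
    rw [Fintype.sum_bool, Finset.sum_comm, Finset.sum_comm (s := (univ : Finset (Fin j → Bool))),
      ← Finset.sum_add_distrib]
    show ∑ k ∈ Icc 1 M, _ = _
    apply Finset.sum_congr rfl
    intro k _
    simp only [ih, Bool.false_eq_true, if_false, if_true]
    rw [← A_sum, ← A_sum, ← A_add]
    apply A_congr
    intro y
    rw [add_mul, Finset.mul_sum, Finset.mul_sum]

theorem Xt_expand (L : ℕ) (B : Finset Z2) (M : ℕ) (v g1 : Env) (j : ℕ) :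
    Xt L B M j (fun n x => v n x + g1 n x) =
      ∑ i : Bool × (Fin j → Bool), Xc L B M v g1 i.1 (List.ofFn i.2) := by
  unfold Xt Xc
  conv_rhs => rw [Finset.sum_comm]
  apply Finset.sum_congr rfl
  intro n _
  conv_rhs => rw [Finset.sum_comm]
  apply Finset.sum_congr rfl
  intro x _
  rw [Yt_expand, Fintype.sum_prod_type, Fintype.sum_bool]
  simp only [Bool.false_eq_true, if_false, if_true]
  rw [add_mul, Finset.mul_sum, Finset.mul_sum]

theorem Yc_true (M : ℕ) (v g1 : Env) (j : ℕ) (n : ℕ) (x : Z2) :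
    Yc M v g1 (List.replicate j true) n x = Yt M v j n x := by
  induction j generalizing n x with
  | zero => rfl
  | succ j ih =>
    rw [List.replicate_succ]
    show ∑ k ∈ Icc 1 M, _ = ∑ k ∈ Icc 1 M, _
    apply Finset.sum_congr rfl
    intro k _
    apply A_congr
    intro y
    rw [ih]
    simp

theorem Yc_false (M : ℕ) (v g1 : Env) (j : ℕ) (n : ℕ) (x : Z2) :
    Yc M v g1 (List.replicate j false) n x = Yt M g1 j n x := by
  induction j generalizing n x with
  | zero => rfl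
  | succ j ih =>
    rw [List.replicate_succ]
    show ∑ k ∈ Icc 1 M, _ = ∑ k ∈ Icc 1 M, _
    apply Finset.sum_congr rfl
    intro k _
    apply A_congr
    intro y
    rw [ih]
    simp

theorem Xc_true (L : ℕ) (B : Finset Z2) (M : ℕ) (v g1 : Env) (j : ℕ) :
    Xc L B M v g1 true (List.replicate j true) = Xt L B M j v := by
  unfold Xc Xt
  simp only [Yc_true, if_true]

theorem Xc_false (L : ℕ) (B : Finset Z2) (M : ℕ) (v g1 : Env) (j : ℕ) :
    Xc L B M v g1 false (List.replicate j false) = Xt L B M j g1 := by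
  unfold Xc Xt
  simp only [Yc_false, Bool.false_eq_true, if_false]

theorem GEnv.memLp_Xc (g : GEnv P η h) (L : ℕ) (B : Finset Z2) (M : ℕ) (g1 : Env) (b : Bool)
    (J : List Bool) : MemLp (fun w => Xc L B M (En η w) g1 b J) 2 P := by
  unfold Xc
  apply memLp_finsetSum
  intro n _
  apply memLp_finsetSum
  intro x _
  cases b with
  | true =>
    simp only [if_true]
    exact g.memLp_mul n x (measurable_Yc M g1 J n x) (Yc_depS M g1 J n x) (g.memLp_Yc M g1 J _ _)
  | false =>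
    simp only [Bool.false_eq_true, if_false]
    exact (g.memLp_Yc M g1 J _ _).const_mul _

theorem GEnv.Xc_sq_true (g : GEnv P η h) (L : ℕ) (B : Finset Z2) (M : ℕ) (g1 : Env) (J : List Bool) :
    ∫ w, Xc L B M (En η w) g1 true J ^ 2 ∂P =
      ∑ n ∈ Icc 1 L, ∑ x ∈ B, ∑ x' ∈ B, h (x - x') * Gm P η M g1 J n x n x' := by
  have hi : ∀ n n' (y y' : Z2), Integrable (fun w => (η n y w * Yc M (En η w) g1 J n y) *
      (η n' y' w * Yc M (En η w) g1 J n' y')) P := by
    intro n n' y y'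
    exact (g.memLp_mul n y (measurable_Yc M g1 J n y) (Yc_depS M g1 J n y)
      (g.memLp_Yc M g1 J _ _)).integrable_mul (g.memLp_mul n' y'
      (measurable_Yc M g1 J n' y') (Yc_depS M g1 J n' y') (g.memLp_Yc M g1 J _ _))
  have e1 : ∀ w, Xc L B M (En η w) g1 true J ^ 2 = ∑ n ∈ Icc 1 L, ∑ n' ∈ Icc 1 L, ∑ x ∈ B, ∑ x' ∈ B,
      (η n x w * Yc M (En η w) g1 J n x) * (η n' x' w * Yc M (En η w) g1 J n' x') := by
    intro w
    unfold Xc
    simp only [if_true]
    rw [sq, Finset.sum_mul_sum]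
    apply Finset.sum_congr rfl
    intro n _
    apply Finset.sum_congr rfl
    intro n' _
    rw [Finset.sum_mul_sum]
    rfl
  simp only [e1]
  rw [integral_finsetSum _ (fun n _ => integrable_finsetSum _ fun n' _ =>
    integrable_finsetSum _ fun x _ => integrable_finsetSum _ fun x' _ => hi n n' x x')]
  apply Finset.sum_congr rfl
  intro n hn
  rw [integral_finsetSum _ (fun n' _ =>
    integrable_finsetSum _ fun x _ => integrable_finsetSum _ fun x' _ => hi n n' x x')]
  have e2 : ∀ n' : ℕ, ∫ w, ∑ x ∈ B, ∑ x' ∈ B, (η n x w * Yc M (En η w) g1 J n x) *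
      (η n' x' w * Yc M (En η w) g1 J n' x') ∂P =
      ∑ x ∈ B, ∑ x' ∈ B, if n = n' then h (x - x') * Gm P η M g1 J n x n' x' else 0 := by
    intro n'
    rw [integral_finsetSum _ (fun x _ => integrable_finsetSum _ fun x' _ => hi n n' x x')]
    apply Finset.sum_congr rfl
    intro x _
    rw [integral_finsetSum _ (fun x' _ => hi n n' x x')]
    apply Finset.sum_congr rfl
    intro x' _
    exact g.cov_mul n n' x x' (measurable_Yc M g1 J n x)
      (measurable_Yc M g1 J n' x') (Yc_depS M g1 J n x) (Yc_depS M g1 J n' x')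
  simp only [e2]
  rw [Finset.sum_eq_single_of_mem n hn]
  · simp
  · intro n' _ hn'
    simp [hn'.symm]

theorem GEnv.Xc_sq_false (g : GEnv P η h) (L : ℕ) (B : Finset Z2) (M : ℕ) (g1 : Env) (J : List Bool) :
    ∫ w, Xc L B M (En η w) g1 false J ^ 2 ∂P =
      ∑ n ∈ Icc 1 L, ∑ n' ∈ Icc 1 L, ∑ x ∈ B, ∑ x' ∈ B, g1 n x * g1 n' x' * Gm P η M g1 J n x n' x' := by
  have hi : ∀ n n' (y y' : Z2), Integrable (fun w => (g1 n y * Yc M (En η w) g1 J n y) *
      (g1 n' y' * Yc M (En η w) g1 J n' y')) P := by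
    intro n n' y y'
    exact ((g.memLp_Yc M g1 J _ _).const_mul _).integrable_mul ((g.memLp_Yc M g1 J _ _).const_mul _)
  have e1 : ∀ w, Xc L B M (En η w) g1 false J ^ 2 = ∑ n ∈ Icc 1 L, ∑ n' ∈ Icc 1 L, ∑ x ∈ B, ∑ x' ∈ B,
      (g1 n x * Yc M (En η w) g1 J n x) * (g1 n' x' * Yc M (En η w) g1 J n' x') := by
    intro w
    unfold Xc
    simp only [Bool.false_eq_true, if_false]
    rw [sq, Finset.sum_mul_sum]
    apply Finset.sum_congr rfl
    intro n _
    apply Finset.sum_congr rfl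
    intro n' _
    rw [Finset.sum_mul_sum]
  simp only [e1]
  rw [integral_finsetSum _ (fun n _ => integrable_finsetSum _ fun n' _ =>
    integrable_finsetSum _ fun x _ => integrable_finsetSum _ fun x' _ => hi n n' x x')]
  apply Finset.sum_congr rfl
  intro n hn
  rw [integral_finsetSum _ (fun n' _ =>
    integrable_finsetSum _ fun x _ => integrable_finsetSum _ fun x' _ => hi n n' x x')]
  apply Finset.sum_congr rfl
  intro n' _
  rw [integral_finsetSum _ (fun x _ => integrable_finsetSum _ fun x' _ => hi n n' x x')]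
  apply Finset.sum_congr rfl
  intro x _
  rw [integral_finsetSum _ (fun x' _ => hi n n' x x')]
  apply Finset.sum_congr rfl
  intro x' _
  unfold Gm
  rw [← integral_const_mul]
  congr 1
  funext w
  ring

theorem Xt_sq_le (g : GEnv P η h) (L : ℕ) (B : Finset Z2) (j : ℕ) {GG HB2 : ℝ} (hGG0 : 0 ≤ GG)
    (hG : ∀ z, Gam M h j z ≤ GG) (hs : ∀ z, h (-z) = h z) (hHB2 : ∀ v, ∑ x ∈ B, |h (x - v)| ≤ HB2) :
    ∫ w, Xt L B M j (En η w) ^ 2 ∂P ≤ L * (B.card * (HB2 * GG)) := by
  have e : ∀ w, Xt L B M j (En η w) = Xc L B M (En η w) 0 true (List.replicate j true) := fun w =>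
    (Xc_true L B M (En η w) 0 j).symm
  simp only [e]
  rw [g.Xc_sq_true]
  have h1 : ∀ n ∈ Icc 1 L, ∑ x ∈ B, ∑ x' ∈ B, h (x - x') * Gm P η M 0 (List.replicate j true) n x n x' ≤
      B.card * (HB2 * GG) := by
    intro n _
    have h2 : ∀ x ∈ B, ∑ x' ∈ B, h (x - x') * Gm P η M 0 (List.replicate j true) n x n x' ≤
        HB2 * GG := by
      intro x _
      calc ∑ x' ∈ B, h (x - x') * Gm P η M 0 (List.replicate j true) n x n x' ≤
          ∑ x' ∈ B, |h (x' - x)| * GG := by
            apply Finset.sum_le_sum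
            intro x' _
            refine (le_abs_self _).trans ?_
            rw [abs_mul, ← hs, neg_sub]
            exact mul_le_mul_of_nonneg_left ((Gm_rep g j n x x').trans (hG _)) (abs_nonneg _)
        _ = (∑ x' ∈ B, |h (x' - x)|) * GG := by rw [Finset.sum_mul]
        _ ≤ _ := mul_le_mul_of_nonneg_right (hHB2 x) hGG0
    refine (Finset.sum_le_sum h2).trans ?_
    rw [Finset.sum_const, nsmul_eq_mul]
  refine (Finset.sum_le_sum h1).trans ?_
  rw [Finset.sum_const, Nat.card_Icc, nsmul_eq_mul]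
  simp

theorem Xc_sq_le_true (g : GEnv P η h) (cb : CB h M g1 ρ ρ' S) (L : ℕ) (B : Finset Z2)
    {HB1 HB2 : ℝ} (hHB0 : 0 ≤ HB1) (hHB1 : ∀ m v, ∑ x ∈ B, |g1 m (x + v)| ≤ HB1)
    (hHB2 : ∀ v, ∑ x ∈ B, |h (x - v)| ≤ HB2) (hHB20 : 0 ≤ HB2) (J : List Bool) (hJ : false ∈ J) :
    ∫ w, Xc L B M (En η w) g1 true J ^ 2 ∂P ≤ L * (HB2 * (M * HB1 * S ^ J.length)) := by
  rw [g.Xc_sq_true]
  obtain ⟨Λ, hΛ0, hΛ1, hΛ2⟩ := Gm_loc g cb B hHB0 hHB1 J hJ
  have h1 : ∀ n ∈ Icc 1 L, ∑ x ∈ B, ∑ x' ∈ B, h (x - x') * Gm P η M g1 J n x n x' ≤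
      HB2 * (M * HB1 * S ^ J.length) := by
    intro n _
    have h2 : ∀ x ∈ B, ∑ x' ∈ B, h (x - x') * Gm P η M g1 J n x n x' ≤ HB2 * Λ n x := by
      intro x _
      calc ∑ x' ∈ B, h (x - x') * Gm P η M g1 J n x n x' ≤
          ∑ x' ∈ B, |h (x' - x)| * Λ n x := by
            apply Finset.sum_le_sum
            intro x' _
            refine (le_abs_self _).trans ?_
            rw [abs_mul, ← cb.sym, neg_sub]
            exact mul_le_mul_of_nonneg_left (hΛ1 _ _ _) (abs_nonneg _)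
        _ = (∑ x' ∈ B, |h (x' - x)|) * Λ n x := by rw [Finset.sum_mul]
        _ ≤ _ := mul_le_mul_of_nonneg_right (hHB2 x) (hΛ0 _ _)
    refine (Finset.sum_le_sum h2).trans ?_
    rw [← Finset.mul_sum]
    apply mul_le_mul_of_nonneg_left _ hHB20
    have := hΛ2 n 0
    simpa using this
  refine (Finset.sum_le_sum h1).trans ?_
  rw [Finset.sum_const, Nat.card_Icc, nsmul_eq_mul]
  simp

theorem card_near (L D n : ℕ) :
    (((Icc 1 L).filter (fun n' => n' ≤ n + D ∧ n ≤ n' + D)).card : ℝ) ≤ 2 * D + 1 := by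
  have h1 : (Icc 1 L).filter (fun n' => n' ≤ n + D ∧ n ≤ n' + D) ⊆ Icc (n - D) (n + D) := by
    intro n' hn'
    rw [Finset.mem_filter] at hn'
    rw [Finset.mem_Icc]
    omega
  have h2 := Finset.card_le_card h1
  rw [Nat.card_Icc] at h2
  have h3 : ((Icc 1 L).filter (fun n' => n' ≤ n + D ∧ n ≤ n' + D)).card ≤ 2 * D + 1 := by omega
  exact_mod_cast h3

theorem Xc_sq_le_false (g : GEnv P η h) (cb : CB h M g1 ρ ρ' S) (L : ℕ) (B : Finset Z2)
    {HB1 : ℝ} (hHB0 : 0 ≤ HB1) (hHB1 : ∀ m v, ∑ x ∈ B, |g1 m (x + v)| ≤ HB1)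
    (J : List Bool) (hJ : true ∈ J) :
    ∫ w, Xc L B M (En η w) g1 false J ^ 2 ∂P ≤
      L * ((2 * (J.length * M : ℕ) + 1) * (HB1 ^ 2 * S ^ J.length)) := by
  have hS0 : 0 ≤ S := le_trans zero_le_one cb.S1
  rw [g.Xc_sq_false]
  have h1 : ∀ n ∈ Icc 1 L, ∑ n' ∈ Icc 1 L, ∑ x ∈ B, ∑ x' ∈ B,
      g1 n x * g1 n' x' * Gm P η M g1 J n x n' x' ≤
      (2 * (J.length * M : ℕ) + 1) * (HB1 ^ 2 * S ^ J.length) := by
    intro n _
    have h2 : ∀ n' ∈ Icc 1 L, ∑ x ∈ B, ∑ x' ∈ B, g1 n x * g1 n' x' * Gm P η M g1 J n x n' x' ≤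
        if n' ≤ n + J.length * M ∧ n ≤ n' + J.length * M then HB1 ^ 2 * S ^ J.length else 0 := by
      intro n' _
      split_ifs with hc
      · calc ∑ x ∈ B, ∑ x' ∈ B, g1 n x * g1 n' x' * Gm P η M g1 J n x n' x' ≤
            ∑ x ∈ B, ∑ x' ∈ B, |g1 n x| * |g1 n' x'| * S ^ J.length := by
              apply Finset.sum_le_sum
              intro x _
              apply Finset.sum_le_sum
              intro x' _
              refine (le_abs_self _).trans ?_
              rw [abs_mul, abs_mul]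
              exact mul_le_mul_of_nonneg_left (crude g cb J _ _ _ _) (by positivity)
          _ = (∑ x ∈ B, |g1 n x|) * (∑ x' ∈ B, |g1 n' x'|) * S ^ J.length := by
              rw [Finset.sum_mul_sum, Finset.sum_mul]
              apply Finset.sum_congr rfl
              intro x _
              rw [Finset.sum_mul]
          _ ≤ HB1 * HB1 * S ^ J.length := by
              apply mul_le_mul_of_nonneg_right _ (pow_nonneg hS0 _)
              have k1 := hHB1 n 0
              have k2 := hHB1 n' 0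
              simp only [add_zero] at k1 k2
              exact mul_le_mul k1 k2 (Finset.sum_nonneg fun _ _ => abs_nonneg _) hHB0
          _ = _ := by ring
      · apply le_of_eq
        apply Finset.sum_eq_zero
        intro x _
        apply Finset.sum_eq_zero
        intro x' _
        rw [Gm_zero g J hJ n x n' x' (by omega), mul_zero]
    refine (Finset.sum_le_sum h2).trans ?_
    rw [← Finset.sum_filter, Finset.sum_const, nsmul_eq_mul]
    apply mul_le_mul_of_nonneg_right _ (by positivity)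
    exact card_near L (J.length * M) n
  refine (Finset.sum_le_sum h1).trans ?_
  rw [Finset.sum_const, Nat.card_Icc, nsmul_eq_mul]
  simp

theorem ofFn_cases {j : ℕ} (σ : Fin j → Bool) :
    (List.ofFn σ = List.replicate j true ∨ false ∈ List.ofFn σ) := by
  by_cases h1 : false ∈ List.ofFn σ
  · exact Or.inr h1
  · left
    rw [List.eq_replicate_iff]
    refine ⟨by simp, ?_⟩
    intro b hb
    cases b with
    | true => rfl
    | false => exact absurd hb h1

theorem ofFn_cases' {j : ℕ} (σ : Fin j → Bool) :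
    (List.ofFn σ = List.replicate j false ∨ true ∈ List.ofFn σ) := by
  by_cases h1 : true ∈ List.ofFn σ
  · exact Or.inr h1
  · left
    rw [List.eq_replicate_iff]
    refine ⟨by simp, ?_⟩
    intro b hb
    cases b with
    | false => rfl
    | true => exact absurd hb h1

/-- fluctuations around the drift -/
theorem Xt_diff_le (g : GEnv P η h) (cb : CB h M g1 ρ ρ' S) (L : ℕ) (B : Finset Z2) (j : ℕ)
    {HB1 HB2 GG : ℝ} (hHB0 : 0 ≤ HB1) (hHB1 : ∀ m v, ∑ x ∈ B, |g1 m (x + v)| ≤ HB1)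
    (hHB2 : ∀ v, ∑ x ∈ B, |h (x - v)| ≤ HB2) (hHB20 : 0 ≤ HB2) (hGG0 : 0 ≤ GG)
    (hG : ∀ z, Gam M h j z ≤ GG) {e1 : ℝ}
    (he1 : L * (HB2 * (M * HB1 * S ^ j)) ≤ e1)
    (he2 : L * ((2 * (j * M : ℕ) + 1) * (HB1 ^ 2 * S ^ j)) ≤ e1) :
    Integrable (fun w => (Xt L B M j (fun n x => η n x w + g1 n x) - Xt L B M j g1) ^ 2) P ∧
    ∫ w, (Xt L B M j (fun n x => η n x w + g1 n x) - Xt L B M j g1) ^ 2 ∂P ≤
      2 * (L * (B.card * (HB2 * GG))) + 2 * (4 ^ (j + 1) * e1) := by
  classical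
  set I := (univ : Finset (Bool × (Fin j → Bool))) with hI
  set i0 : Bool × (Fin j → Bool) := (false, fun _ => false) with hi0
  set i1 : Bool × (Fin j → Bool) := (true, fun _ => true) with hi1
  set I' := (I.erase i0).erase i1 with hI'
  set a : Ω → Bool × (Fin j → Bool) → ℝ := fun w i => Xc L B M (En η w) g1 i.1 (List.ofFn i.2) with ha
  have hne : i1 ∈ I.erase i0 := by
    rw [Finset.mem_erase]
    refine ⟨?_, mem_univ _⟩
    intro h
    have := congrArg Prod.fst h
    simp [hi0, hi1] at this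
  have ea0 : ∀ w, a w i0 = Xt L B M j g1 := by
    intro w
    show Xc L B M (En η w) g1 false (List.ofFn fun _ => false) = _
    rw [List.ofFn_const, Xc_false]
  have ea1 : ∀ w, a w i1 = Xt L B M j (En η w) := by
    intro w
    show Xc L B M (En η w) g1 true (List.ofFn fun _ => true) = _
    rw [List.ofFn_const, Xc_true]
  have e1' : ∀ w, Xt L B M j (fun n x => η n x w + g1 n x) - Xt L B M j g1 =
      a w i1 + ∑ i ∈ I', a w i := by
    intro w
    have h1 : Xt L B M j (fun n x => η n x w + g1 n x) = ∑ i ∈ I, a w i :=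
      Xt_expand L B M (En η w) g1 j
    rw [h1, ← Finset.add_sum_erase I (a w) (mem_univ i0), ← Finset.add_sum_erase _ (a w) hne, ea0]
    ring
  have hmem : ∀ i, MemLp (fun w => a w i) 2 P := fun i => g.memLp_Xc L B M g1 i.1 _
  have hsumm : MemLp (fun w => ∑ i ∈ I', a w i) 2 P := memLp_finsetSum _ fun i _ => hmem i
  have htot : MemLp (fun w => a w i1 + ∑ i ∈ I', a w i) 2 P := (hmem i1).add hsumm
  simp only [e1']
  refine ⟨htot.integrable_sq, ?_⟩
  have hcard : (I'.card : ℝ) ≤ 2 ^ (j + 1) := by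
    have h1 : I'.card ≤ I.card := Finset.card_le_card ((Finset.erase_subset _ _).trans (Finset.erase_subset _ _))
    have h2 : I.card = 2 ^ (j + 1) := by
      rw [hI, Finset.card_univ]
      simp [pow_succ, mul_comm]
    rw [h2] at h1
    exact_mod_cast h1
  have hmix : ∀ i ∈ I', ∫ w, a w i ^ 2 ∂P ≤ e1 := by
    intro i hi
    rw [hI', Finset.mem_erase, Finset.mem_erase] at hi
    obtain ⟨hi1', hi0', -⟩ := hi
    obtain ⟨b, σ⟩ := i
    have hlen : (List.ofFn σ).length = j := List.length_ofFn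
    cases b with
    | true =>
      rcases ofFn_cases σ with h1 | h1
      · exfalso
        apply hi1'
        rw [hi1]
        congr 1
        rw [← List.ofFn_const] at h1
        exact List.ofFn_injective h1
      · have := Xc_sq_le_true g cb L B hHB0 hHB1 hHB2 hHB20 (List.ofFn σ) h1
        rw [hlen] at this
        exact this.trans he1
    | false =>
      rcases ofFn_cases' σ with h1 | h1
      · exfalso
        apply hi0'
        rw [hi0]
        congr 1
        rw [← List.ofFn_const] at h1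
        exact List.ofFn_injective h1
      · have := Xc_sq_le_false g cb L B hHB0 hHB1 (List.ofFn σ) h1
        rw [hlen] at this
        exact this.trans he2
  have hpt : ∀ w, (a w i1 + ∑ i ∈ I', a w i) ^ 2 ≤
      2 * a w i1 ^ 2 + 2 * (2 ^ (j + 1) * ∑ i ∈ I', a w i ^ 2) := by
    intro w
    have h1 : (∑ i ∈ I', a w i) ^ 2 ≤ I'.card * ∑ i ∈ I', a w i ^ 2 := sq_sum_le_card_mul_sum_sq
    have h2 : 0 ≤ ∑ i ∈ I', a w i ^ 2 := Finset.sum_nonneg fun i _ => sq_nonneg _
    have h3 : I'.card * ∑ i ∈ I', a w i ^ 2 ≤ 2 ^ (j + 1) * ∑ i ∈ I', a w i ^ 2 :=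
      mul_le_mul_of_nonneg_right hcard h2
    nlinarith [sq_nonneg (a w i1 - ∑ i ∈ I', a w i)]
  have hi2 : ∀ i, Integrable (fun w => a w i ^ 2) P := fun i => (hmem i).integrable_sq
  have hint : Integrable (fun w => 2 * a w i1 ^ 2 + 2 * (2 ^ (j + 1) * ∑ i ∈ I', a w i ^ 2)) P :=
    ((hi2 i1).const_mul 2).add (((integrable_finsetSum _ fun i _ => hi2 i).const_mul _).const_mul _)
  have h1 := integral_mono htot.integrable_sq hint hpt
  refine h1.trans ?_
  rw [integral_add ((hi2 i1).const_mul 2) (((integrable_finsetSum _ fun i _ => hi2 i).const_mul _).const_mul _),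
    integral_const_mul, integral_const_mul, integral_const_mul, integral_finsetSum _ (fun i _ => hi2 i)]
  have h2 : ∫ w, a w i1 ^ 2 ∂P ≤ L * (B.card * (HB2 * GG)) := by
    simp only [ea1]
    exact Xt_sq_le g L B j hGG0 hG cb.sym hHB2
  have he0 : 0 ≤ e1 := by
    refine le_trans ?_ he1
    have hS0 : 0 ≤ S := le_trans zero_le_one cb.S1
    positivity
  have h3 : ∑ i ∈ I', ∫ w, a w i ^ 2 ∂P ≤ 2 ^ (j + 1) * e1 := by
    refine (Finset.sum_le_sum hmix).trans ?_
    rw [Finset.sum_const, nsmul_eq_mul]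
    exact mul_le_mul_of_nonneg_right hcard he0
  have h4 : (2 : ℝ) ^ (j + 1) * ∑ i ∈ I', ∫ w, a w i ^ 2 ∂P ≤ 4 ^ (j + 1) * e1 := by
    calc _ ≤ (2 : ℝ) ^ (j + 1) * (2 ^ (j + 1) * e1) := mul_le_mul_of_nonneg_left h3 (by positivity)
      _ = _ := by rw [← mul_assoc, ← mul_pow]; norm_num
  linarith

end Pool.Agent.Helper97.CP
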