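import Pool.Agent.Helper97.CP2.P2c2
import Pool.Agent.Helper97.CP2.Asy

set_option autoImplicit false

open MeasureTheory ProbabilityTheory Filter Finset Topology

namespace Pool.Agent.Helper97.CP

/-- correlation length -/
noncomputable def Me (ε β : ℝ) : ℕ := ⌈Real.exp ((1 + ε) * Real.pi / (√2 * β))⌉₊

theorem frac_exp {x : ℝ} (hx : 0 < x) (hx1 : x ≤ 1 / 3) : (1 + x) / (1 - x) ≤ Real.exp (3 * x) := by
  rw [div_le_iff₀ (by linarith)]
  have h1 := Real.add_one_le_exp (3 * x)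
  have h2 : (3 * x + 1) * (1 - x) ≤ Real.exp (3 * x) * (1 - x) :=
    mul_le_mul_of_nonneg_right h1 (by linarith)
  nlinarith

theorem det_upper {h : Z2 → ℝ} {R : ℝ} (hUB : UB (Hm R h)) (hH0 : ∀ z, 0 ≤ Hm R h z)
    {ε x : ℝ} (hε : 0 < ε) (hx : 0 < x) (hx1 : x ≤ 1 / 100) :
    ∃ c : ℝ, 0 < c ∧ c ≤ 1 ∧ ∀ᶠ β in 𝓝[>] (0 : ℝ), ∃ φ : Z2 → ℝ, (∀ z, c ≤ φ z ∧ φ z ≤ 1) ∧
      ∀ z, Tq (Me ε β) (fun y => Hm R h y * φ y) z ≤
        Real.exp x * (2 * (1 + x) / ((1 - x) * (√2 * β / (1 + ε))) ^ 2) * φ z := by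
  have hpi := Real.pi_pos
  have hpi3 := Real.pi_gt_three
  have hpi4 := Real.pi_lt_four
  set κ := x * Real.pi / 4 with hκ
  have hκ0 : 0 < κ := by positivity
  have hκ1 : κ < Real.pi / 2 := by nlinarith
  obtain ⟨us, hus, hsup⟩ := sup_sol hUB hx (by linarith : x ≤ 1) hκ0 hκ1
  have hsin : 0 < Real.sin κ := Real.sin_pos_of_pos_of_lt_pi hκ0 (by linarith)
  set c := Real.sin κ with hc
  have hc1 : c ≤ 1 := Real.sin_le_one κ
  refine ⟨c, hsin, hc1, ?_⟩
  set K0 := 8 / (c * x) with hK0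
  have hK01 : 1 ≤ K0 := by
    rw [hK0, le_div_iff₀ (by positivity)]
    nlinarith
  set U := us + 1 / 2 * Real.log (10000 + 2 * K0) with hU
  have hlog : 0 ≤ Real.log (10000 + 2 * K0) := Real.log_nonneg (by linarith)
  have hU0 : 0 ≤ U := by positivity
  have h2s : (0 : ℝ) < √2 := by positivity
  have h2s2 : √2 ≤ 2 := by
    rw [Real.sqrt_le_left (by norm_num)]; norm_num
  filter_upwards [ev_lt (a := 1 / 2) (by norm_num),
    ev_lt (a := x * Real.pi / 4 / (2 * (U + 1))) (by positivity)] with β hβ1 hβ2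
  have hβ := hβ1.1
  set b0 := √2 * β / (1 + ε) with hb0
  have hb00 : 0 < b0 := by positivity
  have hb0β : b0 ≤ 2 * β := by
    rw [hb0, div_le_iff₀ (by linarith)]
    nlinarith [mul_pos hβ hε, mul_le_mul_of_nonneg_right h2s2 hβ.le]
  have hb01 : b0 ≤ 1 := by linarith [hβ1.2]
  set E := Real.exp ((1 + ε) * Real.pi / (√2 * β)) with hE
  have hEe : (1 + ε) * Real.pi / (√2 * β) = Real.pi / b0 := by
    rw [hb0]; field_simp
  have hE1 : 1 ≤ E := Real.one_le_exp (by positivity)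
  have hMdef : Me ε β = ⌈E⌉₊ := rfl
  set M := Me ε β with hM
  have hEM : E ≤ M := by rw [hMdef]; exact Nat.le_ceil E
  have hME : (M : ℝ) ≤ 2 * E := by
    have := Nat.ceil_lt_add_one (by linarith : 0 ≤ E)
    rw [hMdef]
    linarith
  have hM0 : (0 : ℝ) < M := by linarith
  set b := (1 - x) * b0 with hb
  have hb00' : 0 < b := mul_pos (by linarith) hb00
  have hb1 : b ≤ 1 := by nlinarith
  have hcond : b * (us + 1 / 2 * Real.log (10000 + K0 * M)) ≤ Real.pi / 2 - κ := by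
    have h1 : Real.log (10000 + K0 * M) ≤ Real.log (10000 + 2 * K0) + Real.pi / b0 := by
      rw [← hEe, ← Real.log_exp ((1 + ε) * Real.pi / (√2 * β)), ← hE,
        ← Real.log_mul (by linarith) (by linarith)]
      apply Real.log_le_log (by positivity)
      nlinarith
    have h2 : b * U ≤ x * Real.pi / 4 := by
      have h3 : 2 * β * (U + 1) ≤ x * Real.pi / 4 := by
        have := hβ2.2.le
        rw [le_div_iff₀ (by positivity)] at this
        linarith
      have h4 : b ≤ 2 * β := by nlinarith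
      calc b * U ≤ 2 * β * (U + 1) := mul_le_mul h4 (by linarith) hU0 (by positivity)
        _ ≤ _ := h3
    calc b * (us + 1 / 2 * Real.log (10000 + K0 * M)) ≤
        b * (us + 1 / 2 * (Real.log (10000 + 2 * K0) + Real.pi / b0)) := by
          apply mul_le_mul_of_nonneg_left _ hb00'.le
          linarith
      _ = b * U + (1 - x) * (Real.pi / 2) := by rw [hU, hb]; field_simp; ring
      _ ≤ x * Real.pi / 4 + (1 - x) * (Real.pi / 2) := by linarith
      _ = Real.pi / 2 - κ := by rw [hκ]; ring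
  have hKM : 1 ≤ K0 * M := by nlinarith
  obtain ⟨φ, hφ, hsol⟩ := hsup b hb00' hb1 (K0 * M) hKM hcond
  refine ⟨φ, hφ, ?_⟩
  intro z
  have hg : 0 < b ^ 2 / (2 * (1 + x)) := by positivity
  have ha : (1 : ℝ) ≤ 1 + 8 / (c * (K0 * M)) := by
    have : 0 ≤ 8 / (c * (K0 * M)) := by positivity
    linarith
  have h1 := up_sum ha hg hH0 (fun z => by linarith [(hφ z).1]) hsol M z
  refine h1.trans ?_
  apply mul_le_mul_of_nonneg_right _ (by linarith [(hφ z).1])
  have e1 : 8 / (c * (K0 * M)) = x / M := by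
    rw [hK0]; field_simp
  have h2 : (1 + 8 / (c * (K0 * M))) ^ M ≤ Real.exp x := by
    rw [e1]
    calc (1 + x / M) ^ M ≤ (Real.exp (x / M)) ^ M := by
          apply pow_le_pow_left₀ (by positivity)
          linarith [Real.add_one_le_exp (x / M)]
      _ = Real.exp x := by
          rw [← Real.exp_nat_mul]
          congr 1
          field_simp
  have e2 : Real.exp x * (2 * (1 + x) / ((1 - x) * b0) ^ 2) = Real.exp x / (b ^ 2 / (2 * (1 + x))) := by
    rw [hb]
    rw [div_div_eq_mul_div]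
    ring
  rw [e2]
  exact div_le_div_of_nonneg_right h2 hg.le

theorem det_lower {h : Z2 → ℝ} {R : ℝ} (hLB : LB (Hm R h))
    {ε x : ℝ} (hε : 0 < ε) (hx : 0 < x) (hx1 : x ≤ 1 / 100) :
    ∀ᶠ β in 𝓝[>] (0 : ℝ), ∃ ψ : Z2 → ℝ, ∃ τ : ℝ, (∀ z, 0 ≤ ψ z ∧ ψ z ≤ 2) ∧ 1 / 2 ≤ ψ 0 ∧ 0 ≤ τ ∧
      τ ≤ β ∧ ∀ z, 2 * (1 - x) / ((1 + x) * (√2 * β / (1 + ε))) ^ 2 * (ψ z - τ) ≤
        Tq (Me ε β) (fun y => Hm R h y * ψ y) z := by
  have hpi := Real.pi_pos
  have hpi3 := Real.pi_gt_three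
  obtain ⟨bb, C5, hbb, hbb1, hC5, hsub⟩ := sub_sol hLB hx (by linarith : x ≤ 1 / 2)
    (by linarith : 0 < x / 2) (by linarith : x / 2 ≤ 1 / 4)
  have h2s : (0 : ℝ) < √2 := by positivity
  have h2s2 : √2 ≤ 2 := by
    rw [Real.sqrt_le_left (by norm_num)]; norm_num
  set k1 := Real.pi * x * (1 + ε) / (8 * √2) with hk1
  have hk10 : 0 < k1 := by positivity
  filter_upwards [ev_lt (a := bb / 3) (by positivity),
    ev_exp hk10 (by positivity : 0 < ((1 + x) * (√2 / (1 + ε))) ^ 2 / C5) 2,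
    ev_exp hk10 one_pos 1] with β hβ1 hβ2 hβ3
  have hβ := hβ1.1
  set b0 := √2 * β / (1 + ε) with hb0
  have hb00 : 0 < b0 := by positivity
  have hb0β : b0 ≤ 2 * β := by
    rw [hb0, div_le_iff₀ (by linarith)]
    nlinarith [mul_pos hβ hε, mul_le_mul_of_nonneg_right h2s2 hβ.le]
  have hkb : k1 / β = Real.pi * x / 8 / b0 := by
    rw [hk1, hb0]; field_simp
  rw [hkb] at hβ2 hβ3
  rw [pow_one, one_mul] at hβ3
  set E := Real.exp ((1 + ε) * Real.pi / (√2 * β)) with hE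
  have hEe : (1 + ε) * Real.pi / (√2 * β) = Real.pi / b0 := by
    rw [hb0]; field_simp
  have hE1 : 1 ≤ E := Real.one_le_exp (by positivity)
  have hMdef : Me ε β = ⌈E⌉₊ := rfl
  set M := Me ε β with hM
  have hEM : E ≤ M := by rw [hMdef]; exact Nat.le_ceil E
  have hM0 : (0 : ℝ) < M := by linarith
  set b := (1 + x) * b0 with hb
  have hb00' : 0 < b := mul_pos (by linarith) hb00
  have hbbb : b ≤ bb := by
    have h1 : b ≤ (1 + x) * (2 * β) := mul_le_mul_of_nonneg_left hb0β (by linarith)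
    have h2 : (1 + x) * (2 * β) ≤ 3 * β := by nlinarith
    linarith [hβ1.2]
  set M0 := Real.exp (Real.pi * (1 - x / 8) / b0) with hM00
  have hM0p : 0 < M0 := Real.exp_pos _
  have hM0c : C5 * Real.exp (Real.pi * (1 + x / 2) / b) / b ^ 2 ≤ M0 := by
    have h1 : Real.exp (Real.pi * (1 + x / 2) / b) ≤ Real.exp (Real.pi * (1 - x / 4) / b0) := by
      apply Real.exp_le_exp.2
      rw [hb, div_le_div_iff₀ hb00' hb00]
      have : (1 + x / 2) ≤ (1 - x / 4) * (1 + x) := by nlinarith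
      calc Real.pi * (1 + x / 2) * b0 = Real.pi * b0 * (1 + x / 2) := by ring
        _ ≤ Real.pi * b0 * ((1 - x / 4) * (1 + x)) := mul_le_mul_of_nonneg_left this (by positivity)
        _ = _ := by ring
    have h2 : Real.exp (Real.pi * (1 - x / 4) / b0) = M0 * Real.exp (-(Real.pi * x / 8 / b0)) := by
      rw [hM00, ← Real.exp_add]
      congr 1
      field_simp
      ring
    have h3 : b ^ 2 = ((1 + x) * (√2 / (1 + ε))) ^ 2 * β ^ 2 := by
      rw [hb, hb0]; ring
    rw [div_le_iff₀ (by positivity)]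
    calc C5 * Real.exp (Real.pi * (1 + x / 2) / b) ≤
        C5 * (M0 * Real.exp (-(Real.pi * x / 8 / b0))) := by
          apply mul_le_mul_of_nonneg_left _ hC5.le
          rw [← h2]; exact h1
      _ ≤ C5 * (M0 * (((1 + x) * (√2 / (1 + ε))) ^ 2 / C5 * β ^ 2)) := by
          apply mul_le_mul_of_nonneg_left _ hC5.le
          exact mul_le_mul_of_nonneg_left hβ2 hM0p.le
      _ = M0 * b ^ 2 := by
          rw [h3]; field_simp
  obtain ⟨ψ, hψ, hψ0, hsol⟩ := hsub b hb00' hbbb M0 hM0c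
  have ht : 0 ≤ 2 / M0 := by positivity
  refine ⟨ψ, 2 * (1 / (1 + 2 / M0)) ^ M, hψ, hψ0, by positivity, ?_, ?_⟩
  · have h1 : 1 + M * (2 / M0) ≤ (1 + 2 / M0) ^ M := one_add_mul_le_pow (by linarith) M
    have h2 : (1 / (1 + 2 / M0)) ^ M ≤ M0 / (2 * M) := by
      rw [one_div, inv_pow, inv_le_comm₀ (by positivity) (by positivity), inv_div]
      have : 2 * (M : ℝ) / M0 = M * (2 / M0) := by ring
      rw [this]; linarith
    have h3 : M0 / M ≤ Real.exp (-(Real.pi * x / 8 / b0)) := by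
      rw [div_le_iff₀ hM0]
      have h4 : M0 = Real.exp (-(Real.pi * x / 8 / b0)) * E := by
        rw [hM00, hE, hEe, ← Real.exp_add]
        congr 1
        field_simp
        ring
      rw [h4]
      exact mul_le_mul_of_nonneg_left hEM (Real.exp_pos _).le
    calc 2 * (1 / (1 + 2 / M0)) ^ M ≤ 2 * (M0 / (2 * M)) := by linarith
      _ = M0 / M := by field_simp
      _ ≤ _ := h3.trans hβ3
  · intro z
    have hg : 0 < b ^ 2 / (2 * (1 - x)) := by
      have : 0 < 1 - x := by linarith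
      positivity
    have h1 := low_sum ht hg (fun z => (hLB.1 z).le) hψ hsol M z
    have e : 2 * (1 - x) / ((1 + x) * b0) ^ 2 = 1 / (b ^ 2 / (2 * (1 - x))) := by
      rw [hb, one_div_div]
    rw [e]
    exact h1

end Pool.Agent.Helper97.CP
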