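import Pool.Agent.Helper97.CP2.Det

set_option autoImplicit false

open MeasureTheory ProbabilityTheory Filter Finset Topology

namespace Pool.Agent.Helper97.CP

theorem sqrt2_bounds : (1.4 : ℝ) ≤ √2 ∧ √2 ≤ 1.5 := by
  constructor
  · exact Real.le_sqrt_of_sq_le (by norm_num)
  · rw [Real.sqrt_le_left (by norm_num)]; norm_num

theorem Me_bounds {ε β : ℝ} (hε : 0 < ε) (hβ : 0 < β) :
    Real.exp ((1 + ε) * Real.pi / (√2 * β)) ≤ Me ε β ∧
      (Me ε β : ℝ) ≤ 2 * Real.exp ((1 + ε) * Real.pi / (√2 * β)) ∧ 1 ≤ Me ε β := by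
  have hpi := Real.pi_pos
  have k3 : 1 ≤ Real.exp ((1 + ε) * Real.pi / (√2 * β)) := Real.one_le_exp (by positivity)
  refine ⟨Nat.le_ceil _, ?_, Nat.one_le_ceil_iff.2 (Real.exp_pos _)⟩
  have k2 := Nat.ceil_lt_add_one (Real.exp_pos ((1 + ε) * Real.pi / (√2 * β))).le
  unfold Me
  linarith

theorem log_Me {ε β : ℝ} (hε : 0 < ε) (hε1 : ε < 1) (hβ : 0 < β) (hβ1 : β ≤ 1 / 4) :
    0 ≤ Real.log (Me ε β) ∧ 1 + Real.log (Me ε β) ≤ 7 / β := by
  have hpi := Real.pi_pos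
  obtain ⟨-, k1, hM1⟩ := Me_bounds hε hβ
  refine ⟨Real.log_nonneg (by exact_mod_cast hM1), ?_⟩
  have k2 : Real.log (Me ε β) ≤ Real.log 2 + (1 + ε) * Real.pi / (√2 * β) := by
    rw [← Real.log_exp ((1 + ε) * Real.pi / (√2 * β)), ← Real.log_mul (by norm_num) (Real.exp_pos _).ne']
    exact Real.log_le_log (by exact_mod_cast hM1) k1
  have k3 : Real.log 2 ≤ 1 := by
    have := Real.log_le_sub_one_of_pos (show (0 : ℝ) < 2 by norm_num)
    linarith
  have k4 : (1 + ε) * Real.pi / (√2 * β) ≤ 4.5 / β := by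
    rw [div_le_div_iff₀ (by positivity) hβ]
    have k5 : (1 + ε) * Real.pi ≤ 4.5 * √2 := by
      have k6 : Real.pi ≤ 3.15 := by linarith [Real.pi_lt_d2]
      have k7 := sqrt2_bounds.1
      nlinarith
    calc (1 + ε) * Real.pi * β ≤ 4.5 * √2 * β := mul_le_mul_of_nonneg_right k5 hβ.le
      _ = _ := by ring
  have k5 : 7 / β = 4.5 / β + 2.5 / β := by ring
  have k6 : 2 ≤ 2.5 / β := by
    rw [le_div_iff₀ hβ]; linarith
  linarith

theorem exp_half_le {ε : ℝ} (hε : 0 < ε) (hε1 : ε < 1) : Real.exp (ε / 2) ≤ 1 + ε := by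
  have := Real.abs_exp_sub_one_sub_id_le (x := ε / 2) (by rw [abs_of_pos (by positivity)]; linarith)
  have := (abs_le.1 this).2
  nlinarith

theorem hfin_ineq {β t c C N0 CK Cq lm rj j τ MR logM C' : ℝ} (hβ : 0 < β) (hβ1 : β ≤ 1) (ht : 1 ≤ t)
    (ht8 : t ^ 8 = 1 / β) (hc : 0 < c) (hN0 : 0 ≤ N0) (hCK : 0 ≤ CK) (hCq : 0 ≤ Cq)
    (hj0 : 0 ≤ j) (hj : j ≤ 8 * Cq * t) (hrj0 : 0 ≤ rj) (hrj : rj ≤ t) (hlm : 1 / (4 * β ^ 2) ≤ lm)
    (hτ0 : 0 ≤ τ) (hτ : τ ≤ β) (hτ4 : τ ≤ 1 / 4) (hlogM : 0 ≤ logM) (hlogM7 : 1 + logM ≤ 7 / β)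
    (hMR : MR ≤ 2 * C) (hC : 2 * C ≤ 1 / (32 * β ^ 2))
    (hC' : C' = 2 + 8 * Cq * ((1 + 112 * N0 / c) / c) * (CK + 2 * N0) + 4 * N0 / c)
    (htC : 224 * C' ≤ t) :
    2 + j * rj * ((τ + 4 * (N0 * (1 + logM)) / (lm * c)) / c) * ((CK + 2 * N0) / β) + 4 * N0 * rj / c ≤
      (lm * (1 / 2 - τ) - MR) / (1 + logM) := by
  have hβ2 : 0 < β ^ 2 := by positivity
  have hlm0 : 0 < lm := lt_of_lt_of_le (by positivity) hlm
  set CE := (1 + 112 * N0 / c) / c with hCE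
  have hCE0 : 0 ≤ CE := by positivity
  have hE : (τ + 4 * (N0 * (1 + logM)) / (lm * c)) / c ≤ CE * β := by
    have h1 : 4 * (N0 * (1 + logM)) / (lm * c) ≤ 112 * N0 / c * β := by
      rw [div_le_iff₀ (by positivity)]
      have h2 : 4 * (N0 * (1 + logM)) ≤ 4 * (N0 * (7 / β)) := by
        apply mul_le_mul_of_nonneg_left _ (by norm_num)
        exact mul_le_mul_of_nonneg_left hlogM7 hN0
      have h3 : 112 * N0 / c * β * (1 / (4 * β ^ 2) * c) ≤ 112 * N0 / c * β * (lm * c) := by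
        apply mul_le_mul_of_nonneg_left _ (by positivity)
        exact mul_le_mul_of_nonneg_right hlm hc.le
      have h4 : 112 * N0 / c * β * (1 / (4 * β ^ 2) * c) = 4 * (N0 * (7 / β)) := by
        field_simp; ring
      linarith
    have h2 : τ + 4 * (N0 * (1 + logM)) / (lm * c) ≤ (1 + 112 * N0 / c) * β := by
      rw [add_mul, one_mul]; linarith
    calc _ ≤ (1 + 112 * N0 / c) * β / c := div_le_div_of_nonneg_right h2 hc.le
      _ = _ := by rw [hCE]; ring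
  have hC'0 : 0 ≤ C' := by rw [hC']; positivity
  have h1 : 2 + j * rj * ((τ + 4 * (N0 * (1 + logM)) / (lm * c)) / c) * ((CK + 2 * N0) / β) +
      4 * N0 * rj / c ≤ C' * t ^ 2 := by
    have k1 : j * rj ≤ 8 * Cq * t * t := mul_le_mul hj hrj hrj0 (by positivity)
    have k2 : j * rj * ((τ + 4 * (N0 * (1 + logM)) / (lm * c)) / c) ≤ 8 * Cq * t * t * (CE * β) :=
      mul_le_mul k1 hE (by positivity) (by positivity)
    have k3 : j * rj * ((τ + 4 * (N0 * (1 + logM)) / (lm * c)) / c) * ((CK + 2 * N0) / β) ≤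
        8 * Cq * t * t * (CE * β) * ((CK + 2 * N0) / β) :=
      mul_le_mul_of_nonneg_right k2 (by positivity)
    have k4 : 8 * Cq * t * t * (CE * β) * ((CK + 2 * N0) / β) = 8 * Cq * CE * (CK + 2 * N0) * t ^ 2 := by
      field_simp
    have k5 : 4 * N0 * rj / c ≤ 4 * N0 / c * t ^ 2 := by
      have : rj ≤ t ^ 2 := by nlinarith
      calc 4 * N0 * rj / c = 4 * N0 / c * rj := by ring
        _ ≤ _ := mul_le_mul_of_nonneg_left this (by positivity)
    have k6 : 2 ≤ 2 * t ^ 2 := by nlinarith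
    rw [hC']
    have : (2 + 8 * Cq * CE * (CK + 2 * N0) + 4 * N0 / c) * t ^ 2 =
      2 * t ^ 2 + 8 * Cq * CE * (CK + 2 * N0) * t ^ 2 + 4 * N0 / c * t ^ 2 := by ring
    rw [this]
    linarith
  have h2 : C' * t ^ 2 ≤ 1 / (224 * β) := by
    have e : 1 / (224 * β) = t ^ 8 / 224 := by rw [ht8]; field_simp
    rw [e, le_div_iff₀ (by norm_num)]
    have h6 : t ≤ t ^ 6 := by
      calc t = t ^ 1 := (pow_one _).symm
        _ ≤ t ^ 6 := pow_le_pow_right₀ ht (by norm_num)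
    calc C' * t ^ 2 * 224 = (224 * C') * t ^ 2 := by ring
      _ ≤ t ^ 6 * t ^ 2 := mul_le_mul_of_nonneg_right (htC.trans h6) (by positivity)
      _ = _ := by ring
  have h3 : 1 / (224 * β) ≤ (lm * (1 / 2 - τ) - MR) / (1 + logM) := by
    rw [le_div_iff₀ (by linarith)]
    have k1 : 1 / (224 * β) * (1 + logM) ≤ 1 / (224 * β) * (7 / β) :=
      mul_le_mul_of_nonneg_left hlogM7 (by positivity)
    have k2 : 1 / (224 * β) * (7 / β) = 1 / (32 * β ^ 2) := by field_simp; norm_num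
    have k3 : lm * (1 / 4) ≤ lm * (1 / 2 - τ) := mul_le_mul_of_nonneg_left (by linarith) hlm0.le
    have k4 : 1 / (4 * β ^ 2) * (1 / 4) ≤ lm * (1 / 4) := mul_le_mul_of_nonneg_right hlm (by norm_num)
    have k5 : 1 / (4 * β ^ 2) * (1 / 4) = 2 * (1 / (32 * β ^ 2)) := by field_simp; norm_num
    linarith
  linarith

theorem lm_val {β ε x : ℝ} (hβ : 0 < β) (hε : 0 < ε) (hx : 0 < x) :
    2 * (1 - x) / ((1 + x) * (√2 * β / (1 + ε))) ^ 2 =
      (1 - x) * (1 + ε) ^ 2 / ((1 + x) ^ 2 * β ^ 2) := by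
  have h2 : √2 ^ 2 = 2 := Real.sq_sqrt (by norm_num)
  have h3 : (0 : ℝ) < 1 + ε := by linarith
  have h4 : (0 : ℝ) < 1 + x := by linarith
  rw [mul_pow, div_pow, mul_pow, h2]
  field_simp

theorem lp_val {β ε x : ℝ} (hβ : 0 < β) (hε : 0 < ε) (hx1 : x < 1) :
    2 * (1 + x) / ((1 - x) * (√2 * β / (1 + ε))) ^ 2 =
      (1 + x) * (1 + ε) ^ 2 / ((1 - x) ^ 2 * β ^ 2) := by
  have h2 : √2 ^ 2 = 2 := Real.sq_sqrt (by norm_num)
  have h3 : (0 : ℝ) < 1 + ε := by linarith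
  have h4 : (0 : ℝ) < 1 - x := by linarith
  rw [mul_pow, div_pow, mul_pow, h2]
  field_simp

theorem ratio_bound {β ε x : ℝ} (hβ : 0 < β) (hε : 0 < ε) (hx : 0 < x) (hx1 : x ≤ 1 / 3) :
    Real.exp x * (2 * (1 + x) / ((1 - x) * (√2 * β / (1 + ε))) ^ 2) /
      (2 * (1 - x) / ((1 + x) * (√2 * β / (1 + ε))) ^ 2) ≤ Real.exp (10 * x) ∧
    2 * (1 - x) / ((1 + x) * (√2 * β / (1 + ε))) ^ 2 ≤
      Real.exp x * (2 * (1 + x) / ((1 - x) * (√2 * β / (1 + ε))) ^ 2) := by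
  rw [lm_val hβ hε hx, lp_val hβ hε (by linarith)]
  have h3 : (0 : ℝ) < 1 + ε := by linarith
  have h4 : (0 : ℝ) < 1 - x := by linarith
  have h5 : (0 : ℝ) < 1 + x := by linarith
  constructor
  · have e : Real.exp x * ((1 + x) * (1 + ε) ^ 2 / ((1 - x) ^ 2 * β ^ 2)) /
        ((1 - x) * (1 + ε) ^ 2 / ((1 + x) ^ 2 * β ^ 2)) = Real.exp x * ((1 + x) / (1 - x)) ^ 3 := by
      field_simp
    rw [e]
    have h6 : ((1 + x) / (1 - x)) ^ 3 ≤ Real.exp (3 * x) ^ 3 :=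
      pow_le_pow_left₀ (by positivity) (frac_exp hx hx1) 3
    calc Real.exp x * ((1 + x) / (1 - x)) ^ 3 ≤ Real.exp x * Real.exp (3 * x) ^ 3 :=
          mul_le_mul_of_nonneg_left h6 (Real.exp_pos _).le
      _ = Real.exp (10 * x) := by
          rw [← Real.exp_nat_mul, ← Real.exp_add]
          congr 1
          push_cast
          ring
  · have h6 : 1 ≤ Real.exp x := Real.one_le_exp hx.le
    have h7 : (1 - x) * (1 + ε) ^ 2 / ((1 + x) ^ 2 * β ^ 2) ≤
        (1 + x) * (1 + ε) ^ 2 / ((1 - x) ^ 2 * β ^ 2) := by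
      apply div_le_div₀ (by positivity) _ (by positivity) _
      · apply mul_le_mul_of_nonneg_right _ (by positivity)
        linarith
      · apply mul_le_mul_of_nonneg_right _ (by positivity)
        apply pow_le_pow_left₀ h4.le
        linarith
    have h8 : 0 ≤ (1 + x) * (1 + ε) ^ 2 / ((1 - x) ^ 2 * β ^ 2) := by positivity
    nlinarith

theorem lm_lower {β ε x : ℝ} (hβ : 0 < β) (hε : 0 < ε) (hx : 0 < x) (hxε : 5 * x ≤ ε) (hx1 : x ≤ 1 / 100) :
    (1 + ε) / β ^ 2 ≤ 2 * (1 - x) / ((1 + x) * (√2 * β / (1 + ε))) ^ 2 := by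
  rw [lm_val hβ hε hx]
  have h3 : (0 : ℝ) < 1 + ε := by linarith
  have h5 : (0 : ℝ) < 1 + x := by linarith
  rw [div_le_div_iff₀ (by positivity) (by positivity)]
  have h6 : (1 + x) ^ 2 ≤ (1 - x) * (1 + ε) := by nlinarith
  calc (1 + ε) * ((1 + x) ^ 2 * β ^ 2) = (1 + x) ^ 2 * ((1 + ε) * β ^ 2) := by ring
    _ ≤ (1 - x) * (1 + ε) * ((1 + ε) * β ^ 2) := mul_le_mul_of_nonneg_right h6 (by positivity)
    _ = _ := by ring

theorem det {h : Z2 → ℝ} (H : HH h) {ε CK : ℝ} (hε : 0 < ε) (hε1 : ε < 1) (hCK : 0 ≤ CK) :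
    ∃ Cq : ℝ, 0 < Cq ∧ ∀ᶠ β in 𝓝[>] (0 : ℝ), ∃ (j : ℕ) (Pm : ℝ), 1 ≤ Pm ∧
      (j : ℝ) ≤ Cq * (1 + Real.log (1 / β)) ∧
      (∀ z, β ^ j * Gam (Me ε β) h j z ≤ Pm / β) ∧ (∀ z, Gam (Me ε β) h j z ≤ β ^ 40 * Pm ^ 2) ∧
      ∀ (K : Finset Z2) (R : ℕ), 1 ≤ R → (Me ε β : ℝ) ≤ (R : ℝ) ^ 2 → bx R ⊆ K →
        ∑ u ∈ K, |h u| ≤ CK / β → Pm ≤ ∑ u ∈ K, h u * Psi (Me ε β) β h j u := by
  have hpi := Real.pi_pos
  have hpi4 := Real.pi_lt_four
  obtain ⟨R, C, hR, hC, hUB, hLB, hh, hnr, hHC⟩ := Hm_prop H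
  obtain ⟨N0, hN0, hTn, hKn⟩ := near_sum R
  have hH0 : ∀ z, 0 ≤ Hm R h z := fun z => (hLB.1 z).le
  set Cq := 84 / ε + 1 with hCq
  have hCq84 : 84 ≤ 84 / ε := by rw [le_div_iff₀ hε]; nlinarith
  have hCq0 : 0 < Cq := by linarith
  set x := 1 / (80 * Cq) with hx
  have hx0 : 0 < x := by positivity
  have hxC : x * (80 * Cq) = 1 := by rw [hx]; field_simp
  have hx1 : x ≤ 1 / 100 := by
    rw [hx]
    apply one_div_le_one_div_of_le (by norm_num)
    linarith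
  have hxε : 5 * x ≤ ε := by
    have h1 : x * (80 * (84 / ε)) ≤ 1 := by
      rw [← hxC]
      apply mul_le_mul_of_nonneg_left _ hx0.le
      linarith
    have h2 : x * (80 * (84 / ε)) = 6720 * x / ε := by field_simp; ring
    rw [h2, div_le_one hε] at h1
    linarith
  obtain ⟨c, hc, hc1, hev1⟩ := det_upper hUB hH0 hε hx0 hx1
  have hev2 := det_lower hLB hε hx0 hx1
  set C' := 2 + 8 * Cq * ((1 + 112 * N0 / c) / c) * (CK + 2 * N0) + 4 * N0 / c with hC'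
  have hC'0 : 0 ≤ C' := by positivity
  refine ⟨Cq, hCq0, ?_⟩
  filter_upwards [hev1, hev2, tt_ge (224 * C' + 1), tt_ge (1 / c), ev_lt (a := 1 / 4) (by norm_num),
    ev_lt (a := 1 / (64 * C)) (by positivity), ev_lt (a := Real.exp (-1)) (Real.exp_pos _),
    ev_lt hc] with
    β h1 h2 ht1 ht2 hβ1 hβ2 hβ3 hβ4
  obtain ⟨φ, hφ, hup⟩ := h1
  obtain ⟨ψ, τ, hψ, hψ0, hτ0, hτβ, hlow⟩ := h2
  have hβ := hβ1.1
  set M := Me ε β with hM
  set lp := Real.exp x * (2 * (1 + x) / ((1 - x) * (√2 * β / (1 + ε))) ^ 2) with hlp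
  set lm := 2 * (1 - x) / ((1 + x) * (√2 * β / (1 + ε))) ^ 2 with hlm
  obtain ⟨hr, hl⟩ := ratio_bound hβ hε hx0 (by linarith : x ≤ 1 / 3)
  have hlmlow := lm_lower hβ hε hx0 hxε hx1
  rw [← hlp, ← hlm] at hr hl
  rw [← hlm] at hlmlow
  clear_value lp lm
  have hlm0 : 0 < lm := lt_of_lt_of_le (by positivity) hlmlow
  have hlp0 : 0 < lp := lt_of_lt_of_le hlm0 hl
  set t := tt β with ht
  have ht8 : t ^ 8 = 1 / β := tt_pow hβ
  have ht11 : 1 ≤ t := by linarith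
  set ℓ := Real.log (1 / β) with hℓ
  have hℓ1 : 1 ≤ ℓ := by
    rw [hℓ, one_div, Real.log_inv]
    have : Real.log β ≤ -1 := by
      rw [Real.log_le_iff_le_exp hβ]; exact hβ3.2.le
    linarith
  have hℓt : ℓ ≤ 8 * t := tt_log β
  have htℓ : t = Real.exp (ℓ / 8) := by
    rw [ht, hℓ]; unfold tt
    rw [one_div, Real.log_inv]
  set j := ⌈84 / ε * ℓ⌉₊ with hj
  have hj1 : 84 / ε * ℓ ≤ j := Nat.le_ceil _
  have hj2 : (j : ℝ) ≤ Cq * ℓ := by
    have := Nat.ceil_lt_add_one (by positivity : 0 ≤ 84 / ε * ℓ)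
    rw [hCq, add_mul, one_mul]
    linarith
  set r := lp / lm with hrdef
  have hr1 : 1 ≤ r := by rw [hrdef, le_div_iff₀ hlm0]; linarith
  have hrj : r ^ j ≤ t := by
    calc r ^ j ≤ (Real.exp (10 * x)) ^ j := pow_le_pow_left₀ (by linarith) hr j
      _ = Real.exp (j * (10 * x)) := by rw [← Real.exp_nat_mul]
      _ ≤ Real.exp (ℓ / 8) := by
          apply Real.exp_le_exp.2
          calc (j : ℝ) * (10 * x) ≤ Cq * ℓ * (10 * x) := mul_le_mul_of_nonneg_right hj2 (by positivity)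
            _ = (x * (80 * Cq)) * (ℓ / 8) := by ring
            _ = ℓ / 8 := by rw [hxC, one_mul]
      _ = t := htℓ.symm
  have hr0 : 0 ≤ r ^ j := by positivity
  -- growth
  have hκ : 1 / β ^ 42 ≤ (β ^ 2 * lm) ^ j := by
    have k1 : 1 + ε ≤ β ^ 2 * lm := by
      rw [div_le_iff₀ (by positivity)] at hlmlow
      linarith
    have k2 : Real.exp (ε / 2) ≤ 1 + ε := exp_half_le hε hε1
    have k3 : Real.exp (42 * ℓ) = 1 / β ^ 42 := by
      rw [hℓ, one_div β, Real.log_inv]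
      rw [show 42 * -Real.log β = -(((42 : ℕ) : ℝ) * Real.log β) by push_cast; ring, Real.exp_neg,
        Real.exp_nat_mul, Real.exp_log hβ, one_div]
    rw [← k3]
    calc Real.exp (42 * ℓ) ≤ Real.exp (j * (ε / 2)) := by
          apply Real.exp_le_exp.2
          have : 84 / ε * ℓ * (ε / 2) ≤ j * (ε / 2) := mul_le_mul_of_nonneg_right hj1 (by positivity)
          have e : 84 / ε * ℓ * (ε / 2) = 42 * ℓ := by field_simp; norm_num
          linarith
      _ = Real.exp (ε / 2) ^ j := by rw [← Real.exp_nat_mul]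
      _ ≤ (1 + ε) ^ j := pow_le_pow_left₀ (Real.exp_pos _).le k2 j
      _ ≤ _ := pow_le_pow_left₀ (by linarith) k1 j
  set Pm := (β * lm) ^ j with hPm
  have hblm : 1 ≤ β * lm := by
    have k1 : 1 + ε ≤ β ^ 2 * lm := by
      rw [div_le_iff₀ (by positivity)] at hlmlow
      linarith
    calc (1 : ℝ) ≤ β * (β * lm) := by
          have e : β * (β * lm) = β ^ 2 * lm := by ring
          rw [e]; linarith only [k1, hε]
      _ ≤ 1 * (β * lm) := mul_le_mul_of_nonneg_right (by linarith only [hβ1.2]) (mul_pos hβ hlm0).le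
      _ = β * lm := one_mul _
  have hPm1 : 1 ≤ Pm := one_le_pow₀ hblm
  have elp : lp = r * lm := by rw [hrdef]; field_simp
  have htc : t / c ≤ t ^ 2 := by
    have : 1 / c ≤ t := ht2
    calc t / c = t * (1 / c) := by ring
      _ ≤ t * t := mul_le_mul_of_nonneg_left this (by linarith)
      _ = _ := by ring
  have hφc : ∀ z, φ z / c ≤ 1 / c := fun z => div_le_div_of_nonneg_right (hφ z).2 hc.le
  have hrjc : r ^ j * (1 / c) ≤ t ^ 2 := by
    calc r ^ j * (1 / c) ≤ t * (1 / c) := mul_le_mul_of_nonneg_right hrj (by positivity)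
      _ = t / c := by ring
      _ ≤ _ := htc
  have ht2β : t ^ 2 ≤ 1 / β := by
    rw [← ht8]
    exact pow_le_pow_right₀ ht11 (by norm_num)
  refine ⟨j, Pm, hPm1, ?_, ?_, ?_, ?_⟩
  · calc (j : ℝ) ≤ Cq * ℓ := hj2
      _ ≤ Cq * (1 + ℓ) := mul_le_mul_of_nonneg_left (by linarith) hCq0.le
  · intro z
    have k1 := Gam_le hc hφ hh hlp0.le hup j z
    calc β ^ j * Gam M h j z ≤ β ^ j * (lp ^ j * (1 / c)) := by
          apply mul_le_mul_of_nonneg_left _ (by positivity)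
          exact k1.trans (mul_le_mul_of_nonneg_left (hφc z) (by positivity))
      _ = Pm * (r ^ j * (1 / c)) := by
          rw [elp, mul_pow, hPm, mul_pow]; ring
      _ ≤ Pm * (1 / β) := mul_le_mul_of_nonneg_left (hrjc.trans ht2β) (by linarith)
      _ = _ := by ring
  · intro z
    have k1 := Gam_le hc hφ hh hlp0.le hup j z
    have k2 : lm ^ j ≤ Pm ^ 2 * β ^ 42 := by
      have e : Pm ^ 2 = (β ^ 2 * lm) ^ j * lm ^ j := by
        rw [hPm, ← pow_mul, mul_comm j 2, pow_mul, ← mul_pow]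
        congr 1
        ring
      have k3 : 1 ≤ (β ^ 2 * lm) ^ j * β ^ 42 := by
        rw [div_le_iff₀ (by positivity)] at hκ
        linarith
      rw [e]
      calc lm ^ j = 1 * lm ^ j := (one_mul _).symm
        _ ≤ ((β ^ 2 * lm) ^ j * β ^ 42) * lm ^ j := mul_le_mul_of_nonneg_right k3 (by positivity)
        _ = _ := by ring
    calc Gam M h j z ≤ lp ^ j * (1 / c) :=
          k1.trans (mul_le_mul_of_nonneg_left (hφc z) (by positivity))
      _ = (r ^ j * (1 / c)) * lm ^ j := by rw [elp, mul_pow]; ring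
      _ ≤ (1 / β) * (Pm ^ 2 * β ^ 42) :=
          mul_le_mul (hrjc.trans ht2β) k2 (by positivity) (by positivity)
      _ = β ^ 41 * Pm ^ 2 := by field_simp
      _ ≤ β ^ 40 * Pm ^ 2 := by
          apply mul_le_mul_of_nonneg_right _ (by positivity)
          exact pow_le_pow_of_le_one hβ.le (by linarith [hβ1.2]) (by norm_num)
  · intro K R1 hR1 hMR hbx hKs
    have hM1 : 1 ≤ M := (Me_bounds hε hβ).2.2
    obtain ⟨hlogM, hlogM7⟩ := log_Me hε hε1 hβ hβ1.2.le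
    rw [← hM] at hlogM hlogM7
    have hE00 : 0 ≤ (τ + 4 * (N0 * (1 + Real.log M)) / (lm * c)) / c := by positivity
    refine final_sum (τ := τ) (N0 := N0) (SK := (CK + 2 * N0) / β)
      (E0 := (τ + 4 * (N0 * (1 + Real.log M)) / (lm * c)) / c) hR1 hM1 hbx hβ hc hφ hψ hψ0 hh hnr
      (by linarith : 0 ≤ C) hHC hlm0 hl hup hlow hE00 ?_ ?_ (hKn K) ?_
    · exact Psi_low hβ hc hφ hψ hh hnr hlm0 hl hup hlow hτ0 (hTn M) (by positivity) j
    · have k1 : ∑ u ∈ K, Hm R h u ≤ ∑ u ∈ K, (|h u| + 2 * nr R u) := by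
        apply Finset.sum_le_sum
        intro u _
        have := (abs_le.1 (hnr u)).1
        linarith [le_abs_self (h u)]
      rw [Finset.sum_add_distrib, ← Finset.mul_sum] at k1
      have k2 : 2 * N0 ≤ 2 * N0 / β := by
        rw [le_div_iff₀ hβ]
        exact mul_le_of_le_one_right (by linarith only [hN0]) (by linarith only [hβ1.2])
      have k3 : (CK + 2 * N0) / β = CK / β + 2 * N0 / β := by ring
      linarith [hKn K]
    · refine hfin_ineq (C := C) (C' := C') (CK := CK) (Cq := Cq) (t := t) hβ (by linarith [hβ1.2]) ht11 ht8 hc hN0 hCK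
        hCq0.le (Nat.cast_nonneg _) ?_ hr0 hrj ?_ hτ0 hτβ (by linarith [hβ1.2]) hlogM hlogM7 ?_ ?_ hC'
        (by linarith)
      · calc (j : ℝ) ≤ Cq * ℓ := hj2
          _ ≤ Cq * (8 * t) := mul_le_mul_of_nonneg_left hℓt hCq0.le
          _ = _ := by ring
      · refine le_trans ?_ hlmlow
        rw [show 1 / (4 * β ^ 2) = (1 / 4) / β ^ 2 by ring]
        exact div_le_div_of_nonneg_right (by linarith only [hε]) (sq_nonneg β)
      · have hR10 : (0 : ℝ) < (R1 : ℝ) ^ 2 := by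
          have : (0 : ℝ) < R1 := by exact_mod_cast hR1
          positivity
        rw [← mul_div_assoc, div_le_iff₀ hR10]
        calc (M : ℝ) * (2 * C) ≤ (R1 : ℝ) ^ 2 * (2 * C) := mul_le_mul_of_nonneg_right hMR (by linarith)
          _ = _ := by ring
      · have k1 : β ≤ 1 / (64 * C) := hβ2.2.le
        have k3 : (0 : ℝ) < 64 * C := by linarith only [hC]
        rw [le_div_iff₀ k3] at k1
        rw [le_div_iff₀ (mul_pos (by norm_num) (pow_pos hβ 2))]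
        have k2 : 2 * C * (32 * β ^ 2) = (β * (64 * C)) * β := by ring
        rw [k2]
        calc (β * (64 * C)) * β ≤ 1 * β := mul_le_mul_of_nonneg_right k1 hβ.le
          _ ≤ 1 := by linarith only [hβ1.2]

end Pool.Agent.Helper97.CP
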