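import Pool.Agent.Helper97.CP2.Tilt

set_option autoImplicit false

open MeasureTheory ProbabilityTheory Filter Finset

namespace Pool.Agent.Helper97.CP

abbrev Env := ℕ → Z2 → ℝ

/-- the random environment -/
def En {Ω : Type*} (ω : ℕ → Z2 → Ω → ℝ) (w : Ω) : Env := fun n x => ω n x w

/-- `Φ` depends only on the times in `S` -/
def Dep (S : Set ℕ) (Φ : Env → ℝ) : Prop :=
  ∀ v v' : Env, (∀ n ∈ S, ∀ x, v n x = v' n x) → Φ v = Φ v'

open Classical in
/-- extension by zero -/
noncomputable def extn (S : Set ℕ) (u : S × Z2 → ℝ) : Env :=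
  fun n x => if h : n ∈ S then u (⟨n, h⟩, x) else 0

theorem measurable_extn (S : Set ℕ) : Measurable (extn S) := by
  apply measurable_pi_lambda
  intro n
  apply measurable_pi_lambda
  intro x
  unfold extn
  by_cases hn : n ∈ S
  · simp only [dif_pos hn]
    exact measurable_pi_apply _
  · simp only [dif_neg hn]
    exact measurable_const

variable {Ω : Type*} [MeasurableSpace Ω] {P : Measure Ω} {ω : ℕ → Z2 → Ω → ℝ} {h : Z2 → ℝ}

theorem GEnv.measurable_En (g : GEnv P ω h) : Measurable (En ω) := by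
  apply measurable_pi_lambda
  intro n
  apply measurable_pi_lambda
  intro x
  exact g.meas n x

theorem Dep.eq {S : Set ℕ} {Φ : Env → ℝ} (d : Dep S Φ) (w : Ω) :
    Φ (En ω w) = Φ (extn S (fun p : S × Z2 => ω p.1 p.2 w)) := by
  apply d
  intro n hn x
  unfold extn En
  rw [dif_pos hn]

theorem GEnv.indepf (g : GEnv P ω h) {S1 S2 : Set ℕ} (hd : Disjoint S1 S2) {Φ1 Φ2 : Env → ℝ}
    (m1 : Measurable Φ1) (m2 : Measurable Φ2) (d1 : Dep S1 Φ1) (d2 : Dep S2 Φ2) :
    IndepFun (fun w => Φ1 (En ω w)) (fun w => Φ2 (En ω w)) P := by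
  have h1 := (g.indep S1 S2 hd).comp (m1.comp (measurable_extn S1)) (m2.comp (measurable_extn S2))
  have e1 : (fun w => Φ1 (En ω w)) = (Φ1 ∘ extn S1) ∘ fun w (p : S1 × Z2) => ω p.1 p.2 w := by
    funext w; exact d1.eq w
  have e2 : (fun w => Φ2 (En ω w)) = (Φ2 ∘ extn S2) ∘ fun w (p : S2 × Z2) => ω p.1 p.2 w := by
    funext w; exact d2.eq w
  rw [e1, e2]
  exact h1

theorem GEnv.iindepf {ι : Type*} (g : GEnv P ω h) (S : ι → Set ℕ)
    (hd : ∀ i j, i ≠ j → Disjoint (S i) (S j)) {Φ : ι → Env → ℝ}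
    (m : ∀ i, Measurable (Φ i)) (d : ∀ i, Dep (S i) (Φ i)) :
    iIndepFun (fun i w => Φ i (En ω w)) P := by
  have h1 := (g.iindep S hd).comp (fun i => Φ i ∘ extn (S i)) (fun i => (m i).comp (measurable_extn (S i)))
  have e1 : (fun i w => Φ i (En ω w)) = fun i => (Φ i ∘ extn (S i)) ∘ fun w (p : S i × Z2) => ω p.1 p.2 w := by
    funext i w; exact (d i).eq w
  rw [e1]
  exact h1

/-- the Hamiltonian -/
noncomputable def wtf (β : ℝ) (N : ℕ) (s : ℕ → Z2) (v : Env) : ℝ :=
  ∑ n ∈ Icc 1 N, (β * v n (s n) - β ^ 2 / 2)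

/-- time shift -/
def tsh (a : ℕ) (v : Env) : Env := fun n => v (a + n)

/-- partition function -/
noncomputable def Wf (β : ℝ) (N : ℕ) (x : Z2) (v : Env) : ℝ :=
  ES N (fun s => Real.exp (wtf β N s v)) x

theorem sum_Icc_range (N : ℕ) (f : ℕ → ℝ) : ∑ n ∈ Icc 1 N, f n = ∑ i ∈ range N, f (i + 1) := by
  induction N with
  | zero => simp
  | succ N ih => rw [Finset.sum_Icc_succ_top (by omega), ih, Finset.sum_range_succ]

theorem sum_Icc_add (a b : ℕ) (f : ℕ → ℝ) :
    ∑ n ∈ Icc 1 (a + b), f n = ∑ n ∈ Icc 1 a, f n + ∑ n ∈ Icc 1 b, f (a + n) := by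
  rw [sum_Icc_range, sum_Icc_range, sum_Icc_range, Finset.sum_range_add]
  congr 1

theorem wtf_add (β : ℝ) (a b : ℕ) (s : ℕ → Z2) (v : Env) :
    wtf β (a + b) s v = wtf β a s v + wtf β b (fun k => s (a + k)) (tsh a v) := by
  unfold wtf tsh
  rw [sum_Icc_add]

theorem wtf_congr {β : ℝ} {N : ℕ} {s s' : ℕ → Z2} {v : Env} (hs : ∀ k ≤ N, s k = s' k) :
    wtf β N s v = wtf β N s' v := by
  unfold wtf
  apply Finset.sum_congr rfl
  intro n hn
  rw [hs n (Finset.mem_Icc.1 hn).2]

theorem Wf_add (β : ℝ) (a b : ℕ) (x : Z2) (v : Env) :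
    Wf β (a + b) x v = ES a (fun s => Real.exp (wtf β a s v) * Wf β b (s a) (tsh a v)) x := by
  unfold Wf
  rw [← ES_markov a b (fun s => Real.exp (wtf β a s v)) (fun s => Real.exp (wtf β b s (tsh a v))) x
    (fun s s' hs => by rw [wtf_congr hs])]
  apply ES_congr
  intro s _
  rw [wtf_add, Real.exp_add]

theorem measurable_ES {α : Type*} [MeasurableSpace α] {N : ℕ} {F : (ℕ → Z2) → α → ℝ} (x : Z2)
    (hF : ∀ s, Measurable (F s)) : Measurable (fun a => ES N (fun s => F s a) x) := by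
  unfold ES
  apply Measurable.const_mul
  apply Finset.measurable_fun_sum
  intro σ _
  exact hF _

theorem continuous_ES {α : Type*} [TopologicalSpace α] {N : ℕ} {F : (ℕ → Z2) → α → ℝ} (x : Z2)
    (hF : ∀ s, Continuous (F s)) : Continuous (fun a => ES N (fun s => F s a) x) := by
  unfold ES
  apply Continuous.const_mul
  apply continuous_finset_sum
  intro σ _
  exact hF _

theorem integrable_ES {N : ℕ} {F : (ℕ → Z2) → Ω → ℝ} (x : Z2)
    (hF : ∀ s, Integrable (F s) P) : Integrable (fun a => ES N (fun s => F s a) x) P := by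
  unfold ES
  apply Integrable.const_mul
  apply integrable_finsetSum
  intro σ _
  exact hF _

theorem integral_ES {N : ℕ} {F : (ℕ → Z2) → Ω → ℝ} (x : Z2)
    (hF : ∀ s, Integrable (F s) P) :
    ∫ a, ES N (fun s => F s a) x ∂P = ES N (fun s => ∫ a, F s a ∂P) x := by
  unfold ES
  rw [integral_const_mul, integral_finsetSum]
  intro σ _
  exact hF _

theorem continuous_wtf (β : ℝ) (N : ℕ) (s : ℕ → Z2) : Continuous (wtf β N s) := by
  unfold wtf
  fun_prop

theorem continuous_Wf (β : ℝ) (N : ℕ) (x : Z2) : Continuous (Wf β N x) :=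
  continuous_ES x fun s => Real.continuous_exp.comp (continuous_wtf β N s)

theorem measurable_wtf (β : ℝ) (N : ℕ) (s : ℕ → Z2) : Measurable (wtf β N s) := by
  unfold wtf
  fun_prop

theorem measurable_Wf (β : ℝ) (N : ℕ) (x : Z2) : Measurable (Wf β N x) :=
  measurable_ES x fun s => Real.measurable_exp.comp (measurable_wtf β N s)

theorem ES_pos {N : ℕ} {F : (ℕ → Z2) → ℝ} {x : Z2} (h : ∀ s, 0 < F s) : 0 < ES N F x := by
  unfold ES
  apply mul_pos (by positivity)
  apply Finset.sum_pos (fun σ _ => h _) Finset.univ_nonempty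

theorem Wf_pos (β : ℝ) (N : ℕ) (x : Z2) (v : Env) : 0 < Wf β N x v :=
  ES_pos fun s => Real.exp_pos _

theorem dep_wtf (β : ℝ) (N : ℕ) (s : ℕ → Z2) : Dep {n | n ∈ Icc 1 N} (wtf β N s) := by
  intro v v' h
  unfold wtf
  apply Finset.sum_congr rfl
  intro n hn
  rw [h n hn]

theorem dep_Wf (β : ℝ) (N : ℕ) (x : Z2) : Dep {n | n ∈ Icc 1 N} (Wf β N x) := by
  intro v v' h
  unfold Wf
  apply ES_congr
  intro s _
  rw [dep_wtf β N s v v' h]

theorem wt_eq_wtf (β : ℝ) (T : ℕ) (s : ℕ → Z2) (ω : ℕ → Z2 → Ω → ℝ) (w : Ω) :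
    wt β T s ω w = wtf β T s (En ω w) := rfl

/-- two paths -/
theorem GEnv.pair_exp (g : GEnv P ω h) (h0 : h 0 = 1) (hs : ∀ z, h (-z) = h z)
    (β : ℝ) (N : ℕ) (s s' : ℕ → Z2) :
    Integrable (fun w => Real.exp (wtf β N s (En ω w)) * Real.exp (wtf β N s' (En ω w))) P ∧
    ∫ w, Real.exp (wtf β N s (En ω w)) * Real.exp (wtf β N s' (En ω w)) ∂P =
      Real.exp (β ^ 2 * ∑ k ∈ Icc 1 N, h (s k - s' k)) := by
  obtain ⟨h1, h2⟩ := g.exp_lin ((Icc 1 N).disjSum (Icc 1 N)) (fun _ => β)
    (Sum.elim (fun n => (n, s n)) (fun n => (n, s' n)))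
  simp only [Finset.sum_disjSum, Sum.elim_inl, Sum.elim_inr] at h1 h2
  have cross : ∀ s s' : ℕ → Z2, ∑ i ∈ Icc 1 N, ∑ j ∈ Icc 1 N, β * β * cv h (i, s i) (j, s' j) =
      β ^ 2 * ∑ k ∈ Icc 1 N, h (s k - s' k) := by
    intro s s'
    rw [Finset.mul_sum]
    apply Finset.sum_congr rfl
    intro i hi
    rw [Finset.sum_eq_single_of_mem i hi]
    · unfold cv
      rw [if_pos rfl]; ring
    · intro j _ hj
      unfold cv
      rw [if_neg (fun h => hj h.symm), mul_zero]
  have hsym : ∑ k ∈ Icc 1 N, h (s' k - s k) = ∑ k ∈ Icc 1 N, h (s k - s' k) := by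
    apply Finset.sum_congr rfl
    intro k _
    rw [← hs, neg_sub]
  rw [Finset.sum_add_distrib, Finset.sum_add_distrib, path_cv h0, path_cv h0, cross, cross, hsym] at h2
  have e : ∀ w, Real.exp (wtf β N s (En ω w)) * Real.exp (wtf β N s' (En ω w)) =
      Real.exp (-(N * β ^ 2)) * Real.exp (∑ n ∈ Icc 1 N, β * ω n (s n) w +
        ∑ n ∈ Icc 1 N, β * ω n (s' n) w) := by
    intro w
    rw [← wt_eq_wtf, ← wt_eq_wtf, wt_eq, wt_eq, ← Real.exp_add, ← Real.exp_add]
    congr 1
    ring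
  simp only [e]
  refine ⟨h1.const_mul _, ?_⟩
  rw [integral_const_mul, h2, ← Real.exp_add]
  congr 1
  ring

/-- two-walk expectation -/
noncomputable def ES2 (N : ℕ) (F : (ℕ → Z2) → (ℕ → Z2) → ℝ) (x x' : Z2) : ℝ :=
  ES N (fun s => ES N (fun s' => F s s') x') x

theorem ES2_mono {N : ℕ} {F G : (ℕ → Z2) → (ℕ → Z2) → ℝ} {x x' : Z2} (h : ∀ s s', F s s' ≤ G s s') :
    ES2 N F x x' ≤ ES2 N G x x' := ES_mono fun s _ => ES_mono fun s' _ => h s s'

theorem super_bound {φ H : Z2 → ℝ} {a c g : ℝ} (hc : 0 < c) (hφ : ∀ z, c ≤ φ z ∧ φ z ≤ 1)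
    (hsup : ∀ z, Q (fun y => Real.exp (g * H y) * φ y) z ≤ a * φ z) (ha : 0 ≤ a)
    (N : ℕ) (x x' : Z2) :
    ES2 N (fun s s' => Real.exp (g * ∑ k ∈ Icc 1 N, H (s k - s' k))) x x' ≤ a ^ N / c := by
  have key : ∀ (N : ℕ) (x x' : Z2),
      ES2 N (fun s s' => Real.exp (g * ∑ k ∈ Icc 1 N, H (s k - s' k)) * φ (s N - s' N)) x x' ≤
        a ^ N * φ (x - x') := by
    intro N
    induction N with
    | zero =>
      intro x x'
      unfold ES2
      rw [ES_zero, ES_zero]
      simp
    | succ N ih =>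
      intro x x'
      unfold ES2
      rw [ES_succ]
      simp only [ES_succ]
      have h1 : ∀ e : E4, ES N (fun s => 1 / 4 * ∑ e' : E4, ES N (fun s' =>
          Real.exp (g * ∑ k ∈ Icc 1 (N + 1), H (cns x s k - cns x' s' k)) *
            φ (cns x s (N + 1) - cns x' s' (N + 1))) (x' + stp e')) (x + stp e) ≤
          1 / 4 * ∑ e' : E4, Real.exp (g * H (x - x' + (stp e - stp e'))) *
            (a ^ N * φ (x - x' + (stp e - stp e'))) := by
        intro e
        rw [ES_mul_left, ES_sum]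
        apply mul_le_mul_of_nonneg_left _ (by norm_num)
        apply Finset.sum_le_sum
        intro e' _
        have h2 : ES N (fun s => ES N (fun s' =>
          Real.exp (g * ∑ k ∈ Icc 1 (N + 1), H (cns x s k - cns x' s' k)) *
            φ (cns x s (N + 1) - cns x' s' (N + 1))) (x' + stp e')) (x + stp e) =
            Real.exp (g * H (x - x' + (stp e - stp e'))) *
            ES2 N (fun s s' => Real.exp (g * ∑ k ∈ Icc 1 N, H (s k - s' k)) * φ (s N - s' N))
              (x + stp e) (x' + stp e') := by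
          unfold ES2
          rw [← ES_mul_left]
          apply ES_congr
          intro s hs0
          rw [← ES_mul_left]
          apply ES_congr
          intro s' hs0'
          have h3 : ∑ k ∈ Icc 1 (N + 1), H (cns x s k - cns x' s' k) =
              H (x - x' + (stp e - stp e')) + ∑ k ∈ Icc 1 N, H (s k - s' k) := by
            rw [sum_Icc_range, Finset.sum_range_succ', sum_Icc_range, add_comm]
            congr 1
            simp only [cns]
            rw [hs0, hs0']
            congr 1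
            abel
          rw [h3, mul_add, Real.exp_add]
          simp only [cns]
          ring
        rw [h2]
        apply mul_le_mul_of_nonneg_left _ (Real.exp_pos _).le
        have := ih (x + stp e) (x' + stp e')
        rw [show x + stp e - (x' + stp e') = x - x' + (stp e - stp e') by abel] at this
        exact this
      calc (1 / 4) * ∑ e : E4, ES N (fun s => 1 / 4 * ∑ e' : E4, ES N (fun s' =>
          Real.exp (g * ∑ k ∈ Icc 1 (N + 1), H (cns x s k - cns x' s' k)) *
            φ (cns x s (N + 1) - cns x' s' (N + 1))) (x' + stp e')) (x + stp e) ≤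
          (1 / 4) * ∑ e : E4, (1 / 4 * ∑ e' : E4, Real.exp (g * H (x - x' + (stp e - stp e'))) *
            (a ^ N * φ (x - x' + (stp e - stp e')))) :=
            mul_le_mul_of_nonneg_left (Finset.sum_le_sum fun e _ => h1 e) (by norm_num)
        _ = a ^ N * Q (fun y => Real.exp (g * H y) * φ y) (x - x') := by
            unfold Q
            rw [← Finset.mul_sum, ← mul_assoc, ← mul_assoc, mul_comm (a ^ N) (1 / 16), mul_assoc (1 / 16)]
            congr 1
            · norm_num
            · rw [Finset.mul_sum]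
              apply Finset.sum_congr rfl
              intro e _
              rw [Finset.mul_sum]
              apply Finset.sum_congr rfl
              intro e' _
              ring
        _ ≤ a ^ N * (a * φ (x - x')) := mul_le_mul_of_nonneg_left (hsup _) (by positivity)
        _ = _ := by rw [pow_succ]; ring
  rw [le_div_iff₀ hc]
  have h1 : ES2 N (fun s s' => Real.exp (g * ∑ k ∈ Icc 1 N, H (s k - s' k))) x x' * c ≤
      ES2 N (fun s s' => Real.exp (g * ∑ k ∈ Icc 1 N, H (s k - s' k)) * φ (s N - s' N)) x x' := by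
    unfold ES2
    rw [← ES_mul_right]
    apply ES_mono
    intro s _
    rw [← ES_mul_right]
    apply ES_mono
    intro s' _
    exact mul_le_mul_of_nonneg_left (hφ _).1 (Real.exp_pos _).le
  refine h1.trans ((key N x x').trans ?_)
  calc a ^ N * φ (x - x') ≤ a ^ N * 1 := mul_le_mul_of_nonneg_left (hφ _).2 (by positivity)
    _ = _ := mul_one _

end Pool.Agent.Helper97.CP
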