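import Pool.Agent.Helper97.CP2.P1b

set_option autoImplicit false

open MeasureTheory ProbabilityTheory Filter Finset

namespace Pool.Agent.Helper97.CP

variable {Ω : Type*} [MeasurableSpace Ω] {P : Measure Ω} {h : Z2 → ℝ}

/-- lower bound for the mean of `log W_N`, for all environments over `P` and starting points -/
def LBm (P : Measure Ω) (h : Z2 → ℝ) (β : ℝ) (N : ℕ) (C : ℝ) : Prop :=
  ∀ ω : ℕ → Z2 → Ω → ℝ, GEnv P ω h → ∀ x : Z2,
    Integrable (fun w => Real.log (Wf β N x (En ω w))) P ∧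
      -C ≤ ∫ w, Real.log (Wf β N x (En ω w)) ∂P

theorem tsh_En (ω : ℕ → Z2 → Ω → ℝ) (a : ℕ) (w : Ω) :
    tsh a (En ω w) = En (fun n x => ω (a + n) x) w := rfl

theorem measurable_tsh (a : ℕ) : Measurable (tsh a) := by
  apply measurable_pi_lambda
  intro n
  exact measurable_pi_apply _

theorem dep_tsh {a : ℕ} {S : Set ℕ} {Φ : Env → ℝ} (d : Dep S Φ) :
    Dep {n | ∃ k ∈ S, n = a + k} (fun v => Φ (tsh a v)) := by
  intro v v' hv
  apply d
  intro n hn x
  exact hv (a + n) ⟨n, hn, rfl⟩ x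

theorem measurable_gb (β : ℝ) (N : ℕ) (x : Z2) (σ : Fin N → E4) :
    Measurable (fun v => gb β N x v σ) := by
  unfold gb
  apply Measurable.div
  · apply Measurable.const_mul
    exact Real.measurable_exp.comp (measurable_wtf _ _ _)
  · exact measurable_Wf β N x

theorem dep_gb (β : ℝ) (N : ℕ) (x : Z2) (σ : Fin N → E4) :
    Dep {n | n ∈ Icc 1 N} (fun v => gb β N x v σ) := by
  intro v v' hv
  unfold gb
  beta_reduce
  rw [dep_wtf β N _ v v' hv, dep_Wf β N x v v' hv]

theorem gb_le_one (β : ℝ) (N : ℕ) (x : Z2) (v : Env) (σ : Fin N → E4) : gb β N x v σ ≤ 1 := by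
  rw [← gb_sum β N x v]
  exact Finset.single_le_sum (f := fun σ => gb β N x v σ) (fun σ _ => (gb_pos β N x v σ).le) (mem_univ σ)

theorem log_add (β : ℝ) (N M : ℕ) (x : Z2) (v : Env) :
    Real.log (Wf β N x v) + ∑ σ, gb β N x v σ * Real.log (Wf β M (path x σ N) (tsh N v)) ≤
      Real.log (Wf β (N + M) x v) := by
  have hu := Wf_pos β N x v
  set X : (Fin N → E4) → ℝ := fun σ => Wf β M (path x σ N) (tsh N v) with hX
  have hXp : ∀ σ, 0 < X σ := fun σ => Wf_pos _ _ _ _
  have e1 : Wf β (N + M) x v = Wf β N x v * ∑ σ, gb β N x v σ * X σ := by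
    rw [Wf_add, Finset.mul_sum]
    unfold ES
    rw [Finset.mul_sum]
    apply Finset.sum_congr rfl
    intro σ _
    unfold gb
    field_simp
    rfl
  set m := ∑ σ, gb β N x v σ * Real.log (X σ) with hm
  have h1 : Real.exp m ≤ ∑ σ, gb β N x v σ * X σ := by
    have h2 : ∀ σ, gb β N x v σ * (Real.exp m * (1 + (Real.log (X σ) - m))) ≤ gb β N x v σ * X σ := by
      intro σ
      apply mul_le_mul_of_nonneg_left _ (gb_pos β N x v σ).le
      have h3 := Real.add_one_le_exp (Real.log (X σ) - m)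
      calc _ ≤ Real.exp m * Real.exp (Real.log (X σ) - m) :=
            mul_le_mul_of_nonneg_left (by linarith) (Real.exp_pos _).le
        _ = X σ := by rw [← Real.exp_add]; rw [show m + (Real.log (X σ) - m) = Real.log (X σ) by ring, Real.exp_log (hXp σ)]
    refine le_trans (le_of_eq ?_) (Finset.sum_le_sum fun σ _ => h2 σ)
    have h4 : ∀ σ, gb β N x v σ * (Real.exp m * (1 + (Real.log (X σ) - m))) =
        Real.exp m * (gb β N x v σ * (1 - m)) + Real.exp m * (gb β N x v σ * Real.log (X σ)) := by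
      intro σ; ring
    simp only [h4]
    rw [Finset.sum_add_distrib, ← Finset.mul_sum, ← Finset.mul_sum, ← Finset.sum_mul, gb_sum, ← hm]
    ring
  rw [e1]
  have h2 : Real.log (Wf β N x v * Real.exp m) ≤ Real.log (Wf β N x v * ∑ σ, gb β N x v σ * X σ) := by
    apply Real.log_le_log (by positivity)
    exact mul_le_mul_of_nonneg_left h1 hu.le
  rw [Real.log_mul hu.ne' (Real.exp_pos _).ne', Real.log_exp] at h2
  exact h2

theorem LBm_add (H : HH h) {β : ℝ} {N M : ℕ} {C C' : ℝ} (h1 : LBm P h β N C) (h2 : LBm P h β M C') :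
    LBm P h β (N + M) (C + C') := by
  intro ω g x
  have hP := g.prob
  have hmE := g.measurable_En
  obtain ⟨i1, l1⟩ := h1 ω g x
  have hg : ∀ σ : Fin N → E4, Integrable (fun w => gb β N x (En ω w) σ) P := by
    intro σ
    refine Integrable.mono' (integrable_const (1 : ℝ))
      ((measurable_gb β N x σ).comp hmE).aestronglyMeasurable ?_
    refine Filter.Eventually.of_forall fun w => ?_
    rw [Real.norm_eq_abs, abs_of_pos (gb_pos _ _ _ _ _)]
    exact gb_le_one _ _ _ _ _
  have hl : ∀ σ : Fin N → E4, Integrable (fun w => Real.log (Wf β M (path x σ N) (tsh N (En ω w)))) P ∧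
      -C' ≤ ∫ w, Real.log (Wf β M (path x σ N) (tsh N (En ω w))) ∂P := fun σ =>
    h2 _ (g.tshift N) (path x σ N)
  have hind : ∀ σ : Fin N → E4, IndepFun (fun w => gb β N x (En ω w) σ)
      (fun w => Real.log (Wf β M (path x σ N) (tsh N (En ω w)))) P := by
    intro σ
    have hd : Disjoint {n : ℕ | n ∈ Icc 1 N} {n : ℕ | ∃ k ∈ {n | n ∈ Icc 1 M}, n = N + k} := by
      rw [Set.disjoint_left]
      rintro n hn ⟨k, hk, rfl⟩
      have h3 := Finset.mem_Icc.1 hn
      have h4 := Finset.mem_Icc.1 hk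
      omega
    exact g.indepf hd (measurable_gb β N x σ)
      (Real.measurable_log.comp ((measurable_Wf β M _).comp (measurable_tsh N)))
      (dep_gb β N x σ) (dep_tsh (Φ := fun v => Real.log (Wf β M (path x σ N) v)) (by
        intro v v' hv
        show Real.log _ = Real.log _
        rw [dep_Wf β M _ v v' hv]))
  have hprod : ∀ σ : Fin N → E4, Integrable (fun w => gb β N x (En ω w) σ *
      Real.log (Wf β M (path x σ N) (tsh N (En ω w)))) P := fun σ =>
    (hind σ).integrable_mul (hg σ) (hl σ).1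
  have hsum : Integrable (fun w => ∑ σ, gb β N x (En ω w) σ *
      Real.log (Wf β M (path x σ N) (tsh N (En ω w)))) P := integrable_finsetSum _ fun σ _ => hprod σ
  obtain ⟨iW, -⟩ := g.W_one H.h0 β (N + M) x
  have hlow : Integrable (fun w => Real.log (Wf β N x (En ω w)) + ∑ σ, gb β N x (En ω w) σ *
      Real.log (Wf β M (path x σ N) (tsh N (En ω w)))) P := i1.add hsum
  have hle : ∀ w, Real.log (Wf β N x (En ω w)) + ∑ σ, gb β N x (En ω w) σ *
      Real.log (Wf β M (path x σ N) (tsh N (En ω w))) ≤ Real.log (Wf β (N + M) x (En ω w)) :=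
    fun w => log_add β N M x (En ω w)
  have hlogi : Integrable (fun w => Real.log (Wf β (N + M) x (En ω w))) P := by
    refine Integrable.mono' (hlow.abs.add iW)
      (Real.measurable_log.comp ((measurable_Wf β (N + M) x).comp hmE)).aestronglyMeasurable ?_
    refine Filter.Eventually.of_forall fun w => ?_
    have hw := Wf_pos β (N + M) x (En ω w)
    rw [Real.norm_eq_abs, abs_le]
    have h1 := hle w
    have h2 : Real.log (Wf β (N + M) x (En ω w)) ≤ Wf β (N + M) x (En ω w) := by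
      have := Real.log_le_sub_one_of_pos hw
      linarith
    have h3 := neg_abs_le (Real.log (Wf β N x (En ω w)) + ∑ σ, gb β N x (En ω w) σ *
      Real.log (Wf β M (path x σ N) (tsh N (En ω w))))
    have h4 := abs_nonneg (Real.log (Wf β N x (En ω w)) + ∑ σ, gb β N x (En ω w) σ *
      Real.log (Wf β M (path x σ N) (tsh N (En ω w))))
    simp only [Pi.add_apply]
    constructor <;> linarith
  refine ⟨hlogi, ?_⟩
  have h3 := integral_mono hlow hlogi hle
  rw [integral_add i1 hsum, integral_finsetSum _ (fun σ _ => hprod σ)] at h3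
  have h4 : ∀ σ : Fin N → E4, (∫ w, gb β N x (En ω w) σ ∂P) * (-C') ≤
      ∫ w, gb β N x (En ω w) σ * Real.log (Wf β M (path x σ N) (tsh N (En ω w))) ∂P := by
    intro σ
    rw [(hind σ).integral_fun_mul_eq_mul_integral (hg σ).aestronglyMeasurable
      (hl σ).1.aestronglyMeasurable]
    apply mul_le_mul_of_nonneg_left (hl σ).2
    exact integral_nonneg fun w => (gb_pos _ _ _ _ _).le
  have h5 := Finset.sum_le_sum (s := univ) fun σ _ => h4 σ
  rw [← Finset.sum_mul, ← integral_finsetSum _ (fun σ _ => hg σ)] at h5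
  simp only [gb_sum, integral_const, probReal_univ, one_smul] at h5
  linarith

theorem LBm_mul (H : HH h) [IsProbabilityMeasure P] {β : ℝ} {N : ℕ} {C : ℝ} (h1 : LBm P h β N C)
    (k : ℕ) : LBm P h β (k * N) (k * C) := by
  induction k with
  | zero =>
    intro ω g x
    simp only [zero_mul, Nat.cast_zero, neg_zero]
    have h0 : ∀ w, Wf β 0 x (En ω w) = 1 := by
      intro w
      unfold Wf
      rw [ES_zero]
      simp [wtf]
    simp only [h0, Real.log_one]
    exact ⟨integrable_const _, by simp⟩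
  | succ k ih =>
    have := LBm_add H ih h1
    rw [show (k + 1) * N = k * N + N by ring]
    push_cast
    rw [show ((k : ℝ) + 1) * C = k * C + C by ring]
    exact this

/-- from the mean to the almost sure limit -/
theorem p_ge {ω : ℕ → Z2 → Ω → ℝ} (g : GEnv P ω h) (H : HH h) {β C p : ℝ} {N : ℕ} (hN : 1 ≤ N)
    (hC : 0 ≤ C) (h1 : LBm P h β N C)
    (hp : ∀ᵐ w ∂P, Tendsto (fun n : ℕ => Real.log (Wf β n 0 (En ω w)) / (n : ℝ)) atTop (nhds p)) :
    -p ≤ C / N := by
  have hP := g.prob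
  have hmE := g.measurable_En
  have hN0 : (0 : ℝ) < N := by exact_mod_cast hN
  set f : ℕ → Ω → ENNReal := fun k w => ENNReal.ofReal
    ((Wf β ((k + 1) * N) 0 (En ω w) - Real.log (Wf β ((k + 1) * N) 0 (En ω w))) / (((k + 1) * N : ℕ) : ℝ))
    with hf
  have hfm : ∀ k, Measurable (f k) := by
    intro k
    apply ENNReal.measurable_ofReal.comp
    apply Measurable.div_const
    exact ((measurable_Wf β _ 0).comp hmE).sub
      (Real.measurable_log.comp ((measurable_Wf β _ 0).comp hmE))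
  have hfat := lintegral_liminf_le (μ := P) (u := atTop) hfm
  have hk0 : ∀ k : ℕ, (0 : ℝ) < (((k + 1) * N : ℕ) : ℝ) := by
    intro k; push_cast; positivity
  -- upper bound for the integrals
  have hup : ∀ k, ∫⁻ w, f k w ∂P ≤ ENNReal.ofReal (1 / (((k + 1) * N : ℕ) : ℝ) + C / N) := by
    intro k
    obtain ⟨iW, eW⟩ := g.W_one H.h0 β ((k + 1) * N) 0
    obtain ⟨il, ll⟩ := LBm_mul H h1 (k + 1) ω g 0
    have hnn : ∀ w, 0 ≤ (Wf β ((k + 1) * N) 0 (En ω w) - Real.log (Wf β ((k + 1) * N) 0 (En ω w))) /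
        (((k + 1) * N : ℕ) : ℝ) := by
      intro w
      apply div_nonneg _ (hk0 k).le
      have hw := Wf_pos β ((k + 1) * N) 0 (En ω w)
      have := Real.log_le_sub_one_of_pos hw
      linarith
    have hi : Integrable (fun w => (Wf β ((k + 1) * N) 0 (En ω w) -
        Real.log (Wf β ((k + 1) * N) 0 (En ω w))) / (((k + 1) * N : ℕ) : ℝ)) P :=
      (iW.sub il).div_const _
    show ∫⁻ w, ENNReal.ofReal ((Wf β ((k + 1) * N) 0 (En ω w) -
        Real.log (Wf β ((k + 1) * N) 0 (En ω w))) / (((k + 1) * N : ℕ) : ℝ)) ∂P ≤ _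
    rw [← ofReal_integral_eq_lintegral_ofReal hi (Filter.Eventually.of_forall hnn)]
    apply ENNReal.ofReal_le_ofReal
    have h2 : ∫ w, (Wf β ((k + 1) * N) 0 (En ω w) - Real.log (Wf β ((k + 1) * N) 0 (En ω w))) /
        (((k + 1) * N : ℕ) : ℝ) ∂P ≤ (1 + ((k + 1 : ℕ) : ℝ) * C) / (((k + 1) * N : ℕ) : ℝ) := by
      rw [integral_div, integral_sub iW il, eW]
      apply div_le_div_of_nonneg_right _ (hk0 k).le
      linarith
    refine h2.trans (le_of_eq ?_)
    push_cast
    field_simp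
  have hlimup : Tendsto (fun k : ℕ => ENNReal.ofReal (1 / (((k + 1) * N : ℕ) : ℝ) + C / N)) atTop
      (nhds (ENNReal.ofReal (0 + C / N))) := by
    apply ENNReal.tendsto_ofReal
    apply Tendsto.add_const
    have h2 : Tendsto (fun k : ℕ => (((k + 1) * N : ℕ) : ℝ)) atTop atTop := by
      apply tendsto_natCast_atTop_atTop.comp
      apply tendsto_atTop_mono (fun k => ?_) tendsto_id
      show k ≤ (k + 1) * N
      nlinarith
    exact h2.const_div_atTop 1
  have hlow : ∀ᵐ w ∂P, ENNReal.ofReal (-p) ≤ liminf (fun k => f k w) atTop := by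
    filter_upwards [hp] with w hw
    have hsub : Tendsto (fun k : ℕ => (k + 1) * N) atTop atTop := by
      apply tendsto_atTop_mono (fun k => ?_) tendsto_id
      show k ≤ (k + 1) * N
      nlinarith
    have h2 : Tendsto (fun k : ℕ => ENNReal.ofReal (-(Real.log (Wf β ((k + 1) * N) 0 (En ω w)) /
        (((k + 1) * N : ℕ) : ℝ)))) atTop (nhds (ENNReal.ofReal (-p))) := by
      apply ENNReal.tendsto_ofReal
      exact (hw.comp hsub).neg
    rw [← h2.liminf_eq]
    refine liminf_le_liminf (Filter.Eventually.of_forall fun k => ?_)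
    apply ENNReal.ofReal_le_ofReal
    rw [← neg_div]
    apply div_le_div_of_nonneg_right _ (hk0 k).le
    have := Wf_pos β ((k + 1) * N) 0 (En ω w)
    linarith
  have h3 : ENNReal.ofReal (-p) ≤ ∫⁻ w, liminf (fun k => f k w) atTop ∂P := by
    have h4 : ∫⁻ _, ENNReal.ofReal (-p) ∂P = ENNReal.ofReal (-p) := by
      rw [lintegral_const, measure_univ, mul_one]
    rw [← h4]
    exact lintegral_mono_ae hlow
  have h5 : liminf (fun k => ∫⁻ w, f k w ∂P) atTop ≤ ENNReal.ofReal (0 + C / N) := by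
    rw [← hlimup.liminf_eq]
    exact liminf_le_liminf (Filter.Eventually.of_forall hup)
  have h6 := (h3.trans hfat).trans h5
  rw [zero_add] at h6
  exact (ENNReal.ofReal_le_ofReal_iff (by positivity)).1 h6

/-- Part I: lower bound for the free energy -/
theorem partI (H : HH h) {ε : ℝ} (hε : 0 < ε) (hε1 : ε < 1) :
    ∃ C β0 : ℝ, 0 < C ∧ 0 < β0 ∧ β0 ≤ 1 ∧ ∀ (Ω : Type) [MeasurableSpace Ω] (P : Measure Ω)
      (ω : ℕ → Z2 → Ω → ℝ), GEnv P ω h → ∀ β p : ℝ, 0 < β → β ≤ β0 →
      (∀ᵐ w ∂P, Tendsto (fun n : ℕ => Real.log (Wf β n 0 (En ω w)) / (n : ℝ)) atTop (nhds p)) →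
      -p ≤ C * Real.exp (-((1 - ε) * Real.pi / (√2 * β))) := by
  obtain ⟨C, β0, hC, hβ0, hβ01, hmom⟩ := mom H hε hε1
  set K := (Real.log 2 + 1) + Real.pi * √(4 * (8 * C ^ 2 / (ε / 8))) / (1 / (16 * C)) with hK
  have hlog2 : 0 < Real.log 2 := Real.log_pos (by norm_num)
  have hK0 : 0 < K := by positivity
  refine ⟨2 * K, β0, by positivity, hβ0, hβ01, ?_⟩
  intro Ω _ P ω g β p hβ hββ hp
  set E := Real.exp ((1 - ε) * Real.pi / (√2 * β)) with hE
  have hE1 : 1 ≤ E := Real.one_le_exp (by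
    have := Real.pi_pos
    have : 0 < 1 - ε := by linarith
    positivity)
  set N := ⌊E⌋₊ with hN
  have hN1 : 1 ≤ N := (Nat.one_le_floor_iff E).2 hE1
  have hNE : (N : ℝ) ≤ E := Nat.floor_le (by linarith)
  have hNE2 : E < N + 1 := Nat.lt_floor_add_one E
  have hN1r : (1 : ℝ) ≤ N := by exact_mod_cast hN1
  have hlogN : Real.log N ≤ (1 - ε) * Real.pi / (√2 * β) := by
    rw [Real.log_le_iff_le_exp (by linarith)]
    exact hNE
  have hLB : LBm P h β N K := by
    intro ω' g' x
    obtain ⟨i1, l1⟩ := low_mean g' H (β := β) (η := ε / 8) (C := C) (by positivity) hC N x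
      (hmom β hβ hββ N hN1 hlogN x x)
    refine ⟨i1, ?_⟩
    rw [hK]
    linarith
  have h1 := p_ge g H hN1 hK0.le hLB hp
  refine h1.trans ?_
  rw [Real.exp_neg, ← hE, ← div_eq_mul_inv]
  rw [div_le_div_iff₀ (by linarith) (by linarith)]
  nlinarith

end Pool.Agent.Helper97.CP
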