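import Pool.Agent.Helper97.CP2.PII2
import Pool.Agent.Helper97.CP2.P1c

set_option autoImplicit false

open MeasureTheory ProbabilityTheory Filter Finset Topology

namespace Pool.Agent.Helper97.CP

theorem HH_of {h : Z2 → ℝ} (hs : ∀ x, h (-x) = h x)
    (hpsd : ∀ (s : Finset Z2) (a : Z2 → ℝ),
      0 ≤ Finset.sum s (fun x => Finset.sum s (fun y => a x * a y * h (x - y))))
    (h0 : h 0 = 1)
    (hl : Tendsto (fun x : Z2 => h x * Finset.sum Finset.univ (fun i : Fin 2 => ((x i : ℝ)) ^ 2))
      cofinite (nhds 1)) : HH h := by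
  classical
  refine ⟨h0, hs, ?_, ?_⟩
  · intro z
    by_cases hz : z = 0
    · rw [hz, h0]; simp
    · have key : ∀ t : ℝ, 0 ≤ 1 + t * h z + (t * h z + t ^ 2) := by
        intro t
        have h1 := hpsd {0, z} (fun x => if x = z then t else 1)
        have hz' : (0 : Z2) ≠ z := fun h => hz h.symm
        rw [Finset.sum_pair hz', Finset.sum_pair hz', Finset.sum_pair hz'] at h1
        simp only [if_neg hz', if_true, sub_zero, zero_sub, sub_self, hs, h0] at h1
        linarith
      have h1 := key 1
      have h2 := key (-1)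
      rw [abs_le]
      constructor <;> linarith
  · intro δ hδ
    have h1 : ∀ᶠ z in cofinite, |h z * nsq z - 1| ≤ δ := by
      have h2 := (tendsto_order.1 (tendsto_iff_dist_tendsto_zero.1 hl)).2 δ hδ
      filter_upwards [h2] with z hz
      rw [Real.dist_eq] at hz
      exact hz.le
    rw [eventually_cofinite] at h1
    set F := h1.toFinset with hF
    refine ⟨∑ z ∈ F, nsq z + 1, fun z hz => ?_⟩
    by_contra hcon
    have hzF : z ∈ F := by
      rw [hF, Set.Finite.mem_toFinset]
      exact hcon
    have := Finset.single_le_sum (f := fun z => nsq z) (fun z _ => nsq_nonneg z) hzF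
    linarith

theorem final {h : Z2 → ℝ} (H : HH h) {Ω : Type} [MeasurableSpace Ω] {P : Measure Ω}
    {ω : ℕ → Z2 → Ω → ℝ} (g : GEnv P ω h) (p : ℝ → ℝ)
    (hp : ∀ β : ℝ, 0 < β → ∀ᵐ w ∂P,
      Tendsto (fun n : ℕ => Real.log (Wf β n 0 (En ω w)) / (n : ℝ)) atTop (nhds (p β))) :
    Tendsto (fun β : ℝ => Real.log (-p β) * β) (𝓝[>] 0) (nhds (-(Real.pi / √2))) := by
  have hpi := Real.pi_pos
  set c := Real.pi / √2 with hc
  have hc0 : 0 < c := by positivity
  apply tendsto_order.2
  constructor
  · intro a ha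
    set ε := min (1 / 2) ((-a - c) / (4 * c)) with hε
    have hε0 : 0 < ε := by
      apply lt_min (by norm_num)
      apply div_pos (by linarith) (by positivity)
    have hε1 : ε < 1 := lt_of_le_of_lt (min_le_left _ _) (by norm_num)
    have hεa : (1 + 2 * ε) * c < -a := by
      have h1 : ε ≤ (-a - c) / (4 * c) := min_le_right _ _
      rw [le_div_iff₀ (by positivity)] at h1
      linarith
    filter_upwards [partII H hε0 hε1, self_mem_nhdsWithin] with β h1 hβ
    have hβ' : 0 < β := hβ
    have h2 := h1 Ω P ω g (p β) (hp β hβ')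
    have hpp : 0 < -p β := lt_of_lt_of_le (Real.exp_pos _) h2
    have h3 : -((1 + 2 * ε) * Real.pi / (√2 * β)) ≤ Real.log (-p β) := by
      rw [← Real.log_exp (-((1 + 2 * ε) * Real.pi / (√2 * β)))]
      exact Real.log_le_log (Real.exp_pos _) h2
    have h4 := mul_le_mul_of_nonneg_right h3 hβ'.le
    have e : -((1 + 2 * ε) * Real.pi / (√2 * β)) * β = -((1 + 2 * ε) * c) := by
      rw [hc]; field_simp
    rw [e] at h4
    linarith
  · intro a ha
    set ε := min (1 / 2) ((a + c) / (4 * c)) with hε
    have hε0 : 0 < ε := by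
      apply lt_min (by norm_num)
      apply div_pos (by linarith) (by positivity)
    have hε1 : ε < 1 := lt_of_le_of_lt (min_le_left _ _) (by norm_num)
    have hεa : 0 < a + (1 - ε) * c := by
      have h1 : ε ≤ (a + c) / (4 * c) := min_le_right _ _
      rw [le_div_iff₀ (by positivity)] at h1
      linarith
    obtain ⟨C, β0, hC, hβ0, -, hI⟩ := partI H hε0 hε1
    filter_upwards [partII H hε0 hε1, ev_lt hβ0,
      ev_lt (a := (a + (1 - ε) * c) / (|Real.log C| + 1)) (by positivity)] with β h1 hβ hβ2
    have hβ' : 0 < β := hβ.1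
    have h2 := h1 Ω P ω g (p β) (hp β hβ')
    have hpp : 0 < -p β := lt_of_lt_of_le (Real.exp_pos _) h2
    have h5 := hI Ω P ω g β (p β) hβ' hβ.2.le (hp β hβ')
    have h3 : Real.log (-p β) ≤ Real.log C + -((1 - ε) * Real.pi / (√2 * β)) := by
      rw [← Real.log_exp (-((1 - ε) * Real.pi / (√2 * β))), ← Real.log_mul hC.ne' (Real.exp_pos _).ne']
      exact Real.log_le_log hpp h5
    have h4 := mul_le_mul_of_nonneg_right h3 hβ'.le
    have e : (Real.log C + -((1 - ε) * Real.pi / (√2 * β))) * β = Real.log C * β - (1 - ε) * c := by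
      rw [hc]; field_simp; ring
    rw [e] at h4
    have h6 : Real.log C * β < a + (1 - ε) * c := by
      have h7 := hβ2.2
      rw [lt_div_iff₀ (by positivity)] at h7
      have h8 : Real.log C * β ≤ |Real.log C| * β := mul_le_mul_of_nonneg_right (le_abs_self _) hβ'.le
      nlinarith
    linarith

end Pool.Agent.Helper97.CP
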