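import Pool.Agent.Helper97.CP2.Basic

set_option autoImplicit false

open MeasureTheory ProbabilityTheory Filter Finset

namespace Pool.Agent.Helper97.CP

/-- Gaussian environment, white in time, with spatial covariance `h` -/
structure GEnv {Ω : Type*} [MeasurableSpace Ω] (P : Measure Ω) (ω : ℕ → Z2 → Ω → ℝ) (h : Z2 → ℝ) :
    Prop where
  meas : ∀ n x, Measurable (ω n x)
  gp : IsGaussianProcess (fun p : ℕ × Z2 => ω p.1 p.2) P
  mean : ∀ n x, ∫ w, ω n x w ∂P = 0
  cov : ∀ n x m y, ∫ w, ω n x w * ω m y w ∂P = if n = m then h (x - y) else 0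

/-- covariance of two space-time points -/
noncomputable def cv (h : Z2 → ℝ) (p q : ℕ × Z2) : ℝ := if p.1 = q.1 then h (p.2 - q.2) else 0

variable {Ω : Type*} [MeasurableSpace Ω] {P : Measure Ω} {ω : ℕ → Z2 → Ω → ℝ} {h : Z2 → ℝ}

theorem GEnv.prob (g : GEnv P ω h) : IsProbabilityMeasure P := g.gp.isProbabilityMeasure

theorem GEnv.memLp (g : GEnv P ω h) (n : ℕ) (x : Z2) {p : ENNReal} (hp : p ≠ ⊤) :
    MemLp (ω n x) p P := (g.gp.hasGaussianLaw_eval (n, x)).memLp hp

theorem GEnv.lin {ι : Type*} (g : GEnv P ω h) (s : Finset ι) (a : ι → ℝ) (p : ι → ℕ × Z2) :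
    HasGaussianLaw (fun w => ∑ i ∈ s, a i * ω (p i).1 (p i).2 w) P := by
  have h1 := ((g.gp.comp_right p).smul a).hasGaussianLaw_fun_sum (I := s)
  exact h1

theorem GEnv.lin_mean {ι : Type*} (g : GEnv P ω h) (s : Finset ι) (a : ι → ℝ) (p : ι → ℕ × Z2) :
    ∫ w, ∑ i ∈ s, a i * ω (p i).1 (p i).2 w ∂P = 0 := by
  have := g.prob
  rw [integral_finsetSum]
  · apply Finset.sum_eq_zero
    intro i _
    rw [integral_const_mul, g.mean, mul_zero]
  · intro i _
    exact ((g.memLp _ _ (p := 1) (by simp)).integrable (le_refl _)).const_mul _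

theorem GEnv.integrable_mul (g : GEnv P ω h) (n m : ℕ) (x y : Z2) :
    Integrable (fun w => ω n x w * ω m y w) P :=
  (g.memLp n x (p := 2) (by simp)).integrable_mul (g.memLp m y (p := 2) (by simp))

theorem GEnv.lin_sq {ι : Type*} (g : GEnv P ω h) (s : Finset ι) (a : ι → ℝ) (p : ι → ℕ × Z2) :
    ∫ w, (∑ i ∈ s, a i * ω (p i).1 (p i).2 w) ^ 2 ∂P =
      ∑ i ∈ s, ∑ j ∈ s, a i * a j * cv h (p i) (p j) := by
  have e1 : ∀ w, (∑ i ∈ s, a i * ω (p i).1 (p i).2 w) ^ 2 =
      ∑ i ∈ s, ∑ j ∈ s, a i * a j * (ω (p i).1 (p i).2 w * ω (p j).1 (p j).2 w) := by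
    intro w
    rw [sq, Finset.sum_mul_sum]
    apply Finset.sum_congr rfl
    intro i _
    apply Finset.sum_congr rfl
    intro j _
    ring
  simp only [e1]
  rw [integral_finsetSum]
  · apply Finset.sum_congr rfl
    intro i _
    rw [integral_finsetSum]
    · apply Finset.sum_congr rfl
      intro j _
      rw [integral_const_mul, g.cov]
      rfl
    · intro j _
      exact (g.integrable_mul _ _ _ _).const_mul _
  · intro i _
    apply integrable_finsetSum
    intro j _
    exact (g.integrable_mul _ _ _ _).const_mul _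

theorem GEnv.lin_law {ι : Type*} (g : GEnv P ω h) (s : Finset ι) (a : ι → ℝ) (p : ι → ℕ × Z2) :
    P.map (fun w => ∑ i ∈ s, a i * ω (p i).1 (p i).2 w) =
      gaussianReal 0 (∑ i ∈ s, ∑ j ∈ s, a i * a j * cv h (p i) (p j)).toNNReal := by
  have := g.prob
  rw [(g.lin s a p).map_eq_gaussianReal, g.lin_mean, variance_eq_sub (g.lin s a p).memLp_two]
  congr 2
  show ∫ w, (∑ i ∈ s, a i * ω (p i).1 (p i).2 w) ^ 2 ∂P - _ = _
  rw [g.lin_sq, g.lin_mean]
  ring

theorem GEnv.psd {ι : Type*} (g : GEnv P ω h) (s : Finset ι) (a : ι → ℝ) (p : ι → ℕ × Z2) :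
    0 ≤ ∑ i ∈ s, ∑ j ∈ s, a i * a j * cv h (p i) (p j) := by
  rw [← g.lin_sq]
  exact integral_nonneg fun w => sq_nonneg _

theorem GEnv.exp_lin {ι : Type*} (g : GEnv P ω h) (s : Finset ι) (a : ι → ℝ) (p : ι → ℕ × Z2) :
    Integrable (fun w => Real.exp (∑ i ∈ s, a i * ω (p i).1 (p i).2 w)) P ∧
    ∫ w, Real.exp (∑ i ∈ s, a i * ω (p i).1 (p i).2 w) ∂P =
      Real.exp ((∑ i ∈ s, ∑ j ∈ s, a i * a j * cv h (p i) (p j)) / 2) := by
  have := g.prob
  have h1 := mgf_gaussianReal (g.lin_law s a p) 1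
  have h2 : mgf (fun w => ∑ i ∈ s, a i * ω (p i).1 (p i).2 w) P 1 =
      ∫ w, Real.exp (∑ i ∈ s, a i * ω (p i).1 (p i).2 w) ∂P := by
    unfold mgf
    simp only [one_mul]
  have h3 : mgf (fun w => ∑ i ∈ s, a i * ω (p i).1 (p i).2 w) P 1 =
      Real.exp ((∑ i ∈ s, ∑ j ∈ s, a i * a j * cv h (p i) (p j)) / 2) := by
    rw [h1, Real.coe_toNNReal _ (g.psd s a p)]
    congr 1
    ring
  refine ⟨?_, by rw [← h2, h3]⟩
  have h4 : 0 < mgf (fun w => ∑ i ∈ s, a i * ω (p i).1 (p i).2 w) P 1 := by
    rw [h3]; exact Real.exp_pos _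
  have h5 := mgf_pos_iff.1 h4
  simpa using h5

theorem law_of_mgf {Q' : Measure Ω} [IsProbabilityMeasure Q'] {L : Ω → ℝ} (hL : Measurable L)
    (v : NNReal) (hm : ∀ t, mgf L Q' t = Real.exp (v * t ^ 2 / 2)) : Q'.map L = gaussianReal 0 v := by
  have h0 : mgf L Q' = mgf id (gaussianReal 0 v) := by
    funext t
    rw [hm, mgf_id_gaussianReal]
    simp
  have h1 := eqOn_complexMGF_of_mgf h0
  have h2 : integrableExpSet L Q' = Set.univ := by
    ext t
    simp only [Set.mem_univ, iff_true]
    have : 0 < mgf L Q' t := by rw [hm]; exact Real.exp_pos _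
    exact mgf_pos_iff.1 this
  have h3 : complexMGF L Q' = complexMGF id (gaussianReal 0 v) := by
    funext z
    apply h1
    rw [h2]
    simp
  have := Measure.ext_of_complexMGF_eq hL.aemeasurable aemeasurable_id h3
  rw [this, Measure.map_id]

theorem gp_of_lin {T : Type*} [IsProbabilityMeasure P] {X : T → Ω → ℝ} (hX : ∀ t, Measurable (X t))
    (hlin : ∀ (s : Finset T) (a : T → ℝ), ∃ (m : ℝ) (v : NNReal),
      P.map (fun w => ∑ i ∈ s, a i * X i w) = gaussianReal m v) : IsGaussianProcess X P := by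
  classical
  constructor
  intro I
  constructor
  apply isGaussian_of_map_eq_gaussianReal
  intro L
  obtain ⟨m, v, hmv⟩ := hlin I (fun i => if hi : i ∈ I then L (Pi.single ⟨i, hi⟩ 1) else 0)
  refine ⟨m, v, ?_⟩
  rw [← hmv, Measure.map_map (by fun_prop) (by
    apply measurable_pi_lambda
    intro i
    exact hX _)]
  congr 1
  funext w
  show L (I.restrict (X · w)) = _
  rw [← L.sum_comp_single]
  conv_rhs => rw [← Finset.sum_coe_sort]
  apply Finset.sum_congr rfl
  intro i _
  rw [dif_pos i.2]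
  show L (Pi.single i (X i w)) = _
  have : (Pi.single i (X i w) : I → ℝ) = (X i w) • (Pi.single i 1 : I → ℝ) := by
    rw [← Pi.single_smul]; simp
  rw [this, map_smul, smul_eq_mul, mul_comm]

theorem GEnv.of_lin [IsProbabilityMeasure P] (hm : ∀ n x, Measurable (ω n x)) (h0 : h 0 = 1)
    (h1 : ∀ z, |h z| ≤ 1) (hs : ∀ z, h (-z) = h z)
    (hlin : ∀ (s : Finset (ℕ × Z2)) (a : ℕ × Z2 → ℝ),
      P.map (fun w => ∑ i ∈ s, a i * ω i.1 i.2 w) =
        gaussianReal 0 (Real.toNNReal (∑ i ∈ s, ∑ j ∈ s, a i * a j * cv h i j))) : GEnv P ω h := by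
  have gp : IsGaussianProcess (fun p : ℕ × Z2 => ω p.1 p.2) P :=
    gp_of_lin (fun t => hm _ _) (fun s a => ⟨_, _, hlin s a⟩)
  have hcv : ∀ p, cv h p p = 1 := by
    intro p; unfold cv; rw [if_pos rfl, sub_self, h0]
  have hone : ∀ p : ℕ × Z2, P.map (ω p.1 p.2) = gaussianReal 0 1 := by
    intro p
    have := hlin {p} (fun _ => 1)
    simp only [Finset.sum_singleton, one_mul, hcv] at this
    rw [this]
    simp
  have hmean : ∀ p : ℕ × Z2, ∫ w, ω p.1 p.2 w ∂P = 0 := by
    intro p
    have h2 : ∫ w, ω p.1 p.2 w ∂P = ∫ x, x ∂(P.map (ω p.1 p.2)) :=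
      (integral_map (hm _ _).aemeasurable
        (by fun_prop : AEStronglyMeasurable (fun x : ℝ => x) _)).symm
    rw [h2, hone, integral_id_gaussianReal]
  have hsq : ∀ p : ℕ × Z2, ∫ w, ω p.1 p.2 w ^ 2 ∂P = 1 := by
    intro p
    have h2 := variance_eq_sub (gp.hasGaussianLaw_eval p).memLp_two
    have h3 : Var[ω p.1 p.2; P] = 1 := by
      rw [← variance_id_map (hm _ _).aemeasurable, hone, variance_id_gaussianReal]
      rfl
    have h4 : ∫ w, (ω p.1 p.2 ^ 2) w ∂P = ∫ w, ω p.1 p.2 w ^ 2 ∂P := rfl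
    rw [h3, h4, hmean p] at h2
    linarith
  refine ⟨hm, gp, fun n x => hmean (n, x), ?_⟩
  intro n x m y
  have hint : ∀ n x m y, Integrable (fun w => ω n x w * ω m y w) P := fun n x m y =>
    (gp.hasGaussianLaw_eval (n, x)).memLp_two.integrable_mul (gp.hasGaussianLaw_eval (m, y)).memLp_two
  by_cases hp : ((n, x) : ℕ × Z2) = (m, y)
  · have hn : n = m := congrArg Prod.fst hp
    have hx : x = y := congrArg Prod.snd hp
    subst hn; subst hx
    rw [if_pos rfl, sub_self, h0]
    have := hsq (n, x)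
    simp only [sq] at this
    exact this
  · have h2 := hlin {(n, x), (m, y)} (fun _ => 1)
    simp only [Finset.sum_pair hp, one_mul, hcv] at h2
    have hsym : cv h (m, y) (n, x) = cv h (n, x) (m, y) := by
      unfold cv
      simp only
      by_cases hnm : n = m
      · rw [if_pos hnm, if_pos hnm.symm, ← hs, neg_sub]
      · rw [if_neg hnm, if_neg (fun h => hnm h.symm)]
    have hcvle : -1 ≤ cv h (n, x) (m, y) := by
      unfold cv
      split_ifs
      · exact (abs_le.1 (h1 _)).1
      · norm_num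
    rw [hsym] at h2
    have h3 : Var[fun w => ω n x w + ω m y w; P] = 2 + 2 * cv h (n, x) (m, y) := by
      rw [← variance_id_map (by fun_prop (disch := exact hm _ _)), h2, variance_id_gaussianReal,
        Real.coe_toNNReal _ (by linarith)]
      ring
    have h4 := variance_eq_sub (gp.hasGaussianLaw_fun_add (s := (n, x)) (t := (m, y))).memLp_two
    simp only at h4
    rw [h3] at h4
    have h5 : ∫ w, ((fun w => ω n x w + ω m y w) ^ 2) w ∂P =
        ∫ w, (ω n x w ^ 2 + ω m y w ^ 2 + 2 * (ω n x w * ω m y w)) ∂P := by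
      congr 1
      funext w
      simp only [Pi.pow_apply]
      ring
    have i1 : Integrable (fun w => ω n x w ^ 2) P := (gp.hasGaussianLaw_eval (n, x)).memLp_two.integrable_sq
    have i2 : Integrable (fun w => ω m y w ^ 2) P := (gp.hasGaussianLaw_eval (m, y)).memLp_two.integrable_sq
    have j1 : Integrable (ω n x) P := (gp.hasGaussianLaw_eval (n, x)).integrable
    have j2 : Integrable (ω m y) P := (gp.hasGaussianLaw_eval (m, y)).integrable
    have i12 : Integrable (fun w => ω n x w ^ 2 + ω m y w ^ 2) P := i1.add i2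
    rw [h5, integral_add i12 ((hint n x m y).const_mul 2), integral_add i1 i2,
      integral_const_mul, integral_add j1 j2] at h4
    have e1 := hsq (n, x)
    have e2 := hsq (m, y)
    have e3 := hmean (n, x)
    have e4 := hmean (m, y)
    simp only at e1 e2 e3 e4
    rw [e1, e2, e3, e4] at h4
    have : cv h (n, x) (m, y) = if n = m then h (x - y) else 0 := rfl
    rw [← this]
    linarith

/-- time shift -/
theorem GEnv.tshift (g : GEnv P ω h) (k : ℕ) : GEnv P (fun n x => ω (k + n) x) h where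
  meas n x := g.meas _ _
  gp := g.gp.comp_right (fun p : ℕ × Z2 => (k + p.1, p.2))
  mean n x := g.mean _ _
  cov n x m y := by
    rw [g.cov]
    by_cases hnm : n = m
    · rw [if_pos hnm, if_pos (by omega)]
    · rw [if_neg hnm, if_neg (by omega)]

/-- space shift -/
theorem GEnv.xshift (g : GEnv P ω h) (v : Z2) : GEnv P (fun n x => ω n (v + x)) h where
  meas n x := g.meas _ _
  gp := g.gp.comp_right (fun p : ℕ × Z2 => (p.1, v + p.2))
  mean n x := g.mean _ _
  cov n x m y := by
    rw [g.cov]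
    congr 2
    abel

/-- smoothed covariance -/
noncomputable def smc (κs : Finset Z2) (κ : Z2 → ℝ) (h : Z2 → ℝ) (z : Z2) : ℝ :=
  ∑ a ∈ κs, ∑ b ∈ κs, κ a * κ b * h (z + a - b)

/-- smoothed environment -/
noncomputable def smo (κs : Finset Z2) (κ : Z2 → ℝ) (ω : ℕ → Z2 → Ω → ℝ) (n : ℕ) (x : Z2) (w : Ω) : ℝ :=
  ∑ a ∈ κs, κ a * ω n (x + a) w

theorem GEnv.smooth (g : GEnv P ω h) (κs : Finset Z2) (κ : Z2 → ℝ) :
    GEnv P (smo κs κ ω) (smc κs κ h) where
  meas n x := by
    unfold smo
    apply Finset.measurable_fun_sum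
    intro a _
    exact (g.meas _ _).const_mul _
  gp := by
    classical
    apply g.gp.of_isGaussianProcess
    intro p
    refine ⟨κs.image (fun a => (p.1, p.2 + a)),
      ∑ a ∈ κs.attach, (κ a.1) • ContinuousLinearMap.proj (R := ℝ)
        (φ := fun _ : κs.image (fun a => (p.1, p.2 + a)) => ℝ)
        ⟨(p.1, p.2 + a.1), Finset.mem_image_of_mem _ a.2⟩, ?_⟩
    intro w
    rw [_root_.sum_apply]
    simp only [FunLike.coe_smul, Pi.smul_apply, ContinuousLinearMap.proj_apply, smul_eq_mul]
    unfold smo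
    rw [← Finset.sum_attach]
    rfl
  mean n x := by
    have := g.lin_mean κs κ (fun a => (n, x + a))
    exact this
  cov n x m y := by
    unfold smo
    have e1 : ∀ w, (∑ a ∈ κs, κ a * ω n (x + a) w) * (∑ b ∈ κs, κ b * ω m (y + b) w) =
        ∑ a ∈ κs, ∑ b ∈ κs, κ a * κ b * (ω n (x + a) w * ω m (y + b) w) := by
      intro w
      rw [Finset.sum_mul_sum]
      apply Finset.sum_congr rfl
      intro i _
      apply Finset.sum_congr rfl
      intro j _
      ring
    simp only [e1]
    rw [integral_finsetSum]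
    · by_cases hnm : n = m
      · rw [if_pos hnm]
        unfold smc
        apply Finset.sum_congr rfl
        intro a _
        rw [integral_finsetSum]
        · apply Finset.sum_congr rfl
          intro b _
          rw [integral_const_mul, g.cov, if_pos hnm]
          congr 2
          abel
        · intro b _
          exact (g.integrable_mul _ _ _ _).const_mul _
      · rw [if_neg hnm]
        apply Finset.sum_eq_zero
        intro a _
        rw [integral_finsetSum]
        · apply Finset.sum_eq_zero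
          intro b _
          rw [integral_const_mul, g.cov, if_neg hnm, mul_zero]
        · intro b _
          exact (g.integrable_mul _ _ _ _).const_mul _
    · intro a _
      apply integrable_finsetSum
      intro b _
      exact (g.integrable_mul _ _ _ _).const_mul _

theorem GEnv.covariance_zero (g : GEnv P ω h) {n m : ℕ} (hnm : n ≠ m) (x y : Z2) :
    cov[ω n x, ω m y; P] = 0 := by
  have := g.prob
  rw [covariance_eq_sub (g.memLp n x (by simp)) (g.memLp m y (by simp)), g.mean, zero_mul, sub_zero]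
  have := g.cov n x m y
  rw [if_neg hnm] at this
  exact this

/-- independence of the environments over disjoint sets of times -/
theorem GEnv.indep (g : GEnv P ω h) (S1 S2 : Set ℕ) (hd : Disjoint S1 S2) :
    IndepFun (fun w (p : S1 × Z2) => ω p.1 p.2 w) (fun w (p : S2 × Z2) => ω p.1 p.2 w) P := by
  have h1 : IsGaussianProcess (Sum.elim (fun (p : S1 × Z2) => ω p.1 p.2)
      (fun (p : S2 × Z2) => ω p.1 p.2)) P := by
    have := g.gp.comp_right (Sum.elim (fun (p : S1 × Z2) => ((p.1 : ℕ), p.2))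
      (fun (p : S2 × Z2) => ((p.1 : ℕ), p.2)))
    convert! this using 1
    funext p
    cases p <;> rfl
  apply h1.indepFun_of_covariance_eq_zero
  · intro p; exact (g.meas _ _).aemeasurable
  · intro p; exact (g.meas _ _).aemeasurable
  · intro p q
    apply g.covariance_zero
    intro he
    exact Set.disjoint_left.1 hd p.1.2 (he ▸ q.1.2)

theorem GEnv.iindep {ι : Type*} (g : GEnv P ω h) (S : ι → Set ℕ) (hd : ∀ i j, i ≠ j → Disjoint (S i) (S j)) :
    iIndepFun (fun i w (p : S i × Z2) => ω p.1 p.2 w) P := by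
  have h1 : IsGaussianProcess (fun (p : (t : ι) × (S t × Z2)) w => ω p.2.1 p.2.2 w) P :=
    g.gp.comp_right (fun p : (t : ι) × (S t × Z2) => ((p.2.1 : ℕ), p.2.2))
  exact h1.iIndepFun_of_covariance_eq_zero (X := fun t (s : S t × Z2) => ω s.1 s.2)
    (fun t s => (g.meas _ _).aemeasurable) (fun t1 t2 ht s1 s2 => by
      apply g.covariance_zero
      intro he
      exact Set.disjoint_left.1 (hd _ _ ht) s1.1.2 (he ▸ s2.1.2))

end Pool.Agent.Helper97.CP
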