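import Pool.Agent.Helper97.CP2.Tay

set_option autoImplicit false

open MeasureTheory ProbabilityTheory Filter Finset

namespace Pool.Agent.Helper97.CP

theorem log_bound {x : ℝ} (h : |x| ≤ 1 / 4) :
    |Real.log (1 + x) - (x - x ^ 2 / 2 + x ^ 3 / 3)| ≤ 2 * x ^ 4 := by
  have h1 := Real.abs_log_sub_add_sum_range_le (x := -x) (by rw [abs_neg]; linarith) 3
  simp only [Finset.sum_range_succ, Finset.sum_range_zero, abs_neg, sub_neg_eq_add] at h1
  have h2 : |x| ^ (3 + 1) / (1 - |x|) ≤ 2 * x ^ 4 := by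
    rw [div_le_iff₀ (by linarith)]
    have : |x| ^ (3 + 1) = x ^ 4 := by
      rw [show 3 + 1 = 4 by norm_num, show |x| ^ 4 = (|x| ^ 2) ^ 2 by ring, sq_abs]; ring
    rw [this]
    have : 0 ≤ x ^ 4 := by positivity
    nlinarith
  refine le_trans (le_of_eq ?_) (h1.trans h2)
  congr 1
  push_cast
  ring

theorem log_abs {x : ℝ} (h : |x| ≤ 1 / 4) : |Real.log (1 + x)| ≤ 3 / 2 * |x| := by
  have h1 := log_bound h
  have h0 := abs_nonneg x
  have e2 : x ^ 2 = |x| ^ 2 := (sq_abs x).symm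
  have e4 : x ^ 4 = |x| ^ 4 := by rw [show x ^ 4 = (x ^ 2) ^ 2 by ring, e2]; ring
  have e3 : |x ^ 3| = |x| ^ 3 := by rw [abs_pow]
  have h3 := abs_le.1 h1
  have h4 := abs_le.1 (le_of_eq e3)
  have h5 := abs_le.1 (le_refl |x|)
  have b2 : |x| ^ 2 ≤ 1 / 4 * |x| := by nlinarith
  have b3 : |x| ^ 3 ≤ 1 / 16 * |x| := by nlinarith [mul_nonneg h0 h0]
  have b4 : |x| ^ 4 ≤ 1 / 64 * |x| := by
    have : |x| ^ 4 = |x| ^ 3 * |x| := by ring
    nlinarith [mul_nonneg h0 h0, pow_nonneg h0 3]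
  have p2 : 0 ≤ |x| ^ 2 := by positivity
  rw [abs_le]
  constructor <;> nlinarith

theorem log_sub {x : ℝ} (h : |x| ≤ 1 / 4) : |Real.log (1 + x) - x| ≤ x ^ 2 := by
  have h1 := log_bound h
  have h0 := abs_nonneg x
  have e3 : |x ^ 3| = |x| ^ 3 := by rw [abs_pow]
  have h3 := abs_le.1 h1
  have h4 := abs_le.1 (le_of_eq e3)
  have b3 : |x| ^ 3 ≤ 1 / 4 * x ^ 2 := by
    rw [← sq_abs x]; nlinarith [mul_nonneg h0 h0]
  have b4 : x ^ 4 ≤ 1 / 16 * x ^ 2 := by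
    have : x ^ 4 = x ^ 2 * x ^ 2 := by ring
    have h6 : x ^ 2 ≤ 1 / 16 := by rw [← sq_abs x]; nlinarith
    nlinarith [sq_nonneg x]
  rw [abs_le]
  constructor <;> nlinarith [sq_nonneg x]

/-- `|log² (1+x) - x²|` -/
theorem log_sq {x : ℝ} (h : |x| ≤ 1 / 4) :
    |Real.log (1 + x) ^ 2 - x ^ 2| ≤ 5 / 2 * |x| * x ^ 2 := by
  have h1 := log_sub h
  have h2 := log_abs h
  have e : Real.log (1 + x) ^ 2 - x ^ 2 = (Real.log (1 + x) - x) * (Real.log (1 + x) + x) := by ring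
  rw [e, abs_mul]
  have h3 : |Real.log (1 + x) + x| ≤ 5 / 2 * |x| := by
    refine (abs_add_le _ _).trans ?_
    linarith
  calc _ ≤ x ^ 2 * (5 / 2 * |x|) := mul_le_mul h1 h3 (abs_nonneg _) (sq_nonneg x)
    _ = _ := by ring

/-- half the logarithm of `K + |z|²` -/
noncomputable def uu (K : ℝ) (z : Z2) : ℝ := 1 / 2 * Real.log (K + nsq z)

/-- increment -/
noncomputable def dl (K : ℝ) (z w : Z2) : ℝ := uu K (z + w) - uu K z

/-- `w` is a difference of two steps -/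
def IsD (w : Z2) : Prop := ∃ e e' : E4, w = stp e - stp e'

theorem isD (e e' : E4) : IsD (stp e - stp e') := ⟨e, e', rfl⟩

theorem abs_mm_le {z w : Z2} (hw : IsD w) {s : ℝ} (hs : 1 ≤ s) (hz : nsq z ≤ s ^ 2) :
    |mm z w| ≤ 8 * s := by
  obtain ⟨e, e', rfl⟩ := hw
  have h4 := step_sq e e'
  set w := stp e - stp e' with hw
  rw [nsq_eq] at hz
  have h1 : |(z 0 : ℝ) * (w 0 : ℝ) + (z 1 : ℝ) * (w 1 : ℝ)| ≤ 2 * s := by
    apply abs_le_of_sq_le_sq _ (by linarith)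
    have : ((z 0 : ℝ) * (w 0 : ℝ) + (z 1 : ℝ) * (w 1 : ℝ)) ^ 2 ≤
        ((z 0 : ℝ) ^ 2 + (z 1 : ℝ) ^ 2) * ((w 0 : ℝ) ^ 2 + (w 1 : ℝ) ^ 2) := by
      nlinarith [sq_nonneg ((z 0 : ℝ) * (w 1 : ℝ) - (z 1 : ℝ) * (w 0 : ℝ))]
    calc _ ≤ _ := this
      _ ≤ s ^ 2 * 4 := mul_le_mul hz h4 (by positivity) (by positivity)
      _ = _ := by ring
  have h2 := abs_le.1 h1
  have h3 : 0 ≤ (w 0 : ℝ) ^ 2 + (w 1 : ℝ) ^ 2 := by positivity
  unfold mm
  rw [abs_le]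
  constructor <;> nlinarith

theorem abs_X_le {z w : Z2} (hw : IsD w) {s : ℝ} (hs : 100 ≤ s) (hz : nsq z ≤ s ^ 2) :
    |mm z w / s ^ 2| ≤ 8 / s ∧ |mm z w / s ^ 2| ≤ 1 / 4 := by
  have h0 : 0 < s := by linarith
  have h1 := abs_mm_le hw (by linarith) hz
  have h2 : |mm z w / s ^ 2| ≤ 8 / s := by
    rw [abs_div, abs_of_pos (by positivity : 0 < s ^ 2), div_le_div_iff₀ (by positivity) h0]
    nlinarith
  refine ⟨h2, h2.trans ?_⟩
  rw [div_le_iff₀ h0]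
  linarith

theorem dl_eq {K : ℝ} {z w : Z2} (hw : IsD w) {s : ℝ} (hs : 100 ≤ s) (hK : 0 ≤ K)
    (hv : K + nsq z = s ^ 2) : dl K z w = 1 / 2 * Real.log (1 + mm z w / s ^ 2) := by
  have h0 : 0 < s := by linarith
  have hX := (abs_le.1 (abs_X_le hw hs (by linarith : nsq z ≤ s ^ 2)).2).1
  unfold dl uu
  rw [nsq_add, ← add_assoc, hv]
  have h1 : s ^ 2 + mm z w = s ^ 2 * (1 + mm z w / s ^ 2) := by field_simp
  rw [h1, Real.log_mul (by positivity) (by linarith)]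
  ring

theorem av_mm2s {z : Z2} {s : ℝ} (hs : 100 ≤ s) (hz : nsq z ≤ s ^ 2) :
    av (fun w => (mm z w / s ^ 2) ^ 2) = (4 * nsq z + 6) / s ^ 4 ∧
    av (fun w => (mm z w / s ^ 2) ^ 2) ≤ 10 / s ^ 2 := by
  have h0 : 0 < s := by linarith
  have h1 : (fun w => (mm z w / s ^ 2) ^ 2) = fun w => (1 / s ^ 4) * mm z w ^ 2 := by
    funext w
    field_simp
  rw [h1, av_mul_left, av_mm2]
  refine ⟨by ring, ?_⟩
  rw [show 1 / s ^ 4 * (4 * nsq z + 6) = (4 * nsq z + 6) / s ^ 4 by ring,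
    div_le_div_iff₀ (by positivity) (by positivity)]
  have h2 : 0 < s ^ 2 := by positivity
  have h3 : 4 * nsq z + 6 ≤ 10 * s ^ 2 := by nlinarith
  calc (4 * nsq z + 6) * s ^ 2 ≤ 10 * s ^ 2 * s ^ 2 := mul_le_mul_of_nonneg_right h3 h2.le
    _ = _ := by ring

/-- first moment of the increment -/
theorem av_dl {K : ℝ} {z : Z2} {s : ℝ} (hs : 100 ≤ s) (hK : 0 ≤ K)
    (hv : K + nsq z = s ^ 2) :
    (K - 354) / s ^ 4 ≤ av (dl K z) ∧ av (dl K z) ≤ (K + 360) / s ^ 4 := by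
  have h0 : 0 < s := by linarith
  have hz : nsq z ≤ s ^ 2 := by linarith
  have hr := nsq_nonneg z
  have h4 := av_mm4 z
  have hs2 : 10000 ≤ s ^ 2 := by nlinarith
  have b4 : 40 * nsq z ^ 2 + 240 * nsq z + 72 ≤ 352 * s ^ 4 := by
    have : s ^ 4 = s ^ 2 * s ^ 2 := by ring
    nlinarith
  have key : ∀ c : ℝ, av (fun w => 1 / 2 * (mm z w / s ^ 2 - (mm z w / s ^ 2) ^ 2 / 2 +
      (mm z w / s ^ 2) ^ 3 / 3 + c * (mm z w / s ^ 2) ^ 4)) =
      1 / s ^ 2 - (4 * nsq z + 6) / (4 * s ^ 4) + (36 * nsq z + 20) / (6 * s ^ 6) +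
        c / 2 / s ^ 8 * av (fun w => mm z w ^ 4) := by
    intro c
    have h1 : (fun w => 1 / 2 * (mm z w / s ^ 2 - (mm z w / s ^ 2) ^ 2 / 2 +
      (mm z w / s ^ 2) ^ 3 / 3 + c * (mm z w / s ^ 2) ^ 4)) =
      fun w => (1 / (2 * s ^ 2)) * mm z w - (1 / (4 * s ^ 4)) * mm z w ^ 2 +
        (1 / (6 * s ^ 6)) * mm z w ^ 3 + (c / 2 / s ^ 8) * mm z w ^ 4 := by
      funext w
      field_simp
      ring
    rw [h1, av_add, av_add, av_sub, av_mul_left, av_mul_left, av_mul_left, av_mul_left,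
      show av (mm z) = 2 from av_mm1 z, av_mm2, av_mm3]
    field_simp
  constructor
  · have h1 : av (fun w => 1 / 2 * (mm z w / s ^ 2 - (mm z w / s ^ 2) ^ 2 / 2 +
      (mm z w / s ^ 2) ^ 3 / 3 + (-2) * (mm z w / s ^ 2) ^ 4)) ≤ av (dl K z) := by
      apply av_mono
      intro e e'
      rw [dl_eq (isD e e') hs hK hv]
      have := abs_le.1 (log_bound (abs_X_le (isD e e') hs hz).2)
      linarith [this.1]
    refine le_trans ?_ h1
    rw [key]
    have h2 : 0 ≤ (36 * nsq z + 20) / (6 * s ^ 6) := by positivity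
    have h3 : av (fun w => mm z w ^ 4) / s ^ 8 ≤ 352 / s ^ 4 := by
      rw [div_le_div_iff₀ (by positivity) (by positivity)]
      have : 0 < s ^ 4 := by positivity
      nlinarith
    have h5 : (K - 354) / s ^ 4 ≤ 1 / s ^ 2 - (4 * nsq z + 6) / (4 * s ^ 4) - 352 / s ^ 4 := by
      have : 1 / s ^ 2 - (4 * nsq z + 6) / (4 * s ^ 4) - 352 / s ^ 4 =
          (s ^ 2 - nsq z - 3 / 2 - 352) / s ^ 4 := by field_simp; ring
      rw [this]
      apply div_le_div_of_nonneg_right _ (by positivity)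
      linarith
    have h6 : -2 / 2 / s ^ 8 * av (fun w => mm z w ^ 4) = -(av (fun w => mm z w ^ 4) / s ^ 8) := by
      ring
    rw [h6]
    linarith
  · have h1 : av (dl K z) ≤ av (fun w => 1 / 2 * (mm z w / s ^ 2 - (mm z w / s ^ 2) ^ 2 / 2 +
      (mm z w / s ^ 2) ^ 3 / 3 + 2 * (mm z w / s ^ 2) ^ 4)) := by
      apply av_mono
      intro e e'
      rw [dl_eq (isD e e') hs hK hv]
      have := abs_le.1 (log_bound (abs_X_le (isD e e') hs hz).2)
      linarith [this.2]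
    refine h1.trans ?_
    rw [key]
    have h2 : (36 * nsq z + 20) / (6 * s ^ 6) ≤ 8 / s ^ 4 := by
      rw [div_le_div_iff₀ (by positivity) (by positivity)]
      have : 0 < s ^ 4 := by positivity
      have h7 : s ^ 6 = s ^ 2 * s ^ 4 := by ring
      rw [h7]
      nlinarith
    have h3 : av (fun w => mm z w ^ 4) / s ^ 8 ≤ 352 / s ^ 4 := by
      rw [div_le_div_iff₀ (by positivity) (by positivity)]
      have : 0 < s ^ 4 := by positivity
      nlinarith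
    have h5 : 1 / s ^ 2 - (4 * nsq z + 6) / (4 * s ^ 4) + 8 / s ^ 4 + 352 / s ^ 4 ≤
        (K + 360) / s ^ 4 := by
      have : 1 / s ^ 2 - (4 * nsq z + 6) / (4 * s ^ 4) + 8 / s ^ 4 + 352 / s ^ 4 =
          (s ^ 2 - nsq z - 3 / 2 + 360) / s ^ 4 := by field_simp; ring
      rw [this]
      apply div_le_div_of_nonneg_right _ (by positivity)
      linarith
    have h6 : 2 / 2 / s ^ 8 * av (fun w => mm z w ^ 4) = (av (fun w => mm z w ^ 4) / s ^ 8) := by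
      ring
    rw [h6]
    linarith

theorem abs_dl_le {K : ℝ} {z w : Z2} (hw : IsD w) {s : ℝ} (hs : 100 ≤ s) (hK : 0 ≤ K)
    (hv : K + nsq z = s ^ 2) : |dl K z w| ≤ 3 / 4 * |mm z w / s ^ 2| := by
  have hz : nsq z ≤ s ^ 2 := by linarith
  rw [dl_eq hw hs hK hv, abs_mul, abs_of_pos (by norm_num : (0 : ℝ) < 1 / 2)]
  have := log_abs (abs_X_le hw hs hz).2
  linarith

/-- second moment of the increment -/
theorem av_dl_sq {K : ℝ} {z : Z2} {s : ℝ} (hs : 100 ≤ s) (hK : 0 ≤ K)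
    (hv : K + nsq z = s ^ 2) :
    nsq z / s ^ 4 - 50 / s ^ 3 ≤ av (fun w => dl K z w ^ 2) ∧
      av (fun w => dl K z w ^ 2) ≤ nsq z / s ^ 4 + 52 / s ^ 3 := by
  have h0 : 0 < s := by linarith
  have hz : nsq z ≤ s ^ 2 := by linarith
  have hr := nsq_nonneg z
  obtain ⟨e2, l2⟩ := av_mm2s hs hz
  have key : ∀ w, IsD w → |dl K z w ^ 2 - 1 / 4 * (mm z w / s ^ 2) ^ 2| ≤
      5 / s * (mm z w / s ^ 2) ^ 2 := by
    intro w hw
    have h1 := abs_X_le hw hs hz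
    have h2 := log_sq h1.2
    rw [dl_eq hw hs hK hv]
    have h3 : (1 / 2 * Real.log (1 + mm z w / s ^ 2)) ^ 2 - 1 / 4 * (mm z w / s ^ 2) ^ 2 =
        1 / 4 * (Real.log (1 + mm z w / s ^ 2) ^ 2 - (mm z w / s ^ 2) ^ 2) := by ring
    rw [h3, abs_mul, abs_of_pos (by norm_num : (0 : ℝ) < 1 / 4)]
    have h4 : 5 / 2 * |mm z w / s ^ 2| * (mm z w / s ^ 2) ^ 2 ≤
        5 / 2 * (8 / s) * (mm z w / s ^ 2) ^ 2 :=
      mul_le_mul_of_nonneg_right (by linarith [h1.1]) (sq_nonneg _)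
    have h5 : 5 / 2 * (8 / s) = 4 * (5 / s) := by ring
    rw [h5] at h4
    linarith
  have h50 : 5 / s * av (fun w => (mm z w / s ^ 2) ^ 2) ≤ 50 / s ^ 3 := by
    calc _ ≤ 5 / s * (10 / s ^ 2) := mul_le_mul_of_nonneg_left l2 (by positivity)
      _ = _ := by field_simp; norm_num
  have h14 : 1 / 4 * ((4 * nsq z + 6) / s ^ 4) = nsq z / s ^ 4 + 3 / 2 / s ^ 4 := by
    field_simp; ring
  have h32 : 3 / 2 / s ^ 4 ≤ 2 / s ^ 3 := by
    rw [div_le_div_iff₀ (by positivity) (by positivity)]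
    have : 0 < s ^ 3 := by positivity
    have h7 : s ^ 4 = s ^ 3 * s := by ring
    rw [h7]
    nlinarith
  have hp : 0 ≤ 3 / 2 / s ^ 4 := by positivity
  constructor
  · have h1 : av (fun w => 1 / 4 * (mm z w / s ^ 2) ^ 2 - 5 / s * (mm z w / s ^ 2) ^ 2) ≤
        av (fun w => dl K z w ^ 2) := by
      apply av_mono
      intro e e'
      have := abs_le.1 (key _ (isD e e'))
      linarith [this.1]
    rw [av_sub, av_mul_left, av_mul_left] at h1
    rw [e2] at h1 h50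
    linarith
  · have h1 : av (fun w => dl K z w ^ 2) ≤
        av (fun w => 1 / 4 * (mm z w / s ^ 2) ^ 2 + 5 / s * (mm z w / s ^ 2) ^ 2) := by
      apply av_mono
      intro e e'
      have := abs_le.1 (key _ (isD e e'))
      linarith [this.2]
    rw [av_add, av_mul_left, av_mul_left] at h1
    rw [e2] at h1 h50
    have : 52 / s ^ 3 = 50 / s ^ 3 + 2 / s ^ 3 := by ring
    linarith

theorem cos_exp {θ y : ℝ} (hy : |y| ≤ 1) :
    |Real.cos (θ + y) - (Real.cos θ * (1 - y ^ 2 / 2) - Real.sin θ * y)| ≤ 2 * |y| ^ 3 := by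
  have h1 := Real.cos_bound hy
  have h2 := Real.sin_bound hy
  have h0 := abs_nonneg y
  have h3 : |y| ^ 4 ≤ |y| ^ 3 := pow_le_pow_of_le_one h0 hy (by norm_num)
  have h3' : |y| ^ 5 ≤ |y| ^ 3 := pow_le_pow_of_le_one h0 hy (by norm_num)
  have h4 : |Real.sin y - y| ≤ |y| ^ 3 := by
    have : Real.sin y - y = (Real.sin y - (y - y ^ 3 / 6)) - y ^ 3 / 6 := by ring
    rw [this]
    refine (abs_sub _ _).trans ?_
    rw [abs_div, abs_pow, abs_of_pos (by norm_num : (0 : ℝ) < 6)]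
    have : 0 ≤ |y| ^ 3 := by positivity
    linarith
  have h5 : |Real.cos y - (1 - y ^ 2 / 2)| ≤ |y| ^ 3 := by
    have : 0 ≤ |y| ^ 3 := by positivity
    linarith
  rw [Real.cos_add]
  have h6 : Real.cos θ * Real.cos y - Real.sin θ * Real.sin y -
      (Real.cos θ * (1 - y ^ 2 / 2) - Real.sin θ * y) =
      Real.cos θ * (Real.cos y - (1 - y ^ 2 / 2)) - Real.sin θ * (Real.sin y - y) := by ring
  rw [h6]
  refine (abs_sub _ _).trans ?_
  rw [abs_mul, abs_mul]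
  have h7 := Real.abs_cos_le_one θ
  have h8 := Real.abs_sin_le_one θ
  have h9 : |Real.cos θ| * |Real.cos y - (1 - y ^ 2 / 2)| ≤ 1 * |y| ^ 3 :=
    mul_le_mul h7 h5 (abs_nonneg _) (by norm_num)
  have h10 : |Real.sin θ| * |Real.sin y - y| ≤ 1 * |y| ^ 3 :=
    mul_le_mul h8 h4 (abs_nonneg _) (by norm_num)
  linarith

theorem av_cos {θ b : ℝ} (hb : 0 ≤ b) {D : Z2 → ℝ} (hD : ∀ w, IsD w → b * |D w| ≤ 1) :
    |av (fun w => Real.cos (θ + b * D w)) -
      (Real.cos θ * (1 - b ^ 2 * av (fun w => D w ^ 2) / 2) - Real.sin θ * (b * av D))| ≤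
      2 * b ^ 3 * av (fun w => |D w| ^ 3) := by
  have h1 : Real.cos θ * (1 - b ^ 2 * av (fun w => D w ^ 2) / 2) - Real.sin θ * (b * av D) =
      av (fun w => Real.cos θ * (1 - (b * D w) ^ 2 / 2) - Real.sin θ * (b * D w)) := by
    have : (fun w => Real.cos θ * (1 - (b * D w) ^ 2 / 2) - Real.sin θ * (b * D w)) =
        fun w => (fun _ => Real.cos θ) w - (Real.cos θ * (b ^ 2 / 2)) * D w ^ 2 -
          (Real.sin θ * b) * D w := by
      funext w; ring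
    rw [this, av_sub, av_sub, av_mul_left, av_mul_left, av_const]
    ring
  rw [h1, ← av_sub, ← av_mul_left]
  refine (abs_av_le _).trans ?_
  apply av_mono
  intro e e'
  have h2 := hD _ (isD e e')
  have h3 := cos_exp (θ := θ) (y := b * D (stp e - stp e')) (by rwa [abs_mul, abs_of_nonneg hb])
  refine h3.trans (le_of_eq ?_)
  rw [abs_mul, abs_of_nonneg hb]
  ring

end Pool.Agent.Helper97.CP
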