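import Mathlib

set_option autoImplicit false

open MeasureTheory ProbabilityTheory Filter Finset

namespace Pool.Agent.Helper97.CP

variable {ι : Type*} [Fintype ι] [Nonempty ι]

/-- maximum of finitely many affine functions -/
noncomputable def Fm (c : ι → ℝ) (x : ι → ℝ) : ℝ :=
  univ.sup' univ_nonempty (fun i => c i + x i)

theorem Fm_ge (c x : ι → ℝ) (i : ι) : c i + x i ≤ Fm c x :=
  Finset.le_sup' (fun i => c i + x i) (mem_univ i)

theorem Fm_eq (c x : ι → ℝ) : ∃ i, Fm c x = c i + x i := by
  obtain ⟨i, -, hi⟩ := Finset.exists_mem_eq_sup' (univ_nonempty (α := ι)) (fun i => c i + x i)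
  exact ⟨i, hi⟩

theorem abs_Fm (c x : ι → ℝ) : |Fm c x| ≤ ∑ i, |c i| + ∑ i, |x i| := by
  obtain ⟨i, hi⟩ := Fm_eq c x
  rw [hi]
  refine (abs_add_le _ _).trans ?_
  apply add_le_add
  · exact Finset.single_le_sum (f := fun i => |c i|) (fun i _ => abs_nonneg _) (mem_univ i)
  · exact Finset.single_le_sum (f := fun i => |x i|) (fun i _ => abs_nonneg _) (mem_univ i)

theorem Fm_cont (c : ι → ℝ) : Continuous (Fm c) := by
  unfold Fm
  apply Continuous.finset_sup'_apply
  intro i _
  fun_prop

theorem rot_add (a b : ℝ) (p : (ι → ℝ) × (ι → ℝ)) :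
    ContinuousLinearMap.rotation a (ContinuousLinearMap.rotation b p) =
      ContinuousLinearMap.rotation (b + a) p := by
  rw [ContinuousLinearMap.rotation_apply, ContinuousLinearMap.rotation_apply,
    ContinuousLinearMap.rotation_apply]
  ext i
  · simp only [Real.cos_add, Real.sin_add, Pi.add_apply, Pi.smul_apply, smul_eq_mul]
    ring
  · simp only [Real.cos_add, Real.sin_add, Pi.add_apply, Pi.smul_apply, smul_eq_mul]
    ring

theorem mp_max {μ : Measure (ι → ℝ)} [IsGaussian μ] (h0 : ∀ L : StrongDual ℝ (ι → ℝ), μ[L] = 0)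
    {v : ℝ} (hv : 0 < v) (hvar : ∀ i, ∫ x, (x i) ^ 2 ∂μ ≤ v ^ 2) (c : ι → ℝ) :
    ∫ p, |Fm c p.1 - Fm c p.2| ∂(μ.prod μ) ≤ Real.pi * v := by
  have hrot := IsGaussian.map_rotation_eq_self_of_forall_strongDual_eq_zero h0
  have hLp : ∀ i, MemLp (fun x : ι → ℝ => x i) 2 μ := fun i =>
    (IsGaussian.memLp_dual μ (ContinuousLinearMap.proj (R := ℝ) (φ := fun _ : ι => ℝ) i) 2 (by simp))
  have hint : ∀ i, Integrable (fun x : ι → ℝ => |x i|) μ := fun i =>
    ((hLp i).integrable (by norm_num)).abs
  have hintF : Integrable (Fm c) μ := by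
    refine Integrable.mono' ((integrable_const (∑ i, |c i|)).add
      (integrable_finsetSum univ (fun i _ => hint i))) (Fm_cont c).aestronglyMeasurable ?_
    exact Filter.Eventually.of_forall fun x => by
      rw [Real.norm_eq_abs]
      exact abs_Fm c x
  have hF1 : Integrable (fun p : (ι → ℝ) × (ι → ℝ) => Fm c p.1) (μ.prod μ) := hintF.comp_fst μ
  have hFr : ∀ θ, Integrable (fun p : (ι → ℝ) × (ι → ℝ) =>
      Fm c (ContinuousLinearMap.rotation θ p).1) (μ.prod μ) := by
    intro θ
    have h1 := hF1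
    rw [← hrot θ] at h1
    exact h1.comp_measurable (by fun_prop)
  have hrotint : ∀ (θ : ℝ) (f : (ι → ℝ) × (ι → ℝ) → ℝ), Continuous f →
      ∫ p, f (ContinuousLinearMap.rotation θ p) ∂(μ.prod μ) = ∫ p, f p ∂(μ.prod μ) := by
    intro θ f hf
    conv_rhs => rw [← hrot θ]
    rw [integral_map (by fun_prop) hf.aestronglyMeasurable]
  set S := ∫ x, ∑ i, |x i| ∂μ with hS
  have hS0 : 0 ≤ S := integral_nonneg fun x => Finset.sum_nonneg fun i _ => abs_nonneg _
  have hmean1 : ∀ i, ∫ x, |x i| ∂μ ≤ v := by
    intro i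
    have h1 : ∀ x : ι → ℝ, |x i| ≤ (x i) ^ 2 * (1 / (2 * v)) + v / 2 := by
      intro x
      have h2 : 0 ≤ (|x i| - v) ^ 2 / (2 * v) := by positivity
      have h3 : (|x i| - v) ^ 2 / (2 * v) = (x i) ^ 2 * (1 / (2 * v)) + v / 2 - |x i| := by
        rw [sub_sq, sq_abs]
        field_simp
        ring
      linarith
    have h2 : ∫ x, |x i| ∂μ ≤ ∫ x, ((x i) ^ 2 * (1 / (2 * v)) + v / 2) ∂μ :=
      integral_mono (hint i) (((hLp i).integrable_sq.mul_const _).add (integrable_const _)) h1
    rw [integral_add ((hLp i).integrable_sq.mul_const _) (integrable_const _), integral_mul_const] at h2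
    simp only [integral_const, probReal_univ, one_smul] at h2
    have h3 := mul_le_mul_of_nonneg_right (hvar i) (by positivity : 0 ≤ 1 / (2 * v))
    have h4 : v ^ 2 * (1 / (2 * v)) = v / 2 := by field_simp
    linarith
  -- one small rotation
  have hstep : ∀ δ : ℝ, 0 ≤ δ → δ ≤ Real.pi / 2 →
      ∫ p, |Fm c p.1 - Fm c (ContinuousLinearMap.rotation δ p).1| ∂(μ.prod μ) ≤
        2 * ((1 - Real.cos δ) * S + Real.sin δ * v) := by
    intro δ hδ hδ2
    have hcos : 0 ≤ 1 - Real.cos δ := by linarith [Real.cos_le_one δ]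
    have hsin : 0 ≤ Real.sin δ := Real.sin_nonneg_of_nonneg_of_le_pi hδ (by linarith [Real.pi_pos])
    have hG : Integrable (fun p : (ι → ℝ) × (ι → ℝ) =>
      Fm c p.1 - Fm c (ContinuousLinearMap.rotation δ p).1) (μ.prod μ) := hF1.sub (hFr δ)
    have hG0 : ∫ p, (Fm c p.1 - Fm c (ContinuousLinearMap.rotation δ p).1) ∂(μ.prod μ) = 0 := by
      rw [integral_sub hF1 (hFr δ)]
      have := hrotint δ (fun p => Fm c p.1) ((Fm_cont c).comp continuous_fst)
      rw [this, sub_self]
    have hGp : Integrable (fun p : (ι → ℝ) × (ι → ℝ) =>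
      max (Fm c p.1 - Fm c (ContinuousLinearMap.rotation δ p).1) 0) (μ.prod μ) := hG.pos_part
    have hpos : ∫ p, max (Fm c p.1 - Fm c (ContinuousLinearMap.rotation δ p).1) 0 ∂(μ.prod μ) ≤
        (1 - Real.cos δ) * S + Real.sin δ * v := by
      rw [integral_prod _ hGp]
      have hin : ∀ x : ι → ℝ, Integrable (fun y : ι → ℝ =>
          max (Fm c x - Fm c (ContinuousLinearMap.rotation δ (x, y)).1) 0) μ →
          ∫ y, max (Fm c x - Fm c (ContinuousLinearMap.rotation δ (x, y)).1) 0 ∂μ ≤
          (1 - Real.cos δ) * ∑ i, |x i| + Real.sin δ * v := by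
        intro x hx
        obtain ⟨i, hi⟩ := Fm_eq c x
        have hb : ∀ y : ι → ℝ, max (Fm c x - Fm c (ContinuousLinearMap.rotation δ (x, y)).1) 0 ≤
            (1 - Real.cos δ) * ∑ i, |x i| + Real.sin δ * |y i| := by
          intro y
          have h1 := Fm_ge c (ContinuousLinearMap.rotation δ (x, y)).1 i
          rw [ContinuousLinearMap.rotation_apply] at h1
          simp only [Pi.add_apply, Pi.smul_apply, smul_eq_mul] at h1
          have h2 : x i ≤ ∑ i, |x i| := (le_abs_self _).trans
            (Finset.single_le_sum (f := fun i => |x i|) (fun i _ => abs_nonneg _) (mem_univ i))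
          have h3 : 0 ≤ ∑ i, |x i| := Finset.sum_nonneg fun i _ => abs_nonneg _
          apply max_le
          · rw [ContinuousLinearMap.rotation_apply]
            have h4 := mul_le_mul_of_nonneg_left h2 hcos
            have h5 := mul_le_mul_of_nonneg_left (neg_abs_le (y i)) hsin
            simp only
            rw [hi]
            linarith only [h1, h4, h5]
          · have := mul_nonneg hcos h3
            have := mul_nonneg hsin (abs_nonneg (y i))
            linarith
        have h1 := integral_mono hx ((integrable_const ((1 - Real.cos δ) * ∑ i, |x i|)).add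
          ((hint i).const_mul (Real.sin δ))) hb
        simp only [Pi.add_apply] at h1
        rw [integral_add (integrable_const _) ((hint i).const_mul _)] at h1
        simp only [integral_const_mul, integral_const, probReal_univ, one_smul] at h1
        have h2 := mul_le_mul_of_nonneg_left (hmean1 i) hsin
        linarith
      have h2 : ∫ x, ((1 - Real.cos δ) * ∑ i, |x i| + Real.sin δ * v) ∂μ =
          (1 - Real.cos δ) * S + Real.sin δ * v := by
        rw [integral_add ((integrable_finsetSum univ (fun i _ => hint i)).const_mul _)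
          (integrable_const _), integral_const_mul]
        simp only [integral_const, probReal_univ, one_smul]
        rfl
      rw [← h2]
      apply integral_mono_ae hGp.integral_prod_left
      · exact ((integrable_finsetSum univ (fun i _ => hint i)).const_mul _).add (integrable_const _)
      · filter_upwards [hGp.prod_right_ae] with x hx
        exact hin x hx
    have habs : ∀ p : (ι → ℝ) × (ι → ℝ), |Fm c p.1 - Fm c (ContinuousLinearMap.rotation δ p).1| =
        2 * max (Fm c p.1 - Fm c (ContinuousLinearMap.rotation δ p).1) 0 -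
          (Fm c p.1 - Fm c (ContinuousLinearMap.rotation δ p).1) := by
      intro p
      rcases le_total 0 (Fm c p.1 - Fm c (ContinuousLinearMap.rotation δ p).1) with h | h
      · rw [abs_of_nonneg h, max_eq_left h]; ring
      · rw [abs_of_nonpos h, max_eq_right h]; ring
    rw [integral_congr_ae (Filter.Eventually.of_forall habs), integral_sub (hGp.const_mul 2) hG,
      integral_const_mul, hG0]
    linarith
  -- telescoping
  have htel : ∀ n : ℕ, 1 ≤ n → ∫ p, |Fm c p.1 - Fm c p.2| ∂(μ.prod μ) ≤
      Real.pi * v + Real.pi ^ 2 * S / (4 * n) := by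
    intro n hn
    have hn0 : (0 : ℝ) < n := by exact_mod_cast hn
    have hn1 : (1 : ℝ) ≤ n := by exact_mod_cast hn
    set δ := Real.pi / (2 * n) with hδ
    have hδ0 : 0 ≤ δ := by positivity
    have hδ2 : δ ≤ Real.pi / 2 := by
      rw [hδ]
      apply div_le_div_of_nonneg_left Real.pi_pos.le (by norm_num) (by linarith)
    set f : ℕ → (ι → ℝ) × (ι → ℝ) → ℝ := fun j p =>
      Fm c (ContinuousLinearMap.rotation (j * δ) p).1 with hf
    have hfi : ∀ j, Integrable (f j) (μ.prod μ) := fun j => hFr _
    have h1 : ∀ p, |Fm c p.1 - Fm c p.2| ≤ ∑ j ∈ range n, |f j p - f (j + 1) p| := by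
      intro p
      have e0 : f 0 p = Fm c p.1 := by
        rw [hf]
        simp only [Nat.cast_zero, zero_mul]
        rw [ContinuousLinearMap.rotation_apply]
        simp
      have en : f n p = Fm c p.2 := by
        rw [hf]
        have : (n : ℝ) * δ = Real.pi / 2 := by rw [hδ]; field_simp
        simp only [this]
        rw [ContinuousLinearMap.rotation_apply]
        simp
      rw [← e0, ← en]
      have := Finset.sum_range_sub' (fun j => f j p) n
      rw [← this]
      exact Finset.abs_sum_le_sum_abs _ _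
    have h2 : ∀ j, ∫ p, |f j p - f (j + 1) p| ∂(μ.prod μ) ≤
        2 * ((1 - Real.cos δ) * S + Real.sin δ * v) := by
      intro j
      refine le_trans (le_of_eq ?_) (hstep δ hδ0 hδ2)
      rw [← hrotint (j * δ) (fun p => |Fm c p.1 - Fm c (ContinuousLinearMap.rotation δ p).1|) (by
        have := Fm_cont c
        fun_prop)]
      congr 1
      funext p
      rw [rot_add]
      show |Fm c _ - Fm c (ContinuousLinearMap.rotation (((j + 1 : ℕ) : ℝ) * δ) p).1| = _
      congr 5
      push_cast
      ring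
    have hfd : ∀ j, Integrable (fun p => |f j p - f (j + 1) p|) (μ.prod μ) :=
      fun j => ((hfi j).sub (hfi (j + 1))).abs
    have h3 : ∫ p, |Fm c p.1 - Fm c p.2| ∂(μ.prod μ) ≤
        ∫ p, ∑ j ∈ range n, |f j p - f (j + 1) p| ∂(μ.prod μ) :=
      integral_mono_of_nonneg (Filter.Eventually.of_forall fun p => abs_nonneg _)
        (integrable_finsetSum _ fun j _ => hfd j)
        (Filter.Eventually.of_forall h1)
    rw [integral_finsetSum _ (fun j _ => hfd j)] at h3
    have h4 : ∑ j ∈ range n, ∫ p, |f j p - f (j + 1) p| ∂(μ.prod μ) ≤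
        ∑ j ∈ range n, 2 * ((1 - Real.cos δ) * S + Real.sin δ * v) :=
      Finset.sum_le_sum fun j _ => h2 j
    rw [Finset.sum_const, card_range, nsmul_eq_mul] at h4
    have h5 : 1 - Real.cos δ ≤ δ ^ 2 / 2 := by linarith [Real.one_sub_sq_div_two_le_cos (x := δ)]
    have h6 : Real.sin δ ≤ δ := Real.sin_le hδ0
    have h7 : (1 - Real.cos δ) * S + Real.sin δ * v ≤ δ ^ 2 / 2 * S + δ * v :=
      add_le_add (mul_le_mul_of_nonneg_right h5 hS0) (mul_le_mul_of_nonneg_right h6 hv.le)
    have h8 : (n : ℝ) * (2 * (δ ^ 2 / 2 * S + δ * v)) = Real.pi * v + Real.pi ^ 2 * S / (4 * n) := by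
      rw [hδ]; field_simp; ring
    rw [← h8]
    refine (h3.trans h4).trans ?_
    apply mul_le_mul_of_nonneg_left _ hn0.le
    linarith
  -- limit
  have hlim : Tendsto (fun n : ℕ => Real.pi * v + Real.pi ^ 2 * S / (4 * (n : ℝ))) atTop
      (nhds (Real.pi * v + 0)) := by
    apply Tendsto.const_add
    apply Tendsto.const_div_atTop
    exact Tendsto.const_mul_atTop (by norm_num) tendsto_natCast_atTop_atTop
  rw [add_zero] at hlim
  apply ge_of_tendsto hlim
  filter_upwards [eventually_ge_atTop 1] with n hn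
  exact htel n hn

theorem mp_low {μ : Measure (ι → ℝ)} [IsGaussian μ] (h0 : ∀ L : StrongDual ℝ (ι → ℝ), μ[L] = 0)
    {v : ℝ} (hv : 0 < v) (hvar : ∀ i, ∫ x, (x i) ^ 2 ∂μ ≤ v ^ 2) (c : ι → ℝ) {K0 a : ℝ}
    (ha : 0 < a) (hA : a ≤ μ.real {x | -K0 ≤ Fm c x}) :
    Integrable (Fm c) μ ∧ -K0 - Real.pi * v / a ≤ ∫ x, Fm c x ∂μ := by
  have hLp : ∀ i, MemLp (fun x : ι → ℝ => x i) 2 μ := fun i =>
    (IsGaussian.memLp_dual μ (ContinuousLinearMap.proj (R := ℝ) (φ := fun _ : ι => ℝ) i) 2 (by simp))
  have hint : ∀ i, Integrable (fun x : ι → ℝ => |x i|) μ := fun i =>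
    ((hLp i).integrable (by norm_num)).abs
  have hintF : Integrable (Fm c) μ := by
    refine Integrable.mono' ((integrable_const (∑ i, |c i|)).add
      (integrable_finsetSum univ (fun i _ => hint i))) (Fm_cont c).aestronglyMeasurable ?_
    exact Filter.Eventually.of_forall fun x => by
      rw [Real.norm_eq_abs]
      exact abs_Fm c x
  refine ⟨hintF, ?_⟩
  set m := ∫ x, Fm c x ∂μ with hm
  have hmp := mp_max h0 hv hvar c
  set B := {x : ι → ℝ | -K0 ≤ Fm c x} with hB
  have hBm : MeasurableSet B := measurableSet_le measurable_const (Fm_cont c).measurable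
  have hF1 : Integrable (fun p : (ι → ℝ) × (ι → ℝ) => Fm c p.1) (μ.prod μ) := hintF.comp_fst μ
  have hF2 : Integrable (fun p : (ι → ℝ) × (ι → ℝ) => Fm c p.2) (μ.prod μ) := hintF.comp_snd μ
  by_contra hcon
  push Not at hcon
  have hneg : m < -K0 := by
    have : 0 ≤ Real.pi * v / a := by positivity
    linarith
  -- ∫∫ |F x - F y| ≥ μ(B) (-K0 - m)
  have h1 : μ.real B * (-K0 - m) ≤ ∫ p, |Fm c p.1 - Fm c p.2| ∂(μ.prod μ) := by
    have hFd : Integrable (fun p : (ι → ℝ) × (ι → ℝ) => |Fm c p.1 - Fm c p.2|) (μ.prod μ) :=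
      (hF1.sub hF2).abs
    rw [integral_prod _ hFd]
    have h2 : ∀ x, B.indicator (fun _ => -K0 - m) x ≤ ∫ y, |Fm c x - Fm c y| ∂μ := by
      intro x
      by_cases hx : x ∈ B
      · rw [Set.indicator_of_mem hx]
        have h3 : ∫ y, (Fm c x - Fm c y) ∂μ ≤ ∫ y, |Fm c x - Fm c y| ∂μ :=
          integral_mono ((integrable_const _).sub hintF) ((integrable_const _).sub hintF).abs
            fun y => le_abs_self _
        rw [integral_sub (integrable_const _) hintF] at h3
        simp only [integral_const, probReal_univ, one_smul] at h3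
        have h4 : -K0 ≤ Fm c x := hx
        linarith
      · rw [Set.indicator_of_notMem hx]
        exact integral_nonneg fun y => abs_nonneg _
    have h5 : ∫ x, B.indicator (fun _ => -K0 - m) x ∂μ = μ.real B * (-K0 - m) := by
      rw [integral_indicator hBm, setIntegral_const, smul_eq_mul]
    rw [← h5]
    exact integral_mono ((integrable_const _).indicator hBm) hFd.integral_prod_left h2
  have h6 : a * (-K0 - m) ≤ Real.pi * v :=
    (mul_le_mul_of_nonneg_right hA (by linarith)).trans (h1.trans hmp)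
  have h7 : -K0 - m ≤ Real.pi * v / a := by
    rw [le_div_iff₀ ha]; linarith
  linarith

end Pool.Agent.Helper97.CP
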