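import Pool.Agent.Helper97.CP2.Asm
import Pool.Agent.Helper97.CP2.Det2

set_option autoImplicit false

open MeasureTheory ProbabilityTheory Filter Finset Topology

namespace Pool.Agent.Helper97.CP

/-- total time -/
theorem T_le {ε β L ℓ mS : ℝ} (hε : 0 < ε) (hβ : 0 < β) (hL0 : 0 ≤ L) (hmS0 : 0 ≤ mS)
    (hL : L ≤ 4 * Real.exp ((1 + ε) * Real.pi / (√2 * β)) * Real.exp (ε / β)) (hℓ : ℓ ≤ 2 * L)
    (hmS : mS ≤ 2 / β ^ 7) (hsm : Real.exp (-(ε / β)) ≤ 1 / 16 * β ^ 7) :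
    mS * ℓ ≤ Real.exp ((1 + 2 * ε) * Real.pi / (√2 * β)) := by
  have hpi3 := Real.pi_gt_three
  have h1 : mS * ℓ ≤ 2 / β ^ 7 * (2 * (4 * Real.exp ((1 + ε) * Real.pi / (√2 * β)) * Real.exp (ε / β))) := by
    calc mS * ℓ ≤ mS * (2 * L) := mul_le_mul_of_nonneg_left hℓ hmS0
      _ ≤ 2 / β ^ 7 * (2 * L) := mul_le_mul_of_nonneg_right hmS (by positivity)
      _ ≤ _ := by
          apply mul_le_mul_of_nonneg_left _ (by positivity)
          linarith
  have h2 : 16 / β ^ 7 ≤ Real.exp (ε / β) := by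
    rw [Real.exp_neg] at hsm
    have h3 := Real.exp_pos (ε / β)
    rw [div_le_iff₀ (by positivity)]
    rw [inv_le_iff_one_le_mul₀ h3] at hsm
    linarith
  have h3 : Real.exp ((1 + ε) * Real.pi / (√2 * β)) * (Real.exp (ε / β) * Real.exp (ε / β)) ≤
      Real.exp ((1 + 2 * ε) * Real.pi / (√2 * β)) := by
    rw [← Real.exp_add, ← Real.exp_add]
    apply Real.exp_le_exp.2
    have h4 : ε / β + ε / β ≤ ε * Real.pi / (√2 * β) := by
      rw [← two_mul, ← mul_div_assoc, div_le_div_iff₀ hβ (by positivity)]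
      have h5 : 2 * √2 ≤ Real.pi := by linarith [sqrt2_bounds.2]
      have h6 : 0 ≤ ε * β := by positivity
      calc 2 * ε * (√2 * β) = (2 * √2) * (ε * β) := by ring
        _ ≤ Real.pi * (ε * β) := mul_le_mul_of_nonneg_right h5 h6
        _ = _ := by ring
    have h5 : (1 + 2 * ε) * Real.pi / (√2 * β) = (1 + ε) * Real.pi / (√2 * β) + ε * Real.pi / (√2 * β) := by
      ring
    linarith
  calc mS * ℓ ≤ _ := h1
    _ = (16 / β ^ 7) * (Real.exp ((1 + ε) * Real.pi / (√2 * β)) * Real.exp (ε / β)) := by ring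
    _ ≤ Real.exp (ε / β) * (Real.exp ((1 + ε) * Real.pi / (√2 * β)) * Real.exp (ε / β)) :=
        mul_le_mul_of_nonneg_right h2 (by positivity)
    _ = Real.exp ((1 + ε) * Real.pi / (√2 * β)) * (Real.exp (ε / β) * Real.exp (ε / β)) := by ring
    _ ≤ _ := h3

theorem exp7 {ε β : ℝ} (hε : 0 < ε) (hε1 : ε < 1) (hβ : 0 < β) :
    (1 + 2 * ε) * Real.pi / (√2 * β) ≤ 7 / β := by
  rw [div_le_div_iff₀ (by positivity) hβ]
  have k5 : (1 + 2 * ε) * Real.pi ≤ 7 * √2 := by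
    have k6 : Real.pi ≤ 3.15 := by linarith [Real.pi_lt_d2]
    have k7 := sqrt2_bounds.1
    have k8 := Real.pi_pos
    nlinarith
  calc (1 + 2 * ε) * Real.pi * β ≤ 7 * √2 * β := mul_le_mul_of_nonneg_right k5 hβ.le
    _ = _ := by ring

theorem final_prob {β T R c mS : ℝ} (hβ : 0 < β) (hβ1 : β ≤ 1 / 144) (hT1 : 1 ≤ T)
    (hT : T ≤ Real.exp (7 / β)) (hcm : 1 / β ^ 2 ≤ c * mS) (hcm2 : c * mS ≤ 2 / β ^ 2)
    (hR : T / β ^ 2 ≤ R ^ 2) :
    √((Real.exp (-(c * mS / 2)) + 4 * Real.exp (-(R ^ 2 / (2 * T)))) * Real.exp (c * mS / 8)) ≤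
      1 / (2 * (2 * T + 1) ^ 2) := by
  have hb2 : 0 < β ^ 2 := by positivity
  have h1 : Real.exp (-(c * mS / 2)) * Real.exp (c * mS / 8) ≤ Real.exp (-(1 / (4 * β ^ 2))) := by
    rw [← Real.exp_add]
    apply Real.exp_le_exp.2
    have e : 1 / (4 * β ^ 2) = 1 / β ^ 2 / 4 := by ring
    have : 0 < 1 / β ^ 2 := by positivity
    rw [e]
    linarith
  have h2 : Real.exp (-(R ^ 2 / (2 * T))) * Real.exp (c * mS / 8) ≤ Real.exp (-(1 / (4 * β ^ 2))) := by
    rw [← Real.exp_add]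
    apply Real.exp_le_exp.2
    have h3 : 1 / (2 * β ^ 2) ≤ R ^ 2 / (2 * T) := by
      rw [div_le_div_iff₀ (by positivity) (by positivity)]
      rw [div_le_iff₀ hb2] at hR
      linarith
    have e1 : 1 / (2 * β ^ 2) = 2 * (1 / (4 * β ^ 2)) := by ring
    have e2 : 2 / β ^ 2 / 8 = 1 / (4 * β ^ 2) := by ring
    linarith
  have h3 : (Real.exp (-(c * mS / 2)) + 4 * Real.exp (-(R ^ 2 / (2 * T)))) * Real.exp (c * mS / 8) ≤
      5 * Real.exp (-(1 / (4 * β ^ 2))) := by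
    calc _ = Real.exp (-(c * mS / 2)) * Real.exp (c * mS / 8) +
          4 * (Real.exp (-(R ^ 2 / (2 * T))) * Real.exp (c * mS / 8)) := by ring
      _ ≤ _ := by linarith
  rw [Real.sqrt_le_left (by positivity)]
  refine h3.trans ?_
  have h4 : Real.exp (-(1 / (4 * β ^ 2))) ≤ Real.exp (-(36 / β)) := by
    apply Real.exp_le_exp.2
    apply neg_le_neg
    rw [div_le_div_iff₀ hβ (by positivity)]
    nlinarith
  have h5 : Real.exp (-(36 / β)) = Real.exp (-(8 / β)) * (Real.exp (-(7 / β))) ^ 4 := by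
    rw [← Real.exp_nat_mul, ← Real.exp_add]
    congr 1
    push_cast
    ring
  have h6 : Real.exp (-(7 / β)) ≤ 1 / T := by
    rw [Real.exp_neg, ← one_div]
    exact one_div_le_one_div_of_le (by linarith) hT
  have h7 : Real.exp (-(8 / β)) ≤ 1 / 1620 := by
    rw [Real.exp_neg, ← one_div]
    apply one_div_le_one_div_of_le (by norm_num)
    have h8 : (8 : ℝ) ≤ 8 / β := by
      rw [le_div_iff₀ hβ]; linarith
    have h9 : (1620 : ℝ) ≤ Real.exp 8 := by
      have h10 : (2.7 : ℝ) ≤ Real.exp 1 := by linarith [Real.exp_one_gt_d9]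
      have h11 : Real.exp 8 = Real.exp 1 ^ 8 := by rw [← Real.exp_nat_mul]; norm_num
      rw [h11]
      calc (1620 : ℝ) ≤ 2.7 ^ 8 := by norm_num
        _ ≤ _ := pow_le_pow_left₀ (by norm_num) h10 8
    exact h9.trans (Real.exp_le_exp.2 h8)
  calc 5 * Real.exp (-(1 / (4 * β ^ 2))) ≤ 5 * (1 / 1620 * (1 / T) ^ 4) := by
        apply mul_le_mul_of_nonneg_left _ (by norm_num)
        refine h4.trans ?_
        rw [h5]
        exact mul_le_mul h7 (pow_le_pow_left₀ (Real.exp_pos _).le h6 4) (by positivity) (by norm_num)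
    _ ≤ (1 / (2 * (2 * T + 1) ^ 2)) ^ 2 := by
        have h12 : (2 * T + 1) ≤ 3 * T := by linarith
        have h13 : (2 * T + 1) ^ 4 ≤ (3 * T) ^ 4 := pow_le_pow_left₀ (by linarith) h12 4
        have e0 : (1 / (2 * (2 * T + 1) ^ 2)) ^ 2 = 1 / (4 * (2 * T + 1) ^ 4) := by
          rw [div_pow, one_pow, mul_pow, ← pow_mul]
          norm_num
        have e : 5 * (1 / 1620 * (1 / T) ^ 4) = 1 / (4 * (3 * T) ^ 4) := by
          field_simp; norm_num
        rw [e, e0]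
        apply one_div_le_one_div_of_le (by positivity)
        linarith

theorem master {Cq CS ε : ℝ} (hCq : 0 < Cq) (hCS : 1 ≤ CS) (hε : 0 < ε) :
    ∀ᶠ β in 𝓝[>] (0 : ℝ), ∀ j : ℕ, (j : ℝ) ≤ Cq * (1 + Real.log (1 / β)) →
      4 ^ (j + 1) * (2 * (j : ℝ) + 2) * (CS / β ^ 2) ^ j ≤ Real.exp (ε / (2 * β)) := by
  have hlCS : 0 ≤ Real.log CS := Real.log_nonneg hCS
  have hC : 0 ≤ 3 * Cq + 3 + Cq * (Real.log CS + 2) := by positivity
  filter_upwards [ev_log2 hC (by positivity : 0 < ε / 2), ev_lt one_pos] with β h1 hβ1 j hj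
  have hβ := hβ1.1
  set Λ := 1 + Real.log (1 / β) with hΛ
  have hl : 0 ≤ Real.log (1 / β) := Real.log_nonneg (by rw [le_div_iff₀ hβ]; linarith)
  have hΛ1 : 1 ≤ Λ := by linarith
  have hj0 : (0 : ℝ) ≤ j := Nat.cast_nonneg j
  have k1 : (2 * (j : ℝ) + 2) ≤ 4 ^ (j + 1) := by
    have : 2 * j + 2 ≤ 4 ^ (j + 1) := by
      have h2 : ∀ j : ℕ, 2 * j + 2 ≤ 4 ^ (j + 1) := by
        intro j
        induction j with
        | zero => norm_num
        | succ j ih => rw [pow_succ]; omega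
      exact h2 j
    exact_mod_cast this
  have k2 : (4 : ℝ) ^ (j + 1) * 4 ^ (j + 1) = 16 ^ (j + 1) := by rw [← mul_pow]; norm_num
  have k3 : (16 : ℝ) ≤ Real.exp 3 := by
    have h10 : (2.7 : ℝ) ≤ Real.exp 1 := by linarith [Real.exp_one_gt_d9]
    have h11 : Real.exp 3 = Real.exp 1 ^ 3 := by rw [← Real.exp_nat_mul]; norm_num
    rw [h11]
    calc (16 : ℝ) ≤ 2.7 ^ 3 := by norm_num
      _ ≤ _ := pow_le_pow_left₀ (by norm_num) h10 3
  have k4 : CS / β ^ 2 = Real.exp (Real.log CS + 2 * Real.log (1 / β)) := by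
    rw [Real.exp_add, Real.exp_log (by linarith), show (2 : ℝ) * Real.log (1 / β) =
      ((2 : ℕ) : ℝ) * Real.log (1 / β) by push_cast; ring, Real.exp_nat_mul,
      Real.exp_log (by positivity)]
    rw [one_div, inv_pow]
    rfl
  calc (4 : ℝ) ^ (j + 1) * (2 * (j : ℝ) + 2) * (CS / β ^ 2) ^ j ≤
      4 ^ (j + 1) * 4 ^ (j + 1) * (CS / β ^ 2) ^ j := by
        apply mul_le_mul_of_nonneg_right _ (by positivity)
        exact mul_le_mul_of_nonneg_left k1 (by positivity)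
    _ = 16 ^ (j + 1) * (CS / β ^ 2) ^ j := by rw [k2]
    _ ≤ Real.exp 3 ^ (j + 1) * (Real.exp (Real.log CS + 2 * Real.log (1 / β))) ^ j := by
        rw [k4]
        apply mul_le_mul_of_nonneg_right _ (by positivity)
        exact pow_le_pow_left₀ (by norm_num) k3 _
    _ = Real.exp ((j + 1 : ℕ) * 3 + j * (Real.log CS + 2 * Real.log (1 / β))) := by
        rw [← Real.exp_nat_mul, ← Real.exp_nat_mul, ← Real.exp_add]
    _ ≤ Real.exp (ε / (2 * β)) := by
        apply Real.exp_le_exp.2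
        have e : ε / (2 * β) = ε / 2 / β := by ring
        rw [e]
        refine le_trans ?_ h1
        have hΛ2 : Λ ≤ Λ ^ 2 := by nlinarith
        have k5 : ((j + 1 : ℕ) : ℝ) * 3 ≤ (3 * Cq + 3) * Λ ^ 2 := by
          push_cast
          nlinarith
        have k6 : (j : ℝ) * (Real.log CS + 2 * Real.log (1 / β)) ≤ (Cq * (Real.log CS + 2)) * Λ ^ 2 := by
          have k7 : Real.log CS + 2 * Real.log (1 / β) ≤ (Real.log CS + 2) * Λ := by nlinarith
          calc (j : ℝ) * (Real.log CS + 2 * Real.log (1 / β)) ≤ (Cq * Λ) * ((Real.log CS + 2) * Λ) :=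
                mul_le_mul hj k7 (by positivity) (by positivity)
            _ = _ := by ring
        have e2 : (3 * Cq + 3 + Cq * (Real.log CS + 2)) * Λ ^ 2 =
          (3 * Cq + 3) * Λ ^ 2 + (Cq * (Real.log CS + 2)) * Λ ^ 2 := by ring
        rw [e2]
        linarith

end Pool.Agent.Helper97.CP
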