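import Pool.Agent.Helper97.CP2.Inc

set_option autoImplicit false

open MeasureTheory ProbabilityTheory Filter Finset

namespace Pool.Agent.Helper97.CP

/-- bounded, nonnegative, `limsup |z|² H(z) ≤ 1` -/
def UB (H : Z2 → ℝ) : Prop := (∃ C : ℝ, ∀ z, 0 ≤ H z ∧ H z ≤ C) ∧
  ∀ δ : ℝ, 0 < δ → ∃ R : ℝ, ∀ z, R ≤ nsq z → H z * nsq z ≤ 1 + δ

theorem nsq_shift {δ : ℝ} (hδ : 0 < δ) {z w : Z2} (hw : IsD w) (h1 : 1 ≤ nsq z)
    (h2 : (8 / δ) ^ 2 ≤ nsq z) : (1 - δ) * nsq z ≤ nsq (z + w) ∧ nsq (z + w) ≤ (1 + δ) * nsq z := by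
  set s := √(nsq z) with hs
  have hs2 : s ^ 2 = nsq z := Real.sq_sqrt (nsq_nonneg z)
  have h0 : 0 ≤ s := Real.sqrt_nonneg _
  have hs1 : 1 ≤ s := by
    rw [hs]; exact Real.one_le_sqrt.2 h1
  have h3 := abs_le.1 (abs_mm_le hw hs1 (le_of_eq hs2.symm))
  have h4 : 8 / δ ≤ s := by
    apply le_of_sq_le_sq _ h0
    rw [hs2]; exact h2
  have h5 : 8 ≤ δ * s := by
    rw [div_le_iff₀ hδ] at h4; linarith
  rw [nsq_add, ← hs2]
  constructor <;> nlinarith

theorem UBK {H : Z2 → ℝ} (hH : UB H) {K δ : ℝ} (hK : 1 ≤ K) (hδ : 0 < δ) (hδ1 : δ ≤ 1) :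
    ∃ C2 : ℝ, 0 ≤ C2 ∧ ∀ z w, IsD w → H (z + w) * (K + nsq z) ^ 2 ≤ (1 + δ) * nsq z + C2 := by
  obtain ⟨⟨C, hC⟩, hlim⟩ := hH
  obtain ⟨R, hR⟩ := hlim (δ / 8) (by linarith)
  have hC0 : 0 ≤ C := (hC 0).1.trans (hC 0).2
  set R' := max (max ((8 / (δ / 8)) ^ 2) (2 * R)) 1 with hR'
  have hR1 : 1 ≤ R' := le_max_right _ _
  refine ⟨2 * (2 * K + K ^ 2) + C * (K + R') ^ 2, by positivity, ?_⟩
  intro z w hw
  have hr := nsq_nonneg z
  rcases le_or_gt R' (nsq z) with h | h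
  · have h1 : 1 ≤ nsq z := hR1.trans h
    have h2 : (8 / (δ / 8)) ^ 2 ≤ nsq z := ((le_max_left _ _).trans (le_max_left _ _)).trans h
    have h3 : 2 * R ≤ nsq z := ((le_max_right _ _).trans (le_max_left _ _)).trans h
    obtain ⟨h4, -⟩ := nsq_shift (by linarith : 0 < δ / 8) hw h1 h2
    have h5 : R ≤ nsq (z + w) := by nlinarith
    have h6 := hR _ h5
    have h7 : 0 < nsq (z + w) := by nlinarith
    have hH0 := (hC (z + w)).1
    -- H (z+w) * ((1-δ/8) r) ≤ 1 + δ/8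
    have h8 : H (z + w) * ((1 - δ / 8) * nsq z) ≤ 1 + δ / 8 :=
      (mul_le_mul_of_nonneg_left h4 hH0).trans h6
    have h9 : H (z + w) * nsq z ≤ 1 + δ := by
      have : (1 + δ / 8) ≤ (1 + δ) * (1 - δ / 8) := by nlinarith
      have h10 : H (z + w) * nsq z * (1 - δ / 8) ≤ (1 + δ) * (1 - δ / 8) := by nlinarith
      exact le_of_mul_le_mul_right h10 (by linarith)
    have h10 : H (z + w) ≤ 2 := by
      have : H (z + w) * 1 ≤ H (z + w) * nsq z := mul_le_mul_of_nonneg_left h1 hH0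
      linarith
    have h11 : H (z + w) * (K + nsq z) ^ 2 = H (z + w) * nsq z * nsq z + 2 * K * (H (z + w) * nsq z) +
        K ^ 2 * H (z + w) := by ring
    rw [h11]
    have h12 : H (z + w) * nsq z * nsq z ≤ (1 + δ) * nsq z := mul_le_mul_of_nonneg_right h9 hr
    have h13 : 2 * K * (H (z + w) * nsq z) ≤ 2 * K * 2 :=
      mul_le_mul_of_nonneg_left (by linarith) (by linarith)
    have h14 : K ^ 2 * H (z + w) ≤ K ^ 2 * 2 := mul_le_mul_of_nonneg_left h10 (by positivity)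
    have h15 : 0 ≤ C * (K + R') ^ 2 := by positivity
    linarith
  · have h1 : H (z + w) * (K + nsq z) ^ 2 ≤ C * (K + R') ^ 2 := by
      apply mul_le_mul (hC _).2 _ (by positivity) hC0
      exact pow_le_pow_left₀ (by linarith) (by linarith) 2
    have : 0 ≤ (1 + δ) * nsq z := by positivity
    have : 0 ≤ 2 * (2 * K + K ^ 2) := by positivity
    linarith

/-- saturating logarithm -/
noncomputable def ww (K N : ℝ) (z : Z2) : ℝ := uu K z - uu (K + N) z + 1 / 2 * Real.log (K + N)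

theorem ww_add (K N : ℝ) (z w : Z2) : ww K N (z + w) = ww K N z + (dl K z w - dl (K + N) z w) := by
  unfold ww dl; ring

theorem ww_nonneg {K N : ℝ} (hK : 1 ≤ K) (hN : 0 ≤ N) (z : Z2) : 0 ≤ ww K N z := by
  have hr := nsq_nonneg z
  unfold ww uu
  have h1 : Real.log (K + N + nsq z) ≤ Real.log (K + nsq z) + Real.log (K + N) := by
    rw [← Real.log_mul (by linarith) (by linarith)]
    apply Real.log_le_log (by linarith)
    nlinarith [mul_nonneg hr (by linarith : (0:ℝ) ≤ K + N - 1), mul_nonneg (by linarith : (0:ℝ) ≤ K - 1) (by linarith : (0 : ℝ) ≤ K + N)]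
  linarith

theorem ww_le {K N : ℝ} (hK : 1 ≤ K) (hN : 0 ≤ N) (z : Z2) : ww K N z ≤ 1 / 2 * Real.log (K + N) := by
  have hr := nsq_nonneg z
  unfold ww uu
  have h1 : Real.log (K + nsq z) ≤ Real.log (K + N + nsq z) :=
    Real.log_le_log (by linarith) (by linarith)
  linarith

theorem av_D {K N : ℝ} {z : Z2} {s : ℝ} (hs : 100 ≤ s) (hK : 1000 ≤ K) (hN : 1 ≤ N)
    (hv : K + nsq z = s ^ 2) :
    K / (2 * s ^ 4) - 2 / N ≤ av (fun w => dl K z w - dl (K + N) z w) ∧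
    nsq z / s ^ 4 - 50 / s ^ 3 - 12 / N ≤ av (fun w => (dl K z w - dl (K + N) z w) ^ 2) ∧
    (∀ w, IsD w → |dl K z w - dl (K + N) z w| ≤ 12 / s) ∧
    av (fun w => |dl K z w - dl (K + N) z w| ^ 3) ≤ 270 / s ^ 3 := by
  have h0 : 0 < s := by linarith
  have hr := nsq_nonneg z
  have hz : nsq z ≤ s ^ 2 := by linarith
  set t := √(K + N + nsq z) with ht
  have ht2 : K + N + nsq z = t ^ 2 := (Real.sq_sqrt (by linarith)).symm
  have hst : s ≤ t := by
    apply Real.le_sqrt_of_sq_le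
    linarith
  have ht0 : 0 < t := by linarith
  obtain ⟨e2, l2⟩ := av_mm2s hs hz
  have A1 := av_dl hs (by linarith) hv
  have A2 := av_dl (by linarith : 100 ≤ t) (by linarith : (0:ℝ) ≤ K + N) ht2
  have B1 := av_dl_sq hs (by linarith) hv
  have X1 : ∀ w, IsD w → |dl K z w| ≤ 3 / 4 * |mm z w / s ^ 2| :=
    fun w hw => abs_dl_le hw hs (by linarith) hv
  have X2 : ∀ w, IsD w → |dl (K + N) z w| ≤ 3 / 4 * |mm z w / t ^ 2| :=
    fun w hw => abs_dl_le hw (by linarith) (by linarith) ht2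
  have X3 : ∀ w, |mm z w / t ^ 2| ≤ |mm z w / s ^ 2| := by
    intro w
    rw [abs_div, abs_div, abs_of_pos (by positivity : 0 < t ^ 2), abs_of_pos (by positivity : 0 < s ^ 2)]
    apply div_le_div_of_nonneg_left (abs_nonneg _) (by positivity)
    exact pow_le_pow_left₀ h0.le hst 2
  have X4 : ∀ w, IsD w → |dl K z w - dl (K + N) z w| ≤ 3 / 2 * |mm z w / s ^ 2| := by
    intro w hw
    refine (abs_sub _ _).trans ?_
    have := X1 w hw; have := X2 w hw; have := X3 w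
    linarith
  have X5 : ∀ w, IsD w → |dl K z w - dl (K + N) z w| ≤ 12 / s := by
    intro w hw
    refine (X4 w hw).trans ?_
    have := (abs_X_le hw hs hz).1
    have h1 : 12 / s = 3 / 2 * (8 / s) := by ring
    rw [h1]; linarith
  refine ⟨?_, ?_, X5, ?_⟩
  · rw [av_sub]
    have h1 : K / (2 * s ^ 4) ≤ (K - 354) / s ^ 4 := by
      rw [div_le_div_iff₀ (by positivity) (by positivity)]
      have : 0 < s ^ 4 := by positivity
      nlinarith
    have h2 : (K + N + 360) / t ^ 4 ≤ 2 / N := by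
      rw [div_le_div_iff₀ (by positivity) (by positivity)]
      have h3 : (K + N) ^ 2 ≤ t ^ 4 := by
        rw [show t ^ 4 = (t ^ 2) ^ 2 by ring, ← ht2]
        exact pow_le_pow_left₀ (by linarith) (by linarith) 2
      nlinarith
    have h3 : av (fun w => dl (K + N) z w) = av (dl (K + N) z) := rfl
    have h4 : av (fun w => dl K z w) = av (dl K z) := rfl
    rw [h3, h4]
    linarith [A1.1, A2.2]
  · have h1 : av (fun w => dl K z w ^ 2 - 9 / 8 * (s ^ 2 / t ^ 2) * (mm z w / s ^ 2) ^ 2) ≤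
        av (fun w => (dl K z w - dl (K + N) z w) ^ 2) := by
      apply av_mono
      intro e e'
      have g1 := X1 _ (isD e e')
      have g2 := X2 _ (isD e e')
      set a := dl K z (stp e - stp e')
      set b := dl (K + N) z (stp e - stp e')
      set m := mm z (stp e - stp e')
      have g3 : |a| * |b| ≤ 9 / 16 * (s ^ 2 / t ^ 2) * (m / s ^ 2) ^ 2 := by
        calc |a| * |b| ≤ (3 / 4 * |m / s ^ 2|) * (3 / 4 * |m / t ^ 2|) :=
              mul_le_mul g1 g2 (abs_nonneg _) (by positivity)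
          _ = 9 / 16 * (|m / s ^ 2| * |m / t ^ 2|) := by ring
          _ = 9 / 16 * (s ^ 2 / t ^ 2) * (m / s ^ 2) ^ 2 := by
              rw [← abs_mul, abs_of_nonneg]
              · field_simp
              · rw [div_mul_div_comm]; exact div_nonneg (mul_self_nonneg _) (by positivity)
      have g4 : a * b ≤ |a| * |b| := by rw [← abs_mul]; exact le_abs_self _
      nlinarith [sq_nonneg b]
    rw [av_sub, av_mul_left] at h1
    have h2 : 9 / 8 * (s ^ 2 / t ^ 2) * av (fun w => (mm z w / s ^ 2) ^ 2) ≤ 12 / N := by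
      calc 9 / 8 * (s ^ 2 / t ^ 2) * av (fun w => (mm z w / s ^ 2) ^ 2) ≤
            9 / 8 * (s ^ 2 / t ^ 2) * (10 / s ^ 2) := mul_le_mul_of_nonneg_left l2 (by positivity)
        _ = 45 / 4 / t ^ 2 := by field_simp; norm_num
        _ ≤ 12 / N := by
            rw [div_le_div_iff₀ (by positivity) (by positivity)]
            nlinarith
    linarith [B1.1]
  · have h1 : av (fun w => |dl K z w - dl (K + N) z w| ^ 3) ≤
        av (fun w => 27 / s * (mm z w / s ^ 2) ^ 2) := by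
      apply av_mono
      intro e e'
      have g1 := X4 _ (isD e e')
      have g2 := X5 _ (isD e e')
      set a := |dl K z (stp e - stp e') - dl (K + N) z (stp e - stp e')|
      have ha : 0 ≤ a := abs_nonneg _
      have g3 : a ^ 2 ≤ 9 / 4 * (mm z (stp e - stp e') / s ^ 2) ^ 2 := by
        calc a ^ 2 ≤ (3 / 2 * |mm z (stp e - stp e') / s ^ 2|) ^ 2 := pow_le_pow_left₀ ha g1 2
          _ = _ := by rw [mul_pow, sq_abs]; norm_num
      calc a ^ 3 = a * a ^ 2 := by ring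
        _ ≤ 12 / s * (9 / 4 * (mm z (stp e - stp e') / s ^ 2) ^ 2) :=
            mul_le_mul g2 g3 (by positivity) (by positivity)
        _ = _ := by ring
    rw [av_mul_left] at h1
    refine h1.trans ?_
    calc 27 / s * av (fun w => (mm z w / s ^ 2) ^ 2) ≤ 27 / s * (10 / s ^ 2) :=
          mul_le_mul_of_nonneg_left l2 (by positivity)
      _ = _ := by field_simp; norm_num

theorem BRl {b c η g0 s r C2 us sθ cθ : ℝ} (hb : 0 < b) (hb1 : b ≤ 1) (hη : 0 < η) (hη1 : η ≤ 1)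
    (hs : 100 ≤ s) (hv : 10000 + r = s ^ 2) (hr : 0 ≤ r) (hC2 : 0 ≤ C2) (hc : 0 < c) (hcc : c ≤ cθ)
    (hc1 : cθ ≤ 1) (hg0 : 0 < g0) (hbg : b ^ 2 = 2 * (1 + η) * g0) (hsin : 1 / 2 * (b * us) ≤ sθ)
    (hus0 : 0 ≤ us)
    (hus : us * 10000 / 2 = η * c / 2 * 10000 + 2332 ^ 2 / (4 * (η * c / 2)) + 37 * C2) :
    -(cθ * b ^ 2 * r) / 2 + 25 * b ^ 2 * s * cθ + 540 * b ^ 3 * s - sθ * b * 10000 / 2 +
      g0 * ((1 + η / 2) * r + C2) * cθ + 36 * b * g0 * ((1 + η / 2) * r + C2) / s ≤ 0 := by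
  have h0 : 0 < s := by linarith
  have b1 : b ^ 3 ≤ b ^ 2 := pow_le_pow_of_le_one hb.le hb1 (by norm_num)
  have hb2s : 0 ≤ b ^ 2 * s := by positivity
  have e1 : 25 * b ^ 2 * s * cθ ≤ 25 * b ^ 2 * s := by
    calc 25 * b ^ 2 * s * cθ ≤ 25 * b ^ 2 * s * 1 := mul_le_mul_of_nonneg_left hc1 (by positivity)
      _ = _ := by ring
  have e2 : 540 * b ^ 3 * s ≤ 540 * b ^ 2 * s :=
    mul_le_mul_of_nonneg_right (by linarith) h0.le
  have e3 : b ^ 2 ≤ 4 * g0 := by
    rw [hbg]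
    exact mul_le_mul_of_nonneg_right (by linarith) hg0.le
  have e4 : 565 * b ^ 2 * s ≤ 2260 * g0 * s :=
    mul_le_mul_of_nonneg_right (by linarith) h0.le
  have e5 : 36 * b * g0 * ((1 + η / 2) * r + C2) / s ≤ g0 * (72 * s + 36 * C2) := by
    rw [div_le_iff₀ h0]
    have h1 : (1 + η / 2) * r + C2 ≤ 2 * s ^ 2 + C2 * s := by
      have g1 : C2 * 1 ≤ C2 * s := mul_le_mul_of_nonneg_left (by linarith) hC2
      have g2 : (1 + η / 2) * r ≤ 2 * s ^ 2 :=
        mul_le_mul (by linarith) (by linarith) hr (by norm_num)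
      linarith
    have h2 : 36 * b * g0 * ((1 + η / 2) * r + C2) ≤ 36 * 1 * g0 * (2 * s ^ 2 + C2 * s) := by
      apply mul_le_mul _ h1 (by positivity) (by positivity)
      exact mul_le_mul_of_nonneg_right (by linarith) hg0.le
    refine h2.trans (le_of_eq ?_)
    ring
  have e7 : g0 * C2 * cθ ≤ g0 * C2 * 1 := mul_le_mul_of_nonneg_left hc1 (by positivity)
  have e8 : -(cθ * b ^ 2 * r) / 2 + g0 * (1 + η / 2) * r * cθ =
      -(η / 2 * g0 * r * cθ) := by rw [hbg]; ring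
  have e9 : η / 2 * g0 * r * c ≤ η / 2 * g0 * r * cθ :=
    mul_le_mul_of_nonneg_left hcc (by positivity)
  have e10 : g0 * us * 10000 / 2 ≤ sθ * b * 10000 / 2 := by
    have h2 : 1 / 2 * (b * us) * b ≤ sθ * b := mul_le_mul_of_nonneg_right hsin hb.le
    have h3 : g0 * us ≤ 1 / 2 * (b * us) * b := by
      have : 1 / 2 * (b * us) * b = (1 + η) * (g0 * us) := by
        calc 1 / 2 * (b * us) * b = 1 / 2 * b ^ 2 * us := by ring
          _ = _ := by rw [hbg]; ring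
      rw [this]
      calc g0 * us = 1 * (g0 * us) := by ring
        _ ≤ (1 + η) * (g0 * us) := mul_le_mul_of_nonneg_right (by linarith) (by positivity)
    linarith
  set a := η * c / 2 with ha
  have ha0 : 0 < a := by positivity
  have e11 : 2332 * s ≤ a * s ^ 2 + 2332 ^ 2 / (4 * a) := by
    have h1 : 0 ≤ (2 * a * s - 2332) ^ 2 / (4 * a) := by positivity
    have h2 : (2 * a * s - 2332) ^ 2 / (4 * a) = a * s ^ 2 + 2332 ^ 2 / (4 * a) - 2332 * s := by
      field_simp; ring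
    linarith
  have e13 : -(a * r) + 2332 * s + 37 * C2 ≤ us * 10000 / 2 := by
    rw [hus]
    have : a * s ^ 2 = a * 10000 + a * r := by rw [← hv]; ring
    linarith
  have e14 := mul_le_mul_of_nonneg_left e13 hg0.le
  have e15 : g0 * (-(a * r) + 2332 * s + 37 * C2) = -(η / 2 * g0 * r * c) + 2332 * g0 * s +
      37 * g0 * C2 := by rw [ha]; ring
  have e16 : g0 * ((1 + η / 2) * r + C2) * cθ =
      g0 * (1 + η / 2) * r * cθ + g0 * C2 * cθ := by ring
  have e17 : g0 * (us * 10000 / 2) = g0 * us * 10000 / 2 := by ring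
  have e18 : g0 * (72 * s + 36 * C2) = 72 * g0 * s + 36 * g0 * C2 := by ring
  rw [e15, e17] at e14
  rw [e18] at e5
  rw [e16]
  have e19 : g0 * C2 * 1 = g0 * C2 := by ring
  linarith

theorem sup_sol {H : Z2 → ℝ} (hH : UB H) {η κ : ℝ} (hη : 0 < η) (hη1 : η ≤ 1) (hκ : 0 < κ)
    (hκ1 : κ < Real.pi / 2) : ∃ us : ℝ, 0 ≤ us ∧ ∀ b : ℝ, 0 < b → b ≤ 1 → ∀ N : ℝ, 1 ≤ N →
    b * (us + 1 / 2 * Real.log (10000 + N)) ≤ Real.pi / 2 - κ →
    ∃ φ : Z2 → ℝ, (∀ z, Real.sin κ ≤ φ z ∧ φ z ≤ 1) ∧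
      ∀ z, Q (fun y => φ y + b ^ 2 / (2 * (1 + η)) * H y * φ y) z ≤
        (1 + 8 / (Real.sin κ * N)) * φ z := by
  have hsin : 0 < Real.sin κ := Real.sin_pos_of_pos_of_lt_pi hκ (by linarith [Real.pi_pos])
  set c := Real.sin κ with hc
  obtain ⟨C2, hC2, hUB⟩ := UBK hH (by norm_num : (1 : ℝ) ≤ 10000) (by linarith : 0 < η / 2)
    (by linarith : η / 2 ≤ 1)
  set a := η * c / 2 with ha
  have ha0 : 0 < a := by positivity
  set us := 2 * (a * 10000 + 2332 ^ 2 / (4 * a) + 37 * C2) / 10000 with hus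
  have hus0 : 0 ≤ us := by positivity
  refine ⟨us, hus0, ?_⟩
  intro b hb hb1 N hN hbN
  set φ : Z2 → ℝ := fun y => Real.cos (b * (us + ww 10000 N y)) with hφ
  have hθ0 : ∀ z, b * us ≤ b * (us + ww 10000 N z) := fun z =>
    mul_le_mul_of_nonneg_left (by linarith [ww_nonneg (by norm_num : (1:ℝ) ≤ 10000) (by linarith : 0 ≤ N) z]) hb.le
  have hθ1 : ∀ z, b * (us + ww 10000 N z) ≤ Real.pi / 2 - κ := fun z =>
    (mul_le_mul_of_nonneg_left (by linarith [ww_le (by norm_num : (1:ℝ) ≤ 10000) (by linarith : 0 ≤ N) z]) hb.le).trans hbN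
  have hbus : 0 ≤ b * us := by positivity
  have hφ1 : ∀ z, c ≤ φ z := by
    intro z
    rw [hc, ← Real.cos_pi_div_two_sub]
    apply Real.cos_le_cos_of_nonneg_of_le_pi
    · linarith [hθ0 z]
    · linarith [Real.pi_pos]
    · exact hθ1 z
  refine ⟨φ, fun z => ⟨hφ1 z, Real.cos_le_one _⟩, ?_⟩
  intro z
  have hr := nsq_nonneg z
  set s := √(10000 + nsq z) with hs
  have hv : 10000 + nsq z = s ^ 2 := (Real.sq_sqrt (by linarith)).symm
  have hs100 : 100 ≤ s := by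
    apply Real.le_sqrt_of_sq_le
    norm_num
    exact hr
  have h0 : 0 < s := by linarith
  obtain ⟨D1, D2, D3, D4⟩ := av_D hs100 (by norm_num : (1000 : ℝ) ≤ 10000) hN hv
  set D : Z2 → ℝ := fun w => dl 10000 z w - dl (10000 + N) z w with hD
  set θ := b * (us + ww 10000 N z) with hθ
  have hcosθ : φ z = Real.cos θ := rfl
  have hcz : c ≤ Real.cos θ := hφ1 z
  have hφw : ∀ w, φ (z + w) = Real.cos (θ + b * D w) := by
    intro w
    show Real.cos (b * (us + ww 10000 N (z + w))) = _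
    rw [ww_add]
    congr 1
    rw [hθ, hD]
    ring
  set g0 := b ^ 2 / (2 * (1 + η)) with hg0
  have hg0p : 0 < g0 := by positivity
  have hbg : b ^ 2 = 2 * (1 + η) * g0 := by rw [hg0]; field_simp
  have hbD : ∀ w, IsD w → b * |D w| ≤ 12 * b / s := by
    intro w hw
    calc b * |D w| ≤ b * (12 / s) := mul_le_mul_of_nonneg_left (D3 w hw) hb.le
      _ = _ := by ring
  have h12 : 12 * b / s ≤ 1 := by
    rw [div_le_one h0]; linarith
  have hcosb : ∀ w, IsD w → φ (z + w) ≤ Real.cos θ + 36 * b / s := by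
    intro w hw
    rw [hφw]
    have h1 : |b * D w| ≤ 12 * b / s := by rw [abs_mul, abs_of_pos hb]; exact hbD w hw
    have h2 := (abs_le.1 (cos_exp (θ := θ) (h1.trans h12))).2
    have h3 : |b * D w| ^ 3 ≤ |b * D w| :=
      pow_le_of_le_one (abs_nonneg _) (h1.trans h12) (by norm_num)
    have h4 : -(Real.sin θ * (b * D w)) ≤ |b * D w| := by
      have h7 := neg_abs_le (Real.sin θ * (b * D w))
      rw [abs_mul] at h7
      have h5 := mul_le_mul_of_nonneg_right (Real.abs_sin_le_one θ) (abs_nonneg (b * D w))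
      linarith only [h7, h5]
    have h6 : 0 ≤ Real.cos θ * (b * D w) ^ 2 := by
      have : 0 ≤ Real.cos θ := by linarith
      positivity
    have h8 : 36 * b / s = 3 * (12 * b / s) := by ring
    rw [h8]
    linarith only [h1, h2, h3, h4, h6]
  have hHb : ∀ w, IsD w → H (z + w) ≤ ((1 + η / 2) * nsq z + C2) / s ^ 4 := by
    intro w hw
    rw [le_div_iff₀ (by positivity), show s ^ 4 = (s ^ 2) ^ 2 by ring, ← hv]
    exact hUB z w hw
  have hH0 : ∀ y, 0 ≤ H y := fun y => by obtain ⟨⟨C, hC⟩, -⟩ := hH; exact (hC y).1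
  -- the main estimate
  have M1 : Q (fun y => φ y + g0 * H y * φ y) z ≤
      av (fun w => Real.cos (θ + b * D w)) +
        g0 * (((1 + η / 2) * nsq z + C2) / s ^ 4) * (Real.cos θ + 36 * b / s) := by
    rw [Q_eq_av, ← av_const (g0 * (((1 + η / 2) * nsq z + C2) / s ^ 4) * (Real.cos θ + 36 * b / s)),
      ← av_add]
    apply av_mono
    intro e e'
    have hw := isD e e'
    rw [← hφw]
    have h1 : g0 * H (z + (stp e - stp e')) * φ (z + (stp e - stp e')) ≤
        g0 * (((1 + η / 2) * nsq z + C2) / s ^ 4) * (Real.cos θ + 36 * b / s) := by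
      apply mul_le_mul (mul_le_mul_of_nonneg_left (hHb _ hw) hg0p.le) (hcosb _ hw)
        (by linarith [hφ1 (z + (stp e - stp e'))]) (by positivity)
    linarith
  have M2 := (abs_le.1 (av_cos (θ := θ) hb.le (D := D)
    (fun w hw => (hbD w hw).trans h12))).2
  have hsinθ1 := Real.sin_le_one θ
  have hθpi : θ ≤ Real.pi / 2 := by linarith [hθ1 z]
  have hθnn : 0 ≤ θ := hbus.trans (hθ0 z)
  have hsinθ : 2 / Real.pi * (b * us) ≤ Real.sin θ :=
    (mul_le_mul_of_nonneg_left (hθ0 z) (by positivity)).trans (Real.mul_le_sin hθnn hθpi)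
  have hsin0 : 0 ≤ Real.sin θ := Real.sin_nonneg_of_nonneg_of_le_pi hθnn (by linarith [Real.pi_pos])
  have hcos1 := Real.cos_le_one θ
  have hcos0 : 0 ≤ Real.cos θ := by linarith
  have hpi : (1 : ℝ) / 2 ≤ 2 / Real.pi := by
    rw [div_le_div_iff₀ (by norm_num) Real.pi_pos]
    linarith [Real.pi_le_four]
  -- terms
  have T1 : -(Real.cos θ * (b ^ 2 * av (fun w => D w ^ 2) / 2)) ≤
      -(Real.cos θ * b ^ 2 * (nsq z / s ^ 4 - 50 / s ^ 3) / 2) + 6 * b ^ 2 / N := by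
    have h1 : Real.cos θ * b ^ 2 / 2 * (nsq z / s ^ 4 - 50 / s ^ 3 - 12 / N) ≤
        Real.cos θ * b ^ 2 / 2 * av (fun w => D w ^ 2) :=
      mul_le_mul_of_nonneg_left D2 (by positivity)
    have h2 : Real.cos θ * b ^ 2 / 2 * (12 / N) ≤ 6 * b ^ 2 / N := by
      have : Real.cos θ * b ^ 2 / 2 * (12 / N) = Real.cos θ * (6 * b ^ 2 / N) := by ring
      rw [this]
      have h3 : 0 ≤ 6 * b ^ 2 / N := by positivity
      calc Real.cos θ * (6 * b ^ 2 / N) ≤ 1 * (6 * b ^ 2 / N) := mul_le_mul_of_nonneg_right hcos1 h3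
        _ = _ := one_mul _
    linarith only [h1, h2]
  have T2 : -(Real.sin θ * (b * av D)) ≤ -(Real.sin θ * b * (10000 / (2 * s ^ 4))) + 2 * b / N := by
    have h1 : Real.sin θ * b * (10000 / (2 * s ^ 4) - 2 / N) ≤ Real.sin θ * b * av D :=
      mul_le_mul_of_nonneg_left D1 (by positivity)
    have h2 : Real.sin θ * b * (2 / N) ≤ 2 * b / N := by
      have : Real.sin θ * b * (2 / N) = Real.sin θ * (2 * b / N) := by ring
      rw [this]
      have h3 : 0 ≤ 2 * b / N := by positivity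
      calc Real.sin θ * (2 * b / N) ≤ 1 * (2 * b / N) := mul_le_mul_of_nonneg_right hsinθ1 h3
        _ = _ := one_mul _
    linarith only [h1, h2]
  have T3 : 2 * b ^ 3 * av (fun w => |D w| ^ 3) ≤ 540 * b ^ 3 / s ^ 3 := by
    calc _ ≤ 2 * b ^ 3 * (270 / s ^ 3) := mul_le_mul_of_nonneg_left D4 (by positivity)
      _ = _ := by ring
  -- the bracket
  have BR : -(Real.cos θ * b ^ 2 * nsq z) / 2 + 25 * b ^ 2 * s * Real.cos θ + 540 * b ^ 3 * s -
      Real.sin θ * b * 10000 / 2 + g0 * ((1 + η / 2) * nsq z + C2) * Real.cos θ +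
      36 * b * g0 * ((1 + η / 2) * nsq z + C2) / s ≤ 0 := by
    have hsin2 : 1 / 2 * (b * us) ≤ Real.sin θ :=
      (mul_le_mul_of_nonneg_right hpi hbus).trans hsinθ
    exact BRl hb hb1 hη hη1 hs100 hv hr hC2 hsin hcz hcos1 hg0p hbg hsin2 hus0 (by rw [hus, ha]; ring)
  have BR2 : (-(Real.cos θ * b ^ 2 * nsq z) / 2 + 25 * b ^ 2 * s * Real.cos θ + 540 * b ^ 3 * s -
      Real.sin θ * b * 10000 / 2 + g0 * ((1 + η / 2) * nsq z + C2) * Real.cos θ +
      36 * b * g0 * ((1 + η / 2) * nsq z + C2) / s) / s ^ 4 ≤ 0 :=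
    div_nonpos_of_nonpos_of_nonneg BR (by positivity)
  have hfin : 8 / N ≤ 8 / (c * N) * Real.cos θ := by
    have : 8 / (c * N) * Real.cos θ = 8 / N * (Real.cos θ / c) := by field_simp
    rw [this]
    have h1 : 1 ≤ Real.cos θ / c := by rw [le_div_iff₀ hsin]; linarith
    have h2 : 0 ≤ 8 / N := by positivity
    calc 8 / N = 8 / N * 1 := by ring
      _ ≤ _ := mul_le_mul_of_nonneg_left h1 h2
  have hb2 : 6 * b ^ 2 / N + 2 * b / N ≤ 8 / N := by
    rw [← add_div]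
    apply div_le_div_of_nonneg_right _ (by linarith)
    have : b ^ 2 ≤ 1 := pow_le_one₀ hb.le hb1
    linarith
  rw [hcosθ]
  have hexp : (-(Real.cos θ * b ^ 2 * nsq z) / 2 + 25 * b ^ 2 * s * Real.cos θ + 540 * b ^ 3 * s -
      Real.sin θ * b * 10000 / 2 + g0 * ((1 + η / 2) * nsq z + C2) * Real.cos θ +
      36 * b * g0 * ((1 + η / 2) * nsq z + C2) / s) / s ^ 4 =
      -(Real.cos θ * b ^ 2 * (nsq z / s ^ 4 - 50 / s ^ 3) / 2) + 540 * b ^ 3 / s ^ 3 -
      Real.sin θ * b * (10000 / (2 * s ^ 4)) +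
      g0 * (((1 + η / 2) * nsq z + C2) / s ^ 4) * (Real.cos θ + 36 * b / s) := by
    field_simp
    ring
  rw [hexp] at BR2
  linarith only [M1, M2, T1, T2, T3, BR2, hfin, hb2]

end Pool.Agent.Helper97.CP
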