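import Pool.Agent.Helper97.CP2.Env
import Pool.Agent.Helper97.CP2.MP
import Pool.Agent.Helper97.CP2.Sup

set_option autoImplicit false

open MeasureTheory ProbabilityTheory Filter Finset

namespace Pool.Agent.Helper97.CP

/-- hypotheses on the correlation -/
structure HH (h : Z2 → ℝ) : Prop where
  h0 : h 0 = 1
  sym : ∀ z, h (-z) = h z
  bd : ∀ z, |h z| ≤ 1
  lim : ∀ δ : ℝ, 0 < δ → ∃ R : ℝ, ∀ z, R ≤ nsq z → |h z * nsq z - 1| ≤ δ

theorem HH.UB {h : Z2 → ℝ} (H : HH h) : UB (fun z => |h z|) := by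
  refine ⟨⟨1, fun z => ⟨abs_nonneg _, H.bd z⟩⟩, ?_⟩
  intro δ hδ
  obtain ⟨R, hR⟩ := H.lim δ hδ
  refine ⟨R, fun z hz => ?_⟩
  have h1 := abs_le.1 (hR z hz)
  have h2 : |h z| * nsq z = |h z * nsq z| := by rw [abs_mul, abs_of_nonneg (nsq_nonneg z)]
  rw [h2]
  rw [abs_le]
  constructor <;> linarith [h1.1, h1.2]

/-- exponential moments of the replica overlap -/
theorem mom {h : Z2 → ℝ} (H : HH h) {ε : ℝ} (hε : 0 < ε) (hε1 : ε < 1) :
    ∃ C β0 : ℝ, 1 ≤ C ∧ 0 < β0 ∧ β0 ≤ 1 ∧ ∀ β : ℝ, 0 < β → β ≤ β0 → ∀ N : ℕ, 1 ≤ N →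
      Real.log N ≤ (1 - ε) * Real.pi / (√2 * β) → ∀ x x' : Z2,
      ES2 N (fun s s' => Real.exp ((1 + ε / 8) * β ^ 2 * ∑ k ∈ Icc 1 N, |h (s k - s' k)|)) x x' ≤ C := by
  have hpi := Real.pi_pos
  have hpi3 := Real.pi_gt_three
  set η := ε / 8 with hη
  have hη0 : 0 < η := by positivity
  have hη1 : η ≤ 1 := by linarith
  set κ := ε * Real.pi / 8 with hκ
  have hκ0 : 0 < κ := by positivity
  have hκ1 : κ < Real.pi / 2 := by nlinarith
  obtain ⟨us, hus, hsup⟩ := sup_sol H.UB hη0 hη1 hκ0 hκ1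
  have hsin : 0 < Real.sin κ := Real.sin_pos_of_pos_of_lt_pi hκ0 (by linarith)
  set c := Real.sin κ with hc
  have hc1 : c ≤ 1 := Real.sin_le_one κ
  set U := us + 1 / 2 * Real.log 10001 with hU
  have hlog : 0 ≤ Real.log 10001 := Real.log_nonneg (by norm_num)
  have hU0 : 0 ≤ U := by positivity
  set β0 := min (1 / 4) (min (√(η / 2)) (ε * Real.pi / (32 * (U + 1)))) with hβ0
  have hβ0p : 0 < β0 := by positivity
  refine ⟨Real.exp (8 / c) / c, β0, ?_, hβ0p, ?_, ?_⟩
  · rw [le_div_iff₀ hsin]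
    have : 1 ≤ Real.exp (8 / c) := Real.one_le_exp (by positivity)
    linarith
  · exact (min_le_left _ _).trans (by norm_num)
  intro β hβ hββ N hN hlN x x'
  have hβ4 : β ≤ 1 / 4 := hββ.trans (min_le_left _ _)
  have hβη : β ≤ √(η / 2) := hββ.trans ((min_le_right _ _).trans (min_le_left _ _))
  have hβU : β ≤ ε * Real.pi / (32 * (U + 1)) := hββ.trans ((min_le_right _ _).trans (min_le_right _ _))
  have hN1 : (1 : ℝ) ≤ N := by exact_mod_cast hN
  have hN0 : (0 : ℝ) < N := by linarith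
  have hβ2 : β ^ 2 ≤ η / 2 := by
    have := pow_le_pow_left₀ hβ.le hβη 2
    rwa [Real.sq_sqrt (by positivity)] at this
  set b := √(2 * (1 + η) ^ 3) * β with hb
  have hb0 : 0 < b := by positivity
  have hsq : √(2 * (1 + η) ^ 3) ≤ √2 * (1 + η) ^ 2 := by
    rw [Real.sqrt_le_left (by positivity), mul_pow, Real.sq_sqrt (by norm_num)]
    have : (1 + η) ^ 3 ≤ ((1 + η) ^ 2) ^ 2 := by
      have e : ((1 + η) ^ 2) ^ 2 = (1 + η) ^ 3 * (1 + η) := by ring
      rw [e]
      have h3 : 0 < (1 + η) ^ 3 := by positivity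
      nlinarith
    linarith
  have hsq4 : √(2 * (1 + η) ^ 3) ≤ 4 := by
    rw [Real.sqrt_le_left (by norm_num)]
    have : (1 + η) ^ 3 ≤ 2 ^ 3 := pow_le_pow_left₀ (by positivity) (by linarith) 3
    linarith
  have hb4 : b ≤ 4 * β := mul_le_mul_of_nonneg_right hsq4 hβ.le
  have hb1 : b ≤ 1 := by linarith
  have hg0 : b ^ 2 / (2 * (1 + η)) = (1 + η) ^ 2 * β ^ 2 := by
    rw [hb, mul_pow, Real.sq_sqrt (by positivity)]
    field_simp
  have hcond : b * (us + 1 / 2 * Real.log (10000 + N)) ≤ Real.pi / 2 - κ := by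
    have h1 : Real.log (10000 + N) ≤ Real.log N + Real.log 10001 := by
      rw [← Real.log_mul hN0.ne' (by norm_num)]
      apply Real.log_le_log (by positivity)
      nlinarith
    have h2 : b * (1 / 2 * Real.log N) ≤ Real.pi / 2 * (1 - ε / 2) := by
      have h3 : b ≤ √2 * (1 + η) ^ 2 * β := mul_le_mul_of_nonneg_right hsq hβ.le
      have h4 : 0 ≤ Real.log N := Real.log_nonneg hN1
      calc b * (1 / 2 * Real.log N) ≤ (√2 * (1 + η) ^ 2 * β) * (1 / 2 * ((1 - ε) * Real.pi / (√2 * β))) := by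
            apply mul_le_mul h3 (by linarith) (by positivity) (by positivity)
        _ = Real.pi / 2 * ((1 + η) ^ 2 * (1 - ε)) := by field_simp
        _ ≤ Real.pi / 2 * (1 - ε / 2) := by
            apply mul_le_mul_of_nonneg_left _ (by positivity)
            rw [hη]
            nlinarith [sq_nonneg ε, mul_pos hε hε, mul_pos (mul_pos hε hε) hε]
    have h5 : b * U ≤ ε * Real.pi / 8 := by
      have h6 : 4 * β * (U + 1) ≤ ε * Real.pi / 8 := by
        rw [le_div_iff₀ (by positivity)] at hβU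
        linarith
      calc b * U ≤ 4 * β * (U + 1) := mul_le_mul hb4 (by linarith) hU0 (by positivity)
        _ ≤ _ := h6
    calc b * (us + 1 / 2 * Real.log (10000 + N)) ≤ b * (us + 1 / 2 * (Real.log N + Real.log 10001)) := by
          apply mul_le_mul_of_nonneg_left _ hb0.le
          linarith
      _ = b * U + b * (1 / 2 * Real.log N) := by rw [hU]; ring
      _ ≤ ε * Real.pi / 8 + Real.pi / 2 * (1 - ε / 2) := add_le_add h5 h2
      _ = Real.pi / 2 - κ := by rw [hκ]; ring
  obtain ⟨φ, hφ, hsol⟩ := hsup b hb0 hb1 N hN1 hcond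
  rw [hg0] at hsol
  have ha : 0 ≤ 1 + 8 / (c * N) := by positivity
  have hmain := super_bound (φ := φ) (H := fun z => |h z|) (a := 1 + 8 / (c * N)) (c := c)
    (g := (1 + η) * β ^ 2) hsin hφ (by
      intro z
      refine le_trans (Q_mono ?_ z) (hsol z)
      intro y
      have h1 : Real.exp ((1 + η) * β ^ 2 * |h y|) ≤ 1 + (1 + η) ^ 2 * β ^ 2 * |h y| := by
        set t := (1 + η) * β ^ 2 * |h y| with ht
        have ht0 : 0 ≤ t := by positivity
        have hg : (1 + η) * β ^ 2 ≤ η := by nlinarith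
        have ht1 : t ≤ η := by
          calc t ≤ (1 + η) * β ^ 2 * 1 := mul_le_mul_of_nonneg_left (H.bd y) (by positivity)
            _ ≤ η := by linarith
        have h2 : Real.exp t ≤ 1 + t + t ^ 2 := by
          have := Real.abs_exp_sub_one_sub_id_le (x := t) (by rw [abs_of_nonneg ht0]; linarith)
          have := (abs_le.1 this).2
          linarith
        have h3 : t + t ^ 2 ≤ (1 + η) * t := by nlinarith
        calc Real.exp t ≤ 1 + (t + t ^ 2) := by linarith
          _ ≤ 1 + (1 + η) * t := by linarith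
          _ = _ := by rw [ht]; ring
      calc Real.exp ((1 + η) * β ^ 2 * |h y|) * φ y ≤ (1 + (1 + η) ^ 2 * β ^ 2 * |h y|) * φ y :=
            mul_le_mul_of_nonneg_right h1 (by linarith [(hφ y).1])
        _ = _ := by ring) ha N x x'
  refine hmain.trans ?_
  apply div_le_div_of_nonneg_right _ hsin.le
  calc (1 + 8 / (c * N)) ^ N ≤ (Real.exp (8 / (c * N))) ^ N := by
        apply pow_le_pow_left₀ ha
        linarith [Real.add_one_le_exp (8 / (c * N))]
    _ = Real.exp (8 / c) := by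
        rw [← Real.exp_nat_mul]
        congr 1
        field_simp

variable {Ω : Type*} [MeasurableSpace Ω] {P : Measure Ω} {ω : ℕ → Z2 → Ω → ℝ} {h : Z2 → ℝ}

/-- Gibbs weights in the environment `v` -/
noncomputable def gb (β : ℝ) (N : ℕ) (x : Z2) (v : Env) (σ : Fin N → E4) : ℝ :=
  ((4 : ℝ) ^ N)⁻¹ * Real.exp (wtf β N (path x σ) v) / Wf β N x v

theorem gb_pos (β : ℝ) (N : ℕ) (x : Z2) (v : Env) (σ : Fin N → E4) : 0 < gb β N x v σ := by
  unfold gb
  have := Wf_pos β N x v
  positivity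

theorem gb_sum (β : ℝ) (N : ℕ) (x : Z2) (v : Env) : ∑ σ, gb β N x v σ = 1 := by
  unfold gb
  rw [← Finset.sum_div, ← Finset.mul_sum]
  exact div_self (Wf_pos β N x v).ne'

/-- the tangent functional -/
noncomputable def Lt (β : ℝ) (N : ℕ) (x : Z2) (u v : Env) : ℝ :=
  ∑ j ∈ (univ : Finset (Fin N → E4)) ×ˢ Icc 1 N, (gb β N x u j.1 * β) * v j.2 (path x j.1 j.2)

theorem log_ge (β : ℝ) (N : ℕ) (x : Z2) (u v : Env) :
    Real.log (Wf β N x u) + Lt β N x u v - Lt β N x u u ≤ Real.log (Wf β N x v) := by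
  have hu := Wf_pos β N x u
  have hv := Wf_pos β N x v
  set m := Lt β N x u v - Lt β N x u u with hm
  have hm2 : m = ∑ σ, gb β N x u σ * (wtf β N (path x σ) v - wtf β N (path x σ) u) := by
    rw [hm]
    unfold Lt
    rw [← Finset.sum_sub_distrib, Finset.sum_product]
    apply Finset.sum_congr rfl
    intro σ _
    unfold wtf
    rw [← Finset.sum_sub_distrib, Finset.mul_sum]
    apply Finset.sum_congr rfl
    intro k _
    ring
  have h1 : Real.exp m * Wf β N x u ≤ Wf β N x v := by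
    have e1 : Wf β N x v = Wf β N x u * ∑ σ, gb β N x u σ *
        Real.exp (wtf β N (path x σ) v - wtf β N (path x σ) u) := by
      rw [Finset.mul_sum]
      unfold Wf ES
      rw [Finset.mul_sum]
      apply Finset.sum_congr rfl
      intro σ _
      unfold gb
      rw [Real.exp_sub]
      have h3 := Real.exp_pos (wtf β N (path x σ) u)
      have h4 := (Wf_pos β N x u).ne'
      have h5 : Wf β N x u = (4 ^ N)⁻¹ * ∑ σ : Fin N → E4, Real.exp (wtf β N (path x σ) u) := rfl
      rw [← h5]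
      field_simp
    rw [e1, mul_comm]
    apply mul_le_mul_of_nonneg_left _ hu.le
    have h2 : ∀ σ, gb β N x u σ * (Real.exp m * (1 + ((wtf β N (path x σ) v - wtf β N (path x σ) u) - m))) ≤
        gb β N x u σ * Real.exp (wtf β N (path x σ) v - wtf β N (path x σ) u) := by
      intro σ
      apply mul_le_mul_of_nonneg_left _ (gb_pos β N x u σ).le
      have h3 := Real.add_one_le_exp ((wtf β N (path x σ) v - wtf β N (path x σ) u) - m)
      calc _ ≤ Real.exp m * Real.exp ((wtf β N (path x σ) v - wtf β N (path x σ) u) - m) :=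
            mul_le_mul_of_nonneg_left (by linarith) (Real.exp_pos _).le
        _ = _ := by rw [← Real.exp_add]; congr 1; ring
    refine le_trans (le_of_eq ?_) (Finset.sum_le_sum fun σ _ => h2 σ)
    have h4 : ∀ σ, gb β N x u σ * (Real.exp m * (1 + ((wtf β N (path x σ) v - wtf β N (path x σ) u) - m))) =
        Real.exp m * (gb β N x u σ * (1 - m)) +
        Real.exp m * (gb β N x u σ * (wtf β N (path x σ) v - wtf β N (path x σ) u)) := by
      intro σ; ring
    simp only [h4]
    rw [Finset.sum_add_distrib, ← Finset.mul_sum, ← Finset.mul_sum, ← Finset.sum_mul, gb_sum, ← hm2]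
    ring
  have h2 : Real.log (Real.exp m * Wf β N x u) ≤ Real.log (Wf β N x v) :=
    Real.log_le_log (by positivity) h1
  rw [Real.log_mul (Real.exp_pos _).ne' hu.ne', Real.log_exp] at h2
  rw [hm] at h2
  linarith

/-- the unnormalised overlap -/
noncomputable def qv (h : Z2 → ℝ) (β : ℝ) (N : ℕ) (x : Z2) (v : Env) : ℝ :=
  ES2 N (fun s s' => Real.exp (wtf β N s v) * Real.exp (wtf β N s' v) *
    (β ^ 2 * ∑ k ∈ Icc 1 N, h (s k - s' k))) x x

theorem cross_cv (h : Z2 → ℝ) (N : ℕ) (s s' : ℕ → Z2) :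
    ∑ i ∈ Icc 1 N, ∑ j ∈ Icc 1 N, cv h (i, s i) (j, s' j) = ∑ k ∈ Icc 1 N, h (s k - s' k) := by
  apply Finset.sum_congr rfl
  intro i hi
  rw [Finset.sum_eq_single_of_mem i hi]
  · unfold cv
    rw [if_pos rfl]
  · intro j _ hj
    unfold cv
    rw [if_neg (fun h => hj h.symm)]

theorem Lt_var (h : Z2 → ℝ) (β : ℝ) (N : ℕ) (x : Z2) (u : Env) :
    ∑ i ∈ (univ : Finset (Fin N → E4)) ×ˢ Icc 1 N, ∑ j ∈ (univ : Finset (Fin N → E4)) ×ˢ Icc 1 N,
      (gb β N x u i.1 * β) * (gb β N x u j.1 * β) * cv h (i.2, path x i.1 i.2) (j.2, path x j.1 j.2) =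
      qv h β N x u / Wf β N x u ^ 2 := by
  rw [Finset.sum_product]
  simp only [Finset.sum_product]
  have e1 : ∀ σ : Fin N → E4, ∑ i ∈ Icc 1 N, ∑ σ' : Fin N → E4, ∑ j ∈ Icc 1 N,
      (gb β N x u σ * β) * (gb β N x u σ' * β) * cv h (i, path x σ i) (j, path x σ' j) =
      ∑ σ' : Fin N → E4, gb β N x u σ * gb β N x u σ' *
        (β ^ 2 * ∑ k ∈ Icc 1 N, h (path x σ k - path x σ' k)) := by
    intro σ
    rw [Finset.sum_comm]
    apply Finset.sum_congr rfl
    intro σ' _
    rw [← cross_cv, Finset.mul_sum, Finset.mul_sum]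
    apply Finset.sum_congr rfl
    intro i _
    rw [Finset.mul_sum, Finset.mul_sum]
    apply Finset.sum_congr rfl
    intro j _
    ring
  simp only [e1]
  have hW := (Wf_pos β N x u).ne'
  unfold qv ES2 ES
  rw [Finset.mul_sum, Finset.sum_div]
  apply Finset.sum_congr rfl
  intro σ _
  beta_reduce
  rw [Finset.mul_sum, Finset.mul_sum, Finset.sum_div]
  apply Finset.sum_congr rfl
  intro σ' _
  unfold gb
  field_simp

theorem continuous_gb (β : ℝ) (N : ℕ) (x : Z2) (σ : Fin N → E4) :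
    Continuous (fun u => gb β N x u σ) := by
  unfold gb
  apply Continuous.div
  · apply Continuous.const_mul
    exact Real.continuous_exp.comp (continuous_wtf _ _ _)
  · exact continuous_Wf β N x
  · intro u; exact (Wf_pos β N x u).ne'

theorem continuous_Lt (β : ℝ) (N : ℕ) (x : Z2) (v : Env) : Continuous (fun u => Lt β N x u v) := by
  unfold Lt
  apply continuous_finsetSum
  intro j _
  apply Continuous.mul_const
  apply Continuous.mul_const
  exact continuous_gb β N x j.1

theorem continuous_Lt' (β : ℝ) (N : ℕ) (x : Z2) : Continuous (fun u => Lt β N x u u) := by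
  unfold Lt
  apply continuous_finsetSum
  intro j _
  apply Continuous.mul
  · apply Continuous.mul_const
    exact continuous_gb β N x j.1
  · fun_prop

theorem continuous_qv (h : Z2 → ℝ) (β : ℝ) (N : ℕ) (x : Z2) : Continuous (qv h β N x) := by
  unfold qv ES2
  apply continuous_ES
  intro s
  apply continuous_ES
  intro s'
  apply Continuous.mul_const
  exact (Real.continuous_exp.comp (continuous_wtf _ _ _)).mul
    (Real.continuous_exp.comp (continuous_wtf _ _ _))

end Pool.Agent.Helper97.CP
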