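import Pool.Agent.Helper97.CP2.P1

set_option autoImplicit false

open MeasureTheory ProbabilityTheory Filter Finset

namespace Pool.Agent.Helper97.CP

variable {Ω : Type*} [MeasurableSpace Ω] {P : Measure Ω} {ω : ℕ → Z2 → Ω → ℝ} {h : Z2 → ℝ}

theorem ES_mul_ES (N M : ℕ) (F G : (ℕ → Z2) → ℝ) (x x' : Z2) :
    ES N F x * ES M G x' = ES N (fun s => ES M (fun s' => F s * G s') x') x := by
  rw [← ES_mul_right]
  apply ES_congr
  intro s _
  rw [← ES_mul_left]

theorem GEnv.W_one (g : GEnv P ω h) (h0 : h 0 = 1) (β : ℝ) (N : ℕ) (x : Z2) :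
    Integrable (fun w => Wf β N x (En ω w)) P ∧ ∫ w, Wf β N x (En ω w) ∂P = 1 := by
  have hi : ∀ s : ℕ → Z2, Integrable (fun w => Real.exp (wtf β N s (En ω w))) P := fun s =>
    (g.exp_wt h0 β N s).1
  refine ⟨integrable_ES x hi, ?_⟩
  unfold Wf
  rw [integral_ES x hi]
  have : ∀ s : ℕ → Z2, ∫ w, Real.exp (wtf β N s (En ω w)) ∂P = 1 := fun s =>
    (g.exp_wt h0 β N s).2
  simp only [this, ES_const]

theorem GEnv.qv_nonneg (g : GEnv P ω h) (β : ℝ) (N : ℕ) (x : Z2) (u : Env) : 0 ≤ qv h β N x u := by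
  have h1 := g.psd ((univ : Finset (Fin N → E4)) ×ˢ Icc 1 N) (fun i => gb β N x u i.1 * β)
    (fun i => (i.2, path x i.1 i.2))
  rw [Lt_var] at h1
  have hW := Wf_pos β N x u
  have h2 : qv h β N x u = qv h β N x u / Wf β N x u ^ 2 * Wf β N x u ^ 2 := by
    field_simp
  rw [h2]
  positivity

/-- the random vector of tangent functionals is Gaussian -/
theorem GEnv.vec (g : GEnv P ω h) {ι : Type*} [Fintype ι] {κ : Type*} (S : Finset κ)
    (a : ι → κ → ℝ) (p : κ → ℕ × Z2) (L : StrongDual ℝ (ι → ℝ)) :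
    ∃ c : κ → ℝ, ∀ w, L (fun i => ∑ j ∈ S, a i j * ω (p j).1 (p j).2 w) =
      ∑ j ∈ S, c j * ω (p j).1 (p j).2 w := by
  classical
  refine ⟨fun j => ∑ i, L (Pi.single i 1) * a i j, ?_⟩
  intro w
  rw [← L.sum_comp_single]
  have h1 : ∀ i, (L ∘SL ContinuousLinearMap.single ℝ (fun _ : ι => ℝ) i)
      (∑ j ∈ S, a i j * ω (p j).1 (p j).2 w) =
      (∑ j ∈ S, a i j * ω (p j).1 (p j).2 w) * L (Pi.single i 1) := by
    intro i
    show L (Pi.single i _) = _
    have : (Pi.single i (∑ j ∈ S, a i j * ω (p j).1 (p j).2 w) : ι → ℝ) =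
        (∑ j ∈ S, a i j * ω (p j).1 (p j).2 w) • (Pi.single i 1 : ι → ℝ) := by
      rw [← Pi.single_smul]; simp
    rw [this, map_smul, smul_eq_mul]
  simp only [h1]
  simp only [Finset.sum_mul]
  rw [Finset.sum_comm]
  apply Finset.sum_congr rfl
  intro j _
  apply Finset.sum_congr rfl
  intro i _
  ring

theorem low_mean (g : GEnv P ω h) (H : HH h) {β η C : ℝ} (hη : 0 < η)
    (hC : 1 ≤ C) (N : ℕ) (x : Z2)
    (hmom : ES2 N (fun s s' => Real.exp ((1 + η) * β ^ 2 * ∑ k ∈ Icc 1 N, |h (s k - s' k)|)) x x ≤ C) :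
    Integrable (fun w => Real.log (Wf β N x (En ω w))) P ∧
      -(Real.log 2 + 1) - Real.pi * √(4 * (8 * C ^ 2 / η)) / (1 / (16 * C)) ≤
        ∫ w, Real.log (Wf β N x (En ω w)) ∂P := by
  have hP := g.prob
  have hC0 : 0 < C := by linarith
  set K := 8 * C ^ 2 / η with hK
  have hK0 : 0 < K := by positivity
  obtain ⟨iW, eW⟩ := g.W_one H.h0 β N x
  have hmE := g.measurable_En
  -- second moment
  have ip : ∀ s s' : ℕ → Z2, Integrable (fun w => Real.exp (wtf β N s (En ω w)) *
      Real.exp (wtf β N s' (En ω w))) P := fun s s' => (g.pair_exp H.h0 H.sym β N s s').1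
  have hW2 : ∀ v : Env, Wf β N x v ^ 2 = ES N (fun s => ES N (fun s' =>
      Real.exp (wtf β N s v) * Real.exp (wtf β N s' v)) x) x := by
    intro v
    rw [sq]
    exact ES_mul_ES N N _ _ x x
  have iW2 : Integrable (fun w => Wf β N x (En ω w) ^ 2) P := by
    simp only [hW2]
    exact integrable_ES x fun s => integrable_ES x fun s' => ip s s'
  have eW2 : ∫ w, Wf β N x (En ω w) ^ 2 ∂P ≤ C := by
    simp only [hW2]
    rw [integral_ES x (fun s => integrable_ES x fun s' => ip s s')]
    refine le_trans ?_ hmom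
    unfold ES2
    apply ES_mono
    intro s _
    rw [integral_ES x (fun s' => ip s s')]
    apply ES_mono
    intro s' _
    rw [(g.pair_exp H.h0 H.sym β N s s').2]
    apply Real.exp_le_exp.2
    have h1 : ∑ k ∈ Icc 1 N, h (s k - s' k) ≤ ∑ k ∈ Icc 1 N, |h (s k - s' k)| :=
      Finset.sum_le_sum fun k _ => le_abs_self _
    have h2 : 0 ≤ ∑ k ∈ Icc 1 N, |h (s k - s' k)| := Finset.sum_nonneg fun k _ => abs_nonneg _
    have h3 := mul_le_mul_of_nonneg_left h1 (sq_nonneg β)
    have h4 : 0 ≤ η * (β ^ 2 * ∑ k ∈ Icc 1 N, |h (s k - s' k)|) := by positivity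
    linarith
  -- the overlap
  have iq : Integrable (fun w => qv h β N x (En ω w)) P := by
    unfold qv ES2
    exact integrable_ES x fun s => integrable_ES x fun s' => (ip s s').mul_const _
  have eq : ∫ w, qv h β N x (En ω w) ∂P ≤ C / η := by
    unfold qv ES2
    rw [integral_ES x (fun s => integrable_ES x fun s' => (ip s s').mul_const _)]
    have h1 : C / η = C * (1 / η) := by ring
    rw [h1]
    refine le_trans ?_ (mul_le_mul_of_nonneg_right hmom (by positivity))
    unfold ES2
    rw [← ES_mul_right]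
    apply ES_mono
    intro s _
    rw [integral_ES x (fun s' => (ip s s').mul_const _), ← ES_mul_right]
    apply ES_mono
    intro s' _
    rw [integral_mul_const, (g.pair_exp H.h0 H.sym β N s s').2]
    set y := β ^ 2 * ∑ k ∈ Icc 1 N, h (s k - s' k) with hy
    set Y := β ^ 2 * ∑ k ∈ Icc 1 N, |h (s k - s' k)| with hY
    have hyY : y ≤ Y := mul_le_mul_of_nonneg_left
      (Finset.sum_le_sum fun k _ => le_abs_self _) (sq_nonneg β)
    have hY0 : 0 ≤ Y := mul_nonneg (sq_nonneg β) (Finset.sum_nonneg fun k _ => abs_nonneg _)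
    have h2 : Real.exp y * y ≤ Real.exp Y * Y := by
      rcases le_total 0 y with hy0 | hy0
      · exact mul_le_mul (Real.exp_le_exp.2 hyY) hyY hy0 (Real.exp_pos _).le
      · have : Real.exp y * y ≤ 0 := mul_nonpos_of_nonneg_of_nonpos (Real.exp_pos _).le hy0
        have : 0 ≤ Real.exp Y * Y := by positivity
        linarith
    have h3 : Y ≤ Real.exp (η * Y) * (1 / η) := by
      have h4 : η * Y ≤ Real.exp (η * Y) := by linarith [Real.add_one_le_exp (η * Y)]
      rw [mul_one_div, le_div_iff₀ hη]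
      linarith
    have h5 : (1 + η) * β ^ 2 * ∑ k ∈ Icc 1 N, |h (s k - s' k)| = Y + η * Y := by rw [hY]; ring
    beta_reduce
    rw [h5, Real.exp_add, mul_assoc]
    exact h2.trans (mul_le_mul_of_nonneg_left h3 (Real.exp_pos _).le)
  -- events
  set B : Set Ω := {w | 1 / 2 ≤ Wf β N x (En ω w)} with hB
  set G : Set Ω := {w | K ≤ qv h β N x (En ω w)} with hG
  set EA : Set Ω := {w | 1 / 2 ≤ Wf β N x (En ω w) ∧ qv h β N x (En ω w) ≤ K} with hEA
  have hBm : MeasurableSet B :=
    measurableSet_le measurable_const ((measurable_Wf β N x).comp hmE)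
  have hPB : 1 / (4 * C) ≤ P.real B := by
    have h1 : ∀ w, Wf β N x (En ω w) ≤ 1 / 2 + 1 / (4 * C) * Wf β N x (En ω w) ^ 2 +
        B.indicator (fun _ => C) w := by
      intro w
      have hw := Wf_pos β N x (En ω w)
      by_cases hwB : w ∈ B
      · rw [Set.indicator_of_mem hwB]
        have h2 : 0 ≤ (Wf β N x (En ω w) - 2 * C) ^ 2 / (4 * C) := by positivity
        have h3 : (Wf β N x (En ω w) - 2 * C) ^ 2 / (4 * C) =
            1 / (4 * C) * Wf β N x (En ω w) ^ 2 + C - Wf β N x (En ω w) := by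
          field_simp; ring
        linarith
      · rw [Set.indicator_of_notMem hwB]
        have h2 : Wf β N x (En ω w) < 1 / 2 := not_le.1 hwB
        have h3 : 0 ≤ 1 / (4 * C) * Wf β N x (En ω w) ^ 2 := by positivity
        linarith
    have hind : Integrable (B.indicator (fun _ => C)) P := (integrable_const _).indicator hBm
    have hi1 : Integrable (fun w => 1 / 2 + 1 / (4 * C) * Wf β N x (En ω w) ^ 2) P :=
      (integrable_const _).add (iW2.const_mul _)
    have h2 := integral_mono iW (hi1.add hind) h1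
    simp only [Pi.add_apply] at h2
    rw [eW, integral_add hi1 hind, integral_add (integrable_const _) (iW2.const_mul _),
      integral_const_mul, integral_indicator hBm, setIntegral_const] at h2
    simp only [integral_const, probReal_univ, one_smul, smul_eq_mul] at h2
    have h3 : 1 / (4 * C) * ∫ w, Wf β N x (En ω w) ^ 2 ∂P ≤ 1 / 4 := by
      calc _ ≤ 1 / (4 * C) * C := mul_le_mul_of_nonneg_left eW2 (by positivity)
        _ = 1 / 4 := by field_simp
    rw [div_le_iff₀ (by positivity)]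
    nlinarith
  have hPG : P.real G ≤ 1 / (8 * C) := by
    have h1 := mul_meas_ge_le_integral_of_nonneg
      (Filter.Eventually.of_forall fun w => g.qv_nonneg β N x (En ω w)) iq K
    have h2 : K * P.real G ≤ C / η := h1.trans eq
    have h3 : K * (1 / (8 * C)) = C / η := by rw [hK]; field_simp
    rw [← h3] at h2
    exact le_of_mul_le_mul_left h2 hK0
  have hPEA : 1 / (8 * C) ≤ P.real EA := by
    have h1 : B ⊆ EA ∪ G := by
      intro w hw
      rcases le_total (qv h β N x (En ω w)) K with h2 | h2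
      · exact Or.inl ⟨hw, h2⟩
      · exact Or.inr h2
    have h2 := measureReal_mono (μ := P) h1
    have h3 := measureReal_union_le (μ := P) EA G
    have h4 : 1 / (4 * C) = 1 / (8 * C) + 1 / (8 * C) := by field_simp; norm_num
    linarith
  -- dense sequence
  set AA : Set Env := {v | 1 / 2 ≤ Wf β N x v ∧ qv h β N x v ≤ K} with hAA
  have hne : Nonempty AA := by
    by_contra hcon
    rw [not_nonempty_iff] at hcon
    have : EA = ∅ := by
      ext w
      simp only [Set.mem_empty_iff_false, iff_false]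
      intro hw
      exact hcon.false ⟨En ω w, hw⟩
    rw [this] at hPEA
    simp only [measureReal_empty] at hPEA
    have : 0 < 1 / (8 * C) := by positivity
    linarith
  set D := TopologicalSpace.denseSeq AA with hD
  have hDd : DenseRange D := TopologicalSpace.denseRange_denseSeq AA
  set ℓ : Env → Env → ℝ := fun u v => Real.log (Wf β N x u) + Lt β N x u v - Lt β N x u u with hℓ
  have hℓc : ∀ v, Continuous (fun u => ℓ u v) := by
    intro v
    have h1 : Continuous (fun u => Real.log (Wf β N x u)) :=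
      Continuous.log (continuous_Wf β N x) fun u => (Wf_pos β N x u).ne'
    exact (h1.add (continuous_Lt β N x v)).sub (continuous_Lt' β N x)
  set Bn : ℕ → Set Ω := fun n => {w | ∃ i < n, -(Real.log 2 + 1) < ℓ (D i).1 (En ω w)} with hBn
  have hBmono : Monotone Bn := by
    intro m n hmn w hw
    obtain ⟨i, hi, h1⟩ := hw
    exact ⟨i, by omega, h1⟩
  have hcover : EA ⊆ ⋃ n, Bn n := by
    intro w hw
    have hopen : IsOpen {u : AA | -(Real.log 2 + 1) < ℓ u.1 (En ω w)} :=
      isOpen_lt continuous_const ((hℓc (En ω w)).comp continuous_subtype_val)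
    have hnon : ({u : AA | -(Real.log 2 + 1) < ℓ u.1 (En ω w)}).Nonempty := by
      refine ⟨⟨En ω w, hw⟩, ?_⟩
      show -(Real.log 2 + 1) < ℓ (En ω w) (En ω w)
      have h1 : Real.log (1 / 2) ≤ Real.log (Wf β N x (En ω w)) :=
        Real.log_le_log (by norm_num) hw.1
      have h2 : Real.log (1 / 2) = -Real.log 2 := by rw [one_div, Real.log_inv]
      show -(Real.log 2 + 1) < Real.log (Wf β N x (En ω w)) + Lt β N x (En ω w) (En ω w) -
        Lt β N x (En ω w) (En ω w)
      linarith
    obtain ⟨i, hi⟩ := hDd.exists_mem_open hopen hnon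
    exact Set.mem_iUnion.2 ⟨i + 1, i, by omega, hi⟩
  have hlim : Tendsto (fun n => P.real (Bn n)) atTop (nhds (P.real (⋃ n, Bn n))) := by
    have h1 := tendsto_measure_iUnion_atTop (μ := P) hBmono
    exact (ENNReal.tendsto_toReal (measure_ne_top P _)).comp h1
  have hgt : 1 / (16 * C) < P.real (⋃ n, Bn n) := by
    have h1 := measureReal_mono (μ := P) hcover
    have h2 : 1 / (16 * C) < 1 / (8 * C) := by
      apply one_div_lt_one_div_of_lt (by positivity)
      linarith
    linarith
  obtain ⟨n, hn⟩ := ((hlim.eventually (lt_mem_nhds hgt)).and (eventually_ge_atTop 1)).exists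
  obtain ⟨hn1, hn2⟩ := hn
  have : Nonempty (Fin n) := ⟨⟨0, by omega⟩⟩
  -- the Gaussian vector
  set S := (univ : Finset (Fin N → E4)) ×ˢ Icc 1 N with hS
  set vec : Ω → Fin n → ℝ := fun w i => Lt β N x (D i).1 (En ω w) with hvec
  have hvecL : ∀ L : StrongDual ℝ (Fin n → ℝ), ∃ c : (Fin N → E4) × ℕ → ℝ, ∀ w,
      L (vec w) = ∑ j ∈ S, c j * ω j.2 (path x j.1 j.2) w := by
    intro L
    exact g.vec S (fun (i : Fin n) j => gb β N x (D i).1 j.1 * β) (fun j => (j.2, path x j.1 j.2)) L
  have hvecm : Measurable vec := by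
    apply measurable_pi_lambda
    intro i
    show Measurable fun w => ∑ j ∈ S, _
    apply Finset.measurable_fun_sum
    intro j _
    exact (g.meas _ _).const_mul _
  set μ := P.map vec with hμ
  have hGμ : IsGaussian μ := by
    apply isGaussian_of_map_eq_gaussianReal
    intro L
    obtain ⟨c, hc⟩ := hvecL L
    have h1 := g.lin_law S c (fun j => (j.2, path x j.1 j.2))
    refine ⟨0, _, Eq.trans ?_ h1⟩
    rw [Measure.map_map (by fun_prop) hvecm]
    have h2 : (L ∘ vec) = fun w => ∑ j ∈ S, c j * ω j.2 (path x j.1 j.2) w := funext hc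
    rw [h2]
  have hμ0 : ∀ L : StrongDual ℝ (Fin n → ℝ), μ[L] = 0 := by
    intro L
    obtain ⟨c, hc⟩ := hvecL L
    rw [hμ, integral_map hvecm.aemeasurable (by fun_prop)]
    simp only [hc]
    exact g.lin_mean S c (fun j => (j.2, path x j.1 j.2))
  have hvar : ∀ i, ∫ y, (y i) ^ 2 ∂μ ≤ (√(4 * K)) ^ 2 := by
    intro i
    rw [hμ, integral_map hvecm.aemeasurable
      ((measurable_pi_apply i).pow_const 2).aestronglyMeasurable, Real.sq_sqrt (by positivity)]
    have h1 := g.lin_sq S (fun j => gb β N x (D i).1 j.1 * β) (fun j => (j.2, path x j.1 j.2))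
    have h2 : ∫ w, (vec w i) ^ 2 ∂P = qv h β N x (D i).1 / Wf β N x (D i).1 ^ 2 := by
      rw [← Lt_var]
      exact h1
    rw [h2]
    have h3 := (D i).2
    have h4 : (1 / 2) ^ 2 ≤ Wf β N x (D i).1 ^ 2 := pow_le_pow_left₀ (by norm_num) h3.1 2
    have hWp := Wf_pos β N x (D i).1
    rw [div_le_iff₀ (by positivity)]
    have h5 := h3.2
    nlinarith
  set c : Fin n → ℝ := fun i => Real.log (Wf β N x (D i).1) - Lt β N x (D i).1 (D i).1 with hc
  have hA : 1 / (16 * C) ≤ μ.real {y | -(Real.log 2 + 1) ≤ Fm c y} := by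
    have hms : MeasurableSet {y : Fin n → ℝ | -(Real.log 2 + 1) ≤ Fm c y} :=
      measurableSet_le measurable_const (Fm_cont c).measurable
    rw [hμ, map_measureReal_apply hvecm hms]
    refine hn1.le.trans (measureReal_mono ?_)
    intro w hw
    obtain ⟨i, hi, h1⟩ := hw
    show -(Real.log 2 + 1) ≤ Fm c (vec w)
    have h2 := Fm_ge c (vec w) ⟨i, hi⟩
    have h3 : c ⟨i, hi⟩ + vec w ⟨i, hi⟩ = ℓ (D i).1 (En ω w) := by
      show Real.log (Wf β N x (D i).1) - Lt β N x (D i).1 (D i).1 + Lt β N x (D i).1 (En ω w) =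
        Real.log (Wf β N x (D i).1) + Lt β N x (D i).1 (En ω w) - Lt β N x (D i).1 (D i).1
      ring
    linarith
  obtain ⟨hFi, hFl⟩ := mp_low hμ0 (Real.sqrt_pos.2 (by positivity : 0 < 4 * K)) hvar c
    (by positivity : 0 < 1 / (16 * C)) hA
  have hFiP : Integrable (fun w => Fm c (vec w)) P := hFi.comp_measurable hvecm
  have hFeq : ∫ y, Fm c y ∂μ = ∫ w, Fm c (vec w) ∂P := by
    rw [hμ, integral_map hvecm.aemeasurable (Fm_cont c).aestronglyMeasurable]
  have hle : ∀ w, Fm c (vec w) ≤ Real.log (Wf β N x (En ω w)) := by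
    intro w
    obtain ⟨i, hi⟩ := Fm_eq c (vec w)
    rw [hi]
    have := log_ge β N x (D i).1 (En ω w)
    show Real.log (Wf β N x (D i).1) - Lt β N x (D i).1 (D i).1 + Lt β N x (D i).1 (En ω w) ≤ _
    linarith
  have hlogi : Integrable (fun w => Real.log (Wf β N x (En ω w))) P := by
    refine Integrable.mono' (hFiP.abs.add iW)
      (Real.measurable_log.comp ((measurable_Wf β N x).comp hmE)).aestronglyMeasurable ?_
    refine Filter.Eventually.of_forall fun w => ?_
    have hw := Wf_pos β N x (En ω w)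
    rw [Real.norm_eq_abs, abs_le]
    have h1 := hle w
    have h2 : Real.log (Wf β N x (En ω w)) ≤ Wf β N x (En ω w) := by
      have := Real.log_le_sub_one_of_pos hw
      linarith
    have h3 := neg_abs_le (Fm c (vec w))
    have h4 := abs_nonneg (Fm c (vec w))
    simp only [Pi.add_apply]
    constructor <;> linarith
  refine ⟨hlogi, ?_⟩
  have h1 := integral_mono hFiP hlogi hle
  rw [hFeq] at hFl
  linarith

end Pool.Agent.Helper97.CP
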