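import Pool.Agent.Helper97.CP2.Sup

set_option autoImplicit false

open MeasureTheory ProbabilityTheory Filter Finset

namespace Pool.Agent.Helper97.CP

/-- positive, `liminf |z|² H(z) ≥ 1` -/
def LB (H : Z2 → ℝ) : Prop := (∀ z, 0 < H z) ∧
  ∀ δ : ℝ, 0 < δ → ∃ R : ℝ, ∀ z, R ≤ nsq z → 1 - δ ≤ H z * nsq z

theorem finite_nsq (R : ℝ) : {z : Z2 | nsq z ≤ R}.Finite := by
  obtain ⟨m, hm⟩ := exists_nat_ge R
  apply Set.Finite.subset (Set.finite_Icc (fun _ : Fin 2 => -(m : ℤ)) (fun _ : Fin 2 => (m : ℤ)))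
  intro z hz
  have hz' : nsq z ≤ m := (show nsq z ≤ R from hz).trans hm
  rw [nsq_eq] at hz'
  have key : ∀ i : Fin 2, (z i : ℝ) ^ 2 ≤ m := by
    intro i
    fin_cases i
    · show (z 0 : ℝ) ^ 2 ≤ m
      nlinarith [sq_nonneg (z 1 : ℝ)]
    · show (z 1 : ℝ) ^ 2 ≤ m
      nlinarith [sq_nonneg (z 0 : ℝ)]
  have key2 : ∀ i : Fin 2, |z i| ≤ (m : ℤ) := by
    intro i
    have h1 : (z i) ^ 2 ≤ (m : ℤ) := by exact_mod_cast key i
    by_contra hc
    push Not at hc
    have h2 : (0 : ℤ) ≤ m := Int.natCast_nonneg m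
    have h3 : |z i| * |z i| = z i ^ 2 := by rw [← sq, sq_abs]
    nlinarith
  constructor
  · intro i; exact (abs_le.1 (key2 i)).1
  · intro i; exact (abs_le.1 (key2 i)).2

theorem min_near {H : Z2 → ℝ} (hH : ∀ z, 0 < H z) (R : ℝ) : ∃ c : ℝ, 0 < c ∧ ∀ z, nsq z ≤ R → c ≤ H z := by
  rcases (Set.eq_empty_or_nonempty {z : Z2 | nsq z ≤ R}) with h | h
  · refine ⟨1, one_pos, fun z hz => ?_⟩
    have : z ∈ ({z : Z2 | nsq z ≤ R}) := hz
    rw [h] at this
    exact absurd this (Set.notMem_empty _)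
  · obtain ⟨z0, -, h0⟩ := Set.exists_min_image _ H (finite_nsq R) h
    exact ⟨H z0, hH z0, fun z hz => h0 z hz⟩

theorem LBK {H : Z2 → ℝ} (hH : LB H) {δ : ℝ} (hδ : 0 < δ) (hδ1 : δ ≤ 1) :
    ∃ R1 c1 : ℝ, 0 < c1 ∧ 0 ≤ R1 ∧ ∀ K : ℝ, 1 ≤ K → ∀ z w, IsD w →
      (R1 ≤ nsq z → (1 - δ) / (K + nsq z) ≤ H (z + w)) ∧ (nsq z ≤ R1 → c1 ≤ H (z + w)) := by
  obtain ⟨hpos, hlim⟩ := hH
  obtain ⟨R, hR⟩ := hlim (δ / 2) (by linarith)
  set R1 := max (max ((8 / (δ / 2)) ^ 2) (2 * R)) 1 with hR1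
  have hR11 : 1 ≤ R1 := le_max_right _ _
  obtain ⟨c1, hc1, hmin⟩ := min_near hpos (10 * R1)
  refine ⟨R1, c1, hc1, by linarith, ?_⟩
  intro K hK z w hw
  have hr := nsq_nonneg z
  constructor
  · intro h
    have h1 : 1 ≤ nsq z := hR11.trans h
    have h2 : (8 / (δ / 2)) ^ 2 ≤ nsq z := ((le_max_left _ _).trans (le_max_left _ _)).trans h
    have h3 : 2 * R ≤ nsq z := ((le_max_right _ _).trans (le_max_left _ _)).trans h
    obtain ⟨h4, h4'⟩ := nsq_shift (by linarith : 0 < δ / 2) hw h1 h2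
    have h5 : R ≤ nsq (z + w) := by nlinarith
    have h6 := hR _ h5
    have h7 : 0 < nsq (z + w) := by nlinarith
    have hp := (hpos (z + w)).le
    rw [div_le_iff₀ (by linarith)]
    have h8 : H (z + w) * nsq (z + w) ≤ H (z + w) * ((1 + δ / 2) * (K + nsq z)) := by
      apply mul_le_mul_of_nonneg_left _ hp
      nlinarith
    have h9 : (1 - δ) * (1 + δ / 2) ≤ (H (z + w) * (K + nsq z)) * (1 + δ / 2) := by nlinarith
    exact le_of_mul_le_mul_right h9 (by linarith)
  · intro h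
    apply hmin
    rw [nsq_add]
    have h1 := (abs_le.1 (abs_mm_le hw (Real.one_le_sqrt.2 hR11) (by
      rw [Real.sq_sqrt (by linarith)]; exact h))).2
    have h2 : √R1 ≤ R1 := by
      rw [Real.sqrt_le_left (by linarith)]
      nlinarith
    linarith

theorem bracketFar {P κ0 η r s b : ℝ} (hκ : 0 < κ0) (hκ1 : κ0 ≤ 1 / 4) (hη : 0 < η) (hη1 : η ≤ 1 / 2)
    (hs : 3520 / κ0 ≤ s) (hs2 : 104 / η ≤ s) (hr : 0 ≤ r) (hrs : r ≤ s ^ 2) (hP : 0 ≤ P) (hb : 0 ≤ b)
    (hb1 : b ≤ 1) (hB : r < s ^ 2 / 2 → 1 / 2 ≤ P) :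
    κ0 / 8 ≤ P * ((1 + η / 2) - r / s ^ 2 - 52 / s) + κ0 * (r / s ^ 2 - 50 / s) - κ0 / 16 -
      1080 / s - 12 * b ^ 2 / s ^ 2 := by
  have hsb : 14080 ≤ s := by
    have : 14080 ≤ 3520 / κ0 := by
      rw [le_div_iff₀ hκ]; linarith
    linarith
  have h0 : 0 < s := by linarith
  have hx0 : 0 ≤ r / s ^ 2 := by positivity
  have hx1 : r / s ^ 2 ≤ 1 := by rw [div_le_one (by positivity)]; exact hrs
  have e1 : 1100 / s ≤ 5 / 16 * κ0 := by
    rw [div_le_iff₀ h0]
    rw [div_le_iff₀ hκ] at hs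
    nlinarith
  have e2 : 52 / s ≤ η / 2 := by
    rw [div_le_iff₀ h0]
    rw [div_le_iff₀ hη] at hs2
    nlinarith
  have e3 : 12 * b ^ 2 / s ^ 2 ≤ 1 / s := by
    rw [div_le_div_iff₀ (by positivity) h0]
    have : b ^ 2 ≤ 1 := pow_le_one₀ hb hb1
    nlinarith
  have e5 : 0 < 1 / s := by positivity
  have e50 : κ0 * (50 / s) ≤ 13 * (1 / s) := by
    rw [show κ0 * (50 / s) = 50 * κ0 * (1 / s) by ring]
    apply mul_le_mul_of_nonneg_right _ e5.le
    linarith
  have f1 : 1080 / s = 1080 * (1 / s) := by ring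
  have f2 : 1100 / s = 1100 * (1 / s) := by ring
  have f3 : 52 / s = 52 * (1 / s) := by ring
  rcases le_or_gt (s ^ 2 / 2) r with hA | hA
  · have h1 : 1 / 2 ≤ r / s ^ 2 := by rw [le_div_iff₀ (by positivity)]; linarith
    have h2 : 0 ≤ P * ((1 + η / 2) - r / s ^ 2 - 52 / s) := by
      apply mul_nonneg hP; linarith
    have h3 : κ0 * (1 / 2) ≤ κ0 * (r / s ^ 2) := mul_le_mul_of_nonneg_left h1 hκ.le
    have h4 : κ0 * (r / s ^ 2 - 50 / s) = κ0 * (r / s ^ 2) - κ0 * (50 / s) := by ring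
    rw [h4]
    linarith
  · have h1 : r / s ^ 2 ≤ 1 / 2 := by rw [div_le_iff₀ (by positivity)]; linarith
    have hP2 := hB hA
    have h5 : 1 / s ≤ 1 / 14080 := by
      apply one_div_le_one_div_of_le (by norm_num) hsb
    have h2 : 1 / 2 * (1 / 2 - 52 / s) ≤ P * ((1 + η / 2) - r / s ^ 2 - 52 / s) := by
      apply mul_le_mul hP2 (by linarith) _ hP
      rw [f3]; linarith
    have h3 : 0 ≤ κ0 * (r / s ^ 2) := by positivity
    have h4 : κ0 * (r / s ^ 2 - 50 / s) = κ0 * (r / s ^ 2) - κ0 * (50 / s) := by ring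
    rw [h4]
    linarith

theorem sub_sol {H : Z2 → ℝ} (hH : LB H) {η κ0 : ℝ} (hη : 0 < η) (hη1 : η ≤ 1 / 2) (hκ : 0 < κ0)
    (hκ1 : κ0 ≤ 1 / 4) : ∃ bb C5 : ℝ, 0 < bb ∧ bb ≤ 1 ∧ 0 < C5 ∧ ∀ b : ℝ, 0 < b → b ≤ bb →
    ∀ M0 : ℝ, C5 * Real.exp (Real.pi * (1 + κ0) / b) / b ^ 2 ≤ M0 →
    ∃ ψ : Z2 → ℝ, (∀ z, 0 ≤ ψ z ∧ ψ z ≤ 2) ∧ 1 / 2 ≤ ψ 0 ∧
      ∀ z, (1 + 2 / M0) * ψ z ≤ Q (fun y => ψ y + b ^ 2 / (2 * (1 - η)) * H y * ψ y) z := by
  obtain ⟨R1, c1, hc1, hR1, hLB⟩ := LBK hH (by linarith : 0 < η / 2) (by linarith : η / 2 ≤ 1)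
  set S0 := 3520 / κ0 + 104 / η + R1 + 5000 / c1 with hS0
  have hκi : 14080 ≤ 3520 / κ0 := by rw [le_div_iff₀ hκ]; linarith
  have hηi : 0 ≤ 104 / η := by positivity
  have hci : 0 ≤ 5000 / c1 := by positivity
  have hS0b : 14080 ≤ S0 := by linarith
  set K := S0 ^ 2 with hK
  have hK1 : 1000 ≤ K := by nlinarith
  set AA := 1 / 2 * Real.log (64 / κ0) with hAA
  have h64 : 256 ≤ 64 / κ0 := by rw [le_div_iff₀ hκ]; linarith
  have hAA0 : 0 < AA := by
    have := Real.log_pos (by linarith : 1 < 64 / κ0)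
    positivity
  have hexpA : Real.exp (-(2 * AA)) = κ0 / 64 := by
    rw [hAA, ← mul_assoc]
    norm_num
    rw [Real.exp_neg, Real.exp_log (by positivity)]
    rw [inv_div]
  set u1 := AA + 1 / 2 * Real.log K with hu1
  refine ⟨min 1 (1 / AA), 40 * Real.exp (2 * u1) / κ0 + 20 / c1, lt_min one_pos (by positivity),
    min_le_left _ _, by positivity, ?_⟩
  clear_value u1 AA K S0
  intro b hb hbb M0 hM0
  have hb1 : b ≤ 1 := hbb.trans (min_le_left _ _)
  have hbA : b * AA ≤ 1 := by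
    have : b ≤ 1 / AA := hbb.trans (min_le_right _ _)
    rwa [le_div_iff₀ hAA0] at this
  have hE0 := Real.exp_pos (Real.pi * (1 + κ0) / b)
  have hM0p : 0 < M0 := lt_of_lt_of_le (by positivity) hM0
  set ψ : Z2 → ℝ := fun z => max 0 (κ0 + Real.cos (min (b * (uu K z - u1)) Real.pi)) with hψ
  have hψ0 : ∀ z, 0 ≤ ψ z := fun z => le_max_left _ _
  have hψ2 : ∀ z, ψ z ≤ 2 := fun z => max_le (by norm_num) (by
    have := Real.cos_le_one (min (b * (uu K z - u1)) Real.pi)
    linarith)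
  have hulow : ∀ z, -AA ≤ uu K z - u1 := by
    intro z
    have h1 : Real.log K ≤ Real.log (K + nsq z) :=
      Real.log_le_log (by linarith) (by linarith [nsq_nonneg z])
    rw [hu1]
    unfold uu
    linarith
  have hθlow : ∀ z, -1 ≤ b * (uu K z - u1) := by
    intro z
    have := mul_le_mul_of_nonneg_left (hulow z) hb.le
    linarith
  -- points where `K + |z|²` is at most `4 K`
  have hgood : ∀ z, K + nsq z ≤ 4 * K → 1 / 2 ≤ ψ z ∧ b * (uu K z - u1) ≤ 0 := by
    intro z hz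
    have h1 : uu K z ≤ u1 := by
      have h2 : Real.log (K + nsq z) ≤ Real.log (64 / κ0 * K) := by
        apply Real.log_le_log (by linarith [nsq_nonneg z])
        nlinarith
      rw [Real.log_mul (by positivity) (by positivity)] at h2
      rw [hu1, hAA]
      unfold uu
      linarith
    have h3 : b * (uu K z - u1) ≤ 0 := mul_nonpos_of_nonneg_of_nonpos hb.le (by linarith)
    refine ⟨?_, h3⟩
    have h4 : min (b * (uu K z - u1)) Real.pi = b * (uu K z - u1) :=
      min_eq_left (by linarith [Real.pi_pos])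
    have h5 : 1 / 2 ≤ Real.cos (b * (uu K z - u1)) := by
      have := Real.one_sub_sq_div_two_le_cos (x := b * (uu K z - u1))
      nlinarith [hθlow z]
    show 1 / 2 ≤ max 0 _
    rw [h4]
    exact le_max_of_le_right (by linarith)
  refine ⟨ψ, fun z => ⟨hψ0 z, hψ2 z⟩, (hgood 0 (by rw [nsq_eq]; simp; linarith)).1, ?_⟩
  intro z
  have hr := nsq_nonneg z
  have hg0 : 0 < b ^ 2 / (2 * (1 - η)) := by
    apply div_pos (by positivity); linarith
  set g0 := b ^ 2 / (2 * (1 - η)) with hg0d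
  clear_value g0
  have hHp := hH.1
  rcases (hψ0 z).eq_or_lt with hz0 | hz0
  · rw [← hz0, mul_zero, Q_eq_av, ← av_const 0]
    apply av_mono
    intro e e'
    have h1 := hψ0 (z + (stp e - stp e'))
    have h2 := (hHp (z + (stp e - stp e'))).le
    positivity
  set s := √(K + nsq z) with hs
  have hv : K + nsq z = s ^ 2 := (Real.sq_sqrt (by linarith)).symm
  have hsS : S0 ≤ s := by
    apply Real.le_sqrt_of_sq_le
    linarith
  have hs100 : 100 ≤ s := by linarith
  have h0 : 0 < s := by linarith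
  clear_value s
  obtain ⟨A1, A2⟩ := av_dl hs100 (by linarith) hv
  obtain ⟨B1, B2⟩ := av_dl_sq hs100 (by linarith) hv
  set D : Z2 → ℝ := fun w => dl K z w with hD
  set θ := b * (uu K z - u1) with hθ
  have hψθ : ψ z = max 0 (κ0 + Real.cos (min θ Real.pi)) := rfl
  clear_value θ
  have hpi3 := Real.pi_gt_three
  -- θ is below π/2 (1+κ0)
  have hθup : θ < Real.pi / 2 * (1 + κ0) := by
    by_contra hc
    push Not at hc
    have h1 : Real.pi / 2 * (1 + κ0) ≤ Real.pi := by nlinarith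
    have h2 : Real.cos (min θ Real.pi) ≤ Real.cos (Real.pi / 2 * (1 + κ0)) := by
      apply Real.cos_le_cos_of_nonneg_of_le_pi (by positivity) (min_le_right _ _)
      exact le_min hc h1
    have h3 : Real.cos (Real.pi / 2 * (1 + κ0)) ≤ -κ0 := by
      have : Real.pi / 2 * (1 + κ0) = Real.pi / 2 * κ0 + Real.pi / 2 := by ring
      rw [this, Real.cos_add_pi_div_two]
      have h4 := Real.mul_le_sin (x := Real.pi / 2 * κ0) (by positivity) (by nlinarith)
      have h5 : 2 / Real.pi * (Real.pi / 2 * κ0) = κ0 := by field_simp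
      rw [h5] at h4
      linarith
    have h6 : ψ z = 0 := by
      rw [hψθ]
      apply max_eq_left
      linarith only [h2, h3]
    exact hz0.ne' h6
  have hθpi : θ ≤ Real.pi := by
    have h5 : Real.pi / 2 * (1 + κ0) ≤ Real.pi / 2 * (5 / 4) :=
      mul_le_mul_of_nonneg_left (by linarith only [hκ1]) (by linarith only [hpi3])
    linarith only [h5, hθup, hpi3]
  have hPz : ψ z = κ0 + Real.cos θ := by
    have h1 := hψθ
    rw [min_eq_left hθpi] at h1
    rcases le_total 0 (κ0 + Real.cos θ) with h2 | h2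
    · rw [h1, max_eq_right h2]
    · rw [max_eq_left h2] at h1; exact absurd h1 hz0.ne'
  set P := ψ z with hP
  clear_value P
  have hP54 : P ≤ 5 / 4 := by
    rw [hPz]; linarith [Real.cos_le_one θ]
  obtain ⟨e2, l2⟩ := av_mm2s hs100 (by linarith : nsq z ≤ s ^ 2)
  have X1 : ∀ w, IsD w → |D w| ≤ 3 / 4 * |mm z w / s ^ 2| :=
    fun w hw => abs_dl_le hw hs100 (by linarith) hv
  have X2 : ∀ w, IsD w → |D w| ≤ 6 / s := by
    intro w hw
    have h1 := (abs_X_le hw hs100 (by linarith : nsq z ≤ s ^ 2)).1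
    have h2 : 6 / s = 3 / 4 * (8 / s) := by ring
    rw [h2]; linarith [X1 w hw]
  have X3 : av (fun w => |D w| ^ 3) ≤ 270 / s ^ 3 := by
    have h1 : av (fun w => |D w| ^ 3) ≤ av (fun w => 27 / s * (mm z w / s ^ 2) ^ 2) := by
      apply av_mono
      intro e e'
      have g1 := X1 _ (isD e e')
      have g2 := X2 _ (isD e e')
      have g3 : |D (stp e - stp e')| ^ 2 ≤ 9 / 16 * (mm z (stp e - stp e') / s ^ 2) ^ 2 := by
        calc |D (stp e - stp e')| ^ 2 ≤ (3 / 4 * |mm z (stp e - stp e') / s ^ 2|) ^ 2 :=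
              pow_le_pow_left₀ (abs_nonneg _) g1 2
          _ = _ := by rw [mul_pow, sq_abs]; norm_num
      calc |D (stp e - stp e')| ^ 3 = |D (stp e - stp e')| * |D (stp e - stp e')| ^ 2 := by ring
        _ ≤ 6 / s * (9 / 16 * (mm z (stp e - stp e') / s ^ 2) ^ 2) :=
            mul_le_mul g2 g3 (by positivity) (by positivity)
        _ ≤ _ := by
            rw [show 6 / s * (9 / 16 * (mm z (stp e - stp e') / s ^ 2) ^ 2) =
              27 / 8 / s * (mm z (stp e - stp e') / s ^ 2) ^ 2 by ring]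
            apply mul_le_mul_of_nonneg_right _ (sq_nonneg _)
            apply div_le_div_of_nonneg_right _ h0.le
            norm_num
    rw [av_mul_left] at h1
    refine h1.trans ?_
    calc 27 / s * av (fun w => (mm z w / s ^ 2) ^ 2) ≤ 27 / s * (10 / s ^ 2) :=
          mul_le_mul_of_nonneg_left l2 (by positivity)
      _ = _ := by field_simp; norm_num
  have hbD : ∀ w, IsD w → b * |D w| ≤ 1 := by
    intro w hw
    have h1 : 6 / s ≤ 1 := by rw [div_le_one h0]; linarith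
    calc b * |D w| ≤ 1 * 1 := mul_le_mul hb1 ((X2 w hw).trans h1) (abs_nonneg _) (by norm_num)
      _ = 1 := by norm_num
  have hψw : ∀ w, IsD w → κ0 + Real.cos (θ + b * D w) ≤ ψ (z + w) := by
    intro w hw
    have h1 : b * (uu K (z + w) - u1) = θ + b * D w := by
      rw [hθ]; show _ = _ + b * (uu K (z + w) - uu K z); ring
    have h2 : θ + b * D w ≤ Real.pi := by
      have h3 : b * D w ≤ 6 / s := by
        calc b * D w ≤ b * |D w| := mul_le_mul_of_nonneg_left (le_abs_self _) hb.le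
          _ ≤ 1 * (6 / s) := mul_le_mul hb1 (X2 w hw) (abs_nonneg _) (by norm_num)
          _ = _ := one_mul _
      have h4 : 6 / s ≤ 6 / 100 := div_le_div_of_nonneg_left (by norm_num) (by norm_num) hs100
      have h5 : Real.pi / 2 * (1 + κ0) ≤ Real.pi / 2 * (5 / 4) :=
        mul_le_mul_of_nonneg_left (by linarith only [hκ1]) (by linarith only [hpi3])
      linarith only [h3, h4, h5, hθup, hpi3]
    show _ ≤ max 0 _
    rw [h1, min_eq_left h2]
    exact le_max_right _ _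
  have M2 := (abs_le.1 (av_cos (θ := θ) hb.le (D := D) hbD)).1
  -- Q ψ from below
  have hQψ : κ0 + av (fun w => Real.cos (θ + b * D w)) ≤ Q ψ z := by
    rw [Q_eq_av, ← av_const κ0, ← av_add]
    exact av_mono fun e e' => hψw _ (isD e e')
  have hsinterm : -(b ^ 2 * κ0 / (32 * s ^ 2)) ≤ -(Real.sin θ * (b * av D)) := by
    have hav0 : 0 ≤ av D := by
      refine le_trans ?_ A1
      apply div_nonneg (by linarith) (by positivity)
    rcases le_or_gt θ 0 with h | h
    · have h1 : Real.sin θ ≤ 0 := by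
        apply Real.sin_nonpos_of_nonpos_of_neg_pi_le h
        linarith [hθlow z]
      have h2 : 0 ≤ -(Real.sin θ * (b * av D)) := by
        have : Real.sin θ * (b * av D) ≤ 0 :=
          mul_nonpos_of_nonpos_of_nonneg h1 (by positivity)
        linarith
      have : 0 ≤ b ^ 2 * κ0 / (32 * s ^ 2) := by positivity
      linarith
    · set x := uu K z - u1 with hx
      have hx0 : 0 < x := by
        by_contra hc
        push Not at hc
        have h2 : b * x ≤ 0 := mul_nonpos_of_nonneg_of_nonpos hb.le hc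
        rw [← hθ] at h2
        exact absurd h (not_lt.2 h2)
      have h1 : Real.sin θ ≤ b * x := by
        rw [← hθ]; exact Real.sin_le h.le
      have h2 : av D ≤ 2 * K / s ^ 4 := by
        refine A2.trans ?_
        apply div_le_div_of_nonneg_right _ (by positivity)
        linarith
      -- K / s² = exp(-2 AA) exp (-2 x)
      have h3 : K / s ^ 2 = κ0 / 64 * Real.exp (-(2 * x)) := by
        have e1 : s ^ 2 = Real.exp (2 * uu K z) := by
          rw [← hv]; unfold uu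
          rw [← mul_assoc]; norm_num
          rw [Real.exp_log (by linarith)]
        have e3 : Real.exp (2 * uu K z) = Real.exp (2 * x) * (Real.exp (2 * AA) * K) := by
          have e4 : 2 * uu K z = 2 * x + (2 * AA + Real.log K) := by rw [hx, hu1]; ring
          rw [e4, Real.exp_add, Real.exp_add, Real.exp_log (by linarith)]
        rw [e1, e3, ← hexpA, Real.exp_neg, Real.exp_neg]
        have := Real.exp_pos (2 * x)
        have := Real.exp_pos (2 * AA)
        field_simp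
      have h4 : x * Real.exp (-(2 * x)) ≤ 1 := by
        rw [Real.exp_neg]
        rw [← div_eq_mul_inv, div_le_one (Real.exp_pos _)]
        have := Real.add_one_le_exp (2 * x)
        linarith
      have h5 : Real.sin θ * (b * av D) ≤ b ^ 2 * κ0 / (32 * s ^ 2) := by
        calc Real.sin θ * (b * av D) ≤ (b * x) * (b * (2 * K / s ^ 4)) := by
              apply mul_le_mul h1 (mul_le_mul_of_nonneg_left h2 hb.le) (by positivity) (by positivity)
          _ = 2 * b ^ 2 / s ^ 2 * (x * (K / s ^ 2)) := by field_simp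
          _ = 2 * b ^ 2 / s ^ 2 * (κ0 / 64) * (x * Real.exp (-(2 * x))) := by rw [h3]; ring
          _ ≤ 2 * b ^ 2 / s ^ 2 * (κ0 / 64) * 1 := mul_le_mul_of_nonneg_left h4 (by positivity)
          _ = _ := by field_simp; norm_num
      linarith
  have hsq : -(b ^ 2 * P / 2 * (nsq z / s ^ 4 + 52 / s ^ 3)) +
      b ^ 2 * κ0 / 2 * (nsq z / s ^ 4 - 50 / s ^ 3) ≤
      -(Real.cos θ * (b ^ 2 * av (fun w => D w ^ 2) / 2)) := by
    have h1 : Real.cos θ = P - κ0 := by rw [hPz]; ring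
    rw [h1]
    have h2 : b ^ 2 * P / 2 * av (fun w => D w ^ 2) ≤
        b ^ 2 * P / 2 * (nsq z / s ^ 4 + 52 / s ^ 3) :=
      mul_le_mul_of_nonneg_left B2 (by positivity)
    have h3 : b ^ 2 * κ0 / 2 * (nsq z / s ^ 4 - 50 / s ^ 3) ≤
        b ^ 2 * κ0 / 2 * av (fun w => D w ^ 2) :=
      mul_le_mul_of_nonneg_left B1 (by positivity)
    linarith only [h2, h3]
  have hcub : 2 * b ^ 3 * av (fun w => |D w| ^ 3) ≤ 540 * b ^ 2 / s ^ 3 := by
    have hb3 : b ^ 3 ≤ b ^ 2 := pow_le_pow_of_le_one hb.le hb1 (by norm_num)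
    calc _ ≤ 2 * b ^ 2 * (270 / s ^ 3) := by
          apply mul_le_mul (by linarith) X3 _ (by positivity)
          rw [← av_const 0]
          exact av_mono fun e e' => by positivity
      _ = _ := by ring
  -- (L1)
  have L1 : P - b ^ 2 * P / 2 * (nsq z / s ^ 4 + 52 / s ^ 3) +
      b ^ 2 * κ0 / 2 * (nsq z / s ^ 4 - 50 / s ^ 3) - b ^ 2 * κ0 / (32 * s ^ 2) -
      540 * b ^ 2 / s ^ 3 ≤ Q ψ z := by
    rw [hPz]
    rw [hPz] at hsq
    linarith only [hQψ, M2, hsinterm, hsq, hcub]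
  have hQadd : Q (fun y => ψ y + g0 * H y * ψ y) z = Q ψ z + g0 * Q (fun y => H y * ψ y) z := by
    rw [Q_add]
    congr 1
    rw [← Q_mul_left]
    congr 1
    funext y
    ring
  rw [hQadd]
  have hs4 : nsq z / s ^ 4 = (nsq z / s ^ 2) / s ^ 2 := by field_simp
  have hx1 : nsq z / s ^ 2 ≤ 1 := by rw [div_le_one (by positivity)]; linarith
  have hx0 : 0 ≤ nsq z / s ^ 2 := by positivity
  have hi : 0 < 1 / s := by positivity
  have hi100 : 1 / s ≤ 1 / 100 := one_div_le_one_div_of_le (by norm_num) hs100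
  have hg0low : b ^ 2 / 2 ≤ g0 := by
    rw [hg0d, div_le_div_iff₀ (by norm_num) (by linarith)]
    nlinarith only [mul_nonneg (sq_nonneg b) hη.le]
  rcases le_or_gt (nsq z) R1 with hnear | hfar
  · -- near the origin
    have hKR : R1 ≤ K := by
      have h9 : R1 ≤ S0 := by linarith only [hS0, hκi, hηi, hci]
      rw [hK]
      nlinarith only [h9, hS0b]
    have h1 : g0 * Q (fun y => H y * ψ y) z ≥ b ^ 2 / 2 * (c1 * (1 / 2)) := by
      have h2 : c1 * (1 / 2) ≤ Q (fun y => H y * ψ y) z := by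
        rw [Q_eq_av, ← av_const (c1 * (1 / 2))]
        apply av_mono
        intro e e'
        have hw := isD e e'
        have g1 := (hLB K (by linarith) z _ hw).2 hnear
        have g2 : K + nsq (z + (stp e - stp e')) ≤ 4 * K := by
          rw [nsq_add]
          have := (abs_le.1 (abs_mm_le hw (by linarith : 1 ≤ s) (by linarith : nsq z ≤ s ^ 2))).2
          have g3 : 8 * s ≤ s ^ 2 := by nlinarith only [hs100]
          linarith only [g3, this, hv, hnear, hKR]
        exact mul_le_mul g1 (hgood _ g2).1 (by norm_num) (hHp _).le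
      exact mul_le_mul hg0low h2 (by positivity) hg0.le
    have h3 : 600 / s ^ 2 + R1 / s ^ 4 ≤ c1 / 8 := by
      have h4 : R1 / s ^ 4 ≤ 1 / s ^ 2 := by
        rw [div_le_div_iff₀ (by positivity) (by positivity)]
        have : s ^ 4 = s ^ 2 * s ^ 2 := by ring
        rw [this]
        have h9 : R1 ≤ s ^ 2 := by linarith only [hv, hKR, hr]
        have := mul_le_mul_of_nonneg_right h9 (sq_nonneg s)
        linarith only [this]
      have h5 : 601 / s ^ 2 ≤ c1 / 8 := by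
        rw [div_le_div_iff₀ (by positivity) (by norm_num)]
        have h6 : 5000 / c1 ≤ s := by linarith only [hS0, hκi, hηi, hci, hsS, hR1]
        rw [div_le_iff₀ hc1] at h6
        have h7 : s ≤ s ^ 2 := by nlinarith only [hs100]
        have h10 := mul_le_mul_of_nonneg_right h7 hc1.le
        linarith only [h6, h10]
      have h8 : 601 / s ^ 2 = 600 / s ^ 2 + 1 / s ^ 2 := by ring
      linarith only [h4, h5, h8]
    have h4 : 2 / M0 * P ≤ b ^ 2 * c1 / 8 := by
      have h5 : 20 / (c1 * b ^ 2) ≤ M0 := by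
        refine le_trans ?_ hM0
        have h6 : 1 ≤ Real.exp (Real.pi * (1 + κ0) / b) := Real.one_le_exp (by positivity)
        rw [show 20 / (c1 * b ^ 2) = 20 / c1 / b ^ 2 by field_simp]
        apply div_le_div_of_nonneg_right _ (by positivity)
        have h7 : 0 ≤ 40 * Real.exp (2 * u1) / κ0 := by positivity
        have h8 : 0 < 20 / c1 := by positivity
        calc 20 / c1 = 20 / c1 * 1 := by ring
          _ ≤ (40 * Real.exp (2 * u1) / κ0 + 20 / c1) * Real.exp (Real.pi * (1 + κ0) / b) :=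
            mul_le_mul (by linarith only [h7]) h6 (by norm_num) (by positivity)
      rw [div_mul_eq_mul_div, div_le_iff₀ hM0p]
      rw [div_le_iff₀ (by positivity)] at h5
      linarith only [h5, hP54]
    have h5 : b ^ 2 * P / 2 * (nsq z / s ^ 4 + 52 / s ^ 3) ≤ b ^ 2 * (R1 / s ^ 4 + 33 / s ^ 3) := by
      have g1 : nsq z / s ^ 4 ≤ R1 / s ^ 4 := div_le_div_of_nonneg_right hnear (by positivity)
      calc b ^ 2 * P / 2 * (nsq z / s ^ 4 + 52 / s ^ 3) ≤
            b ^ 2 * (5 / 8) * (R1 / s ^ 4 + 52 / s ^ 3) := by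
            apply mul_le_mul _ (by linarith only [g1]) (by positivity) (by positivity)
            have := mul_le_mul_of_nonneg_left hP54 (sq_nonneg b)
            linarith only [this]
        _ ≤ _ := by
            have g2 : 0 ≤ R1 / s ^ 4 := by positivity
            have g3 : 0 ≤ 1 / s ^ 3 := by positivity
            have g4 : 52 / s ^ 3 = 52 * (1 / s ^ 3) := by ring
            have g5 : 33 / s ^ 3 = 33 * (1 / s ^ 3) := by ring
            rw [g4, g5, mul_assoc]
            apply mul_le_mul_of_nonneg_left _ (sq_nonneg b)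
            linarith only [g2, g3]
    have h6 : 580 / s ^ 3 ≤ 599 / s ^ 2 := by
      rw [div_le_div_iff₀ (by positivity) (by positivity)]
      have : s ^ 3 = s ^ 2 * s := by ring
      rw [this]
      have h20 : 0 < s ^ 2 := by positivity
      have h21 := mul_le_mul_of_nonneg_left hs100 h20.le
      linarith only [h20, h21]
    have h7 : b ^ 2 * κ0 / 2 * (50 / s ^ 3) ≤ b ^ 2 * (7 / s ^ 3) := by
      have g3 : 0 ≤ b ^ 2 * (1 / s ^ 3) := by positivity
      calc b ^ 2 * κ0 / 2 * (50 / s ^ 3) = (25 * κ0) * (b ^ 2 * (1 / s ^ 3)) := by ring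
        _ ≤ 7 * (b ^ 2 * (1 / s ^ 3)) := mul_le_mul_of_nonneg_right (by linarith only [hκ1]) g3
        _ = _ := by ring
    have h8 : b ^ 2 * κ0 / (32 * s ^ 2) ≤ b ^ 2 * (1 / s ^ 2) := by
      have g3 : 0 ≤ b ^ 2 * (1 / s ^ 2) := by positivity
      calc b ^ 2 * κ0 / (32 * s ^ 2) = (κ0 / 32) * (b ^ 2 * (1 / s ^ 2)) := by field_simp
        _ ≤ 1 * (b ^ 2 * (1 / s ^ 2)) := mul_le_mul_of_nonneg_right (by linarith only [hκ1]) g3
        _ = _ := one_mul _
    have h9 : 0 ≤ b ^ 2 * κ0 / 2 * (nsq z / s ^ 4) := by positivity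
    have h10 := mul_le_mul_of_nonneg_left h3 (sq_nonneg b)
    have h11 := mul_le_mul_of_nonneg_left h6 (sq_nonneg b)
    have h12 : b ^ 2 * (580 / s ^ 3) = b ^ 2 * (33 / s ^ 3) + b ^ 2 * (7 / s ^ 3) +
        540 * b ^ 2 / s ^ 3 := by ring
    have h13 : b ^ 2 * (600 / s ^ 2 + R1 / s ^ 4) = b ^ 2 * (599 / s ^ 2) + b ^ 2 * (1 / s ^ 2) +
        b ^ 2 * (R1 / s ^ 4) := by ring
    have h14 : b ^ 2 * (R1 / s ^ 4 + 33 / s ^ 3) = b ^ 2 * (R1 / s ^ 4) + b ^ 2 * (33 / s ^ 3) := by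
      ring
    have h15 : b ^ 2 * κ0 / 2 * (nsq z / s ^ 4 - 50 / s ^ 3) = b ^ 2 * κ0 / 2 * (nsq z / s ^ 4) -
      b ^ 2 * κ0 / 2 * (50 / s ^ 3) := by ring
    rw [h15] at L1
    have h16 : (1 + 2 / M0) * P = P + 2 / M0 * P := by ring
    rw [h16]
    linarith only [L1, h1, h4, h5, h7, h8, h9, h10, h11, h12, h13, h14]
  · -- far
    have hE : b ^ 2 * P / 2 * (nsq z / s ^ 4 + 52 / s ^ 3) -
      b ^ 2 * κ0 / 2 * (nsq z / s ^ 4 - 50 / s ^ 3) + b ^ 2 * κ0 / (32 * s ^ 2) +
      540 * b ^ 2 / s ^ 3 ≤ 8 * b ^ 2 / s ^ 2 := by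
      have e1 : b ^ 2 * P / 2 * (nsq z / s ^ 4 + 52 / s ^ 3) -
        b ^ 2 * κ0 / 2 * (nsq z / s ^ 4 - 50 / s ^ 3) + b ^ 2 * κ0 / (32 * s ^ 2) +
        540 * b ^ 2 / s ^ 3 = b ^ 2 / s ^ 2 * (P / 2 * (nsq z / s ^ 2 + 52 * (1 / s)) -
          κ0 / 2 * (nsq z / s ^ 2 - 50 * (1 / s)) + κ0 / 32 + 540 * (1 / s)) := by
        field_simp
      have e3 : 8 * b ^ 2 / s ^ 2 = b ^ 2 / s ^ 2 * 8 := by ring
      rw [e1, e3]
      apply mul_le_mul_of_nonneg_left _ (by positivity)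
      have e4 : P / 2 * (nsq z / s ^ 2 + 52 * (1 / s)) ≤ 5 / 8 * (1 + 52 * (1 / 100)) := by
        apply mul_le_mul (by linarith only [hP54]) (by linarith only [hx1, hi100]) (by positivity) (by norm_num)
      have e5 : 0 ≤ κ0 / 2 * (nsq z / s ^ 2) := by positivity
      have e6 : κ0 / 2 * (50 * (1 / s)) ≤ 1 / 8 * (50 * (1 / 100)) := by
        apply mul_le_mul (by linarith only [hκ1]) (by linarith only [hi100]) (by positivity) (by norm_num)
      have e7 : κ0 / 2 * (nsq z / s ^ 2 - 50 * (1 / s)) = κ0 / 2 * (nsq z / s ^ 2) -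
        κ0 / 2 * (50 * (1 / s)) := by ring
      rw [e7]
      linarith only [e4, e5, e6, hi100, hκ1]
    have hQψ2 : P - 8 * b ^ 2 / s ^ 2 ≤ Q ψ z := by linarith only [L1, hE]
    have hQH : (1 - η / 2) / s ^ 2 * Q ψ z ≤ Q (fun y => H y * ψ y) z := by
      rw [← Q_mul_left, Q_eq_av, Q_eq_av]
      apply av_mono
      intro e e'
      have g1 := (hLB K (by linarith) z _ (isD e e')).1 hfar.le
      rw [hv] at g1
      exact mul_le_mul_of_nonneg_right g1 (hψ0 _)
    have h1 : g0 * ((1 - η / 2) / s ^ 2 * Q ψ z) ≤ g0 * Q (fun y => H y * ψ y) z :=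
      mul_le_mul_of_nonneg_left hQH hg0.le
    set G := g0 * ((1 - η / 2) / s ^ 2) with hG
    have hG1 : b ^ 2 / 2 * (1 + η / 2) / s ^ 2 ≤ G := by
      have : G = g0 * (1 - η / 2) / s ^ 2 := by rw [hG]; ring
      rw [this]
      apply div_le_div_of_nonneg_right _ (by positivity)
      rw [hg0d, div_mul_eq_mul_div, div_mul_eq_mul_div,
        div_le_div_iff₀ (by norm_num) (by linarith)]
      have h20 := mul_nonneg (sq_nonneg b) (sq_nonneg η)
      linarith only [h20]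
    have hG2 : G ≤ 3 / 4 * b ^ 2 / s ^ 2 := by
      have : G = g0 * (1 - η / 2) / s ^ 2 := by rw [hG]; ring
      rw [this]
      apply div_le_div_of_nonneg_right _ (by positivity)
      rw [hg0d, div_mul_eq_mul_div,
        div_le_iff₀ (by linarith)]
      have h20 := mul_le_mul_of_nonneg_left hη1 (sq_nonneg b)
      linarith only [h20]
    have hG0 : 0 ≤ G := le_trans (by positivity) hG1
    have h2 : G * (P - 8 * b ^ 2 / s ^ 2) ≤ g0 * Q (fun y => H y * ψ y) z := by
      have g1 : G * Q ψ z = g0 * ((1 - η / 2) / s ^ 2 * Q ψ z) := by rw [hG]; ring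
      calc G * (P - 8 * b ^ 2 / s ^ 2) ≤ G * Q ψ z := mul_le_mul_of_nonneg_left hQψ2 hG0
        _ = _ := g1
        _ ≤ _ := h1
    have h3 : b ^ 2 / 2 * (1 + η / 2) / s ^ 2 * P - 3 / 4 * b ^ 2 / s ^ 2 * (8 * b ^ 2 / s ^ 2) ≤
        G * (P - 8 * b ^ 2 / s ^ 2) := by
      have g1 := mul_le_mul_of_nonneg_right hG1 hz0.le
      have g2 : G * (8 * b ^ 2 / s ^ 2) ≤ 3 / 4 * b ^ 2 / s ^ 2 * (8 * b ^ 2 / s ^ 2) :=
        mul_le_mul_of_nonneg_right hG2 (by positivity)
      linarith only [g1, g2]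
    have hbr := bracketFar (P := P) hκ hκ1 hη hη1 (by linarith : 3520 / κ0 ≤ s)
      (by linarith : 104 / η ≤ s) hr (by linarith : nsq z ≤ s ^ 2) hz0.le hb.le hb1 (by
        intro hlt
        rw [hP]
        exact (hgood z (by linarith only [hlt, hv, hK1])).1)
    have hbr2 := mul_le_mul_of_nonneg_left hbr (by positivity : 0 ≤ b ^ 2 / (2 * s ^ 2))
    have hid : b ^ 2 / (2 * s ^ 2) * (P * ((1 + η / 2) - nsq z / s ^ 2 - 52 / s) +
        κ0 * (nsq z / s ^ 2 - 50 / s) - κ0 / 16 - 1080 / s - 12 * b ^ 2 / s ^ 2) =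
        - b ^ 2 * P / 2 * (nsq z / s ^ 4 + 52 / s ^ 3) +
      b ^ 2 * κ0 / 2 * (nsq z / s ^ 4 - 50 / s ^ 3) - b ^ 2 * κ0 / (32 * s ^ 2) -
      540 * b ^ 2 / s ^ 3 +
      (b ^ 2 / 2 * (1 + η / 2) / s ^ 2 * P - 3 / 4 * b ^ 2 / s ^ 2 * (8 * b ^ 2 / s ^ 2)) := by
      field_simp
      ring
    have h4 : 2 / M0 * P ≤ b ^ 2 / (2 * s ^ 2) * (κ0 / 8) := by
      have g1 : s ^ 2 ≤ Real.exp (2 * u1) * Real.exp (Real.pi * (1 + κ0) / b) := by
        have e1 : s ^ 2 = Real.exp (2 * uu K z) := by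
          rw [← hv]; unfold uu
          rw [← mul_assoc]; norm_num
          rw [Real.exp_log (by linarith)]
        rw [e1, ← Real.exp_add]
        apply Real.exp_le_exp.2
        have g2 : uu K z - u1 ≤ Real.pi / 2 * (1 + κ0) / b := by
          rw [le_div_iff₀ hb]
          have : (uu K z - u1) * b = θ := by rw [hθ]; ring
          rw [this]; exact hθup.le
        have g3 : Real.pi * (1 + κ0) / b = 2 * (Real.pi / 2 * (1 + κ0) / b) := by ring
        rw [g3]; linarith only [g2]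
      have g2 : 40 * s ^ 2 / (κ0 * b ^ 2) ≤ M0 := by
        refine le_trans ?_ hM0
        rw [show 40 * s ^ 2 / (κ0 * b ^ 2) = 40 * s ^ 2 / κ0 / b ^ 2 by field_simp]
        apply div_le_div_of_nonneg_right _ (by positivity)
        have g3 : 40 * s ^ 2 / κ0 ≤ 40 * (Real.exp (2 * u1) * Real.exp (Real.pi * (1 + κ0) / b)) / κ0 :=
          div_le_div_of_nonneg_right (by linarith only [g1]) hκ.le
        have g4 : 0 ≤ 20 / c1 * Real.exp (Real.pi * (1 + κ0) / b) := by positivity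
        have g5 : (40 * Real.exp (2 * u1) / κ0 + 20 / c1) * Real.exp (Real.pi * (1 + κ0) / b) =
          40 * (Real.exp (2 * u1) * Real.exp (Real.pi * (1 + κ0) / b)) / κ0 +
            20 / c1 * Real.exp (Real.pi * (1 + κ0) / b) := by ring
        rw [g5]; linarith only [g3, g4]
      rw [div_le_iff₀ (by positivity)] at g2
      rw [div_mul_eq_mul_div, div_le_iff₀ hM0p,
        show b ^ 2 / (2 * s ^ 2) * (κ0 / 8) * M0 = M0 * (κ0 * b ^ 2) / (16 * s ^ 2) by field_simp; ring,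
        le_div_iff₀ (by positivity)]
      have h20 := mul_le_mul_of_nonneg_right hP54 (sq_nonneg s)
      linarith only [h20, g2]
    have h16 : (1 + 2 / M0) * P = P + 2 / M0 * P := by ring
    rw [h16]
    linarith only [L1, h2, h3, hbr2, hid, h4]

end Pool.Agent.Helper97.CP
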