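import Pool.Agent.Helper97.CP2.Ch3
import Pool.Agent.Helper97.CP2.Ker
import Pool.Agent.Helper97.CP2.Sub

set_option autoImplicit false

open MeasureTheory ProbabilityTheory Filter Finset

namespace Pool.Agent.Helper97.CP

theorem Qn_succ' (k : ℕ) (f : Z2 → ℝ) (z : Z2) : Qn (k + 1) f z = Qn k (Q f) z := by
  show Q (Qn k f) z = _
  rw [Q_Qn]

/-- sum over times -/
noncomputable def Tq (M : ℕ) (f : Z2 → ℝ) (z : Z2) : ℝ := ∑ k ∈ Icc 1 M, Qn k f z

theorem Tq_mono {M : ℕ} {f g : Z2 → ℝ} (h : ∀ y, f y ≤ g y) (z : Z2) : Tq M f z ≤ Tq M g z :=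
  Finset.sum_le_sum fun _ _ => Qn_mono h z

theorem Tq_add (M : ℕ) (f g : Z2 → ℝ) (z : Z2) :
    Tq M (fun y => f y + g y) z = Tq M f z + Tq M g z := by
  unfold Tq
  rw [← Finset.sum_add_distrib]
  exact Finset.sum_congr rfl fun k _ => Qn_add k f g z

theorem Tq_sub (M : ℕ) (f g : Z2 → ℝ) (z : Z2) :
    Tq M (fun y => f y - g y) z = Tq M f z - Tq M g z := by
  unfold Tq
  rw [← Finset.sum_sub_distrib]
  exact Finset.sum_congr rfl fun k _ => Qn_sub k f g z

theorem Tq_mul_left (M : ℕ) (c : ℝ) (f : Z2 → ℝ) (z : Z2) :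
    Tq M (fun y => c * f y) z = c * Tq M f z := by
  unfold Tq
  rw [Finset.mul_sum]
  exact Finset.sum_congr rfl fun k _ => Qn_mul_left k c f z

theorem Tq_const (M : ℕ) (c : ℝ) (z : Z2) : Tq M (fun _ => c) z = M * c := by
  unfold Tq
  simp only [Qn_const, Finset.sum_const, Nat.card_Icc, nsmul_eq_mul]
  simp

theorem Tq_nonneg {M : ℕ} {f : Z2 → ℝ} (h : ∀ y, 0 ≤ f y) (z : Z2) : 0 ≤ Tq M f z :=
  Finset.sum_nonneg fun _ _ => Qn_nonneg h z

theorem Tq_sum {ι : Type*} (M : ℕ) (t : Finset ι) (f : ι → Z2 → ℝ) (z : Z2) :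
    Tq M (fun y => ∑ i ∈ t, f i y) z = ∑ i ∈ t, Tq M (f i) z := by
  classical
  induction t using Finset.induction_on with
  | empty => simp only [Finset.sum_empty, Tq_const, mul_zero]
  | insert a t ha ih =>
    simp only [Finset.sum_insert ha]
    rw [Tq_add, ih]

theorem Tq_succ (M : ℕ) (f : Z2 → ℝ) (z : Z2) : Tq (M + 1) f z = Q f z + Q (Tq M f) z := by
  unfold Tq
  rw [show (fun z => ∑ k ∈ Icc 1 M, Qn k f z) = fun z => ∑ k ∈ Icc 1 M, Qn k f z from rfl, Q_sum,
    sum_Icc_range, sum_Icc_range, Finset.sum_range_succ', add_comm]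
  rfl

theorem Tq_succ' (M : ℕ) (f : Z2 → ℝ) (z : Z2) : Tq (M + 1) f z = Tq M f z + Qn (M + 1) f z := by
  unfold Tq
  rw [Finset.sum_Icc_succ_top (by omega)]

theorem up_sum {φ H : Z2 → ℝ} {a g : ℝ} (ha : 1 ≤ a) (hg : 0 < g) (hH : ∀ z, 0 ≤ H z)
    (hφ : ∀ z, 0 ≤ φ z) (hsol : ∀ z, Q (fun y => φ y + g * H y * φ y) z ≤ a * φ z)
    (M : ℕ) (z : Z2) :
    Tq M (fun y => H y * φ y) z ≤ a ^ M / g * φ z := by
  have key : ∀ k z, Qn k φ z + g * Tq k (fun y => H y * φ y) z ≤ a ^ k * φ z := by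
    intro k
    induction k with
    | zero => intro z; simp [Qn, Tq]
    | succ k ih =>
      intro z
      have h1 : Q (fun y => Qn k φ y + g * Tq k (fun y => H y * φ y) y) z ≤
          Q (fun y => a ^ k * φ y) z := Q_mono ih z
      rw [Q_add, Q_mul_left, Q_mul_left] at h1
      rw [Tq_succ]
      have h3 : Q φ z + g * Q (fun y => H y * φ y) z ≤ a * φ z := by
        have h4 := hsol z
        rw [Q_add] at h4
        have h5 : Q (fun y => g * H y * φ y) z = g * Q (fun y => H y * φ y) z := by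
          rw [← Q_mul_left]
          congr 1
          funext y; ring
        rwa [h5] at h4
      have h6 : 1 ≤ a ^ k := one_le_pow₀ ha
      show Q (Qn k φ) z + _ ≤ _
      have h7 := mul_le_mul_of_nonneg_left h3 (by positivity : 0 ≤ a ^ k)
      have h8 : 0 ≤ g * Q (fun y => H y * φ y) z := by
        apply mul_nonneg hg.le
        have := Q_mono (f := fun _ => 0) (g := fun y => H y * φ y)
          (fun y => mul_nonneg (hH y) (hφ y)) z
        rwa [Q_const] at this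
      have h9 := mul_le_mul_of_nonneg_right h6 h8
      rw [pow_succ]
      linarith
  have h1 := key M z
  have h2 : 0 ≤ Qn M φ z := Qn_nonneg hφ z
  rw [div_mul_eq_mul_div, le_div_iff₀ hg]
  linarith

theorem low_sum {ψ H : Z2 → ℝ} {t g : ℝ} (ht : 0 ≤ t) (hg : 0 < g) (hH : ∀ z, 0 ≤ H z)
    (hψ : ∀ z, 0 ≤ ψ z ∧ ψ z ≤ 2) (hsol : ∀ z, (1 + t) * ψ z ≤ Q (fun y => ψ y + g * H y * ψ y) z)
    (M : ℕ) (z : Z2) :
    1 / g * (ψ z - 2 * (1 / (1 + t)) ^ M) ≤ Tq M (fun y => H y * ψ y) z := by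
  set r := 1 / (1 + t) with hr
  have hr0 : 0 < r := by positivity
  have hr1 : r ≤ 1 := by rw [hr, div_le_one (by positivity)]; linarith
  have hstep : ∀ z, ψ z ≤ r * (Q ψ z + g * Q (fun y => H y * ψ y) z) := by
    intro z
    have h4 := hsol z
    rw [Q_add] at h4
    have h5 : Q (fun y => g * H y * ψ y) z = g * Q (fun y => H y * ψ y) z := by
      rw [← Q_mul_left]
      congr 1
      funext y; ring
    rw [h5] at h4
    rw [hr, one_div, inv_mul_eq_div, le_div_iff₀ (by positivity)]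
    linarith
  have hHψ : ∀ y, 0 ≤ H y * ψ y := fun y => mul_nonneg (hH y) (hψ y).1
  have key : ∀ k, ψ z ≤ r ^ k * Qn k ψ z + g * Tq k (fun y => H y * ψ y) z := by
    intro k
    induction k with
    | zero => simp [Qn, Tq]
    | succ k ih =>
      have h1 : Qn k ψ z ≤ r * (Qn (k + 1) ψ z + g * Qn (k + 1) (fun y => H y * ψ y) z) := by
        rw [Qn_succ', Qn_succ', ← Qn_mul_left k g, ← Qn_add, ← Qn_mul_left]
        exact Qn_mono hstep z
      rw [Tq_succ', mul_add]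
      have h2 : 0 ≤ Qn (k + 1) (fun y => H y * ψ y) z := Qn_nonneg hHψ z
      have h3 := mul_le_mul_of_nonneg_left h1 (by positivity : 0 ≤ r ^ k)
      have h4 : r ^ (k + 1) ≤ 1 := pow_le_one₀ hr0.le hr1
      have h5 : r ^ (k + 1) * (g * Qn (k + 1) (fun y => H y * ψ y) z) ≤
          1 * (g * Qn (k + 1) (fun y => H y * ψ y) z) :=
        mul_le_mul_of_nonneg_right h4 (by positivity)
      have e : r ^ k * (r * (Qn (k + 1) ψ z + g * Qn (k + 1) (fun y => H y * ψ y) z)) =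
          r ^ (k + 1) * Qn (k + 1) ψ z + r ^ (k + 1) * (g * Qn (k + 1) (fun y => H y * ψ y) z) := by
        rw [pow_succ]; ring
      linarith
  have h1 := key M
  have h2 : Qn M ψ z ≤ 2 := by
    have := Qn_mono (k := M) (f := ψ) (g := fun _ => 2) (fun y => (hψ y).2) z
    rwa [Qn_const] at this
  have h3 : r ^ M * Qn M ψ z ≤ r ^ M * 2 := mul_le_mul_of_nonneg_left h2 (by positivity)
  rw [one_div, inv_mul_le_iff₀ hg]
  linarith

theorem Qn_ind_le {k : ℕ} (hk : 1 ≤ k) (u z : Z2) :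
    Qn k (fun y => if y = u then (1 : ℝ) else 0) z ≤ 1 / k := by
  have h1 := A_A_diff k (fun y => if y = u then (1 : ℝ) else 0) z 0
  rw [sub_zero] at h1
  rw [← h1]
  have h2 : ∀ y, A k (fun y' => if y - y' = u then (1 : ℝ) else 0) 0 ≤ 1 / k := by
    intro y
    have h3 : (fun y' => if y - y' = u then (1 : ℝ) else 0) = fun y' => if y' = y - u then (1 : ℝ) else 0 := by
      funext y'
      congr 1
      apply propext
      constructor
      · intro h; rw [← h]; abel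
      · intro h; rw [h]; abel
    rw [h3]
    exact A_ind_le hk _ _
  calc _ ≤ A k (fun _ => (1 / k : ℝ)) z := A_mono h2
    _ = _ := A_const _ _ _

theorem sum_inv_le (M : ℕ) : ∑ k ∈ Icc 1 M, (1 / (k : ℝ)) ≤ 1 + Real.log M := by
  have h1 := harmonic_le_one_add_log M
  rw [harmonic_eq_sum_Icc] at h1
  push_cast at h1
  simpa [one_div] using h1

theorem Tq_ind_le (M : ℕ) (u z : Z2) :
    Tq M (fun y => if y = u then (1 : ℝ) else 0) z ≤ 1 + Real.log M := by
  refine le_trans ?_ (sum_inv_le M)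
  exact Finset.sum_le_sum fun k hk => Qn_ind_le (Finset.mem_Icc.1 hk).1 u z

/-- deterministic drift -/
noncomputable def Psi (M : ℕ) (β : ℝ) (h : Z2 → ℝ) : ℕ → Z2 → ℝ
  | 0, _ => 1
  | j + 1, z => Tq M (fun y => β * h y * Psi M β h j y) z

theorem Gam_succ (M : ℕ) (h : Z2 → ℝ) (j : ℕ) (z : Z2) :
    Gam M h (j + 1) z = Tq M (fun y => |h y| * Gam M h j y) z := rfl

theorem Gam_nonneg (M : ℕ) (h : Z2 → ℝ) (j : ℕ) (z : Z2) : 0 ≤ Gam M h j z := by
  induction j generalizing z with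
  | zero => exact zero_le_one
  | succ j ih =>
    rw [Gam_succ]
    exact Tq_nonneg (fun y => mul_nonneg (abs_nonneg _) (ih y)) z

theorem abs_Tq_le (M : ℕ) (f : Z2 → ℝ) (z : Z2) : |Tq M f z| ≤ Tq M (fun y => |f y|) z := by
  rw [abs_le]
  constructor
  · have := Tq_mono (M := M) (f := fun y => (-1) * |f y|) (g := f) (fun y => by
      linarith [neg_abs_le (f y)]) z
    rw [Tq_mul_left] at this
    linarith
  · exact Tq_mono (fun y => le_abs_self _) z

theorem abs_Psi_le (M : ℕ) {β : ℝ} (hβ : 0 ≤ β) (h : Z2 → ℝ) (j : ℕ) (z : Z2) :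
    |Psi M β h j z| ≤ β ^ j * Gam M h j z := by
  induction j generalizing z with
  | zero => simp [Psi, Gam]
  | succ j ih =>
    show |Tq M (fun y => β * h y * Psi M β h j y) z| ≤ _
    refine (abs_Tq_le _ _ _).trans ?_
    rw [Gam_succ, ← Tq_mul_left]
    apply Tq_mono
    intro y
    rw [abs_mul, abs_mul, abs_of_nonneg hβ]
    calc β * |h y| * |Psi M β h j y| ≤ β * |h y| * (β ^ j * Gam M h j y) :=
          mul_le_mul_of_nonneg_left (ih y) (by positivity)
      _ = _ := by rw [pow_succ]; ring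

theorem Gam_le {M : ℕ} {h φ Hm : Z2 → ℝ} {c lp : ℝ} (hc : 0 < c) (hφ : ∀ z, c ≤ φ z ∧ φ z ≤ 1)
    (hh : ∀ z, |h z| ≤ Hm z) (hl : 0 ≤ lp) (hup : ∀ z, Tq M (fun y => Hm y * φ y) z ≤ lp * φ z)
    (j : ℕ) (z : Z2) : Gam M h j z ≤ lp ^ j * (φ z / c) := by
  induction j generalizing z with
  | zero =>
    show (1 : ℝ) ≤ _
    rw [pow_zero, one_mul, le_div_iff₀ hc]
    linarith [(hφ z).1]
  | succ j ih =>
    rw [Gam_succ]
    calc Tq M (fun y => |h y| * Gam M h j y) z ≤ Tq M (fun y => (lp ^ j / c) * (Hm y * φ y)) z := by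
          apply Tq_mono
          intro y
          have h1 : |h y| * Gam M h j y ≤ Hm y * (lp ^ j * (φ y / c)) :=
            mul_le_mul (hh y) (ih y) (Gam_nonneg _ _ _ _) ((abs_nonneg _).trans (hh y))
          refine h1.trans (le_of_eq ?_)
          ring
      _ = (lp ^ j / c) * Tq M (fun y => Hm y * φ y) z := Tq_mul_left _ _ _ _
      _ ≤ (lp ^ j / c) * (lp * φ z) := mul_le_mul_of_nonneg_left (hup z) (by positivity)
      _ = _ := by rw [pow_succ]; ring

theorem Psi_low {M : ℕ} {β : ℝ} {h φ ψ Hm nr : Z2 → ℝ} {c lp lm τ Nn : ℝ} (hβ : 0 < β) (hc : 0 < c)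
    (hφ : ∀ z, c ≤ φ z ∧ φ z ≤ 1) (hψ : ∀ z, 0 ≤ ψ z ∧ ψ z ≤ 2)
    (hh : ∀ z, |h z| ≤ Hm z) (hnr : ∀ z, |h z - Hm z| ≤ 2 * nr z)
    (hlm : 0 < lm) (hl : lm ≤ lp) (hup : ∀ z, Tq M (fun y => Hm y * φ y) z ≤ lp * φ z)
    (hlow : ∀ z, lm * (ψ z - τ) ≤ Tq M (fun y => Hm y * ψ y) z) (hτ : 0 ≤ τ)
    (hN : ∀ z, Tq M nr z ≤ Nn) (hN0 : 0 ≤ Nn) (j : ℕ) (z : Z2) :
    1 / 2 * (β * lm) ^ j * (ψ z - j * (lp / lm) ^ j * ((τ + 4 * Nn / (lm * c)) / c) * φ z) ≤
      Psi M β h j z := by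
  have hlp : 0 < lp := lt_of_lt_of_le hlm hl
  set r := lp / lm with hr
  have hr1 : 1 ≤ r := by rw [hr, le_div_iff₀ hlm]; linarith
  set E0 := (τ + 4 * Nn / (lm * c)) / c with hE0
  have hE00 : 0 ≤ E0 := by positivity
  induction j generalizing z with
  | zero =>
    show _ ≤ (1 : ℝ)
    simp only [pow_zero, Nat.cast_zero, zero_mul, sub_zero]
    linarith [(hψ z).2]
  | succ j ih =>
    show _ ≤ Tq M (fun y => β * h y * Psi M β h j y) z
    set μ := 1 / 2 * (β * lm) ^ j with hμ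
    have hμ0 : 0 < μ := by positivity
    set θ := j * r ^ j * E0 with hθ
    have hθ0 : 0 ≤ θ := by positivity
    have hPs : ∀ y, |Psi M β h j y| ≤ (β * lp) ^ j / c := by
      intro y
      refine (abs_Psi_le M hβ.le h j y).trans ?_
      have h1 := Gam_le hc hφ hh hlp.le hup j y
      have h2 : φ y / c ≤ 1 / c := div_le_div_of_nonneg_right (hφ y).2 hc.le
      calc β ^ j * Gam M h j y ≤ β ^ j * (lp ^ j * (1 / c)) := by
            apply mul_le_mul_of_nonneg_left _ (by positivity)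
            exact h1.trans (mul_le_mul_of_nonneg_left h2 (by positivity))
        _ = _ := by rw [mul_pow]; ring
    have hpt : ∀ y, β * (μ * (Hm y * ψ y) - μ * θ * (Hm y * φ y) - 2 * ((β * lp) ^ j / c) * nr y) ≤
        β * h y * Psi M β h j y := by
      intro y
      rw [mul_assoc β]
      apply mul_le_mul_of_nonneg_left _ hβ.le
      have hH0 : 0 ≤ Hm y := (abs_nonneg _).trans (hh y)
      have h1 : Hm y * (μ * (ψ y - θ * φ y)) ≤ Hm y * Psi M β h j y :=
        mul_le_mul_of_nonneg_left (ih y) hH0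
      have h2 : |(h y - Hm y) * Psi M β h j y| ≤ 2 * nr y * ((β * lp) ^ j / c) := by
        rw [abs_mul]
        exact mul_le_mul (hnr y) (hPs y) (abs_nonneg _) ((abs_nonneg _).trans (hnr y))
      have h3 := (abs_le.1 h2).1
      have e : h y * Psi M β h j y = Hm y * Psi M β h j y + (h y - Hm y) * Psi M β h j y := by ring
      rw [e]
      have e2 : Hm y * (μ * (ψ y - θ * φ y)) = μ * (Hm y * ψ y) - μ * θ * (Hm y * φ y) := by ring
      linarith
    refine le_trans ?_ (Tq_mono hpt z)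
    rw [Tq_mul_left, Tq_sub, Tq_sub, Tq_mul_left, Tq_mul_left, Tq_mul_left]
    have k1 := mul_le_mul_of_nonneg_left (hlow z) hμ0.le
    have k2 := mul_le_mul_of_nonneg_left (hup z) (by positivity : 0 ≤ μ * θ)
    have k3 := mul_le_mul_of_nonneg_left (hN z) (by positivity : 0 ≤ 2 * ((β * lp) ^ j / c))
    have k4 : β * (μ * (lm * (ψ z - τ)) - μ * θ * (lp * φ z) - 2 * ((β * lp) ^ j / c) * Nn) ≤
        β * (μ * Tq M (fun y => Hm y * ψ y) z - μ * θ * Tq M (fun y => Hm y * φ y) z -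
          2 * ((β * lp) ^ j / c) * Tq M nr z) := by
      apply mul_le_mul_of_nonneg_left _ hβ.le
      linarith
    refine le_trans ?_ k4
    have e1 : (β * lp) ^ j = 2 * μ * r ^ j := by
      rw [hμ, hr, div_pow, mul_pow, mul_pow]
      field_simp
    have e2 : lp = r * lm := by rw [hr]; field_simp
    rw [e1]
    have e3 : β * (μ * (lm * (ψ z - τ)) - μ * θ * (lp * φ z) - 2 * (2 * μ * r ^ j / c) * Nn) =
        (β * lm * μ) * (ψ z - (τ + θ * r * φ z + r ^ j * (4 * Nn / (lm * c)))) := by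
      rw [e2]
      field_simp
      ring
    rw [e3]
    have e4 : 1 / 2 * (β * lm) ^ (j + 1) = β * lm * μ := by rw [hμ, pow_succ]; ring
    rw [e4]
    apply mul_le_mul_of_nonneg_left _ (by positivity)
    have k5 : τ + r ^ j * (4 * Nn / (lm * c)) ≤ r ^ (j + 1) * E0 * φ z := by
      have h1 : (τ + 4 * Nn / (lm * c)) ≤ E0 * φ z := by
        rw [hE0, div_mul_eq_mul_div, le_div_iff₀ hc]
        exact mul_le_mul_of_nonneg_left (hφ z).1 (by positivity)
      have h2 : 1 ≤ r ^ (j + 1) := one_le_pow₀ hr1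
      have h3 : r ^ j ≤ r ^ (j + 1) := pow_le_pow_right₀ hr1 (by omega)
      have h4 : 0 ≤ 4 * Nn / (lm * c) := by positivity
      calc τ + r ^ j * (4 * Nn / (lm * c)) ≤ r ^ (j + 1) * τ + r ^ (j + 1) * (4 * Nn / (lm * c)) := by
            have := mul_le_mul_of_nonneg_right h2 hτ
            have := mul_le_mul_of_nonneg_right h3 h4
            linarith
        _ = r ^ (j + 1) * (τ + 4 * Nn / (lm * c)) := by ring
        _ ≤ r ^ (j + 1) * (E0 * φ z) := mul_le_mul_of_nonneg_left h1 (by positivity)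
        _ = _ := by ring
    have e5 : ((j + 1 : ℕ) : ℝ) * r ^ (j + 1) * E0 * φ z = θ * r * φ z + r ^ (j + 1) * E0 * φ z := by
      rw [hθ, pow_succ]
      push_cast
      ring
    rw [e5]
    linarith

end Pool.Agent.Helper97.CP
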