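import Pool.Agent.Helper97.CP2.P2a

set_option autoImplicit false

open MeasureTheory ProbabilityTheory Filter Finset

namespace Pool.Agent.Helper97.CP

/-- modified kernel -/
noncomputable def Hm (R : ℝ) (h : Z2 → ℝ) (z : Z2) : ℝ := if R ≤ nsq z then h z else 1

/-- near sites -/
noncomputable def nr (R : ℝ) (z : Z2) : ℝ := if R ≤ nsq z then 0 else 1

theorem nr_nonneg (R : ℝ) (z : Z2) : 0 ≤ nr R z := by
  unfold nr; split_ifs <;> norm_num

theorem Hm_prop {h : Z2 → ℝ} (H : HH h) : ∃ R C : ℝ, 1 ≤ R ∧ 1 ≤ C ∧ UB (Hm R h) ∧ LB (Hm R h) ∧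
    (∀ z, |h z| ≤ Hm R h z) ∧ (∀ z, |h z - Hm R h z| ≤ 2 * nr R z) ∧
    (∀ z, Hm R h z ≤ C / (1 + nsq z)) := by
  obtain ⟨R0, hR0⟩ := H.lim (1 / 2) (by norm_num)
  set R := max R0 1 with hR
  have hR1 : 1 ≤ R := le_max_right _ _
  have hfar : ∀ z, R ≤ nsq z → 1 / 2 ≤ h z * nsq z ∧ h z * nsq z ≤ 3 / 2 ∧ 0 < h z := by
    intro z hz
    have h1 := abs_le.1 (hR0 z ((le_max_left _ _).trans hz))
    have h2 : 0 < nsq z := by linarith
    refine ⟨by linarith [h1.1], by linarith [h1.2], ?_⟩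
    by_contra hcon
    have : h z * nsq z ≤ 0 := mul_nonpos_of_nonpos_of_nonneg (not_lt.1 hcon) h2.le
    linarith [h1.1]
  have hpos : ∀ z, 0 < Hm R h z := by
    intro z
    unfold Hm
    split_ifs with hz
    · exact (hfar z hz).2.2
    · norm_num
  refine ⟨R, 3 + R, hR1, by linarith, ⟨⟨1, fun z => ⟨(hpos z).le, ?_⟩⟩, ?_⟩, ⟨hpos, ?_⟩, ?_, ?_, ?_⟩
  · unfold Hm
    split_ifs with hz
    · exact (le_abs_self _).trans (H.bd z)
    · exact le_rfl
  · intro δ hδ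
    obtain ⟨R', hR'⟩ := H.lim δ hδ
    refine ⟨max R' R, fun z hz => ?_⟩
    unfold Hm
    rw [if_pos ((le_max_right _ _).trans hz)]
    have := (abs_le.1 (hR' z ((le_max_left _ _).trans hz))).2
    linarith
  · intro δ hδ
    obtain ⟨R', hR'⟩ := H.lim δ hδ
    refine ⟨max R' R, fun z hz => ?_⟩
    unfold Hm
    rw [if_pos ((le_max_right _ _).trans hz)]
    have := (abs_le.1 (hR' z ((le_max_left _ _).trans hz))).1
    linarith
  · intro z
    unfold Hm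
    split_ifs with hz
    · rw [abs_of_pos (hfar z hz).2.2]
    · exact H.bd z
  · intro z
    unfold Hm nr
    split_ifs with hz
    · simp
    · have := abs_le.1 (H.bd z)
      rw [abs_le]
      constructor <;> linarith
  · intro z
    have hn := nsq_nonneg z
    rw [le_div_iff₀ (by linarith)]
    unfold Hm
    split_ifs with hz
    · have h1 := hfar z hz
      have h2 : h z ≤ 1 := (le_abs_self _).trans (H.bd z)
      nlinarith
    · push Not at hz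
      linarith

theorem near_sum (R : ℝ) : ∃ N0 : ℝ, 0 ≤ N0 ∧ (∀ (M : ℕ) (z : Z2), Tq M (nr R) z ≤ N0 * (1 + Real.log M)) ∧
    ∀ K : Finset Z2, ∑ u ∈ K, nr R u ≤ N0 := by
  classical
  set F := (finite_nsq R).toFinset with hF
  have hpt : ∀ z, nr R z ≤ ∑ u ∈ F, (if z = u then (1 : ℝ) else 0) := by
    intro z
    rw [Finset.sum_ite_eq]
    unfold nr
    split_ifs with h1 h2 h3
    · norm_num
    · norm_num
    · exact le_rfl
    · exfalso
      apply h3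
      rw [hF, Set.Finite.mem_toFinset]
      push Not at h1
      exact h1.le
  refine ⟨F.card, Nat.cast_nonneg _, ?_, ?_⟩
  · intro M z
    refine (Tq_mono hpt z).trans ?_
    rw [Tq_sum]
    refine (Finset.sum_le_sum fun u _ => Tq_ind_le M u z).trans ?_
    rw [Finset.sum_const, nsmul_eq_mul]
  · intro K
    refine (Finset.sum_le_sum fun u _ => hpt u).trans ?_
    rw [Finset.sum_comm]
    have h1 : ∀ u ∈ F, ∑ y ∈ K, (if y = u then (1 : ℝ) else 0) ≤ 1 := by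
      intro u _
      rw [Finset.sum_ite_eq']
      split_ifs <;> norm_num
    refine (Finset.sum_le_sum h1).trans ?_
    rw [Finset.sum_const, nsmul_eq_mul, mul_one]

theorem Hpsi_sum {M R1 : ℕ} (hR1 : 1 ≤ R1) {K : Finset Z2} (hK : bx R1 ⊆ K) {H ψ : Z2 → ℝ} {C : ℝ}
    (hC : 0 ≤ C) (hH : ∀ z, 0 ≤ H z ∧ H z ≤ C / (1 + nsq z)) (hψ : ∀ z, 0 ≤ ψ z ∧ ψ z ≤ 2) :
    Tq M (fun y => H y * ψ y) 0 ≤ (1 + Real.log M) * ∑ u ∈ K, H u * ψ u + M * (2 * C / (R1 : ℝ) ^ 2) := by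
  classical
  have hR : (0 : ℝ) < R1 := by exact_mod_cast hR1
  have hpt : ∀ y, H y * ψ y ≤ (∑ u ∈ K, (H u * ψ u) * (if y = u then (1 : ℝ) else 0)) +
      2 * C / (R1 : ℝ) ^ 2 := by
    intro y
    have h0 : 0 ≤ 2 * C / (R1 : ℝ) ^ 2 := by positivity
    simp only [mul_ite, mul_one, mul_zero]
    rw [Finset.sum_ite_eq]
    split_ifs with h1
    · linarith
    · have h2 : y ∉ bx R1 := fun h => h1 (hK h)
      have h3 := not_mem_bx h2
      rw [zero_add]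
      have h4 : H y ≤ C / (R1 : ℝ) ^ 2 := by
        refine (hH y).2.trans ?_
        apply div_le_div_of_nonneg_left hC (by positivity)
        linarith
      calc H y * ψ y ≤ C / (R1 : ℝ) ^ 2 * 2 :=
            mul_le_mul h4 (hψ y).2 (hψ y).1 (by positivity)
        _ = _ := by ring
  refine (Tq_mono hpt 0).trans ?_
  rw [Tq_add, Tq_const, Tq_sum]
  apply add_le_add _ le_rfl
  rw [Finset.mul_sum]
  apply Finset.sum_le_sum
  intro u _
  rw [Tq_mul_left, mul_comm]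
  exact mul_le_mul_of_nonneg_right (Tq_ind_le M u 0) (mul_nonneg (hH u).1 (hψ u).1)

theorem final_sum {M R1 : ℕ} (hR1 : 1 ≤ R1) (hM : 1 ≤ M) {K : Finset Z2} (hK : bx R1 ⊆ K)
    {β : ℝ} {h φ ψ Hm nr : Z2 → ℝ} {c lp lm τ E0 C SK N0 : ℝ} {j : ℕ} (hβ : 0 < β) (hc : 0 < c)
    (hφ : ∀ z, c ≤ φ z ∧ φ z ≤ 1) (hψ : ∀ z, 0 ≤ ψ z ∧ ψ z ≤ 2) (hψ0 : 1 / 2 ≤ ψ 0)
    (hh : ∀ z, |h z| ≤ Hm z) (hnr : ∀ z, |h z - Hm z| ≤ 2 * nr z)
    (hC : 0 ≤ C) (hHC : ∀ z, Hm z ≤ C / (1 + nsq z))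
    (hlm : 0 < lm) (hl : lm ≤ lp) (hup : ∀ z, Tq M (fun y => Hm y * φ y) z ≤ lp * φ z)
    (hlow : ∀ z, lm * (ψ z - τ) ≤ Tq M (fun y => Hm y * ψ y) z)
    (hE0 : 0 ≤ E0)
    (hPsi : ∀ z, 1 / 2 * (β * lm) ^ j * (ψ z - j * (lp / lm) ^ j * E0 * φ z) ≤ Psi M β h j z)
    (hSK : ∑ u ∈ K, Hm u ≤ SK) (hN0 : ∑ u ∈ K, nr u ≤ N0)
    (hfin : 2 + j * (lp / lm) ^ j * E0 * SK + 4 * N0 * (lp / lm) ^ j / c ≤
      (lm * (1 / 2 - τ) - M * (2 * C / (R1 : ℝ) ^ 2)) / (1 + Real.log M)) :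
    (β * lm) ^ j ≤ ∑ u ∈ K, h u * Psi M β h j u := by
  have hlp : 0 < lp := lt_of_lt_of_le hlm hl
  set r := lp / lm with hr
  have hr0 : 0 < r := by positivity
  set μ := 1 / 2 * (β * lm) ^ j with hμ
  have hμ0 : 0 < μ := by positivity
  set θ := j * r ^ j * E0 with hθ
  have hθ0 : 0 ≤ θ := by positivity
  have hH0 : ∀ z, 0 ≤ Hm z := fun z => (abs_nonneg _).trans (hh z)
  have hlogM : 0 ≤ Real.log M := Real.log_nonneg (by exact_mod_cast hM)
  have h1 := Hpsi_sum (M := M) hR1 hK hC (fun z => ⟨hH0 z, hHC z⟩) hψ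
  have h2 := hlow 0
  have h3 : (lm * (1 / 2 - τ) - M * (2 * C / (R1 : ℝ) ^ 2)) / (1 + Real.log M) ≤
      ∑ u ∈ K, Hm u * ψ u := by
    rw [div_le_iff₀ (by linarith)]
    have : lm * (1 / 2 - τ) ≤ lm * (ψ 0 - τ) := mul_le_mul_of_nonneg_left (by linarith) hlm.le
    linarith
  have e1 : (β * lp) ^ j = 2 * μ * r ^ j := by
    rw [hμ, hr, div_pow, mul_pow, mul_pow]
    field_simp
  have hPs : ∀ y, |Psi M β h j y| ≤ 2 * μ * r ^ j / c := by
    intro y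
    refine (abs_Psi_le M hβ.le h j y).trans ?_
    have h1 := Gam_le hc hφ hh hlp.le hup j y
    have h2 : φ y / c ≤ 1 / c := div_le_div_of_nonneg_right (hφ y).2 hc.le
    calc β ^ j * Gam M h j y ≤ β ^ j * (lp ^ j * (1 / c)) := by
          apply mul_le_mul_of_nonneg_left _ (by positivity)
          exact h1.trans (mul_le_mul_of_nonneg_left h2 (by positivity))
      _ = (β * lp) ^ j / c := by rw [mul_pow]; ring
      _ = _ := by rw [e1]
  have hpt : ∀ u, μ * (Hm u * ψ u) - μ * θ * Hm u - 4 * μ * r ^ j / c * nr u ≤ h u * Psi M β h j u := by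
    intro u
    have k1 : Hm u * (μ * (ψ u - θ * φ u)) ≤ Hm u * Psi M β h j u :=
      mul_le_mul_of_nonneg_left (hPsi u) (hH0 u)
    have k2 : |(h u - Hm u) * Psi M β h j u| ≤ 2 * nr u * (2 * μ * r ^ j / c) := by
      rw [abs_mul]
      exact mul_le_mul (hnr u) (hPs u) (abs_nonneg _) ((abs_nonneg _).trans (hnr u))
    have k3 := (abs_le.1 k2).1
    have k4 : μ * θ * Hm u * φ u ≤ μ * θ * Hm u * 1 :=
      mul_le_mul_of_nonneg_left (hφ u).2 (mul_nonneg (by positivity) (hH0 u))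
    have e : h u * Psi M β h j u = Hm u * Psi M β h j u + (h u - Hm u) * Psi M β h j u := by ring
    rw [e]
    have e2 : Hm u * (μ * (ψ u - θ * φ u)) = μ * (Hm u * ψ u) - μ * θ * Hm u * φ u := by ring
    have e3 : 2 * nr u * (2 * μ * r ^ j / c) = 4 * μ * r ^ j / c * nr u := by ring
    linarith
  refine le_trans ?_ (Finset.sum_le_sum fun u _ => hpt u)
  rw [Finset.sum_sub_distrib, Finset.sum_sub_distrib, ← Finset.mul_sum, ← Finset.mul_sum,
    ← Finset.mul_sum]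
  have k1 := mul_le_mul_of_nonneg_left h3 hμ0.le
  have k2 := mul_le_mul_of_nonneg_left hfin hμ0.le
  have k3 := mul_le_mul_of_nonneg_left hSK (by positivity : 0 ≤ μ * θ)
  have k4 := mul_le_mul_of_nonneg_left hN0 (by positivity : 0 ≤ 4 * μ * r ^ j / c)
  have e4 : (β * lm) ^ j = 2 * μ := by rw [hμ]; ring
  rw [e4]
  have e5 : μ * (2 + θ * SK + 4 * N0 * r ^ j / c) = 2 * μ + μ * θ * SK + 4 * μ * r ^ j / c * N0 := by
    ring
  rw [e5] at k2
  linarith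

end Pool.Agent.Helper97.CP
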