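import Pool.Agent.Helper97.CP2.P2b

set_option autoImplicit false

open MeasureTheory ProbabilityTheory Filter Finset

namespace Pool.Agent.Helper97.CP

theorem ES_A_comm (N k : ℕ) (F : (ℕ → Z2) → Z2 → ℝ) (x y : Z2) :
    ES N (fun s => A k (fun x' => F s x') x) y = A k (fun x' => ES N (fun s => F s x') y) x := by
  unfold A ES
  rw [Finset.mul_sum, Finset.mul_sum]
  have h1 : ∀ σ : Fin N → E4, (4 ^ N : ℝ)⁻¹ * ((4 ^ k)⁻¹ * ∑ τ : Fin k → E4, F (path y σ) (path x τ k)) =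
      ∑ τ : Fin k → E4, (4 ^ N : ℝ)⁻¹ * (4 ^ k)⁻¹ * F (path y σ) (path x τ k) := by
    intro σ
    rw [Finset.mul_sum, Finset.mul_sum]
    exact Finset.sum_congr rfl fun τ _ => by ring
  have h2 : ∀ τ : Fin k → E4, (4 ^ k : ℝ)⁻¹ * ((4 ^ N)⁻¹ * ∑ σ : Fin N → E4, F (path y σ) (path x τ k)) =
      ∑ σ : Fin N → E4, (4 ^ N : ℝ)⁻¹ * (4 ^ k)⁻¹ * F (path y σ) (path x τ k) := by
    intro τ
    rw [Finset.mul_sum, Finset.mul_sum]
    exact Finset.sum_congr rfl fun σ _ => by ring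
  beta_reduce
  rw [Finset.sum_congr rfl fun σ _ => h1 σ, Finset.sum_congr rfl fun τ _ => h2 τ, Finset.sum_comm]

/-- the drift field along the path `s` -/
def dr (h : Z2 → ℝ) (β : ℝ) (s : ℕ → Z2) : Env := fun n x => β * h (x - s n)

theorem Yt_dep (M : ℕ) (v v' : Env) (j n : ℕ) (x : Z2)
    (hv : ∀ m, n < m → m ≤ n + j * M → ∀ x, v m x = v' m x) : Yt M v j n x = Yt M v' j n x := by
  rw [← Yc_true M v 0, ← Yc_true M v' 0]
  apply dep_Yc M 0 (List.replicate j true) n x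
  intro m hm x
  obtain ⟨h1, h2⟩ := hm
  rw [List.length_replicate] at h2
  exact hv m h1 h2 x

theorem Yt_tsh (M : ℕ) (v : Env) (j a n : ℕ) (x : Z2) :
    Yt M v j (a + n) x = Yt M (tsh a v) j n x := by
  induction j generalizing n x with
  | zero => rfl
  | succ j ih =>
    show ∑ k ∈ Icc 1 M, _ = ∑ k ∈ Icc 1 M, _
    apply Finset.sum_congr rfl
    intro k _
    apply A_congr
    intro y
    rw [add_assoc, ih]
    rfl

theorem tsh_dr (h : Z2 → ℝ) (β : ℝ) (a : ℕ) (s : ℕ → Z2) :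
    tsh a (dr h β s) = dr h β (fun k => s (a + k)) := rfl

/-- mean of the drift chaos -/
theorem ES_Yt (M : ℕ) (β : ℝ) (h : Z2 → ℝ) (j N : ℕ) (hN : j * M ≤ N) (x y : Z2) :
    ES N (fun s => Yt M (dr h β s) j 0 x) y = Psi M β h j (x - y) := by
  induction j generalizing N x y with
  | zero => simp only [Yt, Psi, ES_const]
  | succ j ih =>
    have hN' : j * M + M ≤ N := by rw [← Nat.succ_mul]; exact hN
    show ES N (fun s => ∑ k ∈ Icc 1 M, A k (fun y => dr h β s (0 + k) y * Yt M (dr h β s) j (0 + k) y) x) y =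
      ∑ k ∈ Icc 1 M, Qn k (fun y => β * h y * Psi M β h j y) (x - y)
    rw [ES_sum]
    apply Finset.sum_congr rfl
    intro k hk
    have hk' := Finset.mem_Icc.1 hk
    rw [ES_A_comm, ← A_A_diff]
    apply A_congr
    intro x'
    obtain ⟨N', rfl⟩ : ∃ N', N = k + N' := ⟨N - k, by omega⟩
    have h1 : ∀ s : ℕ → Z2, dr h β s (0 + k) x' * Yt M (dr h β s) j (0 + k) x' =
        (β * h (x' - s k)) * Yt M (dr h β (fun i => s (k + i))) j 0 x' := by
      intro s
      rw [zero_add, ← tsh_dr, ← Yt_tsh, add_zero]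
      rfl
    simp only [h1]
    have h2 := ES_markov k N' (fun s => β * h (x' - s k)) (fun s => Yt M (dr h β s) j 0 x') y
      (fun s s' hs => by
        show β * h (x' - s k) = β * h (x' - s' k)
        rw [hs k le_rfl])
    rw [h2]
    show ES k _ y = ES k _ y
    apply ES_congr
    intro s _
    rw [ih N' (by omega)]

/-- single-time contribution -/
noncomputable def al (B : Finset Z2) (M : ℕ) (β : ℝ) (h : Z2 → ℝ) (j : ℕ) (s : ℕ → Z2) : ℝ :=
  ∑ x ∈ B, β * h (x - s 0) * Yt M (dr h β s) j 0 x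

theorem Xt_dr (L : ℕ) (B : Finset Z2) (M : ℕ) (β : ℝ) (h : Z2 → ℝ) (j : ℕ) (s : ℕ → Z2) :
    Xt L B M j (dr h β s) = ∑ n ∈ Icc 1 L, al B M β h j (fun k => s (n + k)) := by
  unfold Xt al
  apply Finset.sum_congr rfl
  intro n _
  apply Finset.sum_congr rfl
  intro x _
  rw [← tsh_dr, ← Yt_tsh, add_zero]
  rfl

theorem Xt_sh (L : ℕ) (B : Finset Z2) (M : ℕ) (β : ℝ) (h : Z2 → ℝ) (j ℓ : ℕ) (hℓ : L + j * M ≤ ℓ)
    (s : ℕ → Z2) : Xt L B M j (sh h β ℓ s) = Xt L B M j (dr h β s) := by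
  unfold Xt
  apply Finset.sum_congr rfl
  intro n hn
  have hn' := Finset.mem_Icc.1 hn
  apply Finset.sum_congr rfl
  intro x _
  have h1 : ∀ m, 1 ≤ m → m ≤ ℓ → ∀ x, sh h β ℓ s m x = dr h β s m x := by
    intro m h1 h2 x
    unfold sh dr
    rw [if_pos (Finset.mem_Icc.2 ⟨h1, h2⟩)]
  rw [h1 n hn'.1 (by omega), Yt_dep M _ (dr h β s) j n x]
  intro m h2 h3 x
  exact h1 m (by omega) (by omega) x

theorem al_dep (B : Finset Z2) (M : ℕ) (β : ℝ) (h : Z2 → ℝ) (j : ℕ) (s s' : ℕ → Z2)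
    (hs : ∀ k ≤ j * M, s k = s' k) : al B M β h j s = al B M β h j s' := by
  unfold al
  apply Finset.sum_congr rfl
  intro x _
  rw [hs 0 (Nat.zero_le _), Yt_dep M (dr h β s) (dr h β s') j 0 x]
  intro m _ h2 x
  unfold dr
  rw [hs m (by omega)]

/-- mean of a single-time contribution -/
theorem ES_al (B : Finset Z2) (M : ℕ) (β : ℝ) (h : Z2 → ℝ) (j N : ℕ) (hN : j * M ≤ N) (y : Z2) :
    ES N (al B M β h j) y = ∑ x ∈ B, β * h (x - y) * Psi M β h j (x - y) := by
  have h1 : ES N (al B M β h j) y = ES N (fun s => ∑ x ∈ B, β * h (x - y) * Yt M (dr h β s) j 0 x) y := by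
    apply ES_congr
    intro s hs
    unfold al
    rw [hs]
  rw [h1, ES_sum]
  apply Finset.sum_congr rfl
  intro x _
  rw [ES_mul_left, ES_Yt M β h j N hN]

/-- Markov property at time `n` -/
theorem ES_shift (n N : ℕ) (H : (ℕ → Z2) → ℝ) (z : Z2) :
    ES (n + N) (fun s => H (fun k => s (n + k))) z = A n (ES N H) z := by
  have h1 := ES_markov n N (fun _ => 1) H z (fun _ _ _ => rfl)
  simp only [one_mul] at h1
  exact h1

theorem abs_Yt_le (M : ℕ) {β : ℝ} (hβ : 0 ≤ β) {h : Z2 → ℝ} {ρ : ℕ → ℝ} {G : ℝ}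
    (hr : ∀ k ∈ Icc 1 M, ∀ w x, A k (fun y => |h (y - w)|) x ≤ ρ k)
    (hG : ∑ k ∈ Icc 1 M, ρ k ≤ G) (hG0 : 0 ≤ G) (s : ℕ → Z2) (j n : ℕ) (x : Z2) :
    |Yt M (dr h β s) j n x| ≤ (β * G) ^ j := by
  induction j generalizing n x with
  | zero => simp [Yt]
  | succ j ih =>
    show |∑ k ∈ Icc 1 M, A k (fun y => dr h β s (n + k) y * Yt M (dr h β s) j (n + k) y) x| ≤ _
    refine (Finset.abs_sum_le_sum_abs _ _).trans ?_
    have h1 : ∀ k ∈ Icc 1 M, |A k (fun y => dr h β s (n + k) y * Yt M (dr h β s) j (n + k) y) x| ≤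
        β * (β * G) ^ j * ρ k := by
      intro k hk
      refine (abs_A_le k _ x).trans ?_
      calc A k (fun y => |dr h β s (n + k) y * Yt M (dr h β s) j (n + k) y|) x ≤
          A k (fun y => β * (β * G) ^ j * |h (y - s (n + k))|) x := by
            apply A_mono
            intro y
            rw [abs_mul]
            unfold dr
            rw [abs_mul, abs_of_nonneg hβ]
            calc β * |h (y - s (n + k))| * |Yt M (fun n x => β * h (x - s n)) j (n + k) y| ≤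
                β * |h (y - s (n + k))| * (β * G) ^ j :=
                  mul_le_mul_of_nonneg_left (ih (n + k) y) (by positivity)
              _ = _ := by ring
        _ = β * (β * G) ^ j * A k (fun y => |h (y - s (n + k))|) x := A_mul_left _ _ _ _
        _ ≤ _ := mul_le_mul_of_nonneg_left (hr k hk _ x) (by positivity)
    refine (Finset.sum_le_sum h1).trans ?_
    rw [← Finset.mul_sum]
    calc β * (β * G) ^ j * ∑ k ∈ Icc 1 M, ρ k ≤ β * (β * G) ^ j * G :=
          mul_le_mul_of_nonneg_left hG (by positivity)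
      _ = _ := by rw [pow_succ]; ring

/-- majorant by the absolute values -/
theorem abs_Yt_le_abs (M : ℕ) {β : ℝ} (hβ : 0 ≤ β) (h : Z2 → ℝ) (s : ℕ → Z2) (j n : ℕ) (x : Z2) :
    |Yt M (dr h β s) j n x| ≤ Yt M (dr (fun z => |h z|) β s) j n x := by
  induction j generalizing n x with
  | zero => simp [Yt]
  | succ j ih =>
    show |∑ k ∈ Icc 1 M, A k (fun y => dr h β s (n + k) y * Yt M (dr h β s) j (n + k) y) x| ≤
      ∑ k ∈ Icc 1 M, A k (fun y => dr (fun z => |h z|) β s (n + k) y *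
        Yt M (dr (fun z => |h z|) β s) j (n + k) y) x
    refine (Finset.abs_sum_le_sum_abs _ _).trans (Finset.sum_le_sum fun k _ => ?_)
    refine (abs_A_le k _ x).trans (A_mono fun y => ?_)
    rw [abs_mul]
    have e : |dr h β s (n + k) y| = dr (fun z => |h z|) β s (n + k) y := by
      unfold dr
      rw [abs_mul, abs_of_nonneg hβ]
    rw [e]
    apply mul_le_mul_of_nonneg_left (ih (n + k) y)
    unfold dr
    positivity

theorem abs_al_le_abs (B : Finset Z2) (M : ℕ) {β : ℝ} (hβ : 0 ≤ β) (h : Z2 → ℝ) (j : ℕ) (s : ℕ → Z2) :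
    |al B M β h j s| ≤ al B M β (fun z => |h z|) j s := by
  unfold al
  refine (Finset.abs_sum_le_sum_abs _ _).trans (Finset.sum_le_sum fun x _ => ?_)
  rw [abs_mul, abs_mul, abs_of_nonneg hβ]
  exact mul_le_mul_of_nonneg_left (abs_Yt_le_abs M hβ h s j 0 x) (by positivity)

theorem abs_al_le (B : Finset Z2) (M : ℕ) {β : ℝ} (hβ : 0 ≤ β) {h : Z2 → ℝ} {ρ : ℕ → ℝ} {G HB : ℝ}
    (hr : ∀ k ∈ Icc 1 M, ∀ w x, A k (fun y => |h (y - w)|) x ≤ ρ k)
    (hG : ∑ k ∈ Icc 1 M, ρ k ≤ G) (hG0 : 0 ≤ G) (hHB : ∀ v, ∑ x ∈ B, |h (x - v)| ≤ HB) (j : ℕ)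
    (s : ℕ → Z2) : |al B M β h j s| ≤ β * HB * (β * G) ^ j := by
  unfold al
  refine (Finset.abs_sum_le_sum_abs _ _).trans ?_
  calc ∑ x ∈ B, |β * h (x - s 0) * Yt M (dr h β s) j 0 x| ≤
      ∑ x ∈ B, β * (β * G) ^ j * |h (x - s 0)| := by
        apply Finset.sum_le_sum
        intro x _
        rw [abs_mul, abs_mul, abs_of_nonneg hβ]
        calc β * |h (x - s 0)| * |Yt M (dr h β s) j 0 x| ≤ β * |h (x - s 0)| * (β * G) ^ j :=
              mul_le_mul_of_nonneg_left (abs_Yt_le M hβ hr hG hG0 s j 0 x) (by positivity)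
          _ = _ := by ring
    _ = β * (β * G) ^ j * ∑ x ∈ B, |h (x - s 0)| := by rw [Finset.mul_sum]
    _ ≤ β * (β * G) ^ j * HB := mul_le_mul_of_nonneg_left (hHB _) (by positivity)
    _ = _ := by ring

theorem Psi_abs (M : ℕ) (β : ℝ) (h : Z2 → ℝ) (j : ℕ) (z : Z2) :
    Psi M β (fun z => |h z|) j z = β ^ j * Gam M h j z := by
  induction j generalizing z with
  | zero => simp [Psi, Gam]
  | succ j ih =>
    rw [Gam_succ, ← Tq_mul_left]
    show Tq M (fun y => β * |h y| * Psi M β (fun z => |h z|) j y) z = _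
    congr 1
    funext y
    rw [ih, pow_succ]
    ring

theorem ES_abs_al_le (B : Finset Z2) (M : ℕ) {β : ℝ} (hβ : 0 ≤ β) {h : Z2 → ℝ} {PP HB : ℝ}
    (hHB : ∀ v, ∑ x ∈ B, |h (x - v)| ≤ HB) (j N : ℕ) (hN : j * M ≤ N) (hPP0 : 0 ≤ PP)
    (hPP : ∀ z, β ^ j * Gam M h j z ≤ PP) (y : Z2) :
    ES N (fun s => |al B M β h j s|) y ≤ β * HB * PP := by
  calc ES N (fun s => |al B M β h j s|) y ≤ ES N (al B M β (fun z => |h z|) j) y :=
        ES_mono fun s _ => abs_al_le_abs B M hβ h j s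
    _ = ∑ x ∈ B, β * |h (x - y)| * Psi M β (fun z => |h z|) j (x - y) := ES_al _ _ _ _ _ _ hN _
    _ ≤ ∑ x ∈ B, β * PP * |h (x - y)| := by
        apply Finset.sum_le_sum
        intro x _
        rw [Psi_abs]
        calc β * |h (x - y)| * (β ^ j * Gam M h j (x - y)) ≤ β * |h (x - y)| * PP :=
              mul_le_mul_of_nonneg_left (hPP _) (by positivity)
          _ = _ := by ring
    _ = β * PP * ∑ x ∈ B, |h (x - y)| := by rw [Finset.mul_sum]
    _ ≤ β * PP * HB := mul_le_mul_of_nonneg_left (hHB y) (by positivity)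
    _ = _ := by ring

/-- second moment of the drift -/
theorem ES_X0_sq (B : Finset Z2) (M : ℕ) {β : ℝ} (hβ : 0 ≤ β) {h : Z2 → ℝ} {ρ : ℕ → ℝ} {G PP HB : ℝ}
    (hr : ∀ k ∈ Icc 1 M, ∀ w x, A k (fun y => |h (y - w)|) x ≤ ρ k)
    (hG : ∑ k ∈ Icc 1 M, ρ k ≤ G) (hG0 : 0 ≤ G)
    (hHB : ∀ v, ∑ x ∈ B, |h (x - v)| ≤ HB) (hHB0 : 0 ≤ HB) (L j N : ℕ) (hN : L + j * M ≤ N)
    (hPP0 : 0 ≤ PP) (hPP : ∀ z, β ^ j * Gam M h j z ≤ PP) (z : Z2) :
    ES N (fun s => Xt L B M j (dr h β s) ^ 2) z ≤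
      L * (L * (β * HB * PP) ^ 2) + L * ((2 * (j * M : ℕ) + 1) * (β * HB * (β * G) ^ j) ^ 2) := by
  set a : ℕ → (ℕ → Z2) → ℝ := fun n s => |al B M β h j (fun k => s (n + k))| with ha
  have h1 : ES N (fun s => Xt L B M j (dr h β s) ^ 2) z ≤
      ∑ n ∈ Icc 1 L, ∑ n' ∈ Icc 1 L, ES N (fun s => a n s * a n' s) z := by
    have e : ∀ s : ℕ → Z2, Xt L B M j (dr h β s) ^ 2 ≤ ∑ n ∈ Icc 1 L, ∑ n' ∈ Icc 1 L, a n s * a n' s := by
      intro s
      rw [Xt_dr, ← Finset.sum_mul_sum, ← sq]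
      rw [← sq_abs]
      exact pow_le_pow_left₀ (abs_nonneg _) (Finset.abs_sum_le_sum_abs _ _) 2
    refine (ES_mono fun s _ => e s).trans (le_of_eq ?_)
    rw [ES_sum]
    apply Finset.sum_congr rfl
    intro n _
    rw [ES_sum]
  refine h1.trans ?_
  have hab : ∀ n s, a n s ≤ β * HB * (β * G) ^ j := fun n s =>
    abs_al_le B M hβ hr hG hG0 hHB j _
  have ha0 : ∀ n s, 0 ≤ a n s := fun n s => abs_nonneg _
  have hP0 : 0 ≤ β * HB * PP := by positivity
  have hgap : ∀ n n', 1 ≤ n → n + j * M < n' → n' ≤ L → ES N (fun s => a n s * a n' s) z ≤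
      (β * HB * PP) ^ 2 := by
    intro n n' hn hnn hn'
    obtain ⟨N', rfl⟩ : ∃ N', N = n' + N' := ⟨N - n', by omega⟩
    have h2 := ES_markov n' N' (a n) (fun s => |al B M β h j s|) z (by
      intro s s' hs
      show |al B M β h j _| = |al B M β h j _|
      rw [al_dep B M β h j (fun k => s (n + k)) (fun k => s' (n + k))]
      intro k hk
      exact hs (n + k) (by omega))
    have h3 : ES (n' + N') (fun s => a n s * a n' s) z = ES n' (fun s => a n s *
        ES N' (fun s => |al B M β h j s|) (s n')) z := h2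
    rw [h3]
    have h4 : ES n' (fun s => a n s * ES N' (fun s => |al B M β h j s|) (s n')) z ≤
        ES n' (fun s => a n s * (β * HB * PP)) z := by
      apply ES_mono
      intro s _
      exact mul_le_mul_of_nonneg_left (ES_abs_al_le B M hβ hHB j N' (by omega) hPP0 hPP _) (ha0 _ _)
    refine h4.trans ?_
    rw [ES_mul_right, sq]
    apply mul_le_mul_of_nonneg_right _ hP0
    obtain ⟨N'', rfl⟩ : ∃ N'', n' = n + N'' := ⟨n' - n, by omega⟩
    have h5 : ES (n + N'') (a n) z = A n (ES N'' (fun s => |al B M β h j s|)) z :=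
      ES_shift n N'' (fun s => |al B M β h j s|) z
    rw [h5]
    calc A n (ES N'' (fun s => |al B M β h j s|)) z ≤ A n (fun _ => β * HB * PP) z :=
          A_mono fun y => ES_abs_al_le B M hβ hHB j N'' (by omega) hPP0 hPP y
      _ = _ := A_const _ _ _
  have hterm : ∀ n ∈ Icc 1 L, ∀ n' ∈ Icc 1 L, ES N (fun s => a n s * a n' s) z ≤
      (β * HB * PP) ^ 2 + if n' ≤ n + j * M ∧ n ≤ n' + j * M then (β * HB * (β * G) ^ j) ^ 2 else 0 := by
    intro n hn n' hn'
    have k1 := Finset.mem_Icc.1 hn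
    have k2 := Finset.mem_Icc.1 hn'
    split_ifs with hc
    · have h3 : ES N (fun s => a n s * a n' s) z ≤ (β * HB * (β * G) ^ j) ^ 2 := by
        calc ES N (fun s => a n s * a n' s) z ≤ ES N (fun _ => (β * HB * (β * G) ^ j) ^ 2) z := by
              apply ES_mono
              intro s _
              rw [sq]
              exact mul_le_mul (hab n s) (hab n' s) (ha0 _ _) ((ha0 n s).trans (hab n s))
          _ = _ := ES_const _ _ _
      have h4 : 0 ≤ (β * HB * PP) ^ 2 := sq_nonneg _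
      linarith
    · rw [add_zero]
      rcases not_and_or.1 hc with h3 | h3
      · exact hgap n n' k1.1 (by omega) k2.2
      · have h4 := hgap n' n k2.1 (by omega) k1.2
        have e : (fun s => a n s * a n' s) = fun s => a n' s * a n s := funext fun s => mul_comm _ _
        rw [e]
        exact h4
  refine (Finset.sum_le_sum fun n hn => Finset.sum_le_sum fun n' hn' => hterm n hn n' hn').trans ?_
  simp only [Finset.sum_add_distrib, Finset.sum_const, Nat.card_Icc, nsmul_eq_mul, Nat.add_sub_cancel]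
  apply add_le_add le_rfl
  have h5 : ∀ n ∈ Icc 1 L, (∑ n' ∈ Icc 1 L, if n' ≤ n + j * M ∧ n ≤ n' + j * M then
      (β * HB * (β * G) ^ j) ^ 2 else 0) ≤ (2 * (j * M : ℕ) + 1) * (β * HB * (β * G) ^ j) ^ 2 := by
    intro n _
    rw [← Finset.sum_filter, Finset.sum_const, nsmul_eq_mul]
    exact mul_le_mul_of_nonneg_right (card_near L (j * M) n) (sq_nonneg _)
  refine (Finset.sum_le_sum h5).trans ?_
  rw [Finset.sum_const, Nat.card_Icc, nsmul_eq_mul]
  simp

end Pool.Agent.Helper97.CP
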