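import Pool.Agent.Helper97.CP2.P2c

set_option autoImplicit false

open MeasureTheory ProbabilityTheory Filter Finset

namespace Pool.Agent.Helper97.CP

theorem step_nsq (v : Z2) : (1 / 4) * ∑ e : E4, nsq (v + stp e) = nsq v + 1 := by
  rw [Fintype.sum_prod_type, Fin.sum_univ_two, Fintype.sum_bool, Fintype.sum_bool]
  simp only [nsq_eq]
  simp [stp]
  ring

theorem A_nsq (k : ℕ) (v : Z2) : A k nsq v = nsq v + k := by
  induction k generalizing v with
  | zero => rw [A_zero]; simp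
  | succ k ih =>
    rw [A_succ]
    simp only [ih]
    rw [Finset.sum_add_distrib, mul_add, step_nsq]
    simp only [Finset.sum_const, Finset.card_univ, Fintype.card_fin,
      Fintype.card_prod, Fintype.card_bool, nsmul_eq_mul]
    push_cast
    ring

theorem A_nsq_diff (k : ℕ) (z : Z2) : A k (fun y => nsq (y - z)) z = k := by
  have h1 := A_shift k nsq z (-z)
  simp only [← sub_eq_add_neg, sub_self] at h1
  rw [h1, A_nsq]
  rw [nsq_eq]
  simp

theorem add_mem_bx {a b : ℕ} {x y : Z2} (hx : x ∈ bx a) (hy : y ∈ bx b) : x + y ∈ bx (a + b) := by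
  rw [mem_bx] at *
  push_cast
  simp only [Pi.add_apply]
  exact ⟨(abs_add_le _ _).trans (add_le_add hx.1 hy.1), (abs_add_le _ _).trans (add_le_add hx.2 hy.2)⟩

/-- lower bound for the mean of the drift -/
theorem ES_X0_low {R : ℕ} (hR : 1 ≤ R) (M : ℕ) {β : ℝ} (hβ : 0 ≤ β) {h : Z2 → ℝ} {PP Pm HB : ℝ}
    (hHB : ∀ v, ∑ x ∈ bx (3 * R), |h (x - v)| ≤ HB) (L j N : ℕ) (hN : L + j * M ≤ N)
    (hPP0 : 0 ≤ PP) (hPP : ∀ z, β ^ j * Gam M h j z ≤ PP) (hPm : 0 ≤ Pm)
    (hlow : ∀ K : Finset Z2, bx R ⊆ K → ∑ u ∈ K, |h u| ≤ HB → Pm ≤ ∑ u ∈ K, h u * Psi M β h j u)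
    (z : Z2) (hz : z ∈ bx R) :
    L * (β * (Pm - (L : ℝ) / (R : ℝ) ^ 2 * (HB * PP + Pm))) ≤
      ES N (fun s => Xt L (bx (3 * R)) M j (dr h β s)) z := by
  classical
  have hR0 : (0 : ℝ) < R := by exact_mod_cast hR
  have hHB0 : 0 ≤ HB := (Finset.sum_nonneg fun _ _ => abs_nonneg _).trans (hHB 0)
  have e1 : ES N (fun s => Xt L (bx (3 * R)) M j (dr h β s)) z =
      ∑ n ∈ Icc 1 L, A n (fun y => ∑ x ∈ bx (3 * R), β * h (x - y) * Psi M β h j (x - y)) z := by
    simp only [Xt_dr]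
    rw [ES_sum]
    apply Finset.sum_congr rfl
    intro n hn
    have hn' := Finset.mem_Icc.1 hn
    obtain ⟨N', rfl⟩ : ∃ N', N = n + N' := ⟨N - n, by omega⟩
    have h2 := ES_shift n N' (al (bx (3 * R)) M β h j) z
    rw [h2]
    apply A_congr
    intro y
    rw [ES_al _ _ _ _ _ _ (by omega)]
  rw [e1]
  have hpt : ∀ y, β * Pm - β * (HB * PP + Pm) * (nsq (y - z) / (R : ℝ) ^ 2) ≤
      ∑ x ∈ bx (3 * R), β * h (x - y) * Psi M β h j (x - y) := by
    intro y
    by_cases hy : y - z ∈ bx R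
    · have hy2 : y ∈ bx (2 * R) := by
        have := add_mem_bx hy hz
        rw [sub_add_cancel] at this
        rwa [two_mul]
      set K := (bx (3 * R)).image (fun x => x - y) with hK
      have hinj : Set.InjOn (fun x : Z2 => x - y) (bx (3 * R)) := fun a _ b _ hab => by
        simpa using hab
      have hKsub : bx R ⊆ K := by
        intro u hu
        rw [hK, Finset.mem_image]
        refine ⟨u + y, ?_, by abel⟩
        have := add_mem_bx hu hy2
        rwa [show R + 2 * R = 3 * R by ring] at this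
      have hKs : ∑ u ∈ K, |h u| ≤ HB := by
        rw [hK, Finset.sum_image hinj]
        exact hHB y
      have h3 := hlow K hKsub hKs
      rw [hK, Finset.sum_image hinj] at h3
      have h4 : ∑ x ∈ bx (3 * R), β * h (x - y) * Psi M β h j (x - y) =
          β * ∑ x ∈ bx (3 * R), h (x - y) * Psi M β h j (x - y) := by
        rw [Finset.mul_sum]
        exact Finset.sum_congr rfl fun x _ => by ring
      rw [h4]
      have h5 := mul_le_mul_of_nonneg_left h3 hβ
      have h6 : 0 ≤ β * (HB * PP + Pm) * (nsq (y - z) / (R : ℝ) ^ 2) := by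
        have := nsq_nonneg (y - z)
        positivity
      linarith
    · have h3 := not_mem_bx hy
      have h4 : 1 ≤ nsq (y - z) / (R : ℝ) ^ 2 := by
        rw [le_div_iff₀ (by positivity)]; linarith
      have h5 : |∑ x ∈ bx (3 * R), β * h (x - y) * Psi M β h j (x - y)| ≤ β * (HB * PP) := by
        refine (Finset.abs_sum_le_sum_abs _ _).trans ?_
        calc ∑ x ∈ bx (3 * R), |β * h (x - y) * Psi M β h j (x - y)| ≤
            ∑ x ∈ bx (3 * R), β * PP * |h (x - y)| := by
              apply Finset.sum_le_sum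
              intro x _
              rw [abs_mul, abs_mul, abs_of_nonneg hβ]
              calc β * |h (x - y)| * |Psi M β h j (x - y)| ≤ β * |h (x - y)| * PP :=
                    mul_le_mul_of_nonneg_left ((abs_Psi_le M hβ h j _).trans (hPP _)) (by positivity)
                _ = _ := by ring
          _ = β * PP * ∑ x ∈ bx (3 * R), |h (x - y)| := by rw [Finset.mul_sum]
          _ ≤ β * PP * HB := mul_le_mul_of_nonneg_left (hHB y) (by positivity)
          _ = _ := by ring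
      have h6 := (abs_le.1 h5).1
      have h7 : β * (HB * PP + Pm) * 1 ≤ β * (HB * PP + Pm) * (nsq (y - z) / (R : ℝ) ^ 2) :=
        mul_le_mul_of_nonneg_left h4 (by positivity)
      have e : β * (HB * PP + Pm) * 1 = β * (HB * PP) + β * Pm := by ring
      linarith
  have hn : ∀ n ∈ Icc 1 L, β * (Pm - (L : ℝ) / (R : ℝ) ^ 2 * (HB * PP + Pm)) ≤
      A n (fun y => ∑ x ∈ bx (3 * R), β * h (x - y) * Psi M β h j (x - y)) z := by
    intro n hn
    have hn' := (Finset.mem_Icc.1 hn).2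
    refine le_trans ?_ (A_mono hpt)
    have e : ∀ y, β * (HB * PP + Pm) * (nsq (y - z) / (R : ℝ) ^ 2) =
        (β * (HB * PP + Pm) / (R : ℝ) ^ 2) * nsq (y - z) := by
      intro y; ring
    simp only [e]
    rw [A_sub, A_const, A_mul_left, A_nsq_diff]
    have h1 : (n : ℝ) ≤ L := by exact_mod_cast hn'
    have h2 : β * (HB * PP + Pm) / (R : ℝ) ^ 2 * n ≤ β * (HB * PP + Pm) / (R : ℝ) ^ 2 * L :=
      mul_le_mul_of_nonneg_left h1 (by positivity)
    have e2 : β * (Pm - (L : ℝ) / (R : ℝ) ^ 2 * (HB * PP + Pm)) =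
        β * Pm - β * (HB * PP + Pm) / (R : ℝ) ^ 2 * L := by ring
    rw [e2]
    linarith
  refine le_trans (le_of_eq ?_) (Finset.sum_le_sum hn)
  rw [Finset.sum_const, Nat.card_Icc, nsmul_eq_mul]
  simp

/-- Paley-Zygmund -/
theorem PZ {N : ℕ} {X : (ℕ → Z2) → ℝ} {z : Z2} {m V : ℝ} (hm : 0 ≤ m) (hV : 0 < V)
    (h1 : m ≤ ES N X z) (h2 : ES N (fun s => X s ^ 2) z ≤ V) :
    m ^ 2 / (4 * V) ≤ ES N (fun s => if m / 2 ≤ X s then (1 : ℝ) else 0) z := by
  set t := m / (2 * V) with ht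
  have ht0 : 0 ≤ t := by positivity
  have hpt : ∀ s : ℕ → Z2, 2 * t * X s - 2 * t * (m / 2) - t ^ 2 * X s ^ 2 ≤
      if m / 2 ≤ X s then (1 : ℝ) else 0 := by
    intro s
    split_ifs with hs
    · nlinarith [sq_nonneg (t * X s - 1), mul_nonneg ht0 hm]
    · push Not at hs
      have : 2 * t * X s ≤ 2 * t * (m / 2) := mul_le_mul_of_nonneg_left hs.le (by positivity)
      have : 0 ≤ t ^ 2 * X s ^ 2 := by positivity
      linarith
  refine le_trans ?_ (ES_mono fun s _ => hpt s)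
  rw [ES_sub, ES_sub, ES_mul_left, ES_mul_left (c := t ^ 2) (F := fun s => X s ^ 2), ES_const]
  have k1 := mul_le_mul_of_nonneg_left h1 (by positivity : 0 ≤ 2 * t)
  have k2 := mul_le_mul_of_nonneg_left h2 (by positivity : 0 ≤ t ^ 2)
  have e : m ^ 2 / (4 * V) = 2 * t * m - 2 * t * (m / 2) - t ^ 2 * V := by
    rw [ht]; field_simp; ring
  rw [e]
  linarith

end Pool.Agent.Helper97.CP
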