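import Pool.Agent.Helper97.CP2.Num

set_option autoImplicit false

open MeasureTheory ProbabilityTheory Filter Finset Topology

namespace Pool.Agent.Helper97.CP

theorem numA1 {β CK LR Pm : ℝ} (hβ : 0 < β) (hβ1 : β ≤ 1 / 144) (hCK : 0 ≤ CK) (hCβ : CK * β ≤ 1 / 4)
    (hLR : LR ≤ β ^ 9) (hPm : 0 < Pm) :
    LR * (CK / β * (Pm / β) + Pm) ≤ Pm / 2 := by
  have h1 : LR * (CK / β * (Pm / β) + Pm) ≤ β ^ 9 * (CK / β * (Pm / β) + Pm) :=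
    mul_le_mul_of_nonneg_right hLR (by positivity)
  have e : β ^ 9 * (CK / β * (Pm / β) + Pm) = (CK * β * β ^ 6 + β ^ 9) * Pm := by
    field_simp
  have h2 : β ^ 6 ≤ 1 := pow_le_one₀ hβ.le (by linarith)
  have h3 : β ^ 9 ≤ β := by
    calc β ^ 9 ≤ β ^ 1 := pow_le_pow_of_le_one hβ.le (by linarith) (by norm_num)
      _ = β := pow_one β
  have h4 : CK * β * β ^ 6 ≤ 1 / 4 * 1 := mul_le_mul hCβ h2 (by positivity) (by norm_num)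
  rw [e] at h1
  nlinarith

theorem numA2 {β CK L M Pm C Fs : ℝ} {j : ℕ} (hβ : 0 < β) (hβ1 : β ≤ 1)
    (hC : 0 ≤ C) (hM : 1 ≤ M) (hPm : 1 ≤ Pm)
    (hms : 4 ^ (j + 1) * (2 * (j : ℝ) + 2) * ((1 + 700 * C) ^ 2 / β ^ 2) ^ j ≤ Fs) (hL : M * Fs ≤ L) :
    L * ((2 * (j * M) + 1) * (β * (CK / β) * (β * (700 * C / β ^ 2)) ^ j) ^ 2) ≤
      L * (L * (β * (CK / β) * (Pm / β)) ^ 2) := by
  have hFs : 0 ≤ Fs := le_trans (by positivity) hms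
  have hL0 : 0 ≤ L := le_trans (by positivity) hL
  apply mul_le_mul_of_nonneg_left _ hL0
  have e1 : β * (CK / β) = CK := by field_simp
  rw [e1]
  have h1 : (CK * (β * (700 * C / β ^ 2)) ^ j) ^ 2 = CK ^ 2 * ((700 * C) ^ 2 / β ^ 2) ^ j := by
    rw [mul_pow, ← pow_mul, mul_comm j 2, pow_mul]
    congr 2
    field_simp
  have h2 : ((700 * C) ^ 2 / β ^ 2) ^ j ≤ ((1 + 700 * C) ^ 2 / β ^ 2) ^ j := by
    apply pow_le_pow_left₀ (by positivity)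
    apply div_le_div_of_nonneg_right _ (by positivity)
    apply pow_le_pow_left₀ (by positivity)
    linarith
  have h3 : (2 * (j : ℝ) + 2) * ((1 + 700 * C) ^ 2 / β ^ 2) ^ j ≤ Fs := by
    refine le_trans ?_ hms
    rw [mul_assoc]
    apply le_mul_of_one_le_left (by positivity)
    exact one_le_pow₀ (by norm_num)
  have h4 : 2 * ((j : ℝ) * M) + 1 ≤ (2 * j + 2) * M := by nlinarith
  have h5 : 1 ≤ (Pm / β) ^ 2 := by
    apply one_le_pow₀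
    rw [le_div_iff₀ hβ]; linarith
  rw [h1]
  calc (2 * ((j : ℝ) * M) + 1) * (CK ^ 2 * ((700 * C) ^ 2 / β ^ 2) ^ j) ≤
      ((2 * j + 2) * M) * (CK ^ 2 * ((1 + 700 * C) ^ 2 / β ^ 2) ^ j) :=
        mul_le_mul h4 (mul_le_mul_of_nonneg_left h2 (by positivity)) (by positivity) (by positivity)
    _ = CK ^ 2 * (M * ((2 * (j : ℝ) + 2) * ((1 + 700 * C) ^ 2 / β ^ 2) ^ j)) := by ring
    _ ≤ CK ^ 2 * (M * Fs) := by
        apply mul_le_mul_of_nonneg_left _ (by positivity)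
        exact mul_le_mul_of_nonneg_left h3 (by linarith)
    _ ≤ CK ^ 2 * L := mul_le_mul_of_nonneg_left hL (by positivity)
    _ ≤ CK ^ 2 * L * (Pm / β) ^ 2 := le_mul_of_one_le_right (by positivity) h5
    _ = _ := by ring

theorem numA3 {β CK L Pm : ℝ} (hβ : 0 < β) (hCβ : 32 * CK ^ 2 * β ≤ 1) :
    β ^ 5 * (8 * (L * (L * (β * (CK / β) * (Pm / β)) ^ 2))) ≤ (L * (β * (Pm / 2))) ^ 2 := by
  have e1 : β ^ 5 * (8 * (L * (L * (β * (CK / β) * (Pm / β)) ^ 2))) =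
      (32 * CK ^ 2 * β) * (L * (β * (Pm / 2))) ^ 2 := by
    field_simp; ring
  rw [e1]
  have : 0 ≤ (L * (β * (Pm / 2))) ^ 2 := sq_nonneg _
  nlinarith

theorem numA4 {β CK L Pm card : ℝ} (hβ : 0 < β) (hβ1 : β ≤ 1 / 144) (hCK : 0 ≤ CK) (hL : 0 ≤ L)
    (hCβ : CK * β ≤ 1 / 4) (hcard : card ≤ 784 * L / β ^ 9) :
    8 * (L * (card * (CK / β * (β ^ 40 * Pm ^ 2)))) ≤ (L * (β * (Pm / 2)) / 4) ^ 2 * β ^ 6 * β ^ 5 := by
  have h1 : 8 * (L * (card * (CK / β * (β ^ 40 * Pm ^ 2)))) ≤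
      8 * (L * (784 * L / β ^ 9 * (CK / β * (β ^ 40 * Pm ^ 2)))) := by
    apply mul_le_mul_of_nonneg_left _ (by norm_num)
    apply mul_le_mul_of_nonneg_left _ hL
    exact mul_le_mul_of_nonneg_right hcard (by positivity)
  refine h1.trans ?_
  have e1 : 8 * (L * (784 * L / β ^ 9 * (CK / β * (β ^ 40 * Pm ^ 2)))) =
      (401408 * β ^ 16 * (CK * β)) * ((L * (β * (Pm / 2)) / 4) ^ 2 * β ^ 6 * β ^ 5) := by
    field_simp; ring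
  rw [e1]
  have h2 : β ^ 16 ≤ (1 / 144) ^ 16 := pow_le_pow_left₀ hβ.le hβ1 16
  have h3 : 401408 * β ^ 16 ≤ 1 := by
    have : (401408 : ℝ) * (1 / 144) ^ 16 ≤ 1 := by norm_num
    linarith
  have h4 : 401408 * β ^ 16 * (CK * β) ≤ 1 := by
    have : 0 ≤ CK * β := by positivity
    nlinarith
  have h5 : 0 ≤ (L * (β * (Pm / 2)) / 4) ^ 2 * β ^ 6 * β ^ 5 := by positivity
  nlinarith

theorem numA5 {β CK L M Pm V Fs SC : ℝ} {j : ℕ} (hβ : 0 < β) (hβ1 : β ≤ 1 / 144)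
    (hL : 0 < L) (hM : 0 ≤ M) (hPm : 1 ≤ Pm) (hV0 : 0 ≤ V)
    (hV : 8 * V ≤ (L * (β * (Pm / 2)) / 4) ^ 2 * β ^ 6 * β ^ 5)
    (hFs : 0 < Fs) (hms : 4 ^ (j + 1) * (2 * (j : ℝ) + 2) * SC ^ j ≤ Fs)
    (hLF : M * (Fs * Fs) ≤ L) (hsm : 1 / Fs ≤ 1 / (128 * (1 + CK ^ 2)) * β ^ 9) :
    2 * (β ^ 6 + (2 * V + 2 * (4 ^ (j + 1) * (L * M * (2 * j + 2) * CK ^ 2 * SC ^ j / β))) /
      (L * (β * (Pm / 2)) / 4) ^ 2) ≤ β ^ 5 := by
  set a2 := (L * (β * (Pm / 2)) / 4) ^ 2 with ha2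
  have ha20 : 0 < a2 := by positivity
  have h1 : 2 * V / a2 ≤ β ^ 6 := by
    rw [div_le_iff₀ ha20]
    have h2 : β ^ 5 ≤ 1 := pow_le_one₀ hβ.le (by linarith)
    have h3 : a2 * β ^ 6 * β ^ 5 ≤ a2 * β ^ 6 * 1 := mul_le_mul_of_nonneg_left h2 (by positivity)
    nlinarith
  have h2 : 2 * (4 ^ (j + 1) * (L * M * (2 * j + 2) * CK ^ 2 * SC ^ j / β)) / a2 ≤ β ^ 6 := by
    rw [div_le_iff₀ ha20]
    have k1 : 2 * (4 ^ (j + 1) * (L * M * (2 * (j : ℝ) + 2) * CK ^ 2 * SC ^ j / β)) =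
        2 * (L * M * CK ^ 2 / β) * (4 ^ (j + 1) * (2 * (j : ℝ) + 2) * SC ^ j) := by ring
    rw [k1]
    have k2 : 2 * (L * M * CK ^ 2 / β) * (4 ^ (j + 1) * (2 * (j : ℝ) + 2) * SC ^ j) ≤
        2 * (L * M * CK ^ 2 / β) * Fs := mul_le_mul_of_nonneg_left hms (by positivity)
    refine k2.trans ?_
    have k3 : M * Fs ≤ L * (1 / Fs) := by
      rw [mul_one_div, le_div_iff₀ hFs]; linarith
    have k4 : 2 * (L * M * CK ^ 2 / β) * Fs = 2 * L * CK ^ 2 / β * (M * Fs) := by ring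
    rw [k4]
    have k5 : M * Fs ≤ L * (1 / (128 * (1 + CK ^ 2)) * β ^ 9) :=
      k3.trans (mul_le_mul_of_nonneg_left hsm hL.le)
    have k6 : 2 * L * CK ^ 2 / β * (M * Fs) ≤ 2 * L * CK ^ 2 / β * (L * (1 / (128 * (1 + CK ^ 2)) * β ^ 9)) :=
      mul_le_mul_of_nonneg_left k5 (by positivity)
    refine k6.trans ?_
    have k7 : 2 * L * CK ^ 2 / β * (L * (1 / (128 * (1 + CK ^ 2)) * β ^ 9)) =
        (CK ^ 2 / (1 + CK ^ 2)) * (L ^ 2 * β ^ 8 / 64) := by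
      field_simp; ring
    rw [k7]
    have k8 : CK ^ 2 / (1 + CK ^ 2) ≤ 1 := by
      rw [div_le_one (by positivity)]; linarith
    have k9 : β ^ 6 * a2 = (L ^ 2 * β ^ 8 / 64) * Pm ^ 2 := by rw [ha2]; ring
    rw [k9]
    have k10 : 1 ≤ Pm ^ 2 := one_le_pow₀ hPm
    have k11 : 0 ≤ L ^ 2 * β ^ 8 / 64 := by positivity
    nlinarith
  rw [add_div]
  have h3 : β ^ 6 = β * β ^ 5 := by ring
  have h4 : 0 < β ^ 5 := by positivity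
  nlinarith

end Pool.Agent.Helper97.CP
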