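import Pool.Agent.Helper97.CP2.PII

set_option autoImplicit false

open MeasureTheory ProbabilityTheory Filter Finset Topology

namespace Pool.Agent.Helper97.CP

theorem rho_sum {C : ℝ} (hC : 0 ≤ C) (M : ℕ) (hM : 1 ≤ M) :
    ∑ k ∈ Icc 1 M, C * (16 + 10 * Real.log k) / k ≤ C * ((16 + 10 * Real.log M) * (1 + Real.log M)) := by
  have h1 : ∀ k ∈ Icc 1 M, C * (16 + 10 * Real.log k) / k ≤
      C * (16 + 10 * Real.log M) * (1 / (k : ℝ)) := by
    intro k hk
    have hk' := Finset.mem_Icc.1 hk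
    have hk1 : (1 : ℝ) ≤ k := by exact_mod_cast hk'.1
    have hlog : Real.log k ≤ Real.log M := Real.log_le_log (by linarith) (by exact_mod_cast hk'.2)
    rw [div_eq_mul_one_div]
    apply mul_le_mul_of_nonneg_right _ (by positivity)
    apply mul_le_mul_of_nonneg_left _ hC
    linarith
  refine (Finset.sum_le_sum h1).trans ?_
  rw [← Finset.mul_sum, mul_assoc]
  apply mul_le_mul_of_nonneg_left _ hC
  apply mul_le_mul_of_nonneg_left (sum_inv_le M)
  have : 0 ≤ Real.log M := Real.log_nonneg (by exact_mod_cast hM)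
  linarith

theorem log_R {β R T : ℝ} (hβ : 0 < β) (hβ1 : β ≤ 1 / 144) (hR1 : 1 ≤ R) (hT0 : 0 ≤ T)
    (hR : R ≤ 2 * (√T / β)) (hT : T ≤ Real.exp (7 / β)) :
    24 + 10 * Real.log (2 * (3 * R)) ≤ 100 / β := by
  have h1 : √T ≤ Real.exp (3.5 / β) := by
    rw [Real.sqrt_le_left (Real.exp_pos _).le]
    refine hT.trans (le_of_eq ?_)
    rw [← Real.exp_nat_mul]
    congr 1
    push_cast
    ring
  have h2 : 1 / β ≤ Real.exp (1 / β) := by linarith [Real.add_one_le_exp (1 / β)]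
  have h3 : (12 : ℝ) ≤ Real.exp 3 := by
    have h10 : (2.7 : ℝ) ≤ Real.exp 1 := by linarith [Real.exp_one_gt_d9]
    have h11 : Real.exp 3 = Real.exp 1 ^ 3 := by rw [← Real.exp_nat_mul]; norm_num
    rw [h11]
    calc (12 : ℝ) ≤ 2.7 ^ 3 := by norm_num
      _ ≤ _ := pow_le_pow_left₀ (by norm_num) h10 3
  have h4 : 2 * (3 * R) ≤ Real.exp (3 + 4.5 / β) := by
    calc 2 * (3 * R) ≤ 12 * (√T * (1 / β)) := by
          have : √T / β = √T * (1 / β) := by ring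
          rw [this] at hR
          linarith
      _ ≤ Real.exp 3 * (Real.exp (3.5 / β) * Real.exp (1 / β)) := by
          apply mul_le_mul h3 _ (by positivity) (by positivity)
          exact mul_le_mul h1 h2 (by positivity) (by positivity)
      _ = _ := by
          rw [← Real.exp_add, ← Real.exp_add]
          congr 1
          ring
  have h5 : Real.log (2 * (3 * R)) ≤ 3 + 4.5 / β := by
    rw [Real.log_le_iff_le_exp (by linarith)]
    exact h4
  have h6 : 54 ≤ 55 / β := by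
    rw [le_div_iff₀ hβ]; linarith
  have e : 100 / β = 45 / β + 55 / β := by ring
  have e2 : 10 * (4.5 / β) = 45 / β := by ring
  linarith

theorem aux1 {C : ℝ} (hC : 0 ≤ C) : 700 * C ≤ (1 + 700 * C) ^ 2 := by nlinarith

theorem aux2 {C β : ℝ} (hC : 0 ≤ C) (hβ1 : β ≤ 1) : β * (700 * C) ≤ (1 + 700 * C) ^ 2 := by
  nlinarith

theorem aux3 {M j : ℝ} (hM : 1 ≤ M) : 2 * (j * M) + 1 ≤ M * (2 * j + 2) := by nlinarith

/-- the fractional moment is small at time `T` -/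
theorem main_sqrt {h : Z2 → ℝ} (H : HH h) {ε : ℝ} (hε : 0 < ε) (hε1 : ε < 1) :
    ∀ᶠ β in 𝓝[>] (0 : ℝ), ∃ T : ℕ, 1 ≤ T ∧
      (T : ℝ) ≤ Real.exp ((1 + 2 * ε) * Real.pi / (√2 * β)) ∧
      ∀ (Ω : Type) [MeasurableSpace Ω] (P : Measure Ω) (ω : ℕ → Z2 → Ω → ℝ), GEnv P ω h →
        ∫ w, √(Wf β T 0 (En ω w)) ∂P ≤ 1 / (2 * (2 * (T : ℝ) + 1) ^ 2) := by
  obtain ⟨R0, C, -, hC1, -, -, hh, -, hHC⟩ := Hm_prop H
  have hC0 : 0 ≤ C := by linarith
  have hCh : ∀ z, |h z| ≤ C / (1 + nsq z) := fun z => (hh z).trans (hHC z)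
  set CK := 100 * C with hCK
  have hCK0 : 0 ≤ CK := by positivity
  obtain ⟨Cq, hCq, hdet⟩ := det H hε hε1 hCK0
  set CS := (1 + 700 * C) ^ 2 with hCS
  have hCS1 : 1 ≤ CS := one_le_pow₀ (by linarith)
  filter_upwards [hdet, master hCq hCS1 hε, ev_lt (a := 1 / 144) (by norm_num),
    ev_lt (a := 1 / (4 * CK + 1)) (by positivity), ev_lt (a := 1 / (32 * CK ^ 2 + 1)) (by positivity),
    ev_exp hε (by norm_num : (0 : ℝ) < 1 / 16) 7,
    ev_exp (by positivity : 0 < ε / 2) (by positivity : 0 < 1 / (128 * (1 + CK ^ 2))) 9] with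
    β h1 h2 hβ1 hβ2 hβ3 hβ4 hβ5
  clear hdet
  obtain ⟨j, Pm, hPm1, hjC, hPP, hGG, hlow⟩ := h1
  have hms := h2 j hjC
  clear h2 hjC
  have hβ := hβ1.1
  have hβ144 : β ≤ 1 / 144 := hβ1.2.le
  have hβ01 : β ≤ 1 := by linarith
  have hCβ : CK * β ≤ 1 / 4 := by
    have := hβ2.2.le
    rw [le_div_iff₀ (by positivity)] at this
    nlinarith
  have hCβ2 : 32 * CK ^ 2 * β ≤ 1 := by
    have := hβ3.2.le
    rw [le_div_iff₀ (by positivity)] at this
    nlinarith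
  clear hβ1 hβ2 hβ3
  obtain ⟨hEM, hME, hM1⟩ := Me_bounds hε hβ
  obtain ⟨hlogM0, hlogM⟩ := log_Me hε hε1 hβ (by linarith)
  set E := Real.exp ((1 + ε) * Real.pi / (√2 * β)) with hE
  have hE0 : 0 < E := Real.exp_pos _
  set M := Me ε β with hM
  clear_value M
  set Fs := Real.exp (ε / (2 * β)) with hFs
  have hFs0 : 0 < Fs := Real.exp_pos _
  have hFs1 : 1 ≤ Fs := Real.one_le_exp (by positivity)
  have hFF : Real.exp (ε / β) = Fs * Fs := by
    rw [hFs, ← Real.exp_add]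
    congr 1
    field_simp
    norm_num
  have hsm : 1 / Fs ≤ 1 / (128 * (1 + CK ^ 2)) * β ^ 9 := by
    refine le_trans (le_of_eq ?_) hβ5
    rw [Real.exp_neg, one_div, hFs]
    congr 2
    ring
  set F := Real.exp (ε / β) with hF
  have hF1 : 1 ≤ F := by rw [hFF]; exact one_le_mul_of_one_le_of_one_le hFs1 hFs1
  have hFsFs : Fs ≤ Fs * Fs := le_mul_of_one_le_left hFs0.le hFs1
  set nF := ⌈F⌉₊ with hnF
  have hnF1 : F ≤ nF := Nat.le_ceil _
  have hnF2 : (nF : ℝ) ≤ 2 * F := by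
    have := Nat.ceil_lt_add_one (by linarith : 0 ≤ F)
    linarith
  have hM1r : (1 : ℝ) ≤ M := by exact_mod_cast hM1
  have hM0r : (0 : ℝ) < M := by linarith
  have hnF0 : 1 ≤ nF := Nat.one_le_ceil_iff.2 (Real.exp_pos _)
  set L := M * nF with hL
  have hLr : (L : ℝ) = M * nF := by rw [hL]; push_cast; ring
  have hL1 : 1 ≤ L := Nat.one_le_iff_ne_zero.2 (by positivity)
  have hL1r : (1 : ℝ) ≤ L := by exact_mod_cast hL1
  have hLF : (M : ℝ) * (Fs * Fs) ≤ L := by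
    rw [hLr, ← hFF]
    exact mul_le_mul_of_nonneg_left hnF1 hM0r.le
  have hLF' : (M : ℝ) * Fs ≤ L := by
    refine le_trans ?_ hLF
    exact mul_le_mul_of_nonneg_left hFsFs hM0r.le
  have hLE : (L : ℝ) ≤ 4 * E * F := by
    rw [hLr]
    calc (M : ℝ) * nF ≤ (2 * E) * (2 * F) := mul_le_mul hME hnF2 (by positivity) (by positivity)
      _ = _ := by ring
  have hCSβ : 1 ≤ CS / β ^ 2 := by
    rw [le_div_iff₀ (by positivity)]
    have : β ^ 2 ≤ 1 := pow_le_one₀ hβ.le hβ01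
    linarith
  have hjF : (j : ℝ) ≤ F := by
    have k1 : (j : ℝ) ≤ Fs := by
      refine le_trans ?_ hms
      have k2 : 1 ≤ (4 : ℝ) ^ (j + 1) := one_le_pow₀ (by norm_num)
      have k3 : 1 ≤ (CS / β ^ 2) ^ j := one_le_pow₀ hCSβ
      have k4 : (0 : ℝ) ≤ j := Nat.cast_nonneg j
      calc (j : ℝ) ≤ 1 * (2 * (j : ℝ) + 2) * 1 := by linarith
        _ ≤ 4 ^ (j + 1) * (2 * (j : ℝ) + 2) * (CS / β ^ 2) ^ j := by
            apply mul_le_mul _ k3 (by norm_num) (by positivity)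
            exact mul_le_mul_of_nonneg_right k2 (by positivity)
    rw [hFF]; exact k1.trans hFsFs
  have hjM : j * M ≤ L := by
    rw [hL, mul_comm]
    apply Nat.mul_le_mul_left
    have : (j : ℝ) ≤ nF := hjF.trans hnF1
    exact_mod_cast this
  set mS := ⌈1 / β ^ 7⌉₊ with hmS
  have hb7 : 1 ≤ 1 / β ^ 7 := by
    rw [le_div_iff₀ (by positivity), one_mul]
    exact pow_le_one₀ hβ.le hβ01
  have hmS1 : 1 / β ^ 7 ≤ mS := Nat.le_ceil _
  have hmS2 : (mS : ℝ) ≤ 2 / β ^ 7 := by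
    have := Nat.ceil_lt_add_one (by linarith : 0 ≤ 1 / β ^ 7)
    have e : 2 / β ^ 7 = 2 * (1 / β ^ 7) := by ring
    rw [e]; linarith
  have hmS0 : 1 ≤ mS := Nat.one_le_ceil_iff.2 (by positivity)
  have hmS1r : (1 : ℝ) ≤ mS := by exact_mod_cast hmS0
  set ℓ := L + j * M with hℓ
  have hℓL : (L : ℝ) ≤ ℓ := by exact_mod_cast Nat.le_add_right L (j * M)
  have hℓ2 : (ℓ : ℝ) ≤ 2 * L := by
    have : ℓ ≤ 2 * L := by omega
    exact_mod_cast this
  set T := mS * ℓ with hT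
  have hTr : (T : ℝ) = mS * ℓ := by rw [hT]; push_cast; ring
  have hT1 : 1 ≤ T := Nat.one_le_iff_ne_zero.2 (by
    have : 0 < ℓ := by omega
    positivity)
  have hT1r : (1 : ℝ) ≤ T := by exact_mod_cast hT1
  have hTE : (T : ℝ) ≤ Real.exp ((1 + 2 * ε) * Real.pi / (√2 * β)) := by
    rw [hTr]
    exact T_le hε hβ (by linarith) (by linarith) hLE hℓ2 hmS2 hβ4
  have hT7 : (T : ℝ) ≤ Real.exp (7 / β) := hTE.trans (Real.exp_le_exp.2 (exp7 hε hε1 hβ))
  set R := ⌈√(T : ℝ) / β⌉₊ with hR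
  have hsT : 1 ≤ √(T : ℝ) := Real.one_le_sqrt.2 hT1r
  have hsTβ : 1 ≤ √(T : ℝ) / β := by
    rw [le_div_iff₀ hβ]; linarith
  have hR1 : √(T : ℝ) / β ≤ R := Nat.le_ceil _
  have hR2 : (R : ℝ) ≤ 2 * (√(T : ℝ) / β) := by
    have := Nat.ceil_lt_add_one (by linarith : 0 ≤ √(T : ℝ) / β)
    linarith
  have hR0 : 1 ≤ R := Nat.one_le_ceil_iff.2 (by positivity)
  have hR0r : (1 : ℝ) ≤ R := by exact_mod_cast hR0
  have hRT : T / β ^ 2 ≤ (R : ℝ) ^ 2 := by
    have := pow_le_pow_left₀ (by positivity) hR1 2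
    rwa [div_pow, Real.sq_sqrt (by linarith)] at this
  have hRT2 : (R : ℝ) ^ 2 ≤ 4 * T / β ^ 2 := by
    have := pow_le_pow_left₀ (by linarith) hR2 2
    rw [mul_pow, div_pow, Real.sq_sqrt (by linarith)] at this
    refine this.trans (le_of_eq ?_)
    ring
  -- sums
  have hHB : ∀ v, ∑ x ∈ bx (3 * R), |h (x - v)| ≤ CK / β := by
    intro v
    have k1 := sum_H_le (H := fun z => |h z|) (fun z => ⟨abs_nonneg _, hCh z⟩) hC0
      (m := 3 * R) (by omega) v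
    refine k1.trans ?_
    have k2 := log_R hβ hβ144 hR0r (by linarith) hR2 hT7
    have k3 : C * (24 + 10 * Real.log (2 * (3 * (R : ℝ)))) ≤ C * (100 / β) :=
      mul_le_mul_of_nonneg_left k2 hC0
    push_cast
    refine k3.trans (le_of_eq ?_)
    rw [hCK]; ring
  set ρ : ℕ → ℝ := fun k => C * (16 + 10 * Real.log k) / k with hρ
  have hρ0 : ∀ k, 0 ≤ ρ k := by
    intro k
    have : 0 ≤ Real.log k := Real.log_natCast_nonneg k
    show 0 ≤ C * (16 + 10 * Real.log k) / k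
    positivity
  have hr : ∀ k ∈ Icc 1 M, ∀ w x, A k (fun y => |h (y - w)|) x ≤ ρ k := by
    intro k hk w x
    exact A_H_le (H := fun z => |h z|) hCh hC0 (Finset.mem_Icc.1 hk).1 x w
  have hG : ∑ k ∈ Icc 1 M, ρ k ≤ 700 * C / β ^ 2 := by
    refine (rho_sum hC0 M hM1).trans ?_
    have k1 : 16 + 10 * Real.log M ≤ 100 / β := by
      have : 10 * (1 + Real.log M) ≤ 10 * (7 / β) := by linarith
      have k2 : 6 ≤ 30 / β := by rw [le_div_iff₀ hβ]; linarith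
      have e : 100 / β = 10 * (7 / β) + 30 / β := by ring
      linarith
    calc C * ((16 + 10 * Real.log M) * (1 + Real.log M)) ≤ C * ((100 / β) * (7 / β)) := by
          apply mul_le_mul_of_nonneg_left _ hC0
          exact mul_le_mul k1 hlogM (by linarith) (by positivity)
      _ = _ := by ring
  have hLR9 : (L : ℝ) / (R : ℝ) ^ 2 ≤ β ^ 9 := by
    rw [div_le_iff₀ (by positivity)]
    have k1 : (L : ℝ) / β ^ 7 ≤ T := by
      rw [hTr]
      calc (L : ℝ) / β ^ 7 = (1 / β ^ 7) * L := by ring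
        _ ≤ (mS : ℝ) * (ℓ : ℝ) := mul_le_mul hmS1 hℓL (by positivity) (by positivity)
    have k2 : (L : ℝ) ≤ β ^ 7 * T := by
      rw [div_le_iff₀ (by positivity)] at k1
      linarith
    have k3 : (T : ℝ) ≤ β ^ 2 * (R : ℝ) ^ 2 := by
      rw [div_le_iff₀ (by positivity)] at hRT
      linarith
    calc (L : ℝ) ≤ β ^ 7 * T := k2
      _ ≤ β ^ 7 * (β ^ 2 * (R : ℝ) ^ 2) := mul_le_mul_of_nonneg_left k3 (by positivity)
      _ = _ := by ring
  have hcard : ((bx (3 * R)).card : ℝ) ≤ 784 * L / β ^ 9 := by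
    rw [card_bx]
    push_cast
    have k1 : (2 * (3 * (R : ℝ)) + 1) ^ 2 ≤ 49 * (R : ℝ) ^ 2 := by
      calc (2 * (3 * (R : ℝ)) + 1) ^ 2 ≤ (7 * R) ^ 2 := pow_le_pow_left₀ (by positivity) (by linarith) 2
        _ = _ := by ring
    have k2 : (T : ℝ) ≤ 4 * L / β ^ 7 := by
      rw [hTr]
      calc (mS : ℝ) * ℓ ≤ (2 / β ^ 7) * (2 * L) := mul_le_mul hmS2 hℓ2 (by positivity) (by positivity)
        _ = _ := by ring
    calc (2 * (3 * (R : ℝ)) + 1) ^ 2 ≤ 49 * (R : ℝ) ^ 2 := k1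
      _ ≤ 49 * (4 * T / β ^ 2) := by linarith
      _ ≤ 49 * (4 * (4 * L / β ^ 7) / β ^ 2) := by
          apply mul_le_mul_of_nonneg_left _ (by norm_num)
          apply div_le_div_of_nonneg_right _ (by positivity)
          linarith
      _ = _ := by field_simp; norm_num
  refine ⟨T, hT1, hTE, ?_⟩
  intro Ω _ P ω g
  have hMR : (M : ℝ) ≤ (R : ℝ) ^ 2 := by
    have k1 : (M : ℝ) ≤ L := by
      rw [hLr]; exact le_mul_of_one_le_right hM0r.le (by exact_mod_cast hnF0)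
    have k2 : (L : ℝ) ≤ T := by
      rw [hTr]
      exact hℓL.trans (le_mul_of_one_le_left (Nat.cast_nonneg _) hmS1r)
    have k3 : (T : ℝ) ≤ T / β ^ 2 := by
      rw [le_div_iff₀ (by positivity)]
      have : β ^ 2 ≤ 1 := pow_le_one₀ hβ.le hβ01
      exact mul_le_of_le_one_right (Nat.cast_nonneg _) this
    exact (k1.trans k2).trans (k3.trans hRT)
  have hfinal : √((Real.exp (-(β ^ 5 * mS / 2)) + 4 * Real.exp (-((R : ℝ) ^ 2 / (2 * (mS * (ℓ : ℕ) : ℝ))))) *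
          Real.exp (β ^ 5 * mS / 8)) ≤ 1 / (2 * (2 * (T : ℝ) + 1) ^ 2) := by
    rw [← hTr]
    refine final_prob hβ hβ144 hT1r hT7 ?_ ?_ hRT
    · calc 1 / β ^ 2 = β ^ 5 * (1 / β ^ 7) := by field_simp
        _ ≤ β ^ 5 * mS := mul_le_mul_of_nonneg_left hmS1 (by positivity)
    · calc β ^ 5 * mS ≤ β ^ 5 * (2 / β ^ 7) := mul_le_mul_of_nonneg_left hmS2 (by positivity)
        _ = _ := by field_simp
  refine le_trans ?_ hfinal
  have hjr : (0 : ℝ) ≤ j := Nat.cast_nonneg j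
  refine assemble H hβ M L R j mS hL1 hR0 hmS0 (ρ := ρ) (HB := CK / β) (G := 700 * C / β ^ 2)
    (S := CS / β ^ 2) (PP := Pm / β) (Pm := Pm) (GG := β ^ 40 * Pm ^ 2) (c := β ^ 5) (d := β ^ 6)
    (e1 := L * M * (2 * j + 2) * CK ^ 2 * (CS / β ^ 2) ^ j / β)
    hHB hr hρ0 hG hCSβ ?_ ?_ ?_ (by positivity) hPP (by positivity) hGG (by linarith) ?_
    (numA1 hβ hβ144 hCK0 hCβ hLR9 (by linarith)) ?_ (by positivity) (numA3 hβ hCβ2) (by positivity)
    (pow_le_one₀ hβ.le hβ01)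
    (numA4 hβ hβ144 hCK0 (by linarith) hCβ hcard) ?_ ?_ ?_ Ω P ω g
  · apply div_le_div_of_nonneg_right _ (by positivity)
    exact aux1 hC0
  · have e : β * (700 * C / β ^ 2) = (β * (700 * C)) / β ^ 2 := by ring
    rw [e]
    apply div_le_div_of_nonneg_right _ (by positivity)
    exact aux2 hC0 hβ01
  · have e : (β * (700 * C / β ^ 2)) ^ 2 = (700 * C) ^ 2 / β ^ 2 := by field_simp
    rw [e]
    apply div_le_div_of_nonneg_right _ (by positivity)
    rw [hCS]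
    exact pow_le_pow_left₀ (by positivity) (by linarith) 2
  · intro K hK hKs
    exact hlow K R hR0 hMR hK hKs
  · have := numA2 (CK := CK) (L := L) (M := M) (Pm := Pm) hβ hβ01 hC0 hM1r hPm1 hms hLF'
    push_cast
    exact this
  · have e : (L : ℝ) * (CK / β * (M * (β * (CK / β)) * (CS / β ^ 2) ^ j)) =
        L * M * 1 * CK ^ 2 * (CS / β ^ 2) ^ j / β := by
      field_simp
    rw [e]
    apply div_le_div_of_nonneg_right _ hβ.le
    apply mul_le_mul_of_nonneg_right _ (by positivity)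
    apply mul_le_mul_of_nonneg_right _ (by positivity)
    apply mul_le_mul_of_nonneg_left _ (by positivity)
    linarith
  · have e0 : β * (CK / β) = CK := by field_simp
    rw [e0]
    push_cast
    have k1 : 2 * ((j : ℝ) * M) + 1 ≤ M * (2 * j + 2) := aux3 hM1r
    have k2 : (L : ℝ) * ((2 * ((j : ℝ) * M) + 1) * (CK ^ 2 * (CS / β ^ 2) ^ j)) ≤
        L * ((M * (2 * j + 2)) * (CK ^ 2 * (CS / β ^ 2) ^ j)) := by
      apply mul_le_mul_of_nonneg_left _ (by linarith)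
      exact mul_le_mul_of_nonneg_right k1 (by positivity)
    refine k2.trans ?_
    rw [le_div_iff₀ hβ]
    have k3 : 0 ≤ (L : ℝ) * ((M * (2 * j + 2)) * (CK ^ 2 * (CS / β ^ 2) ^ j)) := by positivity
    have k4 : (L : ℝ) * ((M * (2 * j + 2)) * (CK ^ 2 * (CS / β ^ 2) ^ j)) =
      L * M * (2 * j + 2) * CK ^ 2 * (CS / β ^ 2) ^ j := by ring
    rw [k4] at k3 ⊢
    exact mul_le_of_le_one_right k3 hβ01
  · refine numA5 (SC := CS / β ^ 2) hβ hβ144 (by linarith) hM0r.le hPm1 (by positivity) ?_ hFs0 hms hLF hsm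
    exact numA4 hβ hβ144 hCK0 (by linarith) hCβ hcard

/-- Part II: upper bound for the free energy -/
theorem partII {h : Z2 → ℝ} (H : HH h) {ε : ℝ} (hε : 0 < ε) (hε1 : ε < 1) :
    ∀ᶠ β in 𝓝[>] (0 : ℝ), ∀ (Ω : Type) [MeasurableSpace Ω] (P : Measure Ω)
      (ω : ℕ → Z2 → Ω → ℝ), GEnv P ω h → ∀ p : ℝ,
      (∀ᵐ w ∂P, Tendsto (fun n : ℕ => Real.log (Wf β n 0 (En ω w)) / (n : ℝ)) atTop (nhds p)) →
      Real.exp (-((1 + 2 * ε) * Real.pi / (√2 * β))) ≤ -p := by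
  filter_upwards [main_sqrt H hε hε1, ev_lt one_pos] with β h1 hβ1
  obtain ⟨T, hT1, hTE, hT⟩ := h1
  intro Ω _ P ω g p hp
  have h2 := free_energy_le H hT1 hT Ω P ω g p hp
  have hT0 : (0 : ℝ) < T := by exact_mod_cast hT1
  have h3 : 1 / (T : ℝ) ≤ -p := by
    have h4 : 1 / (T : ℝ) ≤ 2 * Real.log 2 / T := by
      apply div_le_div_of_nonneg_right _ hT0.le
      linarith [Real.log_two_gt_d9]
    linarith
  refine le_trans ?_ h3
  rw [Real.exp_neg, ← one_div]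
  exact one_div_le_one_div_of_le hT0 hTE

end Pool.Agent.Helper97.CP
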