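import Pool.Agent.Helper97.CP2.Frac

set_option autoImplicit false

open MeasureTheory ProbabilityTheory Filter Finset

namespace Pool.Agent.Helper97.CP

/-- exponential test function -/
noncomputable def ef (lam : ℝ) (x : Z2) : ℝ :=
  ∑ i : Fin 2, (Real.exp (lam * x i) + Real.exp (-(lam * x i)))

theorem ef_pos (lam : ℝ) (x : Z2) : 0 ≤ ef lam x :=
  Finset.sum_nonneg fun i _ => by positivity

theorem ef_step (lam : ℝ) (x : Z2) :
    (1 / 4) * ∑ e : E4, ef lam (x + stp e) ≤ Real.exp (lam ^ 2 / 2) * ef lam x := by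
  have h1 : (1 / 4) * ∑ e : E4, ef lam (x + stp e) = (Real.cosh lam + 1) / 2 * ef lam x := by
    rw [Fintype.sum_prod_type, Fin.sum_univ_two, Fintype.sum_bool, Fintype.sum_bool]
    unfold ef
    simp only [Fin.sum_univ_two]
    simp only [stp, if_true, Bool.false_eq_true, if_false, Pi.add_apply, Pi.single_eq_same]
    have e1 : ∀ a : ℤ, (Pi.single (0 : Fin 2) a : Z2) 1 = 0 := fun a => by simp
    have e2 : ∀ a : ℤ, (Pi.single (1 : Fin 2) a : Z2) 0 = 0 := fun a => by simp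
    rw [e1, e1, e2, e2, Real.cosh_eq]
    push_cast
    have k : ∀ y : ℝ, Real.exp (lam * (y + 1)) = Real.exp (lam * y) * Real.exp lam := by
      intro y; rw [← Real.exp_add]; congr 1; ring
    have k' : ∀ y : ℝ, Real.exp (lam * (y + -1)) = Real.exp (lam * y) * Real.exp (-lam) := by
      intro y; rw [← Real.exp_add]; congr 1; ring
    have k2 : ∀ y : ℝ, Real.exp (-(lam * (y + 1))) = Real.exp (-(lam * y)) * Real.exp (-lam) := by
      intro y; rw [← Real.exp_add]; congr 1; ring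
    have k2' : ∀ y : ℝ, Real.exp (-(lam * (y + -1))) = Real.exp (-(lam * y)) * Real.exp lam := by
      intro y; rw [← Real.exp_add]; congr 1; ring
    simp only [k, k', k2, k2', add_zero]
    ring
  rw [h1]
  apply mul_le_mul_of_nonneg_right _ (ef_pos _ _)
  have h2 := Real.cosh_le_exp_half_sq lam
  have h3 := Real.one_le_cosh lam
  linarith

theorem A_ef (lam : ℝ) (k : ℕ) (x : Z2) :
    A k (ef lam) x ≤ Real.exp (k * (lam ^ 2 / 2)) * ef lam x := by
  induction k generalizing x with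
  | zero => rw [A_zero]; simp
  | succ k ih =>
    rw [A_succ]
    calc (1 / 4) * ∑ e : E4, A k (ef lam) (x + stp e) ≤
        (1 / 4) * ∑ e : E4, Real.exp (k * (lam ^ 2 / 2)) * ef lam (x + stp e) := by
          apply mul_le_mul_of_nonneg_left _ (by norm_num)
          exact Finset.sum_le_sum fun e _ => ih _
      _ = Real.exp (k * (lam ^ 2 / 2)) * ((1 / 4) * ∑ e : E4, ef lam (x + stp e)) := by
          rw [← Finset.mul_sum]; ring
      _ ≤ Real.exp (k * (lam ^ 2 / 2)) * (Real.exp (lam ^ 2 / 2) * ef lam x) :=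
          mul_le_mul_of_nonneg_left (ef_step lam x) (Real.exp_pos _).le
      _ = _ := by
          rw [← mul_assoc, ← Real.exp_add]
          congr 2
          push_cast
          ring

variable {Ω : Type} [MeasurableSpace Ω] {P : Measure Ω} {h : Z2 → ℝ}

/-- product of the test functionals over the slabs -/
noncomputable def GGs (ℓ : ℕ) (g : Env → ℝ) : ℕ → Env → ℝ
  | 0, _ => 1
  | m + 1, v => g v * GGs ℓ g m (tsh ℓ v)

theorem measurable_GGs (ℓ : ℕ) {g : Env → ℝ} (hg : Measurable g) (m : ℕ) : Measurable (GGs ℓ g m) := by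
  induction m with
  | zero => exact measurable_const
  | succ m ih => exact hg.mul (ih.comp (measurable_tsh ℓ))

theorem GGs_bounds (ℓ : ℕ) {g : Env → ℝ} (hg : ∀ v, 0 < g v ∧ g v ≤ 1) (m : ℕ) (v : Env) :
    0 < GGs ℓ g m v ∧ GGs ℓ g m v ≤ 1 := by
  induction m generalizing v with
  | zero => exact ⟨zero_lt_one, le_rfl⟩
  | succ m ih =>
    refine ⟨mul_pos (hg v).1 (ih _).1, ?_⟩
    exact mul_le_one₀ (hg v).2 (ih _).1.le (ih _).2

theorem dep_GGs (ℓ : ℕ) {g : Env → ℝ} (hg : Dep {n | n ∈ Icc 1 ℓ} g) (m : ℕ) :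
    Dep {n | n ∈ Icc 1 (m * ℓ)} (GGs ℓ g m) := by
  induction m with
  | zero => intro v v' _; rfl
  | succ m ih =>
    intro v v' hv
    show g v * _ = g v' * _
    rw [hg v v' (fun n hn x => by
      apply hv
      have := Finset.mem_Icc.1 hn
      exact Finset.mem_Icc.2 ⟨this.1, by nlinarith⟩)]
    congr 1
    apply ih
    intro n hn x
    apply hv
    have := Finset.mem_Icc.1 hn
    refine Finset.mem_Icc.2 ⟨by omega, ?_⟩
    rw [show (m + 1) * ℓ = ℓ + m * ℓ by ring]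
    omega

theorem disj_slab (ℓ N : ℕ) :
    Disjoint {n : ℕ | n ∈ Icc 1 ℓ} {n : ℕ | ∃ k ∈ {n | n ∈ Icc 1 N}, n = ℓ + k} := by
  rw [Set.disjoint_left]
  rintro n hn ⟨k, hk, rfl⟩
  have h3 := Finset.mem_Icc.1 hn
  have h4 := Finset.mem_Icc.1 hk
  omega

/-- the inverse weights -/
theorem inv_GGs {ℓ : ℕ} {g : Env → ℝ} {q : ℝ} (hq : 0 ≤ q) (hgm : Measurable g)
    (hgd : Dep {n | n ∈ Icc 1 ℓ} g) (hgb : ∀ v, 0 < g v ∧ g v ≤ 1) {d : ℝ} (hd : 0 < d)
    (hgd' : ∀ v, d ≤ g v) [IsProbabilityMeasure P]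
    (h1 : ∀ ω : ℕ → Z2 → Ω → ℝ, GEnv P ω h → ∫ w, (g (En ω w))⁻¹ ∂P ≤ q) (m : ℕ) :
    ∀ ω : ℕ → Z2 → Ω → ℝ, GEnv P ω h → Integrable (fun w => (GGs ℓ g m (En ω w))⁻¹) P ∧
      ∫ w, (GGs ℓ g m (En ω w))⁻¹ ∂P ≤ q ^ m := by
  induction m with
  | zero =>
    intro ω _
    simp only [GGs, inv_one, pow_zero, integral_const, probReal_univ, one_smul]
    exact ⟨integrable_const _, le_rfl⟩
  | succ m ih =>
    intro ω gE
    obtain ⟨i2, l2⟩ := ih _ (gE.tshift ℓ)
    have hind := gE.indepf (disj_slab ℓ (m * ℓ)) (Φ1 := fun v => (g v)⁻¹)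
      (Φ2 := fun v => (GGs ℓ g m (tsh ℓ v))⁻¹) hgm.inv
      (((measurable_GGs ℓ hgm m).comp (measurable_tsh ℓ)).inv)
      (by
        intro v v' hv
        show (g v)⁻¹ = (g v')⁻¹
        rw [hgd v v' hv])
      (dep_tsh (Φ := fun v => (GGs ℓ g m v)⁻¹) (by
        intro v v' hv
        show (_)⁻¹ = (_)⁻¹
        rw [dep_GGs ℓ hgd m v v' hv]))
    have i1 : Integrable (fun w => (g (En ω w))⁻¹) P := by
      refine Integrable.mono' (integrable_const d⁻¹) (hgm.comp gE.measurable_En).inv.aestronglyMeasurable ?_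
      refine Filter.Eventually.of_forall fun w => ?_
      rw [Real.norm_eq_abs, abs_of_pos (inv_pos.2 (hgb _).1)]
      exact inv_anti₀ hd (hgd' _)
    have e : ∀ w, (GGs ℓ g (m + 1) (En ω w))⁻¹ = (g (En ω w))⁻¹ * (GGs ℓ g m (tsh ℓ (En ω w)))⁻¹ := by
      intro w
      show (g (En ω w) * GGs ℓ g m (tsh ℓ (En ω w)))⁻¹ = _
      rw [mul_inv]
    simp only [e]
    refine ⟨hind.integrable_mul i1 i2, ?_⟩
    rw [hind.integral_fun_mul_eq_mul_integral i1.aestronglyMeasurable i2.aestronglyMeasurable]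
    have k1 : 0 ≤ ∫ w, (g (En ω w))⁻¹ ∂P := integral_nonneg fun w => (inv_pos.2 (hgb _).1).le
    have k2 : ∫ w, (GGs ℓ g m (tsh ℓ (En ω w)))⁻¹ ∂P ≤ q ^ m := l2
    calc _ ≤ (∫ w, (g (En ω w))⁻¹ ∂P) * q ^ m := mul_le_mul_of_nonneg_left k2 k1
      _ ≤ q * q ^ m := mul_le_mul_of_nonneg_right (h1 ω gE) (by positivity)
      _ = _ := by rw [pow_succ]; ring

/-- the weighted partition function -/
theorem up_GGs (H : HH h) {β : ℝ} {ℓ : ℕ} {g : Env → ℝ} (hgm : Measurable g)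
    (hgd : Dep {n | n ∈ Icc 1 ℓ} g) (hgb : ∀ v, 0 < g v ∧ g v ≤ 1) [IsProbabilityMeasure P]
    {r R lam : ℝ} (hr : 0 ≤ r) (hlam : 0 ≤ lam)
    (h1 : ∀ ω : ℕ → Z2 → Ω → ℝ, GEnv P ω h → ∀ z : Z2, (∀ i, |(z i : ℝ)| ≤ R) →
      ES ℓ (fun s => ∫ w, g (En ω w) ∂(tl P β ℓ s ω)) z ≤ r) (m : ℕ) :
    ∀ ω : ℕ → Z2 → Ω → ℝ, GEnv P ω h → ∀ x : Z2,
      Integrable (fun w => Wf β (m * ℓ) x (En ω w) * GGs ℓ g m (En ω w)) P ∧
      ∫ w, Wf β (m * ℓ) x (En ω w) * GGs ℓ g m (En ω w) ∂P ≤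
        r ^ m + Real.exp (-(lam * R) + m * (ℓ * (lam ^ 2 / 2))) * ef lam x := by
  have hint : ∀ (m : ℕ) (ω : ℕ → Z2 → Ω → ℝ), GEnv P ω h → ∀ x : Z2,
      Integrable (fun w => Wf β (m * ℓ) x (En ω w) * GGs ℓ g m (En ω w)) P ∧
      ∫ w, Wf β (m * ℓ) x (En ω w) * GGs ℓ g m (En ω w) ∂P ≤ 1 := by
    intro m ω gE x
    obtain ⟨iW, eW⟩ := gE.W_one H.h0 β (m * ℓ) x
    have hi : Integrable (fun w => Wf β (m * ℓ) x (En ω w) * GGs ℓ g m (En ω w)) P := by
      refine Integrable.mono' iW (((measurable_Wf β _ x).comp gE.measurable_En).mul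
        ((measurable_GGs ℓ hgm m).comp gE.measurable_En)).aestronglyMeasurable ?_
      refine Filter.Eventually.of_forall fun w => ?_
      have k1 := Wf_pos β (m * ℓ) x (En ω w)
      have k2 := GGs_bounds ℓ hgb m (En ω w)
      rw [Real.norm_eq_abs, abs_of_nonneg (mul_nonneg k1.le k2.1.le)]
      exact mul_le_of_le_one_right k1.le k2.2
    refine ⟨hi, ?_⟩
    rw [← eW]
    apply integral_mono hi iW
    intro w
    exact mul_le_of_le_one_right (Wf_pos β (m * ℓ) x (En ω w)).le (GGs_bounds ℓ hgb m (En ω w)).2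
  induction m with
  | zero =>
    intro ω gE x
    obtain ⟨k1, k2⟩ := hint 0 ω gE x
    refine ⟨k1, k2.trans ?_⟩
    rw [pow_zero]
    have := ef_pos lam x
    have := Real.exp_pos (-(lam * R) + (0 : ℕ) * (ℓ * (lam ^ 2 / 2)))
    nlinarith [mul_nonneg (Real.exp_pos (-(lam * R) + (0 : ℕ) * (ℓ * (lam ^ 2 / 2)))).le (ef_pos lam x)]
  | succ m ih =>
    intro ω gE x
    obtain ⟨k1, k2⟩ := hint (m + 1) ω gE x
    refine ⟨k1, ?_⟩
    by_cases hx : ∀ i, |(x i : ℝ)| ≤ R
    · -- main case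
      set fm : Z2 → ℝ := fun y => Real.exp (-(lam * R) + m * (ℓ * (lam ^ 2 / 2))) * ef lam y with hfm
      have hfm0 : ∀ y, 0 ≤ fm y := fun y => mul_nonneg (Real.exp_pos _).le (ef_pos _ _)
      have gE' := gE.tshift ℓ
      have e1 : ∀ w, Wf β ((m + 1) * ℓ) x (En ω w) * GGs ℓ g (m + 1) (En ω w) =
          ES ℓ (fun s => (Real.exp (wtf β ℓ s (En ω w)) * g (En ω w)) *
            (Wf β (m * ℓ) (s ℓ) (tsh ℓ (En ω w)) * GGs ℓ g m (tsh ℓ (En ω w)))) x := by
        intro w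
        rw [show (m + 1) * ℓ = ℓ + m * ℓ by ring, Wf_add, ← ES_mul_right]
        apply ES_congr
        intro s _
        show _ * (g (En ω w) * GGs ℓ g m (tsh ℓ (En ω w))) = _
        ring
      have hind : ∀ s : ℕ → Z2, IndepFun (fun w => Real.exp (wtf β ℓ s (En ω w)) * g (En ω w))
          (fun w => Wf β (m * ℓ) (s ℓ) (tsh ℓ (En ω w)) * GGs ℓ g m (tsh ℓ (En ω w))) P := by
        intro s
        refine gE.indepf (disj_slab ℓ (m * ℓ)) (Φ1 := fun v => Real.exp (wtf β ℓ s v) * g v)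
          (Φ2 := fun v => Wf β (m * ℓ) (s ℓ) (tsh ℓ v) * GGs ℓ g m (tsh ℓ v))
          ((Real.measurable_exp.comp (measurable_wtf β ℓ s)).mul hgm)
          (((measurable_Wf β _ _).comp (measurable_tsh ℓ)).mul
            ((measurable_GGs ℓ hgm m).comp (measurable_tsh ℓ))) ?_ ?_
        · intro v v' hv
          show Real.exp _ * _ = Real.exp _ * _
          rw [dep_wtf β ℓ s v v' hv, hgd v v' hv]
        · exact dep_tsh (Φ := fun v => Wf β (m * ℓ) (s ℓ) v * GGs ℓ g m v) (by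
            intro v v' hv
            show _ * _ = _ * _
            rw [dep_Wf β (m * ℓ) (s ℓ) v v' hv, dep_GGs ℓ hgd m v v' hv])
      have i1 : ∀ s : ℕ → Z2, Integrable (fun w => Real.exp (wtf β ℓ s (En ω w)) * g (En ω w)) P := by
        intro s
        refine Integrable.mono' (gE.exp_wt H.h0 β ℓ s).1
          (((Real.measurable_exp.comp (measurable_wtf β ℓ s)).comp gE.measurable_En).mul
            (hgm.comp gE.measurable_En)).aestronglyMeasurable ?_
        refine Filter.Eventually.of_forall fun w => ?_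
        have j1 := Real.exp_pos (wtf β ℓ s (En ω w))
        have j2 := hgb (En ω w)
        rw [Real.norm_eq_abs, abs_of_nonneg (mul_nonneg j1.le j2.1.le)]
        exact mul_le_of_le_one_right j1.le j2.2
      have i2 : ∀ s : ℕ → Z2, Integrable (fun w => Wf β (m * ℓ) (s ℓ) (tsh ℓ (En ω w)) *
          GGs ℓ g m (tsh ℓ (En ω w))) P := fun s => (ih _ gE' (s ℓ)).1
      have l2 : ∀ s : ℕ → Z2, ∫ w, Wf β (m * ℓ) (s ℓ) (tsh ℓ (En ω w)) *
          GGs ℓ g m (tsh ℓ (En ω w)) ∂P ≤ r ^ m + fm (s ℓ) := fun s => (ih _ gE' (s ℓ)).2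
      have eγ : ∀ s : ℕ → Z2, ∫ w, Real.exp (wtf β ℓ s (En ω w)) * g (En ω w) ∂P =
          ∫ w, g (En ω w) ∂(tl P β ℓ s ω) := fun s =>
        (gE.integral_tl H.h0 β ℓ s (fun w => g (En ω w))).symm
      have hγ0 : ∀ s : ℕ → Z2, 0 ≤ ∫ w, g (En ω w) ∂(tl P β ℓ s ω) := fun s =>
        integral_nonneg fun w => (hgb _).1.le
      have hγ1 : ∀ s : ℕ → Z2, ∫ w, g (En ω w) ∂(tl P β ℓ s ω) ≤ 1 := by
        intro s
        rw [← eγ, ← (gE.exp_wt H.h0 β ℓ s).2]
        apply integral_mono (i1 s) (gE.exp_wt H.h0 β ℓ s).1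
        intro w
        exact mul_le_of_le_one_right (Real.exp_pos _).le (hgb _).2
      simp only [e1]
      have i12 : ∀ s : ℕ → Z2, Integrable (fun w => (Real.exp (wtf β ℓ s (En ω w)) * g (En ω w)) *
            (Wf β (m * ℓ) (s ℓ) (tsh ℓ (En ω w)) * GGs ℓ g m (tsh ℓ (En ω w)))) P := fun s =>
        (hind s).integrable_mul (i1 s) (i2 s)
      rw [integral_ES x i12]
      have h3 : ES ℓ (fun s => ∫ w, (Real.exp (wtf β ℓ s (En ω w)) * g (En ω w)) *
            (Wf β (m * ℓ) (s ℓ) (tsh ℓ (En ω w)) * GGs ℓ g m (tsh ℓ (En ω w))) ∂P) x ≤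
          ES ℓ (fun s => r ^ m * (∫ w, g (En ω w) ∂(tl P β ℓ s ω)) + fm (s ℓ)) x := by
        apply ES_mono
        intro s _
        rw [(hind s).integral_fun_mul_eq_mul_integral (i1 s).aestronglyMeasurable
          (i2 s).aestronglyMeasurable, eγ]
        calc _ ≤ (∫ w, g (En ω w) ∂(tl P β ℓ s ω)) * (r ^ m + fm (s ℓ)) :=
              mul_le_mul_of_nonneg_left (l2 s) (hγ0 s)
          _ = r ^ m * (∫ w, g (En ω w) ∂(tl P β ℓ s ω)) + (∫ w, g (En ω w) ∂(tl P β ℓ s ω)) * fm (s ℓ) := by ring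
          _ ≤ _ := by
              have := mul_le_mul_of_nonneg_right (hγ1 s) (hfm0 (s ℓ))
              linarith
      refine h3.trans ?_
      rw [ES_add, ES_mul_left]
      have h4 : r ^ m * ES ℓ (fun s => ∫ w, g (En ω w) ∂(tl P β ℓ s ω)) x ≤ r ^ (m + 1) := by
        rw [pow_succ]
        exact mul_le_mul_of_nonneg_left (h1 ω gE x hx) (by positivity)
      have h5 : ES ℓ (fun s => fm (s ℓ)) x ≤
          Real.exp (-(lam * R) + (m + 1 : ℕ) * (ℓ * (lam ^ 2 / 2))) * ef lam x := by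
        show A ℓ fm x ≤ _
        rw [hfm, A_mul_left]
        calc _ ≤ Real.exp (-(lam * R) + m * (ℓ * (lam ^ 2 / 2))) *
              (Real.exp (ℓ * (lam ^ 2 / 2)) * ef lam x) :=
              mul_le_mul_of_nonneg_left (A_ef lam ℓ x) (Real.exp_pos _).le
          _ = _ := by
              rw [← mul_assoc, ← Real.exp_add]
              congr 2
              push_cast
              ring
      exact add_le_add h4 h5
    · -- outside the box
      refine k2.trans ?_
      push Not at hx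
      obtain ⟨i, hi⟩ := hx
      have h3 : Real.exp (lam * R) ≤ ef lam x := by
        have h4 : Real.exp (lam * |(x i : ℝ)|) ≤ Real.exp (lam * x i) + Real.exp (-(lam * x i)) := by
          rcases abs_choice (x i : ℝ) with h5 | h5
          · rw [h5]; linarith [Real.exp_pos (-(lam * x i))]
          · rw [h5, mul_neg]; linarith [Real.exp_pos (lam * x i)]
        have h5 : Real.exp (lam * R) ≤ Real.exp (lam * |(x i : ℝ)|) :=
          Real.exp_le_exp.2 (mul_le_mul_of_nonneg_left hi.le hlam)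
        have h6 := Finset.single_le_sum (f := fun i : Fin 2 => Real.exp (lam * x i) + Real.exp (-(lam * x i)))
          (fun i _ => by positivity) (mem_univ i)
        exact (h5.trans h4).trans h6
      have h4 : 1 ≤ Real.exp (-(lam * R) + (m + 1 : ℕ) * (ℓ * (lam ^ 2 / 2))) * ef lam x := by
        calc (1 : ℝ) = Real.exp (-(lam * R)) * Real.exp (lam * R) := by
              rw [← Real.exp_add, neg_add_cancel, Real.exp_zero]
          _ ≤ Real.exp (-(lam * R) + (m + 1 : ℕ) * (ℓ * (lam ^ 2 / 2))) * ef lam x := by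
              apply mul_le_mul _ h3 (Real.exp_pos _).le (Real.exp_pos _).le
              apply Real.exp_le_exp.2
              have : 0 ≤ ((m + 1 : ℕ) : ℝ) * (ℓ * (lam ^ 2 / 2)) := by positivity
              linarith
      have h5 : 0 ≤ r ^ (m + 1) := by positivity
      linarith

end Pool.Agent.Helper97.CP
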