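import Pool.Agent.Helper97.CP2.GEnv

set_option autoImplicit false

open MeasureTheory ProbabilityTheory Filter Finset

namespace Pool.Agent.Helper97.CP

variable {Ω : Type*} [MeasurableSpace Ω] {P : Measure Ω} {ω : ℕ → Z2 → Ω → ℝ} {h : Z2 → ℝ}

/-- the Hamiltonian along the path `s`, normalised -/
noncomputable def wt (β : ℝ) (T : ℕ) (s : ℕ → Z2) (ω : ℕ → Z2 → Ω → ℝ) (w : Ω) : ℝ :=
  ∑ n ∈ Icc 1 T, (β * ω n (s n) w - β ^ 2 / 2)

/-- size-biased measure along the path `s` -/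
noncomputable def tl (P : Measure Ω) (β : ℝ) (T : ℕ) (s : ℕ → Z2) (ω : ℕ → Z2 → Ω → ℝ) : Measure Ω :=
  P.tilted (fun w => ∑ n ∈ Icc 1 T, β * ω n (s n) w)

theorem cv_self (h0 : h 0 = 1) (p : ℕ × Z2) : cv h p p = 1 := by
  unfold cv; rw [if_pos rfl, sub_self, h0]

theorem cv_symm (hs : ∀ z, h (-z) = h z) (p q : ℕ × Z2) : cv h p q = cv h q p := by
  unfold cv
  by_cases hnm : p.1 = q.1
  · rw [if_pos hnm, if_pos hnm.symm, ← hs, neg_sub]
  · rw [if_neg hnm, if_neg (fun h => hnm h.symm)]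

theorem path_cv (h0 : h 0 = 1) (β : ℝ) (T : ℕ) (s : ℕ → Z2) :
    ∑ i ∈ Icc 1 T, ∑ j ∈ Icc 1 T, β * β * cv h (i, s i) (j, s j) = T * β ^ 2 := by
  have h1 : ∀ i ∈ Icc 1 T, ∑ j ∈ Icc 1 T, β * β * cv h (i, s i) (j, s j) = β ^ 2 := by
    intro i hi
    rw [Finset.sum_eq_single_of_mem i hi]
    · rw [cv_self h0]; ring
    · intro j _ hj
      unfold cv
      rw [if_neg (fun h => hj h.symm), mul_zero]
  rw [Finset.sum_congr rfl h1, Finset.sum_const, Nat.card_Icc, nsmul_eq_mul]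
  simp

theorem GEnv.exp_path (g : GEnv P ω h) (h0 : h 0 = 1) (β : ℝ) (T : ℕ) (s : ℕ → Z2) :
    Integrable (fun w => Real.exp (∑ n ∈ Icc 1 T, β * ω n (s n) w)) P ∧
    ∫ w, Real.exp (∑ n ∈ Icc 1 T, β * ω n (s n) w) ∂P = Real.exp (T * β ^ 2 / 2) := by
  have := g.exp_lin (Icc 1 T) (fun _ => β) (fun n => (n, s n))
  rw [path_cv h0] at this
  exact this

theorem wt_eq (β : ℝ) (T : ℕ) (s : ℕ → Z2) (ω : ℕ → Z2 → Ω → ℝ) (w : Ω) :
    wt β T s ω w = ∑ n ∈ Icc 1 T, β * ω n (s n) w - T * β ^ 2 / 2 := by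
  unfold wt
  rw [Finset.sum_sub_distrib, Finset.sum_const, Nat.card_Icc, nsmul_eq_mul]
  simp
  ring

theorem GEnv.exp_wt (g : GEnv P ω h) (h0 : h 0 = 1) (β : ℝ) (T : ℕ) (s : ℕ → Z2) :
    Integrable (fun w => Real.exp (wt β T s ω w)) P ∧ ∫ w, Real.exp (wt β T s ω w) ∂P = 1 := by
  obtain ⟨h1, h2⟩ := g.exp_path h0 β T s
  have e : ∀ w, Real.exp (wt β T s ω w) =
      Real.exp (-(T * β ^ 2 / 2)) * Real.exp (∑ n ∈ Icc 1 T, β * ω n (s n) w) := by
    intro w
    rw [wt_eq, ← Real.exp_add]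
    congr 1
    ring
  simp only [e]
  refine ⟨h1.const_mul _, ?_⟩
  rw [integral_const_mul, h2, ← Real.exp_add]
  simp

theorem GEnv.integral_tl (g : GEnv P ω h) (h0 : h 0 = 1) (β : ℝ) (T : ℕ) (s : ℕ → Z2)
    (F : Ω → ℝ) : ∫ w, F w ∂(tl P β T s ω) = ∫ w, Real.exp (wt β T s ω w) * F w ∂P := by
  unfold tl
  rw [integral_tilted, (g.exp_path h0 β T s).2]
  congr 1
  funext w
  rw [smul_eq_mul, wt_eq, Real.exp_sub]

/-- the shift under the size-biased measure -/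
noncomputable def sh (h : Z2 → ℝ) (β : ℝ) (T : ℕ) (s : ℕ → Z2) (n : ℕ) (x : Z2) : ℝ :=
  if n ∈ Icc 1 T then β * h (x - s n) else 0

theorem sh_eq (hs : ∀ z, h (-z) = h z) (β : ℝ) (T : ℕ) (s : ℕ → Z2) (p : ℕ × Z2) :
    sh h β T s p.1 p.2 = ∑ n ∈ Icc 1 T, β * cv h (n, s n) p := by
  unfold sh
  split_ifs with hp
  · rw [Finset.sum_eq_single_of_mem p.1 hp]
    · unfold cv
      rw [if_pos rfl, ← hs, neg_sub]
    · intro j _ hj
      unfold cv
      rw [if_neg hj, mul_zero]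
  · symm
    apply Finset.sum_eq_zero
    intro j hj
    unfold cv
    rw [if_neg (fun h => hp (by rw [← h]; exact hj)), mul_zero]

/-- Cameron-Martin: under the size-biased measure the shifted field is again a Gaussian
environment -/
theorem GEnv.tilt (g : GEnv P ω h) (h0 : h 0 = 1) (h1 : ∀ z, |h z| ≤ 1) (hs : ∀ z, h (-z) = h z)
    (β : ℝ) (T : ℕ) (s : ℕ → Z2) :
    GEnv (tl P β T s ω) (fun n x w => ω n x w - sh h β T s n x) h := by
  have hP := g.prob
  have hpr : IsProbabilityMeasure (tl P β T s ω) :=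
    isProbabilityMeasure_tilted (g.exp_path h0 β T s).1
  apply GEnv.of_lin (fun n x => (g.meas n x).sub_const _) h0 h1 hs
  intro S a
  apply law_of_mgf
  · apply Finset.measurable_fun_sum
    intro i _
    exact ((g.meas _ _).sub_const _).const_mul _
  intro t
  have hv0 : 0 ≤ ∑ i ∈ S, ∑ j ∈ S, a i * a j * cv h i j := g.psd S a id
  rw [Real.coe_toNNReal _ hv0]
  unfold mgf tl
  rw [integral_exp_tilted, (g.exp_path h0 β T s).2]
  set p : ℕ ⊕ (ℕ × Z2) → ℕ × Z2 := Sum.elim (fun n => (n, s n)) id with hp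
  set c : ℕ ⊕ (ℕ × Z2) → ℝ := Sum.elim (fun _ => β) (fun i => t * a i) with hc
  have key := (g.exp_lin ((Icc 1 T).disjSum S) c p).2
  have e1 : ∀ w, ((fun w => ∑ n ∈ Icc 1 T, β * ω n (s n) w) +
      fun w => t * ∑ i ∈ S, a i * (ω i.1 i.2 w - sh h β T s i.1 i.2)) w =
      (∑ i ∈ (Icc 1 T).disjSum S, c i * ω (p i).1 (p i).2 w) - t * ∑ i ∈ S, a i * sh h β T s i.1 i.2 := by
    intro w
    rw [Finset.sum_disjSum]
    simp only [Pi.add_apply, hp, hc, Sum.elim_inl, Sum.elim_inr, id]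
    rw [Finset.mul_sum, Finset.mul_sum, add_sub_assoc, ← Finset.sum_sub_distrib]
    congr 1
    apply Finset.sum_congr rfl
    intro i _
    ring
  have e2 : ∑ i ∈ (Icc 1 T).disjSum S, ∑ j ∈ (Icc 1 T).disjSum S, c i * c j * cv h (p i) (p j) =
      T * β ^ 2 + 2 * (t * ∑ i ∈ S, a i * sh h β T s i.1 i.2) +
        t ^ 2 * ∑ i ∈ S, ∑ j ∈ S, a i * a j * cv h i j := by
    have f1 : ∑ i ∈ S, a i * sh h β T s i.1 i.2 =
        ∑ n ∈ Icc 1 T, ∑ i ∈ S, β * a i * cv h (n, s n) i := by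
      rw [Finset.sum_comm]
      apply Finset.sum_congr rfl
      intro i _
      rw [sh_eq hs, Finset.mul_sum]
      apply Finset.sum_congr rfl
      intro n _
      ring
    simp only [Finset.sum_disjSum, hp, hc, Sum.elim_inl, Sum.elim_inr, id]
    rw [Finset.sum_add_distrib, Finset.sum_add_distrib, path_cv h0]
    have f2 : ∑ n ∈ Icc 1 T, ∑ i ∈ S, β * (t * a i) * cv h (n, s n) i =
        t * ∑ i ∈ S, a i * sh h β T s i.1 i.2 := by
      rw [f1, Finset.mul_sum]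
      apply Finset.sum_congr rfl
      intro n _
      rw [Finset.mul_sum]
      apply Finset.sum_congr rfl
      intro i _
      ring
    have f3 : ∑ i ∈ S, ∑ n ∈ Icc 1 T, t * a i * β * cv h i (n, s n) =
        t * ∑ i ∈ S, a i * sh h β T s i.1 i.2 := by
      rw [← f2, Finset.sum_comm]
      apply Finset.sum_congr rfl
      intro n _
      apply Finset.sum_congr rfl
      intro i _
      rw [cv_symm hs]
      ring
    have f4 : ∑ i ∈ S, ∑ j ∈ S, t * a i * (t * a j) * cv h i j =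
        t ^ 2 * ∑ i ∈ S, ∑ j ∈ S, a i * a j * cv h i j := by
      rw [Finset.mul_sum]
      apply Finset.sum_congr rfl
      intro i _
      rw [Finset.mul_sum]
      apply Finset.sum_congr rfl
      intro j _
      ring
    rw [f2, f3, f4]
    ring
  have e3 : ∀ w, Real.exp (((fun w => ∑ n ∈ Icc 1 T, β * ω n (s n) w) +
      fun w => t * ∑ i ∈ S, a i * (ω i.1 i.2 w - sh h β T s i.1 i.2)) w) =
      Real.exp (-(t * ∑ i ∈ S, a i * sh h β T s i.1 i.2)) *
        Real.exp (∑ i ∈ (Icc 1 T).disjSum S, c i * ω (p i).1 (p i).2 w) := by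
    intro w
    rw [e1, ← Real.exp_add]
    congr 1
    ring
  rw [integral_congr_ae (Filter.Eventually.of_forall e3), integral_const_mul, key, e2,
    ← Real.exp_add, ← Real.exp_sub]
  congr 1
  ring

end Pool.Agent.Helper97.CP
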